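import Pool.Agent.Lib_helper27.RT.Four

/-!
# Four generators: the kernel in terms of determinants
-/

namespace Pool.Agent.LibH27.RT

open MvPolynomial

section det

variable {S : Type*} [CommRing S]

/-- the determinant -/
def det3 (M : Fin 3 → Fin 3 → S) : S :=
  M 0 0 * (M 1 1 * M 2 2 - M 1 2 * M 2 1) - M 0 1 * (M 1 0 * M 2 2 - M 1 2 * M 2 0) +
    M 0 2 * (M 1 0 * M 2 1 - M 1 1 * M 2 0)

/-- the cofactors -/
def cof (M : Fin 3 → Fin 3 → S) (i j : Fin 3) : S :=
  M (i + 1) (j + 1) * M (i + 2) (j + 2) - M (i + 1) (j + 2) * M (i + 2) (j + 1)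

theorem det3_eq (M : Fin 3 → Fin 3 → S) (i : Fin 3) :
    det3 M = M i 0 * cof M i 0 + M i 1 * cof M i 1 + M i 2 * cof M i 2 := by
  unfold det3 cof
  fin_cases i <;> simp only [Fin.zero_eta, Fin.mk_one, Fin.reduceFinMk, zero_add,
    show (1 : Fin 3) + 1 = 2 from rfl, show (1 : Fin 3) + 2 = 0 from rfl,
    show (2 : Fin 3) + 1 = 0 from rfl, show (2 : Fin 3) + 2 = 1 from rfl] <;> ring

theorem cof_mul (M : Fin 3 → Fin 3 → S) (y : Fin 3 → S) (i : Fin 3) :
    cof M i 0 * (y 0 * M 0 0 + y 1 * M 1 0 + y 2 * M 2 0) +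
    cof M i 1 * (y 0 * M 0 1 + y 1 * M 1 1 + y 2 * M 2 1) +
    cof M i 2 * (y 0 * M 0 2 + y 1 * M 1 2 + y 2 * M 2 2) = y i * det3 M := by
  unfold det3 cof
  fin_cases i <;> simp only [Fin.zero_eta, Fin.mk_one, Fin.reduceFinMk, zero_add,
    show (1 : Fin 3) + 1 = 2 from rfl, show (1 : Fin 3) + 2 = 0 from rfl,
    show (2 : Fin 3) + 1 = 0 from rfl, show (2 : Fin 3) + 2 = 1 from rfl] <;> ring

/-- relations between the residues of the coefficients of a socle element -/
theorem rel_cof {B : Type*} [CommRing B] {y g : Fin 3 → S} (hg : KReg g) (M : Fin 3 → Fin 3 → S)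
    (hM : ∀ j, g j = y 0 * M 0 j + y 1 * M 1 j + y 2 * M 2 j) (ε : S →+* B)
    (hy : ∀ i, ε (y i) = 0) (w : S) (c : Fin 3 → S)
    (hc : ∀ i, ∃ l : Fin 3 → S, y i * w = c i * det3 M + (l 0 * g 0 + l 1 * g 1 + l 2 * g 2))
    (i k j : Fin 3) : ε (c i) * ε (cof M k j) = ε (c k) * ε (cof M i j) := by
  have hε : ∀ j, ε (g j) = 0 := by
    intro j
    rw [hM j]
    simp [hy]
  obtain ⟨l, hl⟩ := hc i
  obtain ⟨l', hl'⟩ := hc k
  have h1 := cof_mul M y i
  have h2 := cof_mul M y k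
  simp only [← hM] at h1 h2
  obtain ⟨v, v0, v1, v2⟩ := hg.e2 (fun j => c i * cof M k j - c k * cof M i j + y k * l j -
    y i * l' j) (by
      linear_combination c i * h2 - c k * h1 - y k * hl + y i * hl')
  have key : ε (c i * cof M k j - c k * cof M i j + y k * l j - y i * l' j) = 0 := by
    fin_cases j
    · simp only [Fin.zero_eta]
      rw [v0]; simp [hε]
    · simp only [Fin.mk_one]
      rw [v1]; simp [hε]
    · simp only [Fin.reduceFinMk]
      rw [v2]; simp [hε]
  simp only [map_sub, map_add, map_mul, hy, zero_mul, add_zero, sub_zero] at key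
  linear_combination key

end det

variable {k : Type*} [Field k]

namespace HB

variable {Z : Finset (Fin 3 → k)}

theorem ev0_G {m : ℕ} (P : HB Z m) (j : Fin m) : ev0 (m + 1) (P.G j) = 0 := by
  unfold ev0 G form
  rw [map_sum]
  apply Finset.sum_eq_zero
  intro i _
  rw [map_mul, map_C, P.const, map_zero, zero_mul]

theorem ev0_C_y (b : Bas k) (n : ℕ) (i : Fin 3) : ev0 n (C (b.y i)) = 0 := by
  unfold ev0
  rw [map_C]
  have : constantCoeff (b.y i) = 0 := by
    apply (b.y_homog i).coeff_eq_zero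
    simp
  rw [this, map_zero]

variable (P : HB Z 3)

theorem mem_synL_iff (x : MvPolynomial (Fin 4) (MvPolynomial (Fin 3) k)) :
    x ∈ synL P.f ↔ ∃ l : Fin 3 → MvPolynomial (Fin 4) (MvPolynomial (Fin 3) k),
      x = l 0 * P.G 0 + l 1 * P.G 1 + l 2 * P.G 2 := by
  rw [P.synL_eq, Ideal.mem_span_range_iff_exists_fun]
  constructor
  · rintro ⟨c, hc⟩
    exact ⟨c, by rw [← hc, Fin.sum_univ_three]⟩
  · rintro ⟨c, hc⟩
    exact ⟨c, by rw [hc, Fin.sum_univ_three]⟩

theorem ev0_synL {x : MvPolynomial (Fin 4) (MvPolynomial (Fin 3) k)} (hx : x ∈ synL P.f) :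
    ev0 4 x = 0 := by
  obtain ⟨l, rfl⟩ := (P.mem_synL_iff x).1 hx
  have h : ∀ j, ev0 4 (P.G j) = 0 := P.ev0_G
  simp [h]

theorem C_y_not_mem (b : Bas k) (i : Fin 3) : C (b.y i) ∉ reesKer P.f := by
  rw [mem_reesKer_homog _ (isHomogeneous_C _ _), aeval_C]
  exact (b.y_prime i).ne_zero

/-- Northcott's theorem in the form needed -/
theorem colon_mem (hZ : Good Z) (b : Bas k)
    (M : Fin 3 → Fin 3 → MvPolynomial (Fin 4) (MvPolynomial (Fin 3) k))
    (hM : ∀ j, P.G j = C (b.y 0) * M 0 j + C (b.y 1) * M 1 j + C (b.y 2) * M 2 j)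
    (w : MvPolynomial (Fin 4) (MvPolynomial (Fin 3) k))
    (hw : ∀ i, C (b.y i) * w ∈ synL P.f) : w ∈ synL P.f ⊔ Ideal.span {det3 M} := by
  obtain ⟨c, h, hch⟩ := northcott (b.kreg 4 1) (P.kreg hZ) M (by
    intro j
    rw [hM j]
    simp) w (by
    intro i
    obtain ⟨l, hl⟩ := (P.mem_synL_iff _).1 (hw i)
    refine ⟨l, ?_⟩
    rw [← hl]
    fin_cases i <;> simp)
  rw [hch]
  apply Ideal.add_mem
  · apply Ideal.mem_sup_left
    exact (P.mem_synL_iff _).2 ⟨c, rfl⟩
  · apply Ideal.mem_sup_right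
    apply Ideal.mul_mem_left
    exact Ideal.subset_span rfl

section lemmaA

variable (b : Bas k) (e : ℕ)
  (M : Fin 3 → Fin 3 → MvPolynomial (Fin 4) (MvPolynomial (Fin 3) k))
  (hM : ∀ j, P.G j = C (b.y 0) * M 0 j + C (b.y 1) * M 1 j + C (b.y 2) ^ (e + 1) * M 2 j)

include hM

theorem y_mul_det : C (b.y 0) * det3 M ∈ synL P.f ∧ C (b.y 1) * det3 M ∈ synL P.f ∧
    C (b.y 2) ^ (e + 1) * det3 M ∈ synL P.f := by
  have h := fun i => cof_mul M ![C (b.y 0), C (b.y 1), C (b.y 2) ^ (e + 1)] i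
  simp only [Matrix.cons_val_zero, Matrix.cons_val_one, Matrix.cons_val, ← hM] at h
  refine ⟨?_, ?_, ?_⟩
  · rw [P.mem_synL_iff]
    exact ⟨cof M 0, (h 0).symm⟩
  · rw [P.mem_synL_iff]
    exact ⟨cof M 1, (h 1).symm⟩
  · rw [P.mem_synL_iff]
    exact ⟨cof M 2, (h 2).symm⟩

theorem det_mem_reesKer : det3 M ∈ reesKer P.f := by
  have h := synL_le_reesKer _ (P.y_mul_det b e M hM).1
  exact ((reesKer_isPrime P.f).mem_or_mem h).resolve_left (P.C_y_not_mem b 0)

omit hM in
theorem nzd (hD : ev0 4 (det3 M) ≠ 0) (t : ℕ) :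
    ∀ a u : MvPolynomial (Fin 4) (MvPolynomial (Fin 3) k),
    a * det3 M - C (b.y 2) ^ t * u ∈ Ideal.span {C (b.y 0), C (b.y 1)} →
    ∃ a', a - C (b.y 2) ^ t * a' ∈ Ideal.span {C (b.y 0), C (b.y 1)} := by
  have h1 : (Ideal.span {C (b.y 0), C (b.y 1)} :
      Ideal (MvPolynomial (Fin 4) (MvPolynomial (Fin 3) k))) =
      (reesKer (b.w 2)).map C := by
    rw [b.ker_two, Ideal.map_span, Set.image_pair]
  have hp : (Ideal.span {C (b.y 0), C (b.y 1)} :
      Ideal (MvPolynomial (Fin 4) (MvPolynomial (Fin 3) k))).IsPrime := by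
    rw [h1]; exact isPrime_map_C (reesKer_isPrime _)
  have h2 : (C (b.y 2) : MvPolynomial (Fin 4) (MvPolynomial (Fin 3) k)) ∉
      Ideal.span {C (b.y 0), C (b.y 1)} := by
    rw [h1, mem_map_C_iff]
    intro h
    have := h 0
    rw [coeff_zero_C] at this
    exact b.y_not_mem_ker 2 this
  have hev : ∀ x ∈ (Ideal.span {C (b.y 0), C (b.y 1)} :
      Ideal (MvPolynomial (Fin 4) (MvPolynomial (Fin 3) k))), ev0 4 x = 0 := by
    intro x hx
    rw [Ideal.mem_span_pair] at hx
    obtain ⟨s, t, rfl⟩ := hx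
    rw [map_add, map_mul, map_mul, ev0_C_y, ev0_C_y]; ring
  induction t with
  | zero =>
    intro a u _
    refine ⟨a, ?_⟩
    rw [pow_zero, one_mul, sub_self]
    exact Ideal.zero_mem _
  | succ t ih =>
    intro a u h
    obtain ⟨a', ha'⟩ := ih a (C (b.y 2) * u) (by
      rw [← mul_assoc, ← pow_succ]; exact h)
    have h3 : C (b.y 2) ^ t * (a' * det3 M - C (b.y 2) * u) ∈ Ideal.span {C (b.y 0), C (b.y 1)} := by
      have h4 := Ideal.sub_mem _ h (Ideal.mul_mem_right (det3 M) _ ha')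
      convert h4 using 1
      ring
    have h5 : a' * det3 M - C (b.y 2) * u ∈ Ideal.span {C (b.y 0), C (b.y 1)} :=
      (hp.mem_or_mem h3).resolve_left (fun h => h2 (hp.mem_of_pow_mem _ h))
    have h6 := hev _ h5
    rw [map_sub, map_mul, map_mul, ev0_C_y, zero_mul, sub_zero] at h6
    obtain ⟨x, hx⟩ := b.exists_of_ev0 ((mul_eq_zero.1 h6).resolve_right hD)
    refine ⟨x 2, ?_⟩
    have h7 : C (b.y 2) ^ t * (C (b.y 0) * x 0 + C (b.y 1) * x 1) ∈
        Ideal.span {C (b.y 0), C (b.y 1)} := by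
      apply Ideal.mul_mem_left
      rw [Ideal.mem_span_pair]
      exact ⟨x 0, x 1, by ring⟩
    have h8 := Ideal.add_mem _ ha' h7
    convert h8 using 1
    rw [hx]
    ring

theorem absorbA (hZ : Good Z) (hD : ev0 4 (det3 M) ≠ 0)
    (w : MvPolynomial (Fin 4) (MvPolynomial (Fin 3) k))
    (hw : ∀ i, C (b.y i) * w ∈ synL P.f ⊔ Ideal.span {det3 M}) :
    w ∈ synL P.f ⊔ Ideal.span {det3 M} := by
  obtain ⟨hs0, hs1, hs2⟩ := P.y_mul_det b e M hM
  set s := det3 M with hs
  have hsmem : ∀ x, ev0 4 x = 0 → ∃ a, x * s - C (b.y 2) * a * s ∈ synL P.f := by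
    intro x hx
    obtain ⟨a, ha⟩ := b.exists_of_ev0 hx
    refine ⟨a 2, ?_⟩
    have := Ideal.add_mem _ (Ideal.mul_mem_left _ (a 0) hs0) (Ideal.mul_mem_left _ (a 1) hs1)
    convert this using 1
    rw [ha]; ring
  have step1 : ∀ i, ∃ a, C (b.y i) * w - C (b.y 2) * a * s ∈ synL P.f := by
    intro i
    obtain ⟨l, hl, x, hx, hlx⟩ := Submodule.mem_sup.1 (hw i)
    rw [Ideal.mem_span_singleton'] at hx
    obtain ⟨c, rfl⟩ := hx
    have h1 := congrArg (ev0 4) hlx
    rw [map_add, map_mul, map_mul, P.ev0_synL hl, ev0_C_y, zero_add, zero_mul] at h1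
    obtain ⟨a, ha⟩ := hsmem c ((mul_eq_zero.1 h1).resolve_right hD)
    refine ⟨a, ?_⟩
    rw [← hlx]
    have := Ideal.add_mem _ hl ha
    convert this using 1
    ring
  choose a ha using step1
  set w' := w - a 2 * s with hw'
  have hw2 : C (b.y 2) * w' ∈ synL P.f := by
    have := ha 2
    rw [hw']
    convert this using 1
    ring
  have hwi : ∀ i, i ≠ 2 → C (b.y i) * w' - C (b.y 2) * a i * s ∈ synL P.f := by
    intro i hi
    have h1 : C (b.y i) * s ∈ synL P.f := by
      fin_cases i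
      · exact hs0
      · exact hs1
      · exact absurd rfl hi
    have := Ideal.sub_mem _ (ha i) (Ideal.mul_mem_left _ (a 2) h1)
    rw [hw']
    convert this using 1
    ring
  -- coefficients are divisible by a high power of `y₂`
  have step2 : ∀ i, i ≠ 2 → ∃ c, C (b.y i) * w' - c * (C (b.y 2) ^ e * s) ∈ synL P.f := by
    intro i hi
    rcases e with _ | e
    · refine ⟨0, ?_⟩
      have h1 := Ideal.mul_mem_left _ (a i) hs2
      have := Ideal.add_mem _ (hwi i hi) h1
      convert this using 1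
      ring
    · rcases e with _ | e
      · refine ⟨a i, ?_⟩
        have := hwi i hi
        convert this using 1
        ring
      · have h1 : C (b.y 2) ^ 2 * a i * s ∈ synL P.f := by
          have h2 := Ideal.mul_mem_left _ (C (b.y i)) hw2
          have h3 := Ideal.mul_mem_left _ (C (b.y 2)) (hwi i hi)
          have := Ideal.sub_mem _ h2 h3
          convert this using 1
          ring
        have h1' : ∃ u, C (b.y 2) ^ 2 * a i * s - C (b.y 2) ^ (e + 3) * u ∈
            Ideal.span {C (b.y 0), C (b.y 1)} := by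
          obtain ⟨l, hl⟩ := (P.mem_synL_iff _).1 h1
          refine ⟨l 0 * M 2 0 + l 1 * M 2 1 + l 2 * M 2 2, ?_⟩
          rw [hl, hM 0, hM 1, hM 2, Ideal.mem_span_pair]
          exact ⟨l 0 * M 0 0 + l 1 * M 0 1 + l 2 * M 0 2, l 0 * M 1 0 + l 1 * M 1 1 + l 2 * M 1 2,
            by ring⟩
        obtain ⟨u, hu⟩ := h1'
        have hmap : (Ideal.span {C (b.y 0), C (b.y 1)} :
            Ideal (MvPolynomial (Fin 4) (MvPolynomial (Fin 3) k))) =
            (reesKer (b.w 2)).map C := by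
          rw [b.ker_two, Ideal.map_span, Set.image_pair]
        have hp : (Ideal.span {C (b.y 0), C (b.y 1)} :
            Ideal (MvPolynomial (Fin 4) (MvPolynomial (Fin 3) k))).IsPrime := by
          rw [hmap]; exact isPrime_map_C (reesKer_isPrime _)
        have h2 : (C (b.y 2) : MvPolynomial (Fin 4) (MvPolynomial (Fin 3) k)) ∉
            Ideal.span {C (b.y 0), C (b.y 1)} := by
          rw [hmap, mem_map_C_iff]
          intro h
          have := h 0
          rw [coeff_zero_C] at this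
          exact b.y_not_mem_ker 2 this
        have h3 : C (b.y 2) ^ 2 * (a i * s - C (b.y 2) ^ (e + 1) * u) ∈
            Ideal.span {C (b.y 0), C (b.y 1)} := by
          convert hu using 1
          ring
        have h4 := (hp.mem_or_mem h3).resolve_left (fun h => h2 (hp.mem_of_pow_mem _ h))
        obtain ⟨a', ha'⟩ := nzd b M hD (e + 1) (a i) u h4
        rw [Ideal.mem_span_pair] at ha'
        obtain ⟨x, y, hxy⟩ := ha'
        refine ⟨a', ?_⟩
        have h5 := Ideal.add_mem _ (Ideal.mul_mem_left _ (C (b.y 2) * x) hs0)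
          (Ideal.mul_mem_left _ (C (b.y 2) * y) hs1)
        have h6 := Ideal.add_mem _ (hwi i hi) h5
        convert h6 using 1
        linear_combination -(C (b.y 2) * s) * hxy
  -- the socle computation
  let M' : Fin 3 → Fin 3 → MvPolynomial (Fin 4) (MvPolynomial (Fin 3) k) :=
    ![M 0, M 1, fun j => C (b.y 2) ^ e * M 2 j]
  have hM' : ∀ j, P.G j = C (b.y 0) * M' 0 j + C (b.y 1) * M' 1 j + C (b.y 2) * M' 2 j := by
    intro j
    rw [hM j]
    simp only [M', Matrix.cons_val_zero, Matrix.cons_val_one, Matrix.cons_val]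
    ring
  have hdet : det3 M' = C (b.y 2) ^ e * s := by
    rw [hs]
    simp only [M', det3, Matrix.cons_val_zero, Matrix.cons_val_one, Matrix.cons_val]
    ring
  have hcof : ∀ j, cof M' 2 j = cof M 2 j := by
    intro j
    simp only [cof, show (2 : Fin 3) + 1 = 0 from rfl, show (2 : Fin 3) + 2 = 1 from rfl, M',
      Matrix.cons_val_zero, Matrix.cons_val_one]
  obtain ⟨c0, hc0⟩ := step2 0 (by decide)
  obtain ⟨c1, hc1⟩ := step2 1 (by decide)
  have hrel := rel_cof (P.kreg hZ) M' (y := fun i => C (b.y i)) hM' (ev0 4) (fun i => ev0_C_y b 4 i)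
    w' ![c0, c1, 0] (by
      intro i
      rw [hdet]
      have h1 : C (b.y i) * w' - (![c0, c1, 0] : Fin 3 → _) i * (C (b.y 2) ^ e * s) ∈ synL P.f := by
        fin_cases i
        · exact hc0
        · exact hc1
        · simpa using hw2
      obtain ⟨l, hl⟩ := (P.mem_synL_iff _).1 h1
      exact ⟨l, by rw [← hl]; ring⟩)
  obtain ⟨j, hj⟩ : ∃ j, ev0 4 (cof M 2 j) ≠ 0 := by
    by_contra hcon
    push Not at hcon
    apply hD
    rw [hs, det3_eq M 2]
    simp [hcon]
  have hev : ∀ i, ev0 4 ((![c0, c1, 0] : Fin 3 → MvPolynomial (Fin 4) (MvPolynomial (Fin 3) k)) i)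
      = 0 := by
    intro i
    have h1 := hrel i 2 j
    rw [hcof] at h1
    have h2 : ev0 4 ((![c0, c1, 0] : Fin 3 → MvPolynomial (Fin 4) (MvPolynomial (Fin 3) k)) 2)
        = 0 := by simp
    rw [h2, zero_mul] at h1
    exact (mul_eq_zero.1 h1).resolve_right hj
  have hall : ∀ i, C (b.y i) * w' ∈ synL P.f := by
    have h1 : ∀ c, ev0 4 c = 0 → c * (C (b.y 2) ^ e * s) ∈ synL P.f := by
      intro c hc
      obtain ⟨x, hx⟩ := b.exists_of_ev0 hc
      have h2 := Ideal.add_mem _ (Ideal.add_mem _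
        (Ideal.mul_mem_left _ (C (b.y 2) ^ e * x 0) hs0)
        (Ideal.mul_mem_left _ (C (b.y 2) ^ e * x 1) hs1)) (Ideal.mul_mem_left _ (x 2) hs2)
      convert h2 using 1
      rw [hx]; ring
    intro i
    fin_cases i
    · have := Ideal.add_mem _ hc0 (h1 c0 (hev 0))
      simpa using this
    · have := Ideal.add_mem _ hc1 (h1 c1 (hev 1))
      simpa using this
    · exact hw2
  have hfin := P.colon_mem hZ b M' hM' w' hall
  rw [hdet] at hfin
  have hle : synL P.f ⊔ Ideal.span {C (b.y 2) ^ e * s} ≤ synL P.f ⊔ Ideal.span {s} := by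
    apply sup_le_sup_left
    rw [Ideal.span_singleton_le_span_singleton]
    exact dvd_mul_left _ _
  have h1 : w' ∈ synL P.f ⊔ Ideal.span {s} := hle hfin
  have h2 : a 2 * s ∈ synL P.f ⊔ Ideal.span {s} :=
    Ideal.mem_sup_right (Ideal.mul_mem_left _ _ (Ideal.subset_span rfl))
  have := Ideal.add_mem _ h1 h2
  rwa [hw', sub_add_cancel] at this

/-- **Lemma A**: relation type three. -/
theorem genDeg_three (hZ : Good Z) (hMh : ∀ i j, (M i j).IsHomogeneous 1)
    (hD : ev0 4 (det3 M) ≠ 0) : GenDeg P.f 3 ∧ ¬ GenDeg P.f 2 := by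
  have hdh : (det3 M).IsHomogeneous 3 := by
    unfold det3
    have key : ∀ a b c d e f : Fin 3, (M a b * (M c d * M e f)).IsHomogeneous 3 := fun a b c d e f =>
      (hMh a b).mul ((hMh c d).mul (hMh e f))
    simp only [mul_sub]
    exact (((key _ _ _ _ _ _).sub (key _ _ _ _ _ _)).sub
      ((key _ _ _ _ _ _).sub (key _ _ _ _ _ _))).add ((key _ _ _ _ _ _).sub (key _ _ _ _ _ _))
  have hall := P.absorb_le hZ b (synL P.f ⊔ Ideal.span {det3 M}) le_sup_left
    (P.absorbA b e M hM hZ hD)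
  constructor
  · apply genDeg_of (J := synL P.f ⊔ Ideal.span {det3 M}) _ hall
    rw [sup_le_iff]
    constructor
    · unfold synL
      rw [Ideal.span_le]
      rintro _ ⟨φ, hφ, rfl⟩
      exact Ideal.subset_span ⟨form_mem_reesKer.2 hφ, 1, by norm_num, form_homog _⟩
    · rw [Ideal.span_singleton_le_iff_mem]
      exact Ideal.subset_span ⟨P.det_mem_reesKer b e M hM, 3, le_rfl, hdh⟩
  · refine not_genDeg ?_ (det3 M) (P.det_mem_reesKer b e M hM) hD
    intro d hd q hq hq0
    obtain ⟨l, hl, x, hx, hlx⟩ := Submodule.mem_sup.1 (hall d q hq hq0)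
    rw [Ideal.mem_span_singleton'] at hx
    obtain ⟨c, rfl⟩ := hx
    have h1 := congrArg (ev0 4) hlx
    rw [map_add, P.ev0_synL hl, zero_add, map_mul] at h1
    by_contra hne
    have h2 : (ev0 4 q).IsHomogeneous d := hq.map _
    have h3 : (ev0 4 (det3 M)).IsHomogeneous 3 := hdh.map _
    have h4 : ev0 4 c ≠ 0 := by
      intro h
      rw [h, zero_mul] at h1
      exact hne h1.symm
    have h5 := h2.totalDegree hne
    rw [← h1, totalDegree_mul_of_isDomain h4 hD, h3.totalDegree hD] at h5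
    omega

end lemmaA

end HB

end Pool.Agent.LibH27.RT
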