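import Pool.Agent.Lib_helper27.RT.AbsorbA

/-!
# Four generators: relation type five
-/

namespace Pool.Agent.LibH27.RT

open MvPolynomial

variable {k : Type*} [Field k]

namespace HB

variable {Z : Finset (Fin 3 → k)} (P : HB Z 3)

theorem genDeg_five (b : Bas k)
    (M : Fin 3 → Fin 3 → MvPolynomial (Fin 4) (MvPolynomial (Fin 3) k))
    (hM : ∀ j, P.G j = C (b.y 0) * M 0 j + C (b.y 1) * M 1 j + C (b.y 2) * M 2 j)
    (hZ : Good Z) (hMh : ∀ i j, (M i j).IsHomogeneous 1)
    (c : Fin 3) (w : Fin 3 → MvPolynomial (Fin 4) k) (hw : ∀ i, ev0 4 (cof M i c) = w i)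
    (hcop : ∀ a : Fin 3 → MvPolynomial (Fin 4) k, (∀ i j, a i * w j = a j * w i) →
      ∃ β, ∀ i, a i = β * w i)
    (hD : ev0 4 (det3 M) = 0)
    (F : MvPolynomial (Fin 4) (MvPolynomial (Fin 3) k)) (hF : F.IsHomogeneous 5)
    (hF0 : ev0 4 F ≠ 0)
    (hFy : ∀ i, ∃ u, ev0 4 u = w i ∧ C (b.y i) * F - u * det3 M ∈ synL P.f) :
    GenDeg P.f 5 ∧ ¬ GenDeg P.f 4 := by
  have hdh : (det3 M).IsHomogeneous 3 := by
    unfold det3
    have key : ∀ a b c d e f : Fin 3, (M a b * (M c d * M e f)).IsHomogeneous 3 := fun a b c d e f =>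
      (hMh a b).mul ((hMh c d).mul (hMh e f))
    simp only [mul_sub]
    exact (((key _ _ _ _ _ _).sub (key _ _ _ _ _ _)).sub
      ((key _ _ _ _ _ _).sub (key _ _ _ _ _ _))).add ((key _ _ _ _ _ _).sub (key _ _ _ _ _ _))
  have hM' : ∀ j, P.G j = C (b.y 0) * M 0 j + C (b.y 1) * M 1 j + C (b.y 2) ^ (0 + 1) * M 2 j := by
    intro j
    rw [hM j]; ring
  obtain ⟨hs0, hs1, hs2⟩ := P.y_mul_det b 0 M hM'
  rw [zero_add, pow_one] at hs2
  have hdet := P.det_mem_reesKer b 0 M hM'
  set s := det3 M with hs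
  have hsmem : ∀ x, ev0 4 x = 0 → x * s ∈ synL P.f := by
    intro x hx
    obtain ⟨a, ha⟩ := b.exists_of_ev0 hx
    have := Ideal.add_mem _ (Ideal.add_mem _ (Ideal.mul_mem_left _ (a 0) hs0)
      (Ideal.mul_mem_left _ (a 1) hs1)) (Ideal.mul_mem_left _ (a 2) hs2)
    convert this using 1
    rw [ha]; ring
  choose u hu hu' using hFy
  have hFm : F ∈ reesKer P.f := by
    have h1 := Ideal.add_mem _ (synL_le_reesKer _ (hu' 0)) (Ideal.mul_mem_left _ (u 0) hdet)
    rw [sub_add_cancel] at h1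
    exact ((reesKer_isPrime P.f).mem_or_mem h1).resolve_left (P.C_y_not_mem b 0)
  have habs : ∀ x, (∀ i, C (b.y i) * x ∈ synL P.f ⊔ Ideal.span {s} ⊔ Ideal.span {F}) →
      x ∈ synL P.f ⊔ Ideal.span {s} ⊔ Ideal.span {F} := by
    intro x hx
    -- coefficients
    have step1 : ∀ i, ∃ a, C (b.y i) * x - a * s ∈ synL P.f := by
      intro i
      obtain ⟨t, ht, z, hz, htz⟩ := Submodule.mem_sup.1 (hx i)
      obtain ⟨l, hl, v, hv, hlv⟩ := Submodule.mem_sup.1 ht
      rw [Ideal.mem_span_singleton'] at hz hv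
      obtain ⟨a, rfl⟩ := hz
      obtain ⟨a', rfl⟩ := hv
      have h1 := congrArg (ev0 4) htz
      rw [← hlv, map_add, map_add, map_mul, map_mul, map_mul, P.ev0_synL hl, hD, ev0_C_y,
        mul_zero, zero_add, zero_add, zero_mul] at h1
      obtain ⟨r, hr⟩ := b.exists_of_ev0 ((mul_eq_zero.1 h1).resolve_right hF0)
      refine ⟨a' + (r 0 * u 0 + r 1 * u 1 + r 2 * u 2), ?_⟩
      have := Ideal.add_mem _ hl (Ideal.add_mem _ (Ideal.add_mem _
        (Ideal.mul_mem_left _ (r 0) (hu' 0))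
        (Ideal.mul_mem_left _ (r 1) (hu' 1))) (Ideal.mul_mem_left _ (r 2) (hu' 2)))
      convert this using 1
      rw [← htz, ← hlv, hr]; ring
    choose a ha using step1
    have hrel := rel_cof (P.kreg hZ) M (y := fun i => C (b.y i)) hM (ev0 4)
      (fun i => ev0_C_y b 4 i) x a (by
        intro i
        obtain ⟨l, hl⟩ := (P.mem_synL_iff _).1 (ha i)
        exact ⟨l, by rw [← hl]; ring⟩)
    obtain ⟨β, hβ⟩ := hcop (fun i => ev0 4 (a i)) (by
      intro i j
      have := hrel i j c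
      rw [hw, hw] at this
      exact this)
    -- lift `β`
    have hlift : ev0 4 (MvPolynomial.map (C : k →+* MvPolynomial (Fin 3) k) β) = β := by
      unfold ev0
      rw [MvPolynomial.map_map]
      have : (constantCoeff (R := k) (σ := Fin 3)).comp C = RingHom.id k := by
        ext; simp
      rw [this, MvPolynomial.map_id]
    set β' := MvPolynomial.map (C : k →+* MvPolynomial (Fin 3) k) β
    have hmem := P.colon_mem hZ b M hM (x - β' * F) (by
      intro i
      have h1 : (a i - β' * u i) * s ∈ synL P.f := by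
        apply hsmem
        rw [map_sub, map_mul, hlift, hu]
        simp only [hβ i, sub_self]
      have h2 := Ideal.sub_mem _ (Ideal.add_mem _ (ha i) h1) (Ideal.mul_mem_left _ β' (hu' i))
      convert h2 using 1
      ring)
    have h3 : β' * F ∈ synL P.f ⊔ Ideal.span {s} ⊔ Ideal.span {F} :=
      Ideal.mem_sup_right (Ideal.mul_mem_left _ _ (Ideal.subset_span rfl))
    have := Ideal.add_mem _ (Ideal.mem_sup_left hmem) h3
    rwa [sub_add_cancel] at this
  have hall := P.absorb_le hZ b (synL P.f ⊔ Ideal.span {s} ⊔ Ideal.span {F})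
    (le_sup_left.trans le_sup_left) habs
  constructor
  · apply genDeg_of (J := synL P.f ⊔ Ideal.span {s} ⊔ Ideal.span {F}) _ hall
    rw [sup_le_iff, sup_le_iff]
    refine ⟨⟨?_, ?_⟩, ?_⟩
    · unfold synL
      rw [Ideal.span_le]
      rintro _ ⟨φ, hφ, rfl⟩
      exact Ideal.subset_span ⟨form_mem_reesKer.2 hφ, 1, by norm_num, form_homog _⟩
    · rw [Ideal.span_singleton_le_iff_mem]
      exact Ideal.subset_span ⟨hdet, 3, by norm_num, hdh⟩
    · rw [Ideal.span_singleton_le_iff_mem]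
      exact Ideal.subset_span ⟨hFm, 5, le_rfl, hF⟩
  · refine not_genDeg ?_ F hFm hF0
    intro d hd q hq hq0
    obtain ⟨t, ht, z, hz, htz⟩ := Submodule.mem_sup.1 (hall d q hq hq0)
    obtain ⟨l, hl, v, hv, hlv⟩ := Submodule.mem_sup.1 ht
    rw [Ideal.mem_span_singleton'] at hz hv
    obtain ⟨a, rfl⟩ := hz
    obtain ⟨a', rfl⟩ := hv
    have h1 := congrArg (ev0 4) htz
    rw [← hlv, map_add, map_add, map_mul, map_mul, P.ev0_synL hl, hD, mul_zero, zero_add,
      zero_add] at h1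
    by_contra hne
    have h2 : (ev0 4 q).IsHomogeneous d := hq.map _
    have h3 : (ev0 4 F).IsHomogeneous 5 := hF.map _
    have h4 : ev0 4 a ≠ 0 := by
      intro h
      rw [h, zero_mul] at h1
      exact hne h1.symm
    have h5 := h2.totalDegree hne
    rw [← h1, totalDegree_mul_of_isDomain h4 hF0, h3.totalDegree hF0] at h5
    omega

end HB

end Pool.Agent.LibH27.RT
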