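import Pool.Agent.Lib_helper27.RT.Points

/-!
# Small pieces of linear algebra
-/

namespace Pool.Agent.LibH27.RT

open MvPolynomial

variable {k : Type*} [Field k] {n : ℕ}

theorem aeval_form_k {a v : Fin n → k} : aeval v (form a) = ∑ i, a i * v i := by
  rw [aeval_form]; rfl

theorem polar_self {a b c d : Fin n → k} (h : form a * form b = form c * form d) (i : Fin n) :
    a i * b i = c i * d i := by
  have h1 := congrArg (aeval (Pi.single i (1 : k) : Fin n → k)) h
  have key : ∀ x : Fin n → k, ∑ l, x l * (Pi.single i (1 : k) : Fin n → k) l = x i := by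
    intro x
    simp [Pi.single_apply]
  rw [map_mul, map_mul, aeval_form_k, aeval_form_k, aeval_form_k, aeval_form_k, key, key, key,
    key] at h1
  exact h1

theorem polar {a b c d : Fin n → k} (h : form a * form b = form c * form d) (i j : Fin n) :
    a i * b j + a j * b i = c i * d j + c j * d i := by
  have h1 := congrArg (aeval (Pi.single i (1 : k) + Pi.single j (1 : k) : Fin n → k)) h
  have h2 := polar_self h i
  have h3 := polar_self h j
  have key : ∀ x : Fin n → k, ∑ l, x l * (Pi.single i (1 : k) + Pi.single j (1 : k) : Fin n → k) l =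
      x i + x j := by
    intro x
    simp [mul_add, Finset.sum_add_distrib, Pi.single_apply]
  rw [map_mul, map_mul, aeval_form_k, aeval_form_k, aeval_form_k, aeval_form_k, key, key, key,
    key] at h1
  linear_combination h1 - h2 - h3

/-- two by two matrices of linear forms with vanishing determinant -/
theorem lemZ (u10 u11 u20 u21 v10 v11 v20 v21 : k) (h1 : u10 * v11 = v10 * u11)
    (h2 : u20 * v21 = v20 * u21) (h3 : u10 * v21 + u20 * v11 = v10 * u21 + v20 * u11) :
    (∃ α β : k, (α ≠ 0 ∨ β ≠ 0) ∧ α * u10 + β * v10 = 0 ∧ α * u11 + β * v11 = 0 ∧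
      α * u20 + β * v20 = 0 ∧ α * u21 + β * v21 = 0) ∨
    (∃ s t : k, (s ≠ 0 ∨ t ≠ 0) ∧ s * u10 + t * u11 = 0 ∧ s * u20 + t * u21 = 0 ∧
      s * v10 + t * v11 = 0 ∧ s * v20 + t * v21 = 0) := by
  by_cases hu : u10 * u21 - u11 * u20 = 0
  · by_cases hv : v10 * v21 - v11 * v20 = 0
    · right
      by_cases z1 : u10 = 0 ∧ u11 = 0
      · obtain ⟨rfl, rfl⟩ := z1
        by_cases z2 : u20 = 0 ∧ u21 = 0
        · obtain ⟨rfl, rfl⟩ := z2
          by_cases z3 : v10 = 0 ∧ v11 = 0
          · obtain ⟨rfl, rfl⟩ := z3
            by_cases z4 : v20 = 0 ∧ v21 = 0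
            · obtain ⟨rfl, rfl⟩ := z4
              exact ⟨1, 0, Or.inl one_ne_zero, by ring, by ring, by ring, by ring⟩
            · refine ⟨v21, -v20, ?_, by ring, by ring, by ring, by ring⟩
              by_cases h : v20 = 0
              · left; exact fun h' => z4 ⟨h, h'⟩
              · right; exact neg_ne_zero.2 h
          · refine ⟨v11, -v10, ?_, by ring, by ring, by ring, by linear_combination -hv⟩
            by_cases h : v10 = 0
            · left; exact fun h' => z3 ⟨h, h'⟩
            · right; exact neg_ne_zero.2 h
        · refine ⟨u21, -u20, ?_, by ring, by ring, by linear_combination -h3,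
            by linear_combination -h2⟩
          by_cases h : u20 = 0
          · left; exact fun h' => z2 ⟨h, h'⟩
          · right; exact neg_ne_zero.2 h
      · -- `[u2, v1] = 0`
        have e0 : (u20 * v11 - u21 * v10) * u10 = 0 := by
          linear_combination u20 * h1 - v10 * hu
        have e1 : (u20 * v11 - u21 * v10) * u11 = 0 := by
          linear_combination u21 * h1 - v11 * hu
        have e2 : u20 * v11 - u21 * v10 = 0 := by
          by_contra hne
          exact z1 ⟨(mul_eq_zero.1 e0).resolve_left hne, (mul_eq_zero.1 e1).resolve_left hne⟩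
        refine ⟨u11, -u10, ?_, by ring, by linear_combination -hu, by linear_combination -h1,
          by linear_combination e2 - h3⟩
        by_cases h : u10 = 0
        · left; exact fun h' => z1 ⟨h, h'⟩
        · right; exact neg_ne_zero.2 h
    · left
      refine ⟨v10 * v21 - v11 * v20, -(u10 * v21 - u11 * v20), Or.inl hv, ?_, ?_, ?_, ?_⟩
      · linear_combination -v20 * h1
      · linear_combination -v21 * h1
      · linear_combination v10 * h2 - v20 * h3
      · linear_combination v11 * h2 - v21 * h3
  · left
    refine ⟨-(v10 * u21 - v11 * u20), u10 * u21 - u11 * u20, Or.inr hu, ?_, ?_, ?_, ?_⟩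
    · linear_combination u20 * h1
    · linear_combination u21 * h1
    · linear_combination -u10 * h2 + u20 * h3
    · linear_combination -u11 * h2 + u21 * h3

end Pool.Agent.LibH27.RT
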