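import Pool.Agent.Lib_helper27.RT.AbsorbA
import Pool.Agent.Lib_helper27.RT.LinAlg

/-!
# Four generators with a cubic: relation type three
-/

namespace Pool.Agent.LibH27.RT

open MvPolynomial

variable {k : Type*} [Field k]

/-- coefficient vector of the linear part -/
noncomputable def lcv (g : MvPolynomial (Fin 3) k) : Fin 3 → k :=
  fun c => coeff (Finsupp.single c 1) g

theorem form_lcv {g : MvPolynomial (Fin 3) k} (hg : g.IsHomogeneous 1) : form (lcv g) = g := by
  classical
  obtain ⟨φ, rfl⟩ := exists_form hg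
  congr 1
  funext c
  simp [lcv, form, coeff_sum, coeff_C_mul, coeff_X, Finsupp.single_left_inj]

theorem lcv_of_homog {g : MvPolynomial (Fin 3) k} {d : ℕ} (hg : g.IsHomogeneous d) (hd : d ≠ 1) :
    lcv g = 0 := by
  funext c
  apply hg.coeff_eq_zero
  intro h
  apply hd
  rw [← h]; simp

theorem lcv_zero : lcv (0 : MvPolynomial (Fin 3) k) = 0 := by
  funext c; simp [lcv]

theorem form_zero {R : Type*} [CommRing R] {n : ℕ} : form (0 : Fin n → R) = 0 := by simp [form]

theorem entry (b : Bas k) (e : ℕ) {g : MvPolynomial (Fin 3) k} {d : ℕ}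
    (hg : g.IsHomogeneous (d + 1)) (hw : d < e → aeval (b.w 2) g = 0) :
    ∃ a0 a1 a2 : MvPolynomial (Fin 3) k, g = b.y 0 * a0 + b.y 1 * a1 + b.y 2 ^ (e + 1) * a2 ∧
      constantCoeff a0 = aeval (b.w 0) (form (lcv g)) ∧
      constantCoeff a1 = aeval (b.w 1) (form (lcv g)) ∧
      constantCoeff a2 = if d = e then aeval (b.w 2) g else 0 := by
  obtain ⟨a0, a1, h0, h1, h⟩ := b.decomp hg
  have hc : ∀ {a : MvPolynomial (Fin 3) k}, a.IsHomogeneous d → d ≠ 0 → constantCoeff a = 0 := by
    intro a ha hd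
    apply ha.coeff_eq_zero
    intro h
    apply hd
    rw [← h]; simp
  have e0 : constantCoeff a0 = aeval (b.w 0) (form (lcv g)) := by
    by_cases hd : d = 0
    · subst hd
      rw [form_lcv hg]
      have h2 := congrArg (aeval (b.w 0)) h
      rw [map_add, map_add, map_mul, map_mul, map_mul, map_pow, b.eval_y, b.eval_y, b.eval_y,
        if_neg (by decide), if_pos rfl, if_neg (by decide)] at h2
      rw [h2, ← homogeneousComponent_eq_self h0, homogeneousComponent_zero, aeval_C]
      simp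
    · rw [hc h0 hd, lcv_of_homog hg (by omega), form_zero, map_zero]
  have e1 : constantCoeff a1 = aeval (b.w 1) (form (lcv g)) := by
    by_cases hd : d = 0
    · subst hd
      rw [form_lcv hg]
      have h2 := congrArg (aeval (b.w 1)) h
      rw [map_add, map_add, map_mul, map_mul, map_mul, map_pow, b.eval_y, b.eval_y, b.eval_y,
        if_neg (by decide), if_neg (by decide), if_pos rfl] at h2
      rw [h2, ← homogeneousComponent_eq_self h1, homogeneousComponent_zero, aeval_C]
      simp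
    · rw [hc h1 hd, lcv_of_homog hg (by omega), form_zero, map_zero]
  by_cases hde : d < e
  · refine ⟨a0, a1, 0, ?_, e0, e1, ?_⟩
    · conv_lhs => rw [h]
      rw [hw hde]; simp
    · rw [if_neg (by omega), map_zero]
  · push Not at hde
    refine ⟨a0, a1, C (aeval (b.w 2) g) * b.y 2 ^ (d - e), ?_, e0, e1, ?_⟩
    · conv_lhs => rw [h]
      have : b.y 2 ^ (d + 1) = b.y 2 ^ (e + 1) * b.y 2 ^ (d - e) := by
        rw [← pow_add]; congr 1; omega
      rw [this]; ring
    · by_cases hd : d = e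
      · rw [if_pos hd, hd, Nat.sub_self, pow_zero, mul_one, constantCoeff_C]
      · rw [if_neg hd, map_mul, map_pow]
        have : constantCoeff (b.y 2) = 0 := by
          apply (b.y_homog 2).coeff_eq_zero
          simp
        rw [this, zero_pow (by omega), mul_zero]

theorem ev0_form {n : ℕ} (φ : Fin n → MvPolynomial (Fin 3) k) :
    ev0 n (form φ) = form fun i => constantCoeff (φ i) := by
  unfold ev0 form
  rw [map_sum]
  refine Finset.sum_congr rfl fun i _ => ?_
  rw [map_mul, map_C, map_X]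

namespace HB

variable {Z : Finset (Fin 3 → k)} {m : ℕ} (P : HB Z m)

theorem lt_of_ne {j : Fin m} {i : Fin (m + 1)} (h : P.g j i ≠ 0) : P.a i < P.b j := by
  obtain ⟨h2, h3⟩ := (P.hg j i).resolve_right h
  refine lt_of_le_of_ne h2 fun h4 => h ?_
  rw [h4, Nat.sub_self] at h3
  rw [← homogeneousComponent_eq_self h3, homogeneousComponent_zero]
  rw [show coeff 0 (P.g j i) = 0 from P.const j i, map_zero]

theorem lcv_eq_zero {j : Fin m} {i : Fin (m + 1)} (h : P.b j ≠ P.a i + 1) :
    lcv (P.g j i) = 0 := by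
  rcases P.hg j i with ⟨h1, h2⟩ | h1
  · exact lcv_of_homog h2 (by omega)
  · rw [h1, lcv_zero]

theorem form_lcv_eq {j : Fin m} {i : Fin (m + 1)} (h : P.b j = P.a i + 1) :
    form (lcv (P.g j i)) = P.g j i := by
  apply form_lcv
  have := (P.hg j).homog i
  rwa [h, Nat.add_sub_cancel_left] at this

/-- values of linear parts -/
noncomputable def lx (b : Bas k) (r : Fin 3) (j : Fin m) : Fin (m + 1) → k :=
  fun i => aeval (b.w r) (form (lcv (P.g j i)))

/-- values of the entries of degree `e + 1` -/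
noncomputable def kap (b : Bas k) (e : ℕ) (j : Fin m) : Fin (m + 1) → k :=
  fun i => if P.b j = P.a i + (e + 1) then aeval (b.w 2) (P.g j i) else 0

theorem setup (b : Bas k) (e : ℕ)
    (hw : ∀ j i, P.b j < P.a i + (e + 1) → aeval (b.w 2) (P.g j i) = 0) :
    ∃ M : Fin 3 → Fin m → MvPolynomial (Fin (m + 1)) (MvPolynomial (Fin 3) k),
      (∀ j, P.G j = C (b.y 0) * M 0 j + C (b.y 1) * M 1 j + C (b.y 2) ^ (e + 1) * M 2 j) ∧
      (∀ i j, (M i j).IsHomogeneous 1) ∧ (∀ j, ev0 (m + 1) (M 0 j) = form (P.lx b 0 j)) ∧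
      (∀ j, ev0 (m + 1) (M 1 j) = form (P.lx b 1 j)) ∧
      (∀ j, ev0 (m + 1) (M 2 j) = form (P.kap b e j)) := by
  have key : ∀ j i, ∃ a0 a1 a2 : MvPolynomial (Fin 3) k,
      P.g j i = b.y 0 * a0 + b.y 1 * a1 + b.y 2 ^ (e + 1) * a2 ∧
      constantCoeff a0 = P.lx b 0 j i ∧ constantCoeff a1 = P.lx b 1 j i ∧
      constantCoeff a2 = P.kap b e j i := by
    intro j i
    by_cases h : P.g j i = 0
    · refine ⟨0, 0, 0, ?_, ?_, ?_, ?_⟩
      · rw [h]; ring
      · unfold lx; rw [h, lcv_zero, form_zero]; simp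
      · unfold lx; rw [h, lcv_zero, form_zero]; simp
      · unfold kap; rw [h]; simp
    · have h1 := P.lt_of_ne h
      obtain ⟨d, hd⟩ : ∃ d, P.b j = P.a i + (d + 1) := ⟨P.b j - P.a i - 1, by omega⟩
      have h2 := ((P.hg j i).resolve_right h).2
      rw [hd, Nat.add_sub_cancel_left] at h2
      obtain ⟨a0, a1, a2, e1, e2, e3, e4⟩ := entry b e h2 (fun hde => hw j i (by omega))
      refine ⟨a0, a1, a2, e1, e2, e3, ?_⟩
      rw [e4]
      unfold kap
      by_cases hde : d = e
      · rw [if_pos hde, if_pos (by omega)]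
      · rw [if_neg hde, if_neg (by omega)]
  choose a0 a1 a2 e1 e2 e3 e4 using key
  refine ⟨![fun j => form (a0 j), fun j => form (a1 j), fun j => form (a2 j)], ?_, ?_, ?_, ?_, ?_⟩
  · intro j
    simp only [Matrix.cons_val_zero, Matrix.cons_val_one, Matrix.cons_val]
    rw [← form_smul, ← form_smul, ← map_pow, ← form_smul, ← form_add, ← form_add]
    unfold G
    congr 1
    funext i
    exact e1 j i
  · intro i j
    fin_cases i <;> exact form_homog _
  · intro j
    simp only [Matrix.cons_val_zero]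
    rw [ev0_form]
    congr 1
    funext i
    exact e2 j i
  · intro j
    simp only [Matrix.cons_val_one, Matrix.cons_val_zero]
    rw [ev0_form]
    congr 1
    funext i
    exact e3 j i
  · intro j
    simp only [Matrix.cons_val]
    rw [ev0_form]
    congr 1
    funext i
    exact e4 j i

end HB

theorem det3_col {S : Type*} [CommRing S] (M : Fin 3 → Fin 3 → S) (c : Fin 3) :
    det3 M = M 0 c * (M 1 (c + 1) * M 2 (c + 2) - M 1 (c + 2) * M 2 (c + 1)) -
      M 1 c * (M 0 (c + 1) * M 2 (c + 2) - M 0 (c + 2) * M 2 (c + 1)) +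
      M 2 c * (M 0 (c + 1) * M 1 (c + 2) - M 0 (c + 2) * M 1 (c + 1)) := by
  unfold det3
  fin_cases c <;> simp only [Fin.zero_eta, Fin.mk_one, Fin.reduceFinMk, zero_add,
    show (1 : Fin 3) + 1 = 2 from rfl, show (1 : Fin 3) + 2 = 0 from rfl,
    show (2 : Fin 3) + 1 = 0 from rfl, show (2 : Fin 3) + 2 = 1 from rfl] <;> ring

namespace HB

variable {Z : Finset (Fin 3 → k)} (P : HB Z 3)

theorem crit (hZ : Good Z) (b : Bas k) (e : ℕ)
    (hw : ∀ j i, P.b j < P.a i + (e + 1) → aeval (b.w 2) (P.g j i) = 0) (c : Fin 3)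
    (hne : form (P.lx b 0 c) * (form (P.lx b 1 (c + 1)) * form (P.kap b e (c + 2)) -
        form (P.lx b 1 (c + 2)) * form (P.kap b e (c + 1))) -
      form (P.lx b 1 c) * (form (P.lx b 0 (c + 1)) * form (P.kap b e (c + 2)) -
        form (P.lx b 0 (c + 2)) * form (P.kap b e (c + 1))) +
      form (P.kap b e c) * (form (P.lx b 0 (c + 1)) * form (P.lx b 1 (c + 2)) -
        form (P.lx b 0 (c + 2)) * form (P.lx b 1 (c + 1))) ≠ 0) :
    GenDeg P.f 3 ∧ ¬ GenDeg P.f 2 := by
  obtain ⟨M, hM, hMh, h0, h1, h2⟩ := P.setup b e hw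
  apply P.genDeg_three b e M hM hZ hMh
  rw [det3_col M c]
  simp only [map_add, map_sub, map_mul, h0, h1, h2]
  exact hne

/-- elements of the ideal have no components of small degree -/
theorem low {m : ℕ} (P : HB Z m) {F : MvPolynomial (Fin 3) k} (hF : F ∈ ptIdeal Z) {d : ℕ}
    (hd : d < P.a 0) : homogeneousComponent d F = 0 := by
  rw [← P.fspan, Ideal.mem_span_range_iff_exists_fun] at hF
  obtain ⟨c, rfl⟩ := hF
  rw [map_sum]
  apply Finset.sum_eq_zero
  intro i _
  exact hc_mul_lt _ (P.hf i) (hd.trans_le (P.amin i))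

theorem not_sq_dvd {m : ℕ} (P : HB Z m) (ha : P.a 0 = 3) {t : Fin 3 → k} (ht : t ≠ 0) :
    ¬ form t ^ 2 ∣ P.f 0 := by
  rintro ⟨u, hu⟩
  have ht' : form t ≠ 0 := by
    intro h
    rw [← form_zero] at h
    exact ht (form_inj h)
  have hu0 : u ≠ 0 := by
    rintro rfl
    rw [mul_zero] at hu
    exact P.fne 0 hu
  have h1 : form t * u ∈ ptIdeal Z := by
    rw [mem_ptIdeal]
    intro v hv
    have h2 : P.f 0 ∈ ptIdeal Z := by
      rw [← P.fspan]; exact Ideal.subset_span ⟨0, rfl⟩
    rw [mem_ptIdeal] at h2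
    have h3 : (form t * u) ^ 2 ∈ reesKer v := by
      have h4 := Ideal.mul_mem_right u _ (h2 v hv)
      convert h4 using 1
      rw [hu]; ring
    exact (reesKer_isPrime v).mem_of_pow_mem _ h3
  have h2 : (form t * u).totalDegree = 2 := by
    have h3 := (P.hf 0).totalDegree (P.fne 0)
    rw [ha, hu, totalDegree_mul_of_isDomain (pow_ne_zero 2 ht') hu0,
      (((form_homog t).pow 2).totalDegree (pow_ne_zero 2 ht'))] at h3
    rw [totalDegree_mul_of_isDomain ht' hu0, (form_homog t).totalDegree ht']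
    omega
  apply mul_ne_zero ht' hu0
  rw [← sum_homogeneousComponent (form t * u)]
  apply Finset.sum_eq_zero
  intro d hd
  rw [Finset.mem_range, h2] at hd
  exact P.low h1 (by omega)

/-- the cubic is the determinant of the linear parts -/
theorem det_lcv (ha : P.a 0 = 3) :
    C P.ρ * P.f 0 = (Matrix.of fun (i' j : Fin 3) => form (lcv (P.g j i'.succ))).det := by
  rw [← P.minors 0]
  simp only [Fin.val_zero, pow_zero, one_mul, Fin.succAbove_zero]
  rw [Matrix.det_apply, Matrix.det_apply]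
  refine Finset.sum_congr rfl fun σ _ => ?_
  congr 1
  simp only [Matrix.of_apply]
  by_cases hz : ∃ j, P.g j (σ j).succ = 0
  · obtain ⟨j, hj⟩ := hz
    rw [Finset.prod_eq_zero (Finset.mem_univ j) hj, Finset.prod_eq_zero (Finset.mem_univ j)]
    rw [hj, lcv_zero, form_zero]
  · push Not at hz
    refine Finset.prod_congr rfl fun j _ => ?_
    symm
    apply P.form_lcv_eq
    have h1 : ∀ j, P.a (σ j).succ < P.b j := fun j => P.lt_of_ne (hz j)
    have h2 : ∑ j, P.a (σ j).succ = ∑ j : Fin 3, P.a j.succ :=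
      Equiv.sum_comp σ (fun j : Fin 3 => P.a j.succ)
    have h3 := P.sum1
    rw [Fin.sum_univ_succ, ha] at h3
    rw [Fin.sum_univ_three, Fin.sum_univ_three] at h2
    rw [Fin.sum_univ_three, Fin.sum_univ_three] at h3
    have e0 := h1 0
    have e1 := h1 1
    have e2 := h1 2
    fin_cases j
    · simp only [Fin.zero_eta]; omega
    · simp only [Fin.mk_one]; omega
    · simp only [Fin.reduceFinMk]; omega

end HB

end Pool.Agent.LibH27.RT
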