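import Pool.Agent.Lib_helper27.RT.Alpha3

/-!
# Four generators with a cubic: relation type three, the case analysis
-/

namespace Pool.Agent.LibH27.RT

open MvPolynomial

variable {k : Type*} [Field k]

/-- coordinates of a linear form -/
theorem Bas.form_eq (b : Bas k) (u : Fin 3 → k) : form u = C (aeval (b.w 0) (form u)) * b.y 0 +
    C (aeval (b.w 1) (form u)) * b.y 1 + C (aeval (b.w 2) (form u)) * b.y 2 := by
  have h : ∀ r, aeval (b.w r) (form u) = ∑ c, u c * b.W c r := by
    intro r
    rw [aeval_form']; rfl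
  rw [h, h, h]
  unfold form
  simp only [b.X_eq, Fin.sum_univ_three, map_add, map_mul]
  ring

theorem Bas.aeval_comb (b : Bas k) (s t : k) (i j : Fin 3) (u : Fin 3 → k) :
    aeval (s • b.w i + t • b.w j : Fin 3 → k) (form u) =
      s * aeval (b.w i) (form u) + t * aeval (b.w j) (form u) := by
  rw [aeval_form', aeval_form', aeval_form', Finset.mul_sum, Finset.mul_sum,
    ← Finset.sum_add_distrib]
  refine Finset.sum_congr rfl fun c _ => ?_
  simp only [Pi.add_apply, Pi.smul_apply, smul_eq_mul]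
  ring

theorem Bas.comb_ne_zero (b : Bas k) {s t : k} (h : s ≠ 0 ∨ t ≠ 0) {i j : Fin 3} (hij : i ≠ j) :
    (s • b.w i + t • b.w j : Fin 3 → k) ≠ 0 := by
  intro h0
  have h1 : ∀ r, aeval (s • b.w i + t • b.w j : Fin 3 → k) (b.y r) = (0 : k) := by
    intro r
    rw [h0]
    unfold Bas.y
    rw [aeval_form']
    simp
  have h2 : ∀ r, aeval (s • b.w i + t • b.w j : Fin 3 → k) (b.y r) =
      s * (if r = i then (1 : k) else 0) + t * (if r = j then (1 : k) else 0) := by
    intro r
    have := b.aeval_comb s t i j (b.A r)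
    have e1 := b.eval_y r i
    have e2 := b.eval_y r j
    unfold Bas.y at e1 e2 ⊢
    rw [this, e1, e2]
  rcases h with h | h
  · have := h1 i
    rw [h2, if_pos rfl, if_neg hij, mul_one, mul_zero, add_zero] at this
    exact h this
  · have := h1 j
    rw [h2, if_pos rfl, if_neg (Ne.symm hij), mul_one, mul_zero, zero_add] at this
    exact h this

theorem dvd_of_C_mul {y x : MvPolynomial (Fin 3) k} {α : k} (hα : α ≠ 0) (h : y ∣ C α * x) :
    y ∣ x := by
  have h1 : y ∣ C α⁻¹ * (C α * x) := h.mul_left _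
  rwa [← mul_assoc, ← map_mul, inv_mul_cancel₀ hα, map_one, one_mul] at h1

theorem coldep {y u1 u2 v1 v2 κ1 κ2 : MvPolynomial (Fin 3) k} {α β : k} (h : α ≠ 0 ∨ β ≠ 0)
    (h1 : C α * u1 + C β * v1 = κ1 * y) (h2 : C α * u2 + C β * v2 = κ2 * y) :
    y ∣ u1 * v2 - u2 * v1 := by
  rcases h with h | h
  · apply dvd_of_C_mul h
    exact ⟨κ1 * v2 - κ2 * v1, by linear_combination v2 * h1 - v1 * h2⟩
  · apply dvd_of_C_mul h
    exact ⟨κ2 * u1 - κ1 * u2, by linear_combination u1 * h2 - u2 * h1⟩

theorem form_single {R : Type*} [CommRing R] {n : ℕ} (i : Fin n) (r : R) :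
    form (Pi.single i r) = C r * X i := (C_mul_X_form r i).symm

namespace HB

variable {Z : Finset (Fin 3 → k)} (P : HB Z 3)

theorem kap_zero (b : Bas k) (j : Fin 3) : P.kap b 0 j = P.lx b 2 j := by
  funext i
  unfold kap lx
  by_cases h : P.b j = P.a i + 1
  · rw [if_pos h, P.form_lcv_eq h]
  · rw [if_neg h, P.lcv_eq_zero h, form_zero, map_zero]

/-- the pencil case -/
theorem alpha3_pencil (hZ : Good Z) (ha : P.a 0 = 3) (hb : ∀ j : Fin 3, P.b j = P.a j.succ + 1)
    (c : Fin 3) (hc4 : 4 ≤ P.a c.succ) (hc1 : P.a c.succ ≠ P.a (c + 1).succ)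
    (hc2 : P.a c.succ ≠ P.a (c + 2).succ) (hlne : lcv (P.g c c.succ) ≠ 0)
    (hsq : ∀ t : Fin 3 → k, t ≠ 0 → ¬ form t ^ 2 ∣ form (lcv (P.g c c.succ)) *
      (form (lcv (P.g (c + 1) (c + 1).succ)) * form (lcv (P.g (c + 2) (c + 2).succ)) -
      form (lcv (P.g (c + 1) (c + 2).succ)) * form (lcv (P.g (c + 2) (c + 1).succ))))
    (w : Fin 3 → k) (hw : w ≠ 0) (hwl : aeval w (form (lcv (P.g c c.succ))) = 0)
    (hwu1 : aeval w (form (lcv (P.g (c + 1) (c + 1).succ))) = 0)
    (hwu2 : aeval w (form (lcv (P.g (c + 1) (c + 2).succ))) = 0)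
    (hwv1 : aeval w (form (lcv (P.g (c + 2) (c + 1).succ))) = 0)
    (hwv2 : aeval w (form (lcv (P.g (c + 2) (c + 2).succ))) = 0)
    (hrowc : ∀ (b : Bas k) (r : Fin 3) (i : Fin 4), P.lx b r c i =
      if i = c.succ then aeval (b.w r) (form (lcv (P.g c c.succ))) else 0) :
    GenDeg P.f 3 ∧ ¬ GenDeg P.f 2 := by
  classical
  obtain ⟨b, hbl, hbw⟩ := exists_bas hlne hw (by rw [← aeval_form']; exact hwl)
  have hy1 : b.y 1 = form (lcv (P.g c c.succ)) := by unfold Bas.y; rw [hbl]
  have hl0 : aeval (b.w 0) (form (lcv (P.g c c.succ))) = (0 : k) := by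
    rw [← hy1, b.eval_y, if_neg (by decide)]
  have hl1 : aeval (b.w 1) (form (lcv (P.g c c.succ))) = (1 : k) := by
    rw [← hy1, b.eval_y, if_pos rfl]
  -- the smallest degree of an entry not vanishing at `w`
  have hex : ∃ d, ∃ (j : Fin 3) (i : Fin 4), P.b j = P.a i + (d + 1) ∧
      aeval w (P.g j i) ≠ 0 := by
    obtain ⟨l, r, s, hlrs⟩ := P.rank_two hZ hw
    have h1 : ∃ j, aeval w (P.g j r) ≠ 0 := by
      by_contra hcon
      push Not at hcon
      apply hlrs
      unfold dl
      rw [map_sub, map_mul, map_mul, hcon, hcon]; ring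
    obtain ⟨j, hj⟩ := h1
    have h2 := P.lt_of_ne (j := j) (i := r) (by
      intro h
      rw [h, map_zero] at hj
      exact hj rfl)
    exact ⟨P.b j - P.a r - 1, j, r, by omega, hj⟩
  obtain ⟨e, ⟨je, ie, he1, he2⟩, hmin⟩ : ∃ e, (∃ (j : Fin 3) (i : Fin 4),
      P.b j = P.a i + (e + 1) ∧ aeval w (P.g j i) ≠ 0) ∧
      ∀ d < e, ∀ (j : Fin 3) (i : Fin 4), P.b j = P.a i + (d + 1) → aeval w (P.g j i) = 0 := by
    refine ⟨Nat.find hex, Nat.find_spec hex, fun d hd j i h => ?_⟩
    by_contra hne
    exact Nat.find_min hex hd ⟨j, i, h, hne⟩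
  have hwe : ∀ j i, P.b j < P.a i + (e + 1) → aeval (b.w 2) (P.g j i) = 0 := by
    intro j i h
    rw [hbw]
    by_contra hne
    have h2 := P.lt_of_ne (j := j) (i := i) (by
      intro h
      rw [h, map_zero] at hne
      exact hne rfl)
    exact hne (hmin (P.b j - P.a i - 1) (by omega) j i (by omega))
  apply P.crit hZ b e hwe c
  -- names for the rows
  set p : Fin 4 := (c + 1).succ with hp
  set q : Fin 4 := (c + 2).succ with hq
  have hcc1 : c ≠ c + 1 := by fin_cases c <;> decide
  have hcc2 : c ≠ c + 2 := by fin_cases c <;> decide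
  have h12 : c + 1 ≠ c + 2 := by fin_cases c <;> decide
  have hrow : ∀ i : Fin 4, i = 0 ∨ i = c.succ ∨ i = p ∨ i = q := by
    rw [hp, hq]
    intro i
    fin_cases c <;> fin_cases i <;> decide
  obtain ⟨u10, hu10⟩ : ∃ x, x = aeval (b.w 0) (form (lcv (P.g (c + 1) p))) := ⟨_, rfl⟩
  obtain ⟨u11, hu11⟩ : ∃ x, x = aeval (b.w 1) (form (lcv (P.g (c + 1) p))) := ⟨_, rfl⟩
  obtain ⟨u20, hu20⟩ : ∃ x, x = aeval (b.w 0) (form (lcv (P.g (c + 1) q))) := ⟨_, rfl⟩
  obtain ⟨u21, hu21⟩ : ∃ x, x = aeval (b.w 1) (form (lcv (P.g (c + 1) q))) := ⟨_, rfl⟩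
  obtain ⟨v10, hv10⟩ : ∃ x, x = aeval (b.w 0) (form (lcv (P.g (c + 2) p))) := ⟨_, rfl⟩
  obtain ⟨v11, hv11⟩ : ∃ x, x = aeval (b.w 1) (form (lcv (P.g (c + 2) p))) := ⟨_, rfl⟩
  obtain ⟨v20, hv20⟩ : ∃ x, x = aeval (b.w 0) (form (lcv (P.g (c + 2) q))) := ⟨_, rfl⟩
  obtain ⟨v21, hv21⟩ : ∃ x, x = aeval (b.w 1) (form (lcv (P.g (c + 2) q))) := ⟨_, rfl⟩
  have fu1 := b.form_eq (lcv (P.g (c + 1) p))
  have fu2 := b.form_eq (lcv (P.g (c + 1) q))
  have fv1 := b.form_eq (lcv (P.g (c + 2) p))
  have fv2 := b.form_eq (lcv (P.g (c + 2) q))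
  rw [hbw] at fu1 fu2 fv1 fv2
  rw [hwu1, ← hu10, ← hu11] at fu1
  rw [hwu2, ← hu20, ← hu21] at fu2
  rw [hwv1, ← hv10, ← hv11] at fv1
  rw [hwv2, ← hv20, ← hv21] at fv2
  have l10 : P.lx b 0 (c + 1) p = u10 := hu10.symm
  have l11 : P.lx b 1 (c + 1) p = u11 := hu11.symm
  have l20 : P.lx b 0 (c + 1) q = u20 := hu20.symm
  have l21 : P.lx b 1 (c + 1) q = u21 := hu21.symm
  have m10 : P.lx b 0 (c + 2) p = v10 := hv10.symm
  have m11 : P.lx b 1 (c + 2) p = v11 := hv11.symm
  have m20 : P.lx b 0 (c + 2) q = v20 := hv20.symm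
  have m21 : P.lx b 1 (c + 2) q = v21 := hv21.symm
  -- the determinant modulo `l`
  have hd0 : u10 * v20 - u20 * v10 ≠ 0 := by
    intro h
    apply hsq _ hlne
    rw [pow_two, ← hy1]
    apply mul_dvd_mul_left
    rw [fu1, fu2, fv1, fv2]
    refine ⟨C u10 * C v21 * b.y 0 + C u11 * C v20 * b.y 0 + C u11 * C v21 * b.y 1 -
      C u20 * C v11 * b.y 0 - C u21 * C v10 * b.y 0 - C u21 * C v11 * b.y 1, ?_⟩
    have h' : (C u10 * C v20 - C u20 * C v10 : MvPolynomial (Fin 3) k) = 0 := by
      have := congrArg (C : k → MvPolynomial (Fin 3) k) h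
      rw [map_sub, map_mul, map_mul, map_zero] at this
      exact this
    simp only [map_zero]
    linear_combination b.y 0 ^ 2 * h'
  have hE0 : form (P.lx b 0 c) = 0 := by
    rw [show P.lx b 0 c = 0 from ?_, form_zero]
    funext i
    rw [hrowc, hl0]; simp
  have hE1 : form (P.lx b 1 c) = X c.succ := by
    rw [show P.lx b 1 c = Pi.single c.succ 1 from ?_, form_single, map_one, one_mul]
    funext i
    rw [hrowc, hl1]
    by_cases h : i = c.succ
    · rw [if_pos h, h, Pi.single_eq_same]
    · rw [if_neg h, Pi.single_eq_of_ne h]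
  have hlcz : ∀ r, P.lx b r (c + 1) c.succ = 0 := by
    intro r
    unfold lx
    rw [P.lcv_eq_zero, form_zero, map_zero]
    rw [hb, ← hp]; omega
  have hlcz' : ∀ r, P.lx b r (c + 2) c.succ = 0 := by
    intro r
    unfold lx
    rw [P.lcv_eq_zero, form_zero, map_zero]
    rw [hb, ← hq]; omega
  -- vanishing of some `κ`
  have hkc : P.kap b e c c.succ = 0 := by
    unfold kap
    by_cases h : P.b c = P.a c.succ + (e + 1)
    · rw [if_pos h, hbw, ← P.form_lcv_eq (hb c), hwl]
    · rw [if_neg h]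
  have hkp : P.kap b e (c + 1) p = 0 := by
    unfold kap
    by_cases h : P.b (c + 1) = P.a p + (e + 1)
    · rw [if_pos h, hbw, ← P.form_lcv_eq (hb (c + 1)), hwu1]
    · rw [if_neg h]
  have hkq : P.kap b e (c + 2) q = 0 := by
    unfold kap
    by_cases h : P.b (c + 2) = P.a q + (e + 1)
    · rw [if_pos h, hbw, ← P.form_lcv_eq (hb (c + 2)), hwv2]
    · rw [if_neg h]
  have hkpq : P.kap b e (c + 1) q = 0 ∨ P.kap b e (c + 2) p = 0 := by
    by_contra hcon
    push Not at hcon
    obtain ⟨n1, n2⟩ := hcon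
    unfold kap at n1 n2
    by_cases h : P.b (c + 1) = P.a q + (e + 1)
    · by_cases h' : P.b (c + 2) = P.a p + (e + 1)
      · have h3 := hb (c + 1)
        have h4 := hb (c + 2)
        rw [← hp] at h3
        rw [← hq] at h4
        have h5 : P.b (c + 1) = P.a q + 1 := by omega
        rw [if_pos h, hbw, ← P.form_lcv_eq h5, hwu2] at n1
        exact n1 rfl
      · rw [if_neg h'] at n2
        exact n2 rfl
    · rw [if_neg h] at n1
      exact n1 rfl
  rw [hE0, hE1, zero_mul, zero_sub]
  intro hE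
  by_cases hκ : P.kap b e c = 0
  · rw [hκ, form_zero, zero_mul, add_zero, neg_eq_zero] at hE
    have h1 := (mul_eq_zero.1 hE).resolve_left (X_ne_zero _)
    rw [sub_eq_zero] at h1
    -- `x0p κq = x0q κp`
    have pp := polar_self h1 p
    have qq := polar_self h1 q
    have pq := polar h1 p q
    have po := polar h1 p 0
    have qo := polar h1 q 0
    have pc := polar h1 p c.succ
    have qc := polar h1 q c.succ
    simp only [hlcz, hlcz', l10, l20, m10, m20, hkp, hkq, mul_zero, zero_mul, add_zero,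
      zero_add] at pp qq pq po qo pc qc
    have hkqp : P.kap b e (c + 2) p = 0 := by
      by_contra hne
      have h2 := hkpq.resolve_right hne
      rw [h2, mul_zero] at pq
      have e1 : u10 = 0 := (mul_eq_zero.1 pp).resolve_right hne
      have e2 : u20 = 0 := (mul_eq_zero.1 pq).resolve_right hne
      apply hd0; rw [e1, e2]; ring
    have hkpq' : P.kap b e (c + 1) q = 0 := by
      by_contra hne
      rw [hkqp, mul_zero] at pq
      have e1 : v10 = 0 := (mul_eq_zero.1 pq.symm).resolve_right hne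
      have e2 : v20 = 0 := (mul_eq_zero.1 qq.symm).resolve_right hne
      apply hd0; rw [e1, e2]; ring
    simp only [hkqp, hkpq', mul_zero, add_zero, zero_add] at po qo pc qc
    have hall : ∀ x y : k, u10 * x = v10 * y → u20 * x = v20 * y → x = 0 ∧ y = 0 := by
      intro x y h2 h3
      constructor
      · exact (mul_eq_zero.1 (show (u10 * v20 - u20 * v10) * x = 0 by
          linear_combination v20 * h2 - v10 * h3)).resolve_left hd0
      · exact (mul_eq_zero.1 (show (u10 * v20 - u20 * v10) * y = 0 by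
          linear_combination u20 * h2 - u10 * h3)).resolve_left hd0
    obtain ⟨z1, z2⟩ := hall _ _ po qo
    obtain ⟨z3, z4⟩ := hall _ _ pc qc
    -- contradiction with the choice of `e`
    have hfin : P.kap b e je ie = 0 := by
      have hj : je = c ∨ je = c + 1 ∨ je = c + 2 := by fin_cases c <;> fin_cases je <;> decide
      rcases hj with rfl | rfl | rfl
      · rw [hκ]; rfl
      · rcases hrow ie with rfl | rfl | rfl | rfl
        · exact z2
        · exact z4
        · exact hkp
        · exact hkpq'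
      · rcases hrow ie with rfl | rfl | rfl | rfl
        · exact z1
        · exact z3
        · exact hkqp
        · exact hkq
    unfold kap at hfin
    rw [if_pos he1, hbw] at hfin
    exact he2 hfin
  · -- kill the variable of the column `c`
    let τ : MvPolynomial (Fin 4) k →ₐ[k] MvPolynomial (Fin 4) k :=
      aeval fun i => if i = c.succ then 0 else X i
    have hτ : ∀ x : Fin 4 → k, x c.succ = 0 → τ (form x) = form x := by
      intro x hx
      simp only [τ]
      rw [aeval_form]
      unfold form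
      refine Finset.sum_congr rfl fun i _ => ?_
      by_cases hi : i = c.succ
      · rw [if_pos hi, hi, hx]; simp
      · rw [if_neg hi]; rfl
    have hτc : τ (X c.succ) = 0 := by
      simp only [τ]
      rw [aeval_X, if_pos rfl]
    have h1 := congrArg τ hE
    simp only [map_add, map_neg, map_mul, map_sub, map_zero, hτc, zero_mul, neg_zero, zero_add] at h1
    rw [hτ _ hkc, hτ _ (hlcz 0), hτ _ (hlcz 1), hτ _ (hlcz' 0), hτ _ (hlcz' 1)] at h1
    have h2 : form (P.kap b e c) ≠ 0 := by
      intro h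
      rw [← form_zero] at h
      exact hκ (form_inj h)
    have h3 := sub_eq_zero.1 ((mul_eq_zero.1 h1).resolve_left h2)
    have pp := polar_self h3 p
    have qq := polar_self h3 q
    have pq := polar h3 p q
    rw [l10, l11, m10, m11] at pp
    rw [l20, l21, m20, m21] at qq
    rw [l10, l20, l11, l21, m10, m11, m20, m21] at pq
    rcases lemZ _ _ _ _ _ _ _ _ pp qq pq with ⟨α, β, hαβ, e1, e2, e3, e4⟩ |
      ⟨s, t, hst, e1, e2, e3, e4⟩
    · rcases hαβ with h | h
      · apply hd0
        apply mul_left_cancel₀ h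
        linear_combination v20 * e1 - v10 * e3
      · apply hd0
        apply mul_left_cancel₀ h
        linear_combination u10 * e3 - u20 * e1
    · by_cases ht : t = 0
      · subst ht
        have hs : s ≠ 0 := hst.resolve_right (by simp)
        have e1' : u10 = 0 := (mul_eq_zero.1 (show s * u10 = 0 by linear_combination e1)).resolve_left hs
        have e2' : u20 = 0 := (mul_eq_zero.1 (show s * u20 = 0 by linear_combination e2)).resolve_left hs
        apply hd0; rw [e1', e2']; ring
      · -- all are proportional to `z = t y₀ - s y₁`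
        have hz : ∀ x0 x1 : k, s * x0 + t * x1 = 0 → (C t : MvPolynomial (Fin 3) k) *
            (C x0 * b.y 0 + C x1 * b.y 1 + C 0 * b.y 2) = C x0 * (C t * b.y 0 - C s * b.y 1) := by
          intro x0 x1 h
          have h' : (C s * C x0 + C t * C x1 : MvPolynomial (Fin 3) k) = 0 := by
            rw [← map_mul, ← map_mul, ← map_add, h, map_zero]
          rw [map_zero]
          linear_combination b.y 1 * h'
        have hzf : form (t • b.A 0 + (-s) • b.A 1) = C t * b.y 0 - C s * b.y 1 := by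
          rw [form_add, form_smul, form_smul, map_neg]
          unfold Bas.y; ring
        have hzne : t • b.A 0 + (-s) • b.A 1 ≠ 0 := by
          intro h
          have h4 := congrArg (aeval (b.w 0)) hzf
          rw [h, form_zero, map_zero, map_sub, map_mul, map_mul, b.eval_y, b.eval_y, if_pos rfl,
            if_neg (by decide), mul_one, mul_zero, sub_zero, aeval_C] at h4
          exact ht h4.symm
        apply hsq _ hzne
        apply Dvd.dvd.mul_left
        apply dvd_of_C_mul (mul_ne_zero ht ht)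
        rw [hzf, fu1, fu2, fv1, fv2]
        refine ⟨C u10 * C v20 - C u20 * C v10, ?_⟩
        have k1 := hz u10 u11 e1
        have k2 := hz u20 u21 e2
        have k3 := hz v10 v11 e3
        have k4 := hz v20 v21 e4
        rw [map_mul]
        linear_combination (C t * (C v20 * b.y 0 + C v21 * b.y 1 + C 0 * b.y 2)) * k1 +
          (C u10 * (C t * b.y 0 - C s * b.y 1)) * k4 -
          (C t * (C v10 * b.y 0 + C v11 * b.y 1 + C 0 * b.y 2)) * k2 -
          (C u20 * (C t * b.y 0 - C s * b.y 1)) * k3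

theorem alpha3 (hZ : Good Z) (ha : P.a 0 = 3) (hb : ∀ j : Fin 3, P.b j = P.a j.succ + 1)
    (c : Fin 3) (hc4 : 4 ≤ P.a c.succ) (hc1 : P.a c.succ ≠ P.a (c + 1).succ)
    (hc2 : P.a c.succ ≠ P.a (c + 2).succ) : GenDeg P.f 3 ∧ ¬ GenDeg P.f 2 := by
  classical
  -- the linear entries
  set l := lcv (P.g c c.succ) with hl
  set u1 := lcv (P.g (c + 1) (c + 1).succ) with hu1
  set u2 := lcv (P.g (c + 1) (c + 2).succ) with hu2
  set v1 := lcv (P.g (c + 2) (c + 1).succ) with hv1
  set v2 := lcv (P.g (c + 2) (c + 2).succ) with hv2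
  -- the cubic
  have hf0 : C P.ρ * P.f 0 = form l * (form u1 * form v2 - form u2 * form v1) := by
    rw [P.det_lcv ha, Matrix.det_fin_three]
    simp only [Matrix.of_apply]
    have z1 : ∀ j i : Fin 3, P.a j.succ ≠ P.a i.succ → form (lcv (P.g j i.succ)) = 0 := by
      intro j i h
      rw [P.lcv_eq_zero (by rw [hb]; omega), form_zero]
    have w1 := z1 c (c + 1) hc1
    have w2 := z1 c (c + 2) hc2
    have w3 := z1 (c + 1) c (Ne.symm hc1)
    have w4 := z1 (c + 2) c (Ne.symm hc2)
    rw [hl, hu1, hu2, hv1, hv2]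
    fin_cases c
    · simp only [Fin.zero_eta, zero_add] at w1 w2 w3 w4 ⊢
      rw [w1, w2, w3, w4]; ring
    · simp only [Fin.mk_one, show (1 : Fin 3) + 1 = 2 from rfl,
        show (1 : Fin 3) + 2 = 0 from rfl] at w1 w2 w3 w4 ⊢
      rw [w1, w2, w3, w4]; ring
    · simp only [Fin.reduceFinMk, show (2 : Fin 3) + 1 = 0 from rfl,
        show (2 : Fin 3) + 2 = 1 from rfl] at w1 w2 w3 w4 ⊢
      rw [w1, w2, w3, w4]; ring
  have hf0ne : C P.ρ * P.f 0 ≠ 0 := by
    apply mul_ne_zero _ (P.fne 0)
    intro h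
    rw [← map_zero C] at h
    exact P.hρ (C_injective _ _ h)
  have hlne : l ≠ 0 := by
    intro h
    rw [h, form_zero, zero_mul] at hf0
    exact hf0ne hf0
  -- squares do not divide
  have hsq : ∀ t : Fin 3 → k, t ≠ 0 →
      ¬ form t ^ 2 ∣ form l * (form u1 * form v2 - form u2 * form v1) := by
    intro t ht h
    apply P.not_sq_dvd ha ht
    rw [← hf0] at h
    exact dvd_of_C_mul P.hρ h
  -- first basis
  obtain ⟨b, hbl⟩ := exists_bas_A hlne
  have hy1 : b.y 1 = form l := by unfold Bas.y; rw [hbl]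
  have hl0 : aeval (b.w 0) (form l) = (0 : k) := by rw [← hy1, b.eval_y, if_neg (by decide)]
  have hl1 : aeval (b.w 1) (form l) = (1 : k) := by rw [← hy1, b.eval_y, if_pos rfl]
  have hl2 : aeval (b.w 2) (form l) = (0 : k) := by rw [← hy1, b.eval_y, if_neg (by decide)]
  have hrowc : ∀ (b : Bas k) (r : Fin 3) (i : Fin 4), P.lx b r c i =
      if i = c.succ then aeval (b.w r) (form l) else 0 := by
    intro b r i
    unfold lx
    by_cases hi : i = c.succ
    · rw [if_pos hi, hi]
    · rw [if_neg hi, P.lcv_eq_zero, form_zero, map_zero]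
      rw [hb]
      have hrow : i = 0 ∨ i = c.succ ∨ i = (c + 1).succ ∨ i = (c + 2).succ := by
        clear * -
        fin_cases c <;> fin_cases i <;> decide
      rcases hrow with h | h | h | h
      · rw [h]; omega
      · exact absurd h hi
      · rw [h]; omega
      · rw [h]; omega
  by_cases hI : form (P.lx b 0 (c + 1)) * form (P.lx b 2 (c + 2)) =
      form (P.lx b 0 (c + 2)) * form (P.lx b 2 (c + 1))
  · have pp := polar_self hI (c + 1).succ
    have qq := polar_self hI (c + 2).succ
    have pq := polar hI (c + 1).succ (c + 2).succ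
    rcases lemZ _ _ _ _ _ _ _ _ pp qq pq with ⟨α, β, hαβ, e1, e2, e3, e4⟩ |
      ⟨s, t, hst, e1, e2, e3, e4⟩
    · exfalso
      apply hsq l hlne
      rw [pow_two]
      apply mul_dvd_mul_left
      change α * aeval (b.w 0) (form u1) + β * aeval (b.w 0) (form v1) = 0 at e1
      change α * aeval (b.w 2) (form u1) + β * aeval (b.w 2) (form v1) = 0 at e2
      change α * aeval (b.w 0) (form u2) + β * aeval (b.w 0) (form v2) = 0 at e3
      change α * aeval (b.w 2) (form u2) + β * aeval (b.w 2) (form v2) = 0 at e4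
      have key : ∀ u v : Fin 3 → k, α * aeval (b.w 0) (form u) + β * aeval (b.w 0) (form v) = 0 →
          α * aeval (b.w 2) (form u) + β * aeval (b.w 2) (form v) = 0 →
          C α * form u + C β * form v =
            C (α * aeval (b.w 1) (form u) + β * aeval (b.w 1) (form v)) * form l := by
        intro u v h1 h2
        have h1' : (C α * C (aeval (b.w 0) (form u)) + C β * C (aeval (b.w 0) (form v)) :
            MvPolynomial (Fin 3) k) = 0 := by
          rw [← map_mul, ← map_mul, ← map_add, h1, map_zero]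
        have h2' : (C α * C (aeval (b.w 2) (form u)) + C β * C (aeval (b.w 2) (form v)) :
            MvPolynomial (Fin 3) k) = 0 := by
          rw [← map_mul, ← map_mul, ← map_add, h2, map_zero]
        have fu := b.form_eq u
        have fv := b.form_eq v
        rw [← hy1, map_add, map_mul, map_mul]
        linear_combination C α * fu + C β * fv + b.y 0 * h1' + b.y 2 * h2'
      exact coldep hαβ (key u1 v1 e1 e2) (key u2 v2 e3 e4)
    · refine P.alpha3_pencil hZ ha hb c hc4 hc1 hc2 hlne hsq (s • b.w 0 + t • b.w 2)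
        (b.comb_ne_zero hst (by decide)) ?_ ?_ ?_ ?_ ?_ hrowc
      · rw [b.aeval_comb, hl0, hl2]; ring
      · rw [b.aeval_comb]; exact e1
      · rw [b.aeval_comb]; exact e2
      · rw [b.aeval_comb]; exact e3
      · rw [b.aeval_comb]; exact e4
  · apply P.crit hZ b 0 ?_ c
    · have hE0 : form (P.lx b 0 c) = 0 := by
        rw [show P.lx b 0 c = 0 from ?_, form_zero]
        funext i
        rw [hrowc, hl0]; simp
      have hE2 : form (P.lx b 2 c) = 0 := by
        rw [show P.lx b 2 c = 0 from ?_, form_zero]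
        funext i
        rw [hrowc, hl2]; simp
      have hE1 : form (P.lx b 1 c) = X c.succ := by
        rw [show P.lx b 1 c = Pi.single c.succ 1 from ?_, form_single, map_one, one_mul]
        funext i
        rw [hrowc, hl1]
        by_cases h : i = c.succ
        · rw [if_pos h, h, Pi.single_eq_same]
        · rw [if_neg h, Pi.single_eq_of_ne h]
      rw [P.kap_zero, P.kap_zero, P.kap_zero, hE0, hE1, hE2, zero_mul, zero_sub, zero_mul,
        add_zero, neg_ne_zero]
      exact mul_ne_zero (X_ne_zero _) (sub_ne_zero.2 hI)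
    · intro j i h
      by_contra hne
      have h2 := P.lt_of_ne (j := j) (i := i) (by
        intro h
        rw [h, map_zero] at hne
        exact hne rfl)
      omega

end HB

end Pool.Agent.LibH27.RT
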