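import Pool.Agent.Lib_helper27.RT.Factor
import Pool.Agent.Lib_helper27.RT.Alpha3b

/-!
# Four generators of the same degree: coprimality of the minors of the linear part
-/

namespace Pool.Agent.LibH27.RT

open MvPolynomial

variable {k : Type*} [Field k]

theorem sum_C_single {m n : ℕ} (a : Fin m) (s : k) (g : Fin m → Fin n → MvPolynomial (Fin 3) k) :
    ∑ j, (C ((Pi.single a s : Fin m → k) j) : MvPolynomial (Fin 3) k) • g j =
      (C s : MvPolynomial (Fin 3) k) • g a := by
  classical
  rw [Finset.sum_eq_single a]
  · rw [Pi.single_eq_same]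
  · intro j _ hj
    rw [Pi.single_eq_of_ne hj, map_zero, zero_smul]
  · intro h; exact absurd (Finset.mem_univ _) h

theorem cross_zero {R : Type*} [CommRing R] (a b : Fin 3 → R) (h0 : a 1 * b 2 = a 2 * b 1)
    (h1 : a 2 * b 0 = a 0 * b 2) (h2 : a 0 * b 1 = a 1 * b 0) (r s : Fin 3) :
    a r * b s = a s * b r := by
  fin_cases r <;> fin_cases s
  · rfl
  · exact h2
  · exact h1.symm
  · exact h2.symm
  · rfl
  · exact h0
  · exact h1
  · exact h0.symm
  · rfl

namespace HB

variable {Z : Finset (Fin 3 → k)} (P : HB Z 3)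

/-- the coefficients of a column with linear entries -/
noncomputable def Ac (j : Fin 3) (r : Fin 3) : MvPolynomial (Fin 4) k :=
  form fun i => lcv (P.g j i) r

theorem G_lin {j : Fin 3} (h : ∀ i, P.b j = P.a i + 1) :
    P.G j = C (X 0) * iot 4 (P.Ac j 0) + C (X 1) * iot 4 (P.Ac j 1) +
      C (X 2) * iot 4 (P.Ac j 2) := by
  unfold Ac
  rw [iot_form, iot_form, iot_form, ← form_smul, ← form_smul, ← form_smul, ← form_add, ← form_add]
  unfold G
  congr 1
  funext i
  rw [← P.form_lcv_eq (h i)]
  simp only [Pi.add_apply, Pi.smul_apply, smul_eq_mul]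
  rw [P.form_lcv_eq (h i)]
  conv_lhs => rw [← P.form_lcv_eq (h i)]
  unfold form
  rw [Fin.sum_univ_three]
  ring

/-- the minors of the two linear columns -/
noncomputable def ww (c : Fin 3) (r : Fin 3) : MvPolynomial (Fin 4) k :=
  P.Ac (c + 1) (r + 1) * P.Ac (c + 2) (r + 2) - P.Ac (c + 2) (r + 1) * P.Ac (c + 1) (r + 2)

theorem ww_homog (c r : Fin 3) : (P.ww c r).IsHomogeneous 2 :=
  ((form_homog _).mul (form_homog _)).sub ((form_homog _).mul (form_homog _))

theorem ww_orth1 (c : Fin 3) : P.Ac (c + 1) 0 * P.ww c 0 + P.Ac (c + 1) 1 * P.ww c 1 +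
    P.Ac (c + 1) 2 * P.ww c 2 = 0 := by
  unfold ww
  simp only [zero_add, show (1 : Fin 3) + 1 = 2 from rfl, show (1 : Fin 3) + 2 = 0 from rfl,
    show (2 : Fin 3) + 1 = 0 from rfl, show (2 : Fin 3) + 2 = 1 from rfl]
  ring

theorem ww_orth2 (c : Fin 3) : P.Ac (c + 2) 0 * P.ww c 0 + P.Ac (c + 2) 1 * P.ww c 1 +
    P.Ac (c + 2) 2 * P.ww c 2 = 0 := by
  unfold ww
  simp only [zero_add, show (1 : Fin 3) + 1 = 2 from rfl, show (1 : Fin 3) + 2 = 0 from rfl,
    show (2 : Fin 3) + 1 = 0 from rfl, show (2 : Fin 3) + 2 = 1 from rfl]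
  ring

theorem no_common_zero (hZ : Good Z) (c : Fin 3) {z : Fin 3 → k} (hz : z ≠ 0)
    (h1 : ∀ i, aeval z (P.g (c + 1) i) = 0) (h2 : ∀ i, aeval z (P.g (c + 2) i) = 0) : False := by
  obtain ⟨l, r, s, h⟩ := P.rank_two hZ hz
  have h3 : ∀ l : Fin 3, (∀ i, aeval z (P.g (l + 1) i) = 0) ∨ (∀ i, aeval z (P.g (l + 2) i) = 0) := by
    intro l
    have : l + 1 = c + 1 ∨ l + 1 = c + 2 ∨ l + 2 = c + 1 := by
      clear * -
      fin_cases c <;> fin_cases l <;> decide
    rcases this with h | h | h
    · left; rw [h]; exact h1
    · left; rw [h]; exact h2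
    · right; rw [h]; exact h1
  apply h
  unfold dl
  rw [map_sub, map_mul, map_mul]
  rcases h3 l with h4 | h4
  · rw [h4, h4]; ring
  · rw [h4, h4]; ring

section

variable (c : Fin 3) (hb1 : ∀ i, P.b (c + 1) = P.a i + 1) (hb2 : ∀ i, P.b (c + 2) = P.a i + 1)

include hb1 hb2

theorem ww_ne_zero : P.ww c ≠ 0 := by
  intro h
  have h12 : c + 1 ≠ c + 2 := by
    clear * -
    fin_cases c <;> decide
  have hrs : ∀ r s, P.Ac (c + 1) r * P.Ac (c + 2) s = P.Ac (c + 1) s * P.Ac (c + 2) r := by
    have e0 := congrFun h 0
    have e1 := congrFun h 1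
    have e2 := congrFun h 2
    unfold ww at e0 e1 e2
    simp only [zero_add, show (1 : Fin 3) + 1 = 2 from rfl, show (1 : Fin 3) + 2 = 0 from rfl,
      show (2 : Fin 3) + 1 = 0 from rfl, show (2 : Fin 3) + 2 = 1 from rfl, Pi.zero_apply]
      at e0 e1 e2
    apply cross_zero
    · linear_combination e0
    · linear_combination e1
    · linear_combination e2
  have hq : ∀ r, P.Ac (c + 2) r = 0 := by
    intro r
    obtain ⟨κ', hκ'1, hκ'2⟩ := P.pair h12.symm (iot 4 (P.Ac (c + 1) r)) (iot 4 (P.Ac (c + 2) r)) (by
      rw [P.G_lin hb1, P.G_lin hb2]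
      have key : ∀ s, iot 4 (P.Ac (c + 1) r) * iot 4 (P.Ac (c + 2) s) =
          iot 4 (P.Ac (c + 1) s) * iot 4 (P.Ac (c + 2) r) := by
        intro s
        rw [← map_mul, ← map_mul, hrs]
      linear_combination C (X 0) * key 0 + C (X 1) * key 1 + C (X 2) * key 2)
    have h1 := congrArg (ev0 4) hκ'2
    rw [ev0_iot, map_mul, P.ev0_G, mul_zero] at h1
    exact h1
  apply P.G_ne_zero (c + 2)
  rw [P.G_lin hb2, hq, hq, hq]
  simp

theorem ww_not_dvd (hZ : Good Z) {d0 : ℕ} (ha : ∀ i, P.a i = d0)
    {π : MvPolynomial (Fin 4) k} (hπ : Prime π) (hd : ∀ r, π ∣ P.ww c r) : False := by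
  classical
  have h12 : c + 1 ≠ c + 2 := by
    clear * -
    fin_cases c <;> decide
  have hg1 : ∀ i, form (lcv (P.g (c + 1) i)) = P.g (c + 1) i := fun i => P.form_lcv_eq (hb1 i)
  have hg2 : ∀ i, form (lcv (P.g (c + 2) i)) = P.g (c + 2) i := fun i => P.form_lcv_eq (hb2 i)
  have o1 := P.ww_orth1 c
  have o2 := P.ww_orth2 c
  rcases quad_factor (P.ww c) (P.ww_homog c) (P.ww_ne_zero c hb1 hb2) hπ hd with
    ⟨p0, z, hp, hz, h⟩ | ⟨p0, z, hp, hz, h⟩
  · -- a common zero of the two columns
    have key : ∀ j, (P.Ac j 0 * (p0 * C (z 0)) + P.Ac j 1 * (p0 * C (z 1)) +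
        P.Ac j 2 * (p0 * C (z 2)) = 0) → ∀ i, aeval z (form (lcv (P.g j i))) = 0 := by
      intro j hj i
      have h1 : p0 * form (fun i => aeval z (form (lcv (P.g j i)))) = 0 := by
        rw [← hj]
        have : form (fun i => aeval z (form (lcv (P.g j i)))) =
            C (z 0) * P.Ac j 0 + C (z 1) * P.Ac j 1 + C (z 2) * P.Ac j 2 := by
          unfold Ac
          rw [← form_smul, ← form_smul, ← form_smul, ← form_add, ← form_add]
          congr 1
          funext i
          rw [aeval_form', Fin.sum_univ_three]
          simp only [Pi.add_apply, Pi.smul_apply, smul_eq_mul]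
          ring
        rw [this]; ring
      have h2 := (mul_eq_zero.1 h1).resolve_left hp
      rw [← form_zero] at h2
      exact congrFun (form_inj h2) i
    rw [h, h, h] at o1 o2
    refine P.no_common_zero hZ c hz (fun i => ?_) (fun i => ?_)
    · rw [← hg1]; exact key _ o1 i
    · rw [← hg2]; exact key _ o2 i
  · have o1' : P.Ac (c + 1) 0 * form (z 0) + P.Ac (c + 1) 1 * form (z 1) +
        P.Ac (c + 1) 2 * form (z 2) = 0 := by
      rw [h, h, h] at o1
      exact (mul_eq_zero.1 (show p0 * _ = 0 by linear_combination o1)).resolve_left hp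
    have o2' : P.Ac (c + 2) 0 * form (z 0) + P.Ac (c + 2) 1 * form (z 1) +
        P.Ac (c + 2) 2 * form (z 2) = 0 := by
      rw [h, h, h] at o2
      exact (mul_eq_zero.1 (show p0 * _ = 0 by linear_combination o2)).resolve_left hp
    by_cases hind : ∀ γ : Fin 3 → k, ∑ j, γ j • z j = 0 → γ = 0
    · -- three independent forms
      obtain ⟨v, v0, v1, v2⟩ := lin_koszul z (fun r i => lcv (P.g (c + 1) i) r) hind o1'
      obtain ⟨v', v'0, v'1, v'2⟩ := lin_koszul z (fun r i => lcv (P.g (c + 2) i) r) hind o2'
      obtain ⟨F, hF⟩ : ∃ F : Fin 3 → MvPolynomial (Fin 3) k, ∀ r, F r = ∑ i, C (z r i) * P.f i :=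
        ⟨_, fun r => rfl⟩
      have hFd : ∀ r, (F r).IsHomogeneous d0 := by
        intro r
        rw [hF]
        refine IsHomogeneous.sum _ _ _ fun i _ => ?_
        have := P.hf i
        rw [ha i] at this
        exact this.C_mul _
      have hdot : ∀ (j : Fin 3) (v : Fin 3 → k), (∀ i, form (lcv (P.g j i)) = P.g j i) →
          (fun i => lcv (P.g j i) 0) = v 2 • z 1 - v 1 • z 2 →
          (fun i => lcv (P.g j i) 1) = v 0 • z 2 - v 2 • z 0 →
          (fun i => lcv (P.g j i) 2) = v 1 • z 0 - v 0 • z 1 →
          C (v 0) * (X 1 * F 2 - X 2 * F 1) + C (v 1) * (X 2 * F 0 - X 0 * F 2) +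
            C (v 2) * (X 0 * F 1 - X 1 * F 0) = 0 := by
        intro j v hg e0 e1 e2
        have h1 := P.g_syz j
        have h2 : ∀ i, P.g j i * P.f i = X 0 * (C (v 2) * (C (z 1 i) * P.f i) -
            C (v 1) * (C (z 2 i) * P.f i)) + X 1 * (C (v 0) * (C (z 2 i) * P.f i) -
            C (v 2) * (C (z 0 i) * P.f i)) + X 2 * (C (v 1) * (C (z 0 i) * P.f i) -
            C (v 0) * (C (z 1 i) * P.f i)) := by
          intro i
          rw [← hg i]
          have f0 := congrFun e0 i
          have f1 := congrFun e1 i
          have f2 := congrFun e2 i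
          simp only [Pi.sub_apply, Pi.smul_apply, smul_eq_mul] at f0 f1 f2
          unfold form
          rw [Fin.sum_univ_three, f0, f1, f2]
          simp only [map_sub, map_mul]
          ring
        rw [Finset.sum_congr rfl fun i _ => h2 i] at h1
        simp only [Finset.sum_add_distrib, Finset.sum_sub_distrib, ← Finset.mul_sum, ← hF] at h1
        linear_combination h1
      have d1 := hdot (c + 1) v hg1 v0 v1 v2
      have d2 := hdot (c + 2) v' hg2 v'0 v'1 v'2
      obtain ⟨D0, hD0⟩ : ∃ D, D = X 1 * F 2 - X 2 * F 1 := ⟨_, rfl⟩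
      obtain ⟨D1, hD1⟩ : ∃ D, D = X 2 * F 0 - X 0 * F 2 := ⟨_, rfl⟩
      obtain ⟨D2, hD2⟩ : ∃ D, D = X 0 * F 1 - X 1 * F 0 := ⟨_, rfl⟩
      rw [← hD0, ← hD1, ← hD2] at d1 d2
      have hXD : X 0 * D0 + X 1 * D1 + X 2 * D2 = 0 := by
        rw [hD0, hD1, hD2]; ring
      -- the cross product of `v` and `v'` is not zero
      have hu : ¬ (v 1 * v' 2 - v 2 * v' 1 = 0 ∧ v 2 * v' 0 - v 0 * v' 2 = 0 ∧
          v 0 * v' 1 - v 1 * v' 0 = 0) := by
        rintro ⟨u0, u1, u2⟩
        obtain ⟨s, t, hst, hst'⟩ : ∃ s t : k, (s ≠ 0 ∨ t ≠ 0) ∧ ∀ i, s * v i + t * v' i = 0 := by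
          by_cases hv : v = 0
          · exact ⟨1, 0, Or.inl one_ne_zero, fun i => by rw [hv]; simp⟩
          · obtain ⟨j, hj⟩ := Function.ne_iff.1 hv
            refine ⟨v' j, -v j, Or.inr (neg_ne_zero.2 hj), fun i => ?_⟩
            have := cross_zero v v' (by linear_combination u0) (by linear_combination u1)
              (by linear_combination u2) i j
            linear_combination this
        have hs0 := hst' 0
        have hs1 := hst' 1
        have hs2 := hst' 2
        have hz0 : ∀ i r, s * lcv (P.g (c + 1) i) r + t * lcv (P.g (c + 2) i) r = 0 := by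
          intro i r
          fin_cases r
          · have e1 := congrFun v0 i
            have e2 := congrFun v'0 i
            simp only [Pi.sub_apply, Pi.smul_apply, smul_eq_mul] at e1 e2
            simp only [Fin.zero_eta]
            rw [e1, e2]
            linear_combination z 1 i * hs2 - z 2 i * hs1
          · have e1 := congrFun v1 i
            have e2 := congrFun v'1 i
            simp only [Pi.sub_apply, Pi.smul_apply, smul_eq_mul] at e1 e2
            simp only [Fin.mk_one]
            rw [e1, e2]
            linear_combination z 2 i * hs0 - z 0 i * hs2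
          · have e1 := congrFun v2 i
            have e2 := congrFun v'2 i
            simp only [Pi.sub_apply, Pi.smul_apply, smul_eq_mul] at e1 e2
            simp only [Fin.reduceFinMk]
            rw [e1, e2]
            linear_combination z 0 i * hs1 - z 1 i * hs0
        have h3 := P.indep (Pi.single (c + 1) (C s) + Pi.single (c + 2) (C t)) (by
          simp only [Pi.add_apply, add_smul, Finset.sum_add_distrib, Pi.single_apply, ite_smul,
            zero_smul, Finset.sum_ite_eq', Finset.mem_univ, if_true]
          funext i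
          simp only [Pi.add_apply, Pi.smul_apply, smul_eq_mul, Pi.zero_apply]
          rw [← hg1 i, ← hg2 i, ← form_smul, ← form_smul, ← form_add, ← form_zero]
          congr 1
          funext r
          exact hz0 i r)
        rcases hst with hs | ht
        · have h4 := congrFun h3 (c + 1)
          rw [Pi.add_apply, Pi.single_eq_same, Pi.single_eq_of_ne h12, add_zero,
            Pi.zero_apply, ← map_zero C] at h4
          exact hs (C_injective _ _ h4)
        · have h4 := congrFun h3 (c + 2)
          rw [Pi.add_apply, Pi.single_eq_same, Pi.single_eq_of_ne h12.symm, zero_add,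
            Pi.zero_apply, ← map_zero C] at h4
          exact ht (C_injective _ _ h4)
      -- `D` is parallel to the cross product
      obtain ⟨u, hu0, hu1, hu2⟩ : ∃ u : Fin 3 → k, u 0 = v 1 * v' 2 - v 2 * v' 1 ∧
          u 1 = v 2 * v' 0 - v 0 * v' 2 ∧ u 2 = v 0 * v' 1 - v 1 * v' 0 :=
        ⟨![_, _, _], rfl, rfl, rfl⟩
      have hune : u ≠ 0 := by
        intro h
        apply hu
        rw [← hu0, ← hu1, ← hu2, h]
        simp
      have c01 : D0 * C (u 1) = D1 * C (u 0) := by
        rw [hu0, hu1]
        simp only [map_sub, map_mul]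
        linear_combination C (v 2) * d2 - C (v' 2) * d1
      have c12 : D1 * C (u 2) = D2 * C (u 1) := by
        rw [hu1, hu2]
        simp only [map_sub, map_mul]
        linear_combination C (v 0) * d2 - C (v' 0) * d1
      have c20 : D2 * C (u 0) = D0 * C (u 2) := by
        rw [hu2, hu0]
        simp only [map_sub, map_mul]
        linear_combination C (v 1) * d2 - C (v' 1) * d1
      have hfu : X 0 * C (u 0) + X 1 * C (u 1) + X 2 * C (u 2) ≠ (0 : MvPolynomial (Fin 3) k) := by
        intro h
        apply hune
        apply form_inj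
        rw [form_zero, ← h]
        unfold form
        rw [Fin.sum_univ_three]
        ring
      have hD : D0 = 0 ∧ D1 = 0 ∧ D2 = 0 := by
        have e0 : D0 = 0 := by
          apply (mul_eq_zero.1 (show D0 * (X 0 * C (u 0) + X 1 * C (u 1) + X 2 * C (u 2)) = 0 by
            linear_combination C (u 0) * hXD + X 1 * c01 - X 2 * c20)).resolve_right hfu
        have e1 : D1 = 0 := by
          apply (mul_eq_zero.1 (show D1 * (X 0 * C (u 0) + X 1 * C (u 1) + X 2 * C (u 2)) = 0 by
            linear_combination C (u 1) * hXD + X 2 * c12 - X 0 * c01)).resolve_right hfu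
        have e2 : D2 = 0 := by
          apply (mul_eq_zero.1 (show D2 * (X 0 * C (u 0) + X 1 * C (u 1) + X 2 * C (u 2)) = 0 by
            linear_combination C (u 2) * hXD + X 0 * c20 - X 1 * c12)).resolve_right hfu
        exact ⟨e0, e1, e2⟩
      obtain ⟨e0, e1, e2⟩ := hD
      rw [hD0] at e0
      rw [hD1] at e1
      rw [hD2] at e2
      -- `F = h X`
      have hX0 : Prime (X 0 : MvPolynomial (Fin 3) k) := by
        rw [← Bas.std_y]; exact (Bas.std k).y_prime 0
      have hX01 : ¬ (X 0 : MvPolynomial (Fin 3) k) ∣ X 1 := by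
        rw [← Bas.std_y, ← Bas.std_y]; exact (Bas.std k).y_not_dvd (by decide)
      have hdv : (X 0 : MvPolynomial (Fin 3) k) ∣ X 1 * F 0 := ⟨F 1, by linear_combination -e2⟩
      obtain ⟨q, hq⟩ := (hX0.dvd_or_dvd hdv).resolve_left hX01
      have hF1 : F 1 = X 1 * q := by
        apply mul_left_cancel₀ hX0.ne_zero
        rw [hq] at e2
        linear_combination e2
      have hF2 : F 2 = X 2 * q := by
        apply mul_left_cancel₀ hX0.ne_zero
        rw [hq] at e1
        linear_combination -e1
      have hFall : ∀ r, F r = X r * q := by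
        intro r
        fin_cases r
        · exact hq
        · exact hF1
        · exact hF2
      have hFmem : ∀ r, F r ∈ ptIdeal Z := by
        intro r
        rw [hF, ← P.fspan]
        exact Ideal.sum_mem _ fun i _ => Ideal.mul_mem_left _ _ (Ideal.subset_span ⟨i, rfl⟩)
      have hqmem : q ∈ ptIdeal Z := by
        rw [mem_ptIdeal]
        intro x hx
        obtain ⟨r, hr⟩ := Function.ne_iff.1 (hZ.ne0 x hx)
        have h1 := (mem_ptIdeal.1 (hFmem r)) x hx
        rw [hFall] at h1
        refine ((reesKer_isPrime x).mem_or_mem h1).resolve_left fun h2 => hr ?_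
        rw [mem_reesKer_homog _ (isHomogeneous_X _ _), aeval_X] at h2
        exact h2
      have hF0ne : F 0 ≠ 0 := by
        intro h0
        rw [hF] at h0
        obtain ⟨e, he⟩ := (P.syz (fun i => C (z 0 i))).1 h0
        have hz0 : z 0 = 0 := by
          funext i
          have h1 := congrArg constantCoeff (congrFun he i)
          rw [constantCoeff_C, Finset.sum_apply, map_sum] at h1
          rw [h1]
          apply Finset.sum_eq_zero
          intro j _
          rw [Pi.smul_apply, smul_eq_mul, map_mul, P.const, mul_zero]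
        have h1 := hind (Pi.single 0 1) (by
          simp only [Pi.single_apply, ite_smul, one_smul, zero_smul, Finset.sum_ite_eq',
            Finset.mem_univ, if_true]
          exact hz0)
        have := congrFun h1 0
        simp at this
      have hqne : q ≠ 0 := by
        rintro rfl
        rw [hq, mul_zero] at hF0ne
        exact hF0ne rfl
      apply hqne
      rw [← sum_homogeneousComponent q]
      apply Finset.sum_eq_zero
      intro d hd'
      rw [Finset.mem_range] at hd'
      apply P.low hqmem
      rw [ha 0]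
      have h3 := (hFd 0).totalDegree hF0ne
      rw [hq, totalDegree_mul_of_isDomain hX0.ne_zero hqne, totalDegree_X] at h3
      omega
    · push Not at hind
      obtain ⟨γ, hγ, hγ0⟩ := hind
      obtain ⟨b, hb⟩ := exists_bas_A hγ0
      -- the forms in the new coordinates
      obtain ⟨zh, hzh⟩ : ∃ zh : Fin 3 → Fin 4 → k, ∀ r, zh r = ∑ i, b.A r i • z i := ⟨_, fun r => rfl⟩
      have hzh1 : zh 1 = 0 := by rw [hzh, hb, hγ]
      have hzz : ∀ i, z i = b.W i 0 • zh 0 + b.W i 2 • zh 2 := by
        intro i
        have h1 : z i = ∑ r, b.W i r • zh r := by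
          simp only [hzh, Finset.smul_sum, smul_smul]
          rw [Finset.sum_comm]
          simp only [← Finset.sum_smul]
          have h2 : ∀ l, ∑ r, b.W i r * b.A r l = if i = l then 1 else 0 := by
            intro l
            have := congrFun (congrFun b.WA i) l
            rw [Matrix.mul_apply, Matrix.one_apply] at this
            exact this
          simp only [h2, ite_smul, one_smul, zero_smul, Finset.sum_ite_eq, Finset.mem_univ, if_true]
        rw [Fin.sum_univ_three, hzh1, smul_zero, add_zero] at h1
        exact h1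
      have hval : ∀ (j : Fin 3) (i : Fin 4) (r : Fin 3), aeval (b.w r) (form (lcv (P.g j i))) =
          lcv (P.g j i) 0 * b.W 0 r + lcv (P.g j i) 1 * b.W 1 r + lcv (P.g j i) 2 * b.W 2 r := by
        intro j i r
        rw [aeval_form', Fin.sum_univ_three]; rfl
      have hcol : ∀ j : Fin 3, P.Ac j 0 * form (z 0) + P.Ac j 1 * form (z 1) +
          P.Ac j 2 * form (z 2) = 0 →
          form (fun i => aeval (b.w 0) (form (lcv (P.g j i)))) * form (zh 0) +
          form (fun i => aeval (b.w 2) (form (lcv (P.g j i)))) * form (zh 2) = 0 := by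
        intro j hj
        have h1 : ∀ r : Fin 3, form (fun i => aeval (b.w r) (form (lcv (P.g j i)))) =
            C (b.W 0 r) * P.Ac j 0 + C (b.W 1 r) * P.Ac j 1 + C (b.W 2 r) * P.Ac j 2 := by
          intro r
          unfold Ac
          rw [← form_smul, ← form_smul, ← form_smul, ← form_add, ← form_add]
          congr 1
          funext i
          rw [hval]
          simp only [Pi.add_apply, Pi.smul_apply, smul_eq_mul]
          ring
        have h2 : ∀ i, form (z i) = C (b.W i 0) * form (zh 0) + C (b.W i 2) * form (zh 2) := by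
          intro i
          rw [← form_smul, ← form_smul, ← form_add, ← hzz]
        rw [h1, h1]
        rw [h2 0, h2 1, h2 2] at hj
        linear_combination hj
      have k1 := hcol _ o1'
      have k2 := hcol _ o2'
      by_cases z0 : zh 0 = 0
      · have z2 : form (zh 2) ≠ 0 := by
          intro h'
          rw [← form_zero] at h'
          have h'' := form_inj h'
          apply hz
          funext i
          rw [hzz, z0, h'', smul_zero, smul_zero, add_zero]; rfl
        have key : ∀ j : Fin 3, form (fun i => aeval (b.w 0) (form (lcv (P.g j i)))) * form (zh 0) +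
          form (fun i => aeval (b.w 2) (form (lcv (P.g j i)))) * form (zh 2) = 0 →
          ∀ i, aeval (b.w 2) (form (lcv (P.g j i))) = 0 := by
          intro j hj i
          rw [z0, form_zero, mul_zero, zero_add] at hj
          have h2 := (mul_eq_zero.1 hj).resolve_right z2
          rw [← form_zero] at h2
          exact congrFun (form_inj h2) i
        refine P.no_common_zero hZ c (z := b.w 2) ?_ (fun i => ?_) (fun i => ?_)
        · have := b.comb_ne_zero (s := 1) (t := 0) (Or.inl one_ne_zero) (i := 2) (j := 1)
            (by decide)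
          rw [one_smul, zero_smul, add_zero] at this
          exact this
        · rw [← hg1]; exact key _ k1 i
        · rw [← hg2]; exact key _ k2 i
      · have z0' : form (zh 0) ≠ 0 := by
          intro h'
          rw [← form_zero] at h'
          exact z0 (form_inj h')
        by_cases hpar : ∃ t : k, zh 2 = t • zh 0
        · obtain ⟨t, ht⟩ := hpar
          have key : ∀ j : Fin 3,
            form (fun i => aeval (b.w 0) (form (lcv (P.g j i)))) * form (zh 0) +
            form (fun i => aeval (b.w 2) (form (lcv (P.g j i)))) * form (zh 2) = 0 →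
            ∀ i, aeval ((1 : k) • b.w 0 + t • b.w 2 : Fin 3 → k) (form (lcv (P.g j i))) = 0 := by
            intro j hj i
            rw [b.aeval_comb]
            rw [ht, form_smul] at hj
            have h2 : (form (fun i => aeval (b.w 0) (form (lcv (P.g j i)))) +
                C t * form (fun i => aeval (b.w 2) (form (lcv (P.g j i))))) * form (zh 0) = 0 := by
              linear_combination hj
            have h3 := (mul_eq_zero.1 h2).resolve_right z0'
            rw [← form_smul, ← form_add, ← form_zero] at h3
            have h4 := congrFun (form_inj h3) i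
            simp only [Pi.add_apply, Pi.smul_apply, smul_eq_mul, Pi.zero_apply] at h4
            rw [one_mul]
            exact h4
          refine P.no_common_zero hZ c (z := (1 : k) • b.w 0 + t • b.w 2)
            (b.comb_ne_zero (Or.inl one_ne_zero) (by decide)) (fun i => ?_) (fun i => ?_)
          · rw [← hg1]; exact key _ k1 i
          · rw [← hg2]; exact key _ k2 i
        · push Not at hpar
          have key : ∀ j : Fin 3,
            form (fun i => aeval (b.w 0) (form (lcv (P.g j i)))) * form (zh 0) +
            form (fun i => aeval (b.w 2) (form (lcv (P.g j i)))) * form (zh 2) = 0 →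
            ∃ κ : k, (∀ i, aeval (b.w 2) (form (lcv (P.g j i))) = -(κ * zh 0 i)) ∧
              (∀ i, aeval (b.w 0) (form (lcv (P.g j i))) = κ * zh 2 i) := by
            intro j hj
            obtain ⟨κ, hκ1, hκ2⟩ := lin_mul_eq (a := fun i => aeval (b.w 0) (form (lcv (P.g j i))))
              (b := (-1 : k) • fun i => aeval (b.w 2) (form (lcv (P.g j i)))) z0 hpar (by
                rw [form_smul, map_neg, map_one]
                linear_combination hj)
            refine ⟨κ, fun i => ?_, fun i => ?_⟩
            · have := congrFun hκ1 i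
              simp only [Pi.smul_apply, smul_eq_mul] at this
              linear_combination -this
            · exact congrFun hκ2 i
          obtain ⟨κ, hκ2, hκ0⟩ := key _ k1
          obtain ⟨κ', hκ'2, hκ'0⟩ := key _ k2
          obtain ⟨s, t, hst, hst'⟩ : ∃ s t : k, (s ≠ 0 ∨ t ≠ 0) ∧ s * κ + t * κ' = 0 := by
            by_cases hk : κ = 0
            · exact ⟨1, 0, Or.inl one_ne_zero, by rw [hk]; ring⟩
            · exact ⟨κ', -κ, Or.inr (neg_ne_zero.2 hk), by ring⟩
          apply (b.y_prime 1).not_isUnit
          apply P.primitive (Pi.single (c + 1) s + Pi.single (c + 2) t) ?_ (b.y 1)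
          · intro i
            have h1 : (∑ j, (C ((Pi.single (c + 1) s + Pi.single (c + 2) t : Fin 3 → k) j) :
                MvPolynomial (Fin 3) k) • P.g j) = (C s : MvPolynomial (Fin 3) k) • P.g (c + 1) +
                (C t : MvPolynomial (Fin 3) k) • P.g (c + 2) := by
              simp only [Pi.add_apply, map_add, add_smul, Finset.sum_add_distrib, sum_C_single]
            rw [h1]
            simp only [Pi.add_apply, Pi.smul_apply, smul_eq_mul]
            rw [← hg1 i, ← hg2 i, b.form_eq (lcv (P.g (c + 1) i)), b.form_eq (lcv (P.g (c + 2) i)),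
              hκ2, hκ0, hκ'2, hκ'0]
            refine ⟨C s * C (aeval (b.w 1) (form (lcv (P.g (c + 1) i)))) +
              C t * C (aeval (b.w 1) (form (lcv (P.g (c + 2) i)))), ?_⟩
            have h2 : (C s * C κ + C t * C κ' : MvPolynomial (Fin 3) k) = 0 := by
              have := congrArg (C : k → MvPolynomial (Fin 3) k) hst'
              rw [map_add, map_mul, map_mul, map_zero] at this
              exact this
            simp only [map_neg, map_mul]
            linear_combination (C (zh 2 i) * b.y 0 - C (zh 0 i) * b.y 2) * h2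
          · intro h0
            rcases hst with hs | ht
            · have h4 := congrFun h0 (c + 1)
              rw [Pi.add_apply, Pi.single_eq_same, Pi.single_eq_of_ne h12, add_zero] at h4
              exact hs h4
            · have h4 := congrFun h0 (c + 2)
              rw [Pi.add_apply, Pi.single_eq_same, Pi.single_eq_of_ne h12.symm, zero_add] at h4
              exact ht h4

theorem ww_cop (hZ : Good Z) {d0 : ℕ} (ha : ∀ i, P.a i = d0) (a : Fin 3 → MvPolynomial (Fin 4) k)
    (h : ∀ i j, a i * P.ww c j = a j * P.ww c i) : ∃ β, ∀ i, a i = β * P.ww c i := by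
  obtain ⟨i0, hi0⟩ := Function.ne_iff.1 (P.ww_ne_zero c hb1 hb2)
  rw [Pi.zero_apply] at hi0
  obtain ⟨β, hβ⟩ := dvd_of_dvd_all (P.ww c) (by
    intro π hπ
    by_contra hcon
    push Not at hcon
    exact P.ww_not_dvd c hb1 hb2 hZ ha hπ hcon) (P.ww c i0) (a i0) (fun i => ⟨a i, by
      have := h i0 i
      linear_combination this⟩) hi0
  refine ⟨β, fun i => ?_⟩
  apply mul_right_cancel₀ hi0
  rw [h i i0, hβ]; ring

end

end HB

end Pool.Agent.LibH27.RT
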