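import Pool.Agent.Lib_helper27.RT.Alpha4

/-!
# Four generators of the same degree: relation type five
-/

namespace Pool.Agent.LibH27.RT

open MvPolynomial

variable {k : Type*} [Field k]

namespace HB

variable {Z : Finset (Fin 3 → k)} (P : HB Z 3)

theorem ev0_C_X (n : ℕ) (i : Fin 3) :
    ev0 (k := k) n (C (X i)) = 0 := by
  rw [← Bas.std_y]; exact ev0_C_y _ _ _

theorem alpha4 (hZ : Good Z) {d0 : ℕ} (hd0 : 0 < d0) (ha : ∀ i, P.a i = d0) (c : Fin 3)
    (hbc : P.b c = d0 + 2) (hb1 : P.b (c + 1) = d0 + 1) (hb2 : P.b (c + 2) = d0 + 1) :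
    GenDeg P.f 5 ∧ ¬ GenDeg P.f 4 := by
  classical
  have hb1' : ∀ i, P.b (c + 1) = P.a i + 1 := fun i => by rw [ha, hb1]
  have hb2' : ∀ i, P.b (c + 2) = P.a i + 1 := fun i => by rw [ha, hb2]
  have hc1 : c + 1 ≠ c := by clear * -; fin_cases c <;> decide
  have hc2 : c + 2 ≠ c := by clear * -; fin_cases c <;> decide
  -- the quadratic column
  have hq : ∀ i, ∃ H : Fin 3 → Fin 3 → k, P.g c i = ∑ r, X r * form (H r) := by
    intro i
    apply exists_quad
    have := (P.hg c).homog i
    rwa [hbc, ha, Nat.add_sub_cancel_left] at this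
  choose H hH using hq
  let Hf : Fin 3 → Fin 3 → MvPolynomial (Fin 4) k := fun r s => form fun i => H i r s
  let M : Fin 3 → Fin 3 → MvPolynomial (Fin 4) (MvPolynomial (Fin 3) k) := fun r j =>
    if j = c then form fun i => form (H i r) else iot 4 (P.Ac j r)
  have hMc : ∀ r, M r c = C (X 0) * iot 4 (Hf r 0) + C (X 1) * iot 4 (Hf r 1) +
      C (X 2) * iot 4 (Hf r 2) := by
    intro r
    simp only [M, if_true, Hf]
    rw [iot_form, iot_form, iot_form, ← form_smul, ← form_smul, ← form_smul, ← form_add,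
      ← form_add]
    congr 1
    funext i
    simp only [Pi.add_apply, Pi.smul_apply, smul_eq_mul]
    unfold form
    rw [Fin.sum_univ_three]
    ring
  have hM1 : ∀ r, M r (c + 1) = iot 4 (P.Ac (c + 1) r) := by
    intro r; simp only [M, if_neg hc1]
  have hM2 : ∀ r, M r (c + 2) = iot 4 (P.Ac (c + 2) r) := by
    intro r; simp only [M, if_neg hc2]
  have hGc : P.G c = C (X 0) * M 0 c + C (X 1) * M 1 c + C (X 2) * M 2 c := by
    simp only [M, if_true]
    rw [← form_smul, ← form_smul, ← form_smul, ← form_add, ← form_add]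
    unfold G
    congr 1
    funext i
    rw [hH i, Fin.sum_univ_three]
    simp only [Pi.add_apply, Pi.smul_apply, smul_eq_mul]
  have hM : ∀ j, P.G j = C (X 0) * M 0 j + C (X 1) * M 1 j + C (X 2) * M 2 j := by
    intro j
    have hj : j = c ∨ j = c + 1 ∨ j = c + 2 := by
      clear * -; fin_cases c <;> fin_cases j <;> decide
    rcases hj with rfl | rfl | rfl
    · exact hGc
    · rw [hM1, hM1, hM1]; exact P.G_lin hb1'
    · rw [hM2, hM2, hM2]; exact P.G_lin hb2'
  have hMh : ∀ r j, (M r j).IsHomogeneous 1 := by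
    intro r j
    simp only [M]
    by_cases h : j = c
    · rw [if_pos h]; exact form_homog _
    · rw [if_neg h]; exact iot_homog (form_homog _)
  have hcof : ∀ r, cof M r c = iot 4 (P.ww c r) := by
    intro r
    unfold cof ww
    rw [hM1, hM1, hM2, hM2, map_sub, map_mul, map_mul]
  have hdet : det3 M = M 0 c * iot 4 (P.ww c 0) + M 1 c * iot 4 (P.ww c 1) +
      M 2 c * iot 4 (P.ww c 2) := by
    rw [← hcof, ← hcof, ← hcof, det3_col M c]
    unfold cof
    simp only [zero_add, show (1 : Fin 3) + 1 = 2 from rfl, show (1 : Fin 3) + 2 = 0 from rfl,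
      show (2 : Fin 3) + 1 = 0 from rfl, show (2 : Fin 3) + 2 = 1 from rfl]
    ring
  let σ : Fin 3 → MvPolynomial (Fin 4) k := fun s =>
    Hf 0 s * P.ww c 0 + Hf 1 s * P.ww c 1 + Hf 2 s * P.ww c 2
  have hdet' : det3 M = C (X 0) * iot 4 (σ 0) + C (X 1) * iot 4 (σ 1) + C (X 2) * iot 4 (σ 2) := by
    rw [hdet, hMc, hMc, hMc]
    simp only [σ, map_add, map_mul]
    ring
  let F0 : MvPolynomial (Fin 4) k := σ 0 * P.ww c 0 + σ 1 * P.ww c 1 + σ 2 * P.ww c 2
  -- memberships
  have hG1 := P.G_lin hb1'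
  have hG2 := P.G_lin hb2'
  have hK : ∀ r : Fin 3, C (X (r + 1)) * iot 4 (P.ww c (r + 2)) -
      C (X (r + 2)) * iot 4 (P.ww c (r + 1)) ∈ synL P.f := by
    intro r
    have h1 := Ideal.sub_mem _ (Ideal.mul_mem_left _ (iot 4 (P.Ac (c + 1) r)) (P.G_mem (c + 2)))
      (Ideal.mul_mem_left _ (iot 4 (P.Ac (c + 2) r)) (P.G_mem (c + 1)))
    convert h1 using 1
    rw [hG1, hG2]
    unfold ww
    fin_cases r <;> simp only [Fin.zero_eta, Fin.mk_one, Fin.reduceFinMk, zero_add,
      show (1 : Fin 3) + 1 = 2 from rfl, show (1 : Fin 3) + 2 = 0 from rfl,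
      show (2 : Fin 3) + 1 = 0 from rfl, show (2 : Fin 3) + 2 = 1 from rfl, map_sub, map_mul] <;>
      ring
  have K0 := hK 0
  have K1 := hK 1
  have K2 := hK 2
  simp only [zero_add, show (1 : Fin 3) + 1 = 2 from rfl, show (1 : Fin 3) + 2 = 0 from rfl,
      show (2 : Fin 3) + 1 = 0 from rfl, show (2 : Fin 3) + 2 = 1 from rfl] at K0 K1 K2
  apply P.genDeg_five (Bas.std k) M (by intro j; simp only [Bas.std_y]; exact hM j) hZ hMh c
    (P.ww c) (fun r => by rw [hcof, ev0_iot]) (P.ww_cop c hb1' hb2' hZ ha) ?_ (iot 4 F0) ?_ ?_ ?_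
  · rw [hdet']
    simp only [map_add, map_mul, ev0_C_X]; ring
  · apply iot_homog
    have hσ : ∀ s, (σ s).IsHomogeneous 3 := fun s =>
      (((form_homog _).mul (P.ww_homog c 0)).add ((form_homog _).mul (P.ww_homog c 1))).add
        ((form_homog _).mul (P.ww_homog c 2))
    exact (((hσ 0).mul (P.ww_homog c 0)).add ((hσ 1).mul (P.ww_homog c 1))).add
      ((hσ 2).mul (P.ww_homog c 2))
  · rw [ev0_iot]
    intro hF
    apply P.ww_ne_zero c hb1' hb2'
    apply P.no_point hZ hd0 ha
    intro j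
    have hj : j = c ∨ j = c + 1 ∨ j = c + 2 := by
      clear * -; fin_cases c <;> fin_cases j <;> decide
    rcases hj with rfl | rfl | rfl
    · rw [hGc, hMc, hMc, hMc]
      simp only [map_add, map_mul, theta_C, aeval_X, theta_iot]
      rw [← hF]
      simp only [F0, σ]
      ring
    · rw [hG1]
      simp only [map_add, map_mul, theta_C, aeval_X, theta_iot]
      rw [← P.ww_orth1 c]; ring
    · rw [hG2]
      simp only [map_add, map_mul, theta_C, aeval_X, theta_iot]
      rw [← P.ww_orth2 c]; ring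
  · intro i
    refine ⟨iot 4 (P.ww c i), by rw [ev0_iot], ?_⟩
    rw [Bas.std_y, hdet']
    simp only [F0, map_add, map_mul]
    fin_cases i
    · have h1 := Ideal.sub_mem _ (Ideal.mul_mem_left _ (iot 4 (σ 1)) K2)
        (Ideal.mul_mem_left _ (iot 4 (σ 2)) K1)
      convert h1 using 1
      simp only [Fin.zero_eta]
      ring
    · have h1 := Ideal.sub_mem _ (Ideal.mul_mem_left _ (iot 4 (σ 2)) K0)
        (Ideal.mul_mem_left _ (iot 4 (σ 0)) K2)
      convert h1 using 1
      simp only [Fin.mk_one]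
      ring
    · have h1 := Ideal.sub_mem _ (Ideal.mul_mem_left _ (iot 4 (σ 0)) K1)
        (Ideal.mul_mem_left _ (iot 4 (σ 1)) K0)
      convert h1 using 1
      simp only [Fin.reduceFinMk]
      ring

/-- Four generators of the same degree with linear syzygies: relation type three. -/
theorem alpha_lin (hZ : Good Z) {d0 : ℕ} (hd0 : 0 < d0) (ha : ∀ i, P.a i = d0)
    (hb : ∀ j, P.b j = d0 + 1) : ∃ D : MvPolynomial (Fin 4) k, D ≠ 0 ∧ D.IsHomogeneous 3 ∧
      (∀ r : Fin 3, C (X r) * iot 4 D ∈ synL P.f) ∧ reesKer P.f = synL P.f ⊔ Ideal.span {iot 4 D} := by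
  classical
  have hb' : ∀ j i, P.b j = P.a i + 1 := fun j i => by rw [ha, hb]
  let M : Fin 3 → Fin 3 → MvPolynomial (Fin 4) (MvPolynomial (Fin 3) k) := fun r j =>
    iot 4 (P.Ac j r)
  let A : Fin 3 → Fin 3 → MvPolynomial (Fin 4) k := fun r j => P.Ac j r
  have hMA : det3 M = iot 4 (det3 A) := by
    simp only [M, A, det3, map_add, map_sub, map_mul]
  have hM : ∀ j, P.G j = C (X 0) * M 0 j + C (X 1) * M 1 j + C (X 2) * M 2 j :=
    fun j => P.G_lin (hb' j)
  have hM' : ∀ j, P.G j = C ((Bas.std k).y 0) * M 0 j + C ((Bas.std k).y 1) * M 1 j +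
      C ((Bas.std k).y 2) ^ (0 + 1) * M 2 j := by
    intro j
    rw [Bas.std_y, Bas.std_y, Bas.std_y, hM j]; ring
  have hD : det3 A ≠ 0 := by
    intro h
    -- a kernel vector
    have h1 : (Matrix.of fun (j r : Fin 3) => A r j).det = 0 := by
      rw [Matrix.det_fin_three, ← h]
      simp only [Matrix.of_apply, det3]
      ring
    rw [← Matrix.exists_mulVec_eq_zero_iff] at h1
    obtain ⟨w, hw, hw0⟩ := h1
    apply hw
    apply P.no_point hZ hd0 ha
    intro j
    have h2 := congrFun hw0 j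
    rw [Matrix.mulVec, dotProduct, Fin.sum_univ_three, Pi.zero_apply] at h2
    simp only [Matrix.of_apply] at h2
    rw [hM j]
    simp only [M, map_add, map_mul, theta_C, aeval_X, theta_iot]
    linear_combination h2
  have hdet := P.y_mul_det (Bas.std k) 0 M hM'
  rw [Bas.std_y, Bas.std_y, Bas.std_y, hMA] at hdet
  obtain ⟨e0, e1, e2⟩ := hdet
  rw [zero_add, pow_one] at e2
  refine ⟨det3 A, hD, ?_, ?_, ?_⟩
  · unfold det3
    have key : ∀ a b c d e f : Fin 3, (A a b * (A c d * A e f)).IsHomogeneous 3 := fun a b c d e f =>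
      (form_homog _).mul ((form_homog _).mul (form_homog _))
    simp only [mul_sub]
    exact (((key _ _ _ _ _ _).sub (key _ _ _ _ _ _)).sub
      ((key _ _ _ _ _ _).sub (key _ _ _ _ _ _))).add ((key _ _ _ _ _ _).sub (key _ _ _ _ _ _))
  · intro r
    fin_cases r
    · exact e0
    · exact e1
    · exact e2
  · rw [← hMA]
    apply le_antisymm
    · intro q hq
      rw [← sum_homogeneousComponent q]
      refine Ideal.sum_mem _ fun d _ => ?_
      have h1 := homogeneousComponent_isHomogeneous d q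
      refine P.absorb_le hZ (Bas.std k) _ le_sup_left
        (P.absorbA (Bas.std k) 0 M hM' hZ (by rw [hMA, ev0_iot]; exact hD)) d _ h1
        ((mem_reesKer_homog _ h1).1 (comp_mem_reesKer _ hq d))
    · rw [sup_le_iff]
      refine ⟨synL_le_reesKer _, ?_⟩
      rw [Ideal.span_singleton_le_iff_mem]
      exact P.det_mem_reesKer (Bas.std k) 0 M hM'

end HB

end Pool.Agent.LibH27.RT
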