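import Pool.Agent.Lib_helper27.RT.Defs

/-!
# Rees kernels and the degrees of their generators
-/

namespace Pool.Agent.LibH27.RT

open MvPolynomial

section

variable {R : Type*} [CommRing R] {σ : Type*}

theorem aeval_mul_homog {A : Type*} [CommRing A] [Algebra R A] {φ : MvPolynomial σ R} {d : ℕ}
    (h : φ.IsHomogeneous d) (a : A) (g : σ → A) :
    aeval (fun i => a * g i) φ = a ^ d * aeval g φ := by
  simp only [aeval_def, eval₂_eq]
  rw [Finset.mul_sum]
  refine Finset.sum_congr rfl fun m hm => ?_
  have h1 := h.degree_eq_sum_deg_support hm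
  simp only [mul_pow]
  rw [Finset.prod_mul_distrib, Finset.prod_pow_eq_pow_sum, ← h1]
  ring

variable {n : ℕ}

theorem reesMap_homog (f : Fin n → R) {q : MvPolynomial (Fin n) R} {d : ℕ}
    (hq : q.IsHomogeneous d) :
    reesMap f q = Polynomial.C (aeval f q) * Polynomial.X ^ d := by
  unfold reesMap
  have h1 : (fun i => Polynomial.C (f i) * Polynomial.X) =
      fun i => (Polynomial.X : Polynomial R) * algebraMap R (Polynomial R) (f i) := by
    funext i
    rw [mul_comm]
    rfl
  rw [h1, aeval_mul_homog hq, mul_comm]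
  congr 1
  have h2 := (aeval_algebraMap_apply (Polynomial R) f q)
  exact h2

theorem mem_reesKer_homog (f : Fin n → R) {q : MvPolynomial (Fin n) R} {d : ℕ}
    (hq : q.IsHomogeneous d) : q ∈ reesKer f ↔ aeval f q = 0 := by
  unfold reesKer
  rw [RingHom.mem_ker]
  change reesMap f q = 0 ↔ _
  rw [reesMap_homog f hq]
  constructor
  · intro h
    have := congrArg (fun p => Polynomial.coeff p d) h
    simpa using this
  · intro h
    rw [h]; simp

theorem comp_mem_reesKer (f : Fin n → R) {q : MvPolynomial (Fin n) R} (hq : q ∈ reesKer f)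
    (d : ℕ) : homogeneousComponent d q ∈ reesKer f := by
  rw [mem_reesKer_homog f (homogeneousComponent_isHomogeneous d q)]
  unfold reesKer at hq
  rw [RingHom.mem_ker] at hq
  change reesMap f q = 0 at hq
  rw [← sum_homogeneousComponent q, map_sum] at hq
  by_cases hd : d ∈ Finset.range (q.totalDegree + 1)
  · have h1 := congrArg (fun p => Polynomial.coeff p d) hq
    simp only [Polynomial.finsetSum_coeff, Polynomial.coeff_zero] at h1
    rw [Finset.sum_eq_single d] at h1
    · rw [reesMap_homog f (homogeneousComponent_isHomogeneous d q)] at h1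
      simpa using h1
    · intro e _ hed
      rw [reesMap_homog f (homogeneousComponent_isHomogeneous e q)]
      rw [Polynomial.coeff_C_mul, Polynomial.coeff_X_pow, if_neg (Ne.symm hed), mul_zero]
    · intro h
      exact absurd hd h
  · rw [Finset.mem_range, not_lt] at hd
    rw [homogeneousComponent_eq_zero _ _ (by omega), map_zero]

/-- the ideal `Q` is generated by its elements that are homogeneous of `T`-degree `≤ N` -/
def GenDeg (f : Fin n → R) (N : ℕ) : Prop :=
  reesKer f ≤ Ideal.span {q | q ∈ reesKer f ∧ ∃ d ≤ N, q.IsHomogeneous d}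

theorem GenDeg.mono {f : Fin n → R} {N M : ℕ} (h : GenDeg f N) (hNM : N ≤ M) : GenDeg f M := by
  refine h.trans (Ideal.span_mono ?_)
  rintro q ⟨h1, d, hd, h2⟩
  exact ⟨h1, d, hd.trans hNM, h2⟩

/-- It suffices to treat homogeneous elements. -/
theorem genDeg_of {f : Fin n → R} {N : ℕ} {J : Ideal (MvPolynomial (Fin n) R)}
    (hJ : J ≤ Ideal.span {q | q ∈ reesKer f ∧ ∃ d ≤ N, q.IsHomogeneous d})
    (h : ∀ (d : ℕ) (q : MvPolynomial (Fin n) R), q.IsHomogeneous d → aeval f q = 0 → q ∈ J) :
    GenDeg f N := by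
  intro q hq
  apply hJ
  rw [← sum_homogeneousComponent q]
  refine Ideal.sum_mem _ fun d _ => ?_
  have h1 := homogeneousComponent_isHomogeneous d q
  exact h d _ h1 ((mem_reesKer_homog f h1).1 (comp_mem_reesKer f hq d))

theorem sub_mem_of (θ : MvPolynomial σ R →ₐ[R] MvPolynomial σ R) (J : Ideal (MvPolynomial σ R))
    (h : ∀ j, X j - θ (X j) ∈ J) (q : MvPolynomial σ R) : q - θ q ∈ J := by
  have h1 : (Ideal.Quotient.mkₐ R J).comp θ = Ideal.Quotient.mkₐ R J := by
    ext j
    simp only [AlgHom.comp_apply, Ideal.Quotient.mkₐ_eq_mk]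
    rw [eq_comm, Ideal.Quotient.mk_eq_mk_iff_sub_mem]
    exact h j
  have h2 := congrArg (fun g => g q) h1
  simp only [AlgHom.comp_apply, Ideal.Quotient.mkₐ_eq_mk] at h2
  rw [eq_comm, Ideal.Quotient.mk_eq_mk_iff_sub_mem] at h2
  exact h2

/-- the relation between kernels of two generating families -/
theorem genDeg_indep {m : ℕ} {f : Fin n → R} {f' : Fin m → R}
    (h : Ideal.span (Set.range f) = Ideal.span (Set.range f')) {N : ℕ} (hN : 1 ≤ N)
    (hf : GenDeg f N) : GenDeg f' N := by
  have hA : ∀ j, ∃ a : Fin n → R, ∑ i, a i * f i = f' j := by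
    intro j
    have : f' j ∈ Ideal.span (Set.range f) := by
      rw [h]; exact Ideal.subset_span ⟨j, rfl⟩
    rw [Ideal.mem_span_range_iff_exists_fun] at this
    exact this
  have hB : ∀ i, ∃ b : Fin m → R, ∑ j, b j * f' j = f i := by
    intro i
    have : f i ∈ Ideal.span (Set.range f') := by
      rw [← h]; exact Ideal.subset_span ⟨i, rfl⟩
    rw [Ideal.mem_span_range_iff_exists_fun] at this
    exact this
  choose A hA using hA
  choose B hB using hB
  -- the two substitutions
  let α : MvPolynomial (Fin m) R →ₐ[R] MvPolynomial (Fin n) R :=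
    aeval fun j => ∑ i, C (A j i) * X i
  let β : MvPolynomial (Fin n) R →ₐ[R] MvPolynomial (Fin m) R :=
    aeval fun i => ∑ j, C (B i j) * X j
  have hαf : ∀ q, aeval f (α q) = aeval f' q := by
    intro q
    have : (aeval f).comp α = aeval f' := by
      ext j
      simp only [α, AlgHom.comp_apply, aeval_X, map_sum, map_mul]
      rw [← hA j]
      refine Finset.sum_congr rfl fun i _ => ?_
      rw [show (C (A j i) : MvPolynomial (Fin n) R) = algebraMap R _ (A j i) from rfl,
        AlgHom.commutes]
      rfl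
    exact congrArg (fun g => g q) this
  have hβf : ∀ q, aeval f' (β q) = aeval f q := by
    intro q
    have : (aeval f').comp β = aeval f := by
      ext j
      simp only [β, AlgHom.comp_apply, aeval_X, map_sum, map_mul]
      rw [← hB j]
      refine Finset.sum_congr rfl fun i _ => ?_
      rw [show (C (B j i) : MvPolynomial (Fin m) R) = algebraMap R _ (B j i) from rfl,
        AlgHom.commutes]
      rfl
    exact congrArg (fun g => g q) this
  have hαh : ∀ d q, q.IsHomogeneous d → (α q).IsHomogeneous d := by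
    intro d q hq
    have := hq.aeval (n := 1) (fun j => ∑ i, C (A j i) * X i)
      (fun j => IsHomogeneous.sum _ _ _ fun i _ => isHomogeneous_C_mul_X _ _)
    rwa [one_mul] at this
  have hβh : ∀ d q, q.IsHomogeneous d → (β q).IsHomogeneous d := by
    intro d q hq
    have := hq.aeval (n := 1) (fun i => ∑ j, C (B i j) * X j)
      (fun j => IsHomogeneous.sum _ _ _ fun i _ => isHomogeneous_C_mul_X _ _)
    rwa [one_mul] at this
  refine genDeg_of le_rfl fun d q hq hq0 => ?_
  have h1 : q - (β.comp α) q ∈ Ideal.span {q | q ∈ reesKer f' ∧ ∃ d ≤ N, q.IsHomogeneous d} := by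
    refine sub_mem_of (β.comp α) _ (fun j => Ideal.subset_span ?_) q
    have h2 : (X j - (β.comp α) (X j)).IsHomogeneous 1 :=
      (isHomogeneous_X _ _).sub (hβh 1 _ (hαh 1 _ (isHomogeneous_X _ _)))
    refine ⟨?_, 1, hN, h2⟩
    rw [mem_reesKer_homog f' h2, map_sub, AlgHom.comp_apply, hβf, hαf, sub_self]
  have h3 : (β.comp α) q ∈ Ideal.span {q | q ∈ reesKer f' ∧ ∃ d ≤ N, q.IsHomogeneous d} := by
    have h4 : α q ∈ reesKer f := by
      rw [mem_reesKer_homog f (hαh d q hq), hαf, hq0]
    have h5 := Ideal.mem_map_of_mem β.toRingHom (hf h4)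
    rw [Ideal.map_span] at h5
    refine Ideal.span_mono ?_ h5
    rintro _ ⟨g, ⟨hg1, e, he, hg2⟩, rfl⟩
    refine ⟨?_, e, he, hβh e g hg2⟩
    change β g ∈ reesKer f'
    rw [mem_reesKer_homog f' (hβh e g hg2), hβf]
    exact (mem_reesKer_homog f hg2).1 hg1
  have := Ideal.add_mem _ h1 h3
  rwa [sub_add_cancel] at this

/-- the linear form with coefficient vector `φ` -/
noncomputable def form (φ : Fin n → R) : MvPolynomial (Fin n) R := ∑ i, C (φ i) * X i

theorem form_homog (φ : Fin n → R) : (form φ).IsHomogeneous 1 :=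
  IsHomogeneous.sum _ _ _ fun _ _ => isHomogeneous_C_mul_X _ _

theorem aeval_form {A : Type*} [CommRing A] [Algebra R A] (φ : Fin n → R) (f : Fin n → A) :
    aeval f (form φ) = ∑ i, algebraMap R A (φ i) * f i := by
  unfold form
  rw [map_sum]
  refine Finset.sum_congr rfl fun i _ => ?_
  rw [map_mul, aeval_X, aeval_C]

/-- the ideal generated by the linear forms of `T`-degree one in the kernel -/
noncomputable def synL (f : Fin n → R) : Ideal (MvPolynomial (Fin n) R) :=
  Ideal.span {g | ∃ φ : Fin n → R, ∑ i, φ i * f i = 0 ∧ g = form φ}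

theorem form_mem_synL {f φ : Fin n → R} (h : ∑ i, φ i * f i = 0) : form φ ∈ synL f :=
  Ideal.subset_span ⟨φ, h, rfl⟩

theorem form_mem_reesKer {f φ : Fin n → R} : form φ ∈ reesKer f ↔ ∑ i, φ i * f i = 0 := by
  rw [mem_reesKer_homog f (form_homog φ), aeval_form]
  rfl

theorem synL_le_reesKer (f : Fin n → R) : synL f ≤ reesKer f := by
  unfold synL
  rw [Ideal.span_le]
  rintro _ ⟨φ, h, rfl⟩
  exact form_mem_reesKer.2 h

theorem form_add (φ ψ : Fin n → R) : form (φ + ψ) = form φ + form ψ := by
  simp [form, add_mul, Finset.sum_add_distrib]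

theorem form_smul (c : R) (φ : Fin n → R) : form (c • φ) = C c * form φ := by
  simp [form, Finset.mul_sum, mul_assoc]

theorem form_sum {ι : Type*} (s : Finset ι) (φ : ι → Fin n → R) :
    form (∑ j ∈ s, φ j) = ∑ j ∈ s, form (φ j) := by
  classical
  induction s using Finset.induction_on with
  | empty => simp [form]
  | insert a s ha ih => rw [Finset.sum_insert ha, Finset.sum_insert ha, form_add, ih]

theorem form_inj {φ ψ : Fin n → R} (h : form φ = form ψ) : φ = ψ := by
  classical
  funext i
  have := congrArg (coeff (Finsupp.single i 1)) h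
  simpa [form, coeff_sum, coeff_C_mul, coeff_X, Finsupp.single_left_inj] using this

theorem degree_one_iff {ι : Type*} (m : ι →₀ ℕ) : m.degree = 1 ↔ ∃ i, m = Finsupp.single i 1 := by
  constructor
  · intro h
    exact (Finsupp.sum_eq_one_iff m).1 h
  · rintro ⟨i, rfl⟩
    simp

/-- every form homogeneous of degree one is a `form` -/
theorem exists_form {q : MvPolynomial (Fin n) R} (hq : q.IsHomogeneous 1) :
    ∃ φ, q = form φ := by
  classical
  refine ⟨fun i => coeff (Finsupp.single i 1) q, ?_⟩
  ext m
  by_cases hm : ∃ i, m = Finsupp.single i 1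
  · obtain ⟨i, rfl⟩ := hm
    simp [form, coeff_sum, coeff_C_mul, coeff_X, Finsupp.single_left_inj]
  · have h1 : coeff m q = 0 := hq.coeff_eq_zero (d := m) (by
      intro h2
      rw [degree_one_iff] at h2
      exact hm h2)
    rw [h1]
    have h3 := (form_homog (fun i => coeff (Finsupp.single i 1) q)).coeff_eq_zero (d := m) (by
      intro h2
      rw [degree_one_iff] at h2
      exact hm h2)
    rw [h3]

/-- linear type, if all of the kernel is generated by linear forms -/
theorem genDeg_one {f : Fin n → R} (h : reesKer f ≤ synL f) : GenDeg f 1 := by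
  refine h.trans ?_
  unfold synL
  rw [Ideal.span_le]
  rintro _ ⟨φ, h, rfl⟩
  exact Ideal.subset_span ⟨form_mem_reesKer.2 h, 1, le_rfl, form_homog _⟩

end

end Pool.Agent.LibH27.RT
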