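import Pool.Agent.Lib_helper27.RT.Eleven

/-!
# The bigrading of the Rees ideal, minimal generating sets, and the relation type
-/

namespace Pool.Agent.LibH27.RT

open MvPolynomial

variable {k : Type*} [Field k] {n : ℕ}

/-- the component of degree `e` in the first grading -/
noncomputable def xcomp (d : Fin n → ℕ) (e : ℕ)
    (q : MvPolynomial (Fin n) (MvPolynomial (Fin 3) k)) :
    MvPolynomial (Fin n) (MvPolynomial (Fin 3) k) :=
  ∑ m ∈ q.support, monomial m
    (if ∑ i, m i * d i ≤ e then homogeneousComponent (e - ∑ i, m i * d i) (coeff m q) else 0)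

theorem coeff_xcomp (d : Fin n → ℕ) (e : ℕ)
    (q : MvPolynomial (Fin n) (MvPolynomial (Fin 3) k)) (m : Fin n →₀ ℕ) :
    coeff m (xcomp d e q) =
      if ∑ i, m i * d i ≤ e then homogeneousComponent (e - ∑ i, m i * d i) (coeff m q) else 0 := by
  classical
  unfold xcomp
  rw [coeff_sum]
  by_cases hm : m ∈ q.support
  · rw [Finset.sum_eq_single m]
    · rw [coeff_monomial, if_pos rfl]
    · intro m' _ h
      rw [coeff_monomial, if_neg h]
    · intro h; exact absurd hm h
  · rw [Finset.sum_eq_zero]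
    · rw [notMem_support_iff] at hm
      rw [hm, map_zero, ite_self]
    · intro m' hm'
      rw [coeff_monomial, if_neg]
      rintro rfl
      exact hm hm'

theorem isBihom_xcomp (d : Fin n → ℕ) (e : ℕ) {t : ℕ}
    {q : MvPolynomial (Fin n) (MvPolynomial (Fin 3) k)} (hq : q.IsHomogeneous t) :
    IsBihom d e t (xcomp d e q) := by
  constructor
  · intro m hm
    apply hq
    intro h
    rw [coeff_xcomp, h, map_zero, ite_self] at hm
    exact hm rfl
  · intro m hm
    rw [coeff_xcomp] at hm ⊢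
    split_ifs at hm ⊢ with h
    · exact ⟨_, homogeneousComponent_isHomogeneous _ _, by omega⟩
    · exact absurd rfl hm

theorem aeval_xcomp {d : Fin n → ℕ} {f : Fin n → MvPolynomial (Fin 3) k}
    (hf : ∀ i, (f i).IsHomogeneous (d i)) (e : ℕ)
    (q : MvPolynomial (Fin n) (MvPolynomial (Fin 3) k)) :
    aeval f (xcomp d e q) = homogeneousComponent e (aeval f q) := by
  classical
  have hp : ∀ m : Fin n →₀ ℕ, (∏ i, f i ^ m i).IsHomogeneous (∑ i, m i * d i) := by
    intro m
    apply IsHomogeneous.prod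
    intro i _
    have := (hf i).pow (m i)
    rwa [mul_comm] at this
  have h1 : ∀ (m : Fin n →₀ ℕ) (c : MvPolynomial (Fin 3) k),
      aeval f (monomial m c) = c * ∏ i, f i ^ m i := by
    intro m c
    rw [aeval_monomial, Finsupp.prod_fintype _ _ (fun i => pow_zero _)]
    rfl
  have h2 : aeval f q = ∑ m ∈ q.support, coeff m q * ∏ i, f i ^ m i := by
    conv_lhs => rw [← q.support_sum_monomial_coeff]
    rw [map_sum]
    exact Finset.sum_congr rfl fun m _ => h1 m _
  rw [h2, map_sum]
  unfold xcomp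
  rw [map_sum]
  refine Finset.sum_congr rfl fun m _ => ?_
  rw [h1]
  split_ifs with h
  · conv_rhs => rw [show e = (e - ∑ i, m i * d i) + ∑ i, m i * d i by omega]
    rw [hc_mul _ (hp m)]
  · rw [zero_mul, hc_mul_lt _ (hp m) (by omega)]

theorem sum_xcomp (d : Fin n → ℕ) (q : MvPolynomial (Fin n) (MvPolynomial (Fin 3) k)) :
    ∃ N, ∑ e ∈ Finset.range N, xcomp d e q = q := by
  classical
  refine ⟨∑ m ∈ q.support, (∑ i, m i * d i + (coeff m q).totalDegree + 1), ?_⟩
  ext1 m
  rw [coeff_sum]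
  simp only [coeff_xcomp]
  by_cases hm : m ∈ q.support
  · have h1 : ∑ i, m i * d i + (coeff m q).totalDegree + 1 ≤
        ∑ m ∈ q.support, (∑ i, m i * d i + (coeff m q).totalDegree + 1) :=
      Finset.single_le_sum (f := fun m => ∑ i, m i * d i + (coeff m q).totalDegree + 1)
        (fun _ _ => Nat.zero_le _) hm
    generalize ∑ m ∈ q.support, (∑ i, m i * d i + (coeff m q).totalDegree + 1) = N at h1
    generalize ∑ i, m i * d i = w at h1 ⊢
    obtain ⟨M, rfl⟩ : ∃ M, N = w + ((coeff m q).totalDegree + 1) + M :=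
      ⟨_, (Nat.add_sub_of_le (by omega)).symm⟩
    rw [add_assoc, Finset.sum_range_add, Finset.sum_eq_zero, zero_add, Finset.sum_range_add]
    · have h2 : ∀ x, (if w ≤ w + x then homogeneousComponent (w + x - w) (coeff m q) else 0) =
          homogeneousComponent x (coeff m q) := by
        intro x
        rw [if_pos (by omega), Nat.add_sub_cancel_left]
      simp only [h2]
      rw [sum_homogeneousComponent, Finset.sum_eq_zero, add_zero]
      intro x _
      rw [homogeneousComponent_eq_zero _ _ (by omega)]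
    · intro x hx
      rw [Finset.mem_range] at hx
      rw [if_neg (by omega)]
  · rw [notMem_support_iff] at hm
    rw [hm]
    simp

theorem reesKer_le_span {d : Fin n → ℕ} {f : Fin n → MvPolynomial (Fin 3) k}
    (hf : ∀ i, (f i).IsHomogeneous (d i)) :
    reesKer f ≤ Ideal.span ({q | ∃ e t, IsBihom d e t q} ∩ (reesKer f : Set _)) := by
  intro q hq
  rw [← sum_homogeneousComponent q]
  refine Ideal.sum_mem _ fun t _ => ?_
  have h1 := homogeneousComponent_isHomogeneous t q
  have h2 := (mem_reesKer_homog f h1).1 (comp_mem_reesKer f hq t)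
  obtain ⟨N, hN⟩ := sum_xcomp d (homogeneousComponent t q)
  rw [← hN]
  refine Ideal.sum_mem _ fun e _ => Ideal.subset_span ⟨⟨e, t, isBihom_xcomp d e h1⟩, ?_⟩
  rw [SetLike.mem_coe, mem_reesKer_homog f (isBihom_xcomp d e h1).1, aeval_xcomp hf, h2, map_zero]

/-- the kernel has a minimal bihomogeneous generating set -/
theorem exists_min_bihom {d : Fin n → ℕ} {f : Fin n → MvPolynomial (Fin 3) k}
    (hf : ∀ i, (f i).IsHomogeneous (d i)) :
    ∃ G : Set (MvPolynomial (Fin n) (MvPolynomial (Fin 3) k)), IsMinGenSet (reesKer f) G ∧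
      ∀ g ∈ G, ∃ e t, IsBihom d e t g := by
  obtain ⟨p, g, h1, h2, h3⟩ := exists_min_gens {q | ∃ e t, IsBihom d e t q} (reesKer f)
    (reesKer_le_span hf)
  refine ⟨Set.range g, ⟨h2, ?_⟩, ?_⟩
  · rintro _ ⟨j, rfl⟩ h
    apply h3 j
    refine Submodule.span_mono ?_ h
    rintro _ ⟨⟨i, rfl⟩, hi⟩
    exact ⟨i, fun hij => hi (by rw [hij]; rfl), rfl⟩
  · rintro _ ⟨j, rfl⟩
    exact h1 j

/-- elements of small degree do not need generators of large degree -/
theorem mem_span_diff {R σ : Type*} [CommRing R] {G : Set (MvPolynomial σ R)}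
    (hG : ∀ g ∈ G, ∃ t, g.IsHomogeneous t) {g0 : MvPolynomial σ R} {t0 : ℕ}
    (h0 : g0.IsHomogeneous t0) {q : MvPolynomial σ R} (hq : q ∈ Ideal.span G) {t : ℕ}
    (hqt : q.IsHomogeneous t) (ht : t < t0) : q ∈ Ideal.span (G \ {g0}) := by
  have h1 : ∀ r : MvPolynomial σ R, homogeneousComponent t (r * q) ∈ Ideal.span (G \ {g0}) := by
    refine Submodule.span_induction (p := fun s _ => ∀ r : MvPolynomial σ R,
      homogeneousComponent t (r * s) ∈ Ideal.span (G \ {g0})) ?_ ?_ ?_ ?_ hq
    · intro y hy r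
      by_cases hy0 : y = g0
      · rw [hy0, hc_mul_lt r h0 ht]
        exact Ideal.zero_mem _
      · obtain ⟨s, hs⟩ := hG y hy
        by_cases hst : s ≤ t
        · rw [show t = (t - s) + s by omega, hc_mul r hs]
          exact Ideal.mul_mem_left _ _ (Ideal.subset_span ⟨hy, hy0⟩)
        · rw [hc_mul_lt r hs (by omega)]
          exact Ideal.zero_mem _
    · intro r; rw [mul_zero, map_zero]; exact Ideal.zero_mem _
    · intro x y _ _ hx hy r
      rw [mul_add, map_add]
      exact Ideal.add_mem _ (hx r) (hy r)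
    · intro a x _ hx r
      rw [smul_eq_mul, ← mul_assoc]
      exact hx _
  have := h1 1
  rwa [one_mul, homogeneousComponent_eq_self hqt] at this

/-- the largest degree in a minimal generating set -/
theorem isGreatest_of {f : Fin n → MvPolynomial (Fin 3) k}
    {G : Set (MvPolynomial (Fin n) (MvPolynomial (Fin 3) k))} (hG : IsMinGenSet (reesKer f) G)
    (hhom : ∀ g ∈ G, ∃ t, g.IsHomogeneous t) {r : ℕ} (hr : 1 ≤ r) (h1 : GenDeg f r)
    (h2 : ¬ GenDeg f (r - 1)) : IsGreatest {t | ∃ g ∈ G, g.IsHomogeneous t} r := by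
  have hub : ∀ t, (∃ g ∈ G, g.IsHomogeneous t) → t ≤ r := by
    rintro t ⟨g, hg, hgt⟩
    by_contra hlt
    push Not at hlt
    apply hG.2 g hg
    have h3 : g ∈ reesKer f := by
      rw [← hG.1]; exact Ideal.subset_span hg
    have h4 := h1 h3
    refine (Ideal.span_le.2 ?_ : Ideal.span _ ≤ Ideal.span (G \ {g})) h4
    rintro q ⟨hq, s, hs, hqs⟩
    rw [← hG.1] at hq
    exact mem_span_diff hhom hgt hq hqs (by omega)
  refine ⟨?_, fun t ht => hub t ht⟩
  by_contra hcon
  apply h2
  unfold GenDeg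
  conv_lhs => rw [← hG.1]
  rw [Ideal.span_le]
  intro g hg
  obtain ⟨t, ht⟩ := hhom g hg
  have h3 := hub t ⟨g, hg, ht⟩
  have h4 : t ≠ r := by
    rintro rfl
    exact hcon ⟨g, hg, ht⟩
  refine Ideal.subset_span ⟨?_, t, by omega, ht⟩
  rw [← hG.1]; exact Ideal.subset_span hg

end Pool.Agent.LibH27.RT
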