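import Mathlib

/-!
# Relation types of finite sets of points in the projective plane: definitions

`R = k[x, y, z]` is `MvPolynomial (Fin 3) k` and `S = R[T_1, …, T_n]` is
`MvPolynomial (Fin n) (MvPolynomial (Fin 3) k)`.
-/

namespace Pool.Agent.LibH27.RT

open MvPolynomial

/-- The Rees map `R[T_1, …, T_n] → R[t]`, `T_i ↦ f_i t`. Its image is the Rees algebra of the
ideal generated by `f_1, …, f_n`. -/
noncomputable def reesMap {R : Type*} [CommRing R] {n : ℕ} (f : Fin n → R) :
    MvPolynomial (Fin n) R →ₐ[R] Polynomial R :=
  aeval fun i => Polynomial.C (f i) * Polynomial.X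

/-- The kernel of the Rees map. -/
noncomputable def reesKer {R : Type*} [CommRing R] {n : ℕ} (f : Fin n → R) :
    Ideal (MvPolynomial (Fin n) R) :=
  RingHom.ker (reesMap f)

variable {k : Type*} [Field k] {n : ℕ}

/-- `q ∈ S = R[T_1, …, T_n]`, `R = k[x, y, z]`, is bihomogeneous of bidegree `(e, t)`, where
`x, y, z` have bidegree `(1, 0)` and `T_i` has bidegree `(d_i, 1)`: it is homogeneous of degree `t`
in the variables `T`, and every nonzero coefficient of a monomial `T^m` is homogeneous of degree
`e - ∑ m_i d_i`. -/
def IsBihom (d : Fin n → ℕ) (e t : ℕ) (q : MvPolynomial (Fin n) (MvPolynomial (Fin 3) k)) :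
    Prop :=
  q.IsHomogeneous t ∧ ∀ m : Fin n →₀ ℕ, coeff m q ≠ 0 →
    ∃ c, (coeff m q).IsHomogeneous c ∧ c + ∑ i, m i * d i = e

/-- `G` is a minimal generating set of the ideal `I`: it generates `I` and no element of `G` can
be left out. -/
def IsMinGenSet {A : Type*} [CommRing A] (I : Ideal A) (G : Set A) : Prop :=
  Ideal.span G = I ∧ ∀ g ∈ G, g ∉ Ideal.span (G \ {g})

/-- `f_1, …, f_n` is a minimal generating family of the ideal `I`: it generates `I` and no `f_i`
can be left out. -/
def IsMinGenFam {A : Type*} [CommRing A] (I : Ideal A) (f : Fin n → A) : Prop :=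
  Ideal.span (Set.range f) = I ∧ ∀ i, f i ∉ Ideal.span (f '' {j | j ≠ i})

/-- The homogeneous ideal `I_X ⊆ R = k[x, y, z]` of a finite set `X` of points of the projective
plane over `k`: it is generated by the forms which vanish at all points of `X`. (The vanishing of a
form at a point does not depend on the representative of the point.) -/
noncomputable def vanIdeal (X : Finset (Projectivization k (Fin 3 → k))) :
    Ideal (MvPolynomial (Fin 3) k) :=
  Ideal.span {f | ∃ d, f.IsHomogeneous d ∧ ∀ p ∈ X, eval p.rep f = 0}

/-- The data in the definition of the relation type: `f` is a minimal generating family of the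
ideal of `X` which consists of forms, `f i` of degree `d i`, and `G` is a minimal generating set of
the kernel of `S = R[T_1, …, T_n] → R[t]`, `T_i ↦ f_i t`, which consists of bihomogeneous
elements. -/
structure RelData (X : Finset (Projectivization k (Fin 3 → k))) (n : ℕ) (d : Fin n → ℕ)
    (f : Fin n → MvPolynomial (Fin 3) k)
    (G : Set (MvPolynomial (Fin n) (MvPolynomial (Fin 3) k))) : Prop where
  homog : ∀ i, (f i).IsHomogeneous (d i)
  gens : IsMinGenFam (vanIdeal X) f
  rels : IsMinGenSet (reesKer f) G
  bihom : ∀ g ∈ G, ∃ e t, IsBihom d e t g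

/-- `r` is the relation type of `X`: there are data as above, and for all such data `r` is the
largest `T`-degree of an element of `G`. -/
def IsRelType (X : Finset (Projectivization k (Fin 3 → k))) (r : ℕ) : Prop :=
  (∃ n d f G, RelData X n d f G) ∧
    ∀ n d f G, RelData X n d f G → IsGreatest {t | ∃ g ∈ G, g.IsHomogeneous t} r

end Pool.Agent.LibH27.RT
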