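import Pool.Agent.Lib_helper27.RT.AbsorbB
import Pool.Agent.Lib_helper27.RT.Alpha3

/-!
# Algebraic dependence of four forms of the same degree, and its consequences
-/

namespace Pool.Agent.LibH27.RT

open MvPolynomial Cardinal

variable {k : Type*} [Field k]

/-- four forms of the same degree satisfy a homogeneous equation -/
theorem exists_dep {d0 : ℕ} (hd0 : 0 < d0) (f : Fin 4 → MvPolynomial (Fin 3) k)
    (hf : ∀ i, (f i).IsHomogeneous d0) :
    ∃ (e : ℕ) (p : MvPolynomial (Fin 4) k), p ≠ 0 ∧ p.IsHomogeneous e ∧ aeval f p = 0 := by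
  have h1 : ¬ AlgebraicIndependent k f := by
    intro h
    have h2 := h.lift_cardinalMk_le_trdeg
    rw [MvPolynomial.trdeg_of_isDomain] at h2
    simp only [Cardinal.mk_fin, Cardinal.lift_natCast] at h2
    exact absurd (by exact_mod_cast h2) (by norm_num : ¬ (4 ≤ 3))
  rw [algebraicIndependent_iff] at h1
  push Not at h1
  obtain ⟨p, hp, hp0⟩ := h1
  obtain ⟨e, he⟩ : ∃ e, homogeneousComponent e p ≠ 0 := by
    by_contra hcon
    push Not at hcon
    apply hp0
    rw [← sum_homogeneousComponent p]
    exact Finset.sum_eq_zero fun i _ => hcon i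
  refine ⟨e, homogeneousComponent e p, he, homogeneousComponent_isHomogeneous _ _, ?_⟩
  have hh : ∀ i, (aeval f (homogeneousComponent i p)).IsHomogeneous (d0 * i) := fun i =>
    (homogeneousComponent_isHomogeneous i p).aeval f hf
  have h2 := congrArg (fun q => homogeneousComponent (d0 * e) (aeval f q))
    (sum_homogeneousComponent p)
  simp only [map_sum] at h2
  rw [hp, map_zero] at h2
  by_cases hmem : e ∈ Finset.range (p.totalDegree + 1)
  · rw [Finset.sum_eq_single e] at h2
    · rw [homogeneousComponent_eq_self (hh e)] at h2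
      exact h2
    · intro i _ hi
      rw [homogeneousComponent_of_mem (hh i), if_neg]
      intro h
      exact hi (Nat.eq_of_mul_eq_mul_left hd0 h).symm
    · intro h; exact absurd hmem h
  · rw [Finset.mem_range, not_lt] at hmem
    exact absurd (homogeneousComponent_eq_zero _ _ (by omega)) he

/-- substitution of forms in `T` for the coordinates -/
noncomputable def theta {n : ℕ} (w : Fin 3 → MvPolynomial (Fin n) k) :
    MvPolynomial (Fin n) (MvPolynomial (Fin 3) k) →+* MvPolynomial (Fin n) k :=
  eval₂Hom (aeval w : MvPolynomial (Fin 3) k →ₐ[k] MvPolynomial (Fin n) k).toRingHom X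

/-- inclusion of the polynomials with constant coefficients -/
noncomputable def iot (n : ℕ) : MvPolynomial (Fin n) k →+*
    MvPolynomial (Fin n) (MvPolynomial (Fin 3) k) := MvPolynomial.map C

theorem theta_C {n : ℕ} (w : Fin 3 → MvPolynomial (Fin n) k) (r : MvPolynomial (Fin 3) k) :
    theta w (C r) = aeval w r := by
  unfold theta
  rw [coe_eval₂Hom, eval₂_C]
  rfl

theorem theta_iot {n : ℕ} (w : Fin 3 → MvPolynomial (Fin n) k) (p : MvPolynomial (Fin n) k) :
    theta w (iot n p) = p := by
  have : (theta w).comp (iot n) = RingHom.id _ := by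
    apply MvPolynomial.ringHom_ext
    · intro r
      simp [theta, iot]
    · intro i
      simp [theta, iot]
  exact congrArg (fun g => g p) this

theorem ev0_iot {n : ℕ} (p : MvPolynomial (Fin n) k) : ev0 n (iot n p) = p := by
  have : (ev0 n).comp (iot n) = RingHom.id (MvPolynomial (Fin n) k) := by
    apply MvPolynomial.ringHom_ext
    · intro r
      simp [ev0, iot]
    · intro i
      simp [ev0, iot]
  exact congrArg (fun g => g p) this

theorem aeval_iot {n : ℕ} (f : Fin n → MvPolynomial (Fin 3) k) (p : MvPolynomial (Fin n) k) :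
    aeval f (iot n p) = aeval f p := by
  unfold iot
  exact aeval_map_algebraMap (MvPolynomial (Fin 3) k) f p

theorem iot_homog {n : ℕ} {p : MvPolynomial (Fin n) k} {d : ℕ} (h : p.IsHomogeneous d) :
    (iot n p).IsHomogeneous d := h.map _

theorem iot_form {n : ℕ} (φ : Fin n → k) : iot n (form φ) = form fun i => C (φ i) := by
  unfold iot form
  rw [map_sum]
  refine Finset.sum_congr rfl fun i _ => ?_
  rw [map_mul, map_C, map_X]

namespace HB

variable {Z : Finset (Fin 3 → k)} (P : HB Z 3)

/-- The linear forms have no common zero with coordinates in `k[T]`. -/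
theorem no_point (hZ : Good Z) {d0 : ℕ} (hd0 : 0 < d0) (ha : ∀ i, P.a i = d0)
    (w : Fin 3 → MvPolynomial (Fin 4) k) (hw : ∀ j, theta w (P.G j) = 0) : w = 0 := by
  obtain ⟨e, p, hp0, hp, hfp⟩ := exists_dep hd0 P.f (fun i => by rw [← ha i]; exact P.hf i)
  have hL : ∀ x ∈ synL P.f, theta w x = 0 := by
    intro x hx
    obtain ⟨l, rfl⟩ := (P.mem_synL_iff x).1 hx
    rw [map_add, map_add, map_mul, map_mul, map_mul, hw, hw, hw]; ring
  funext i
  have h1 := hZ.torsion P.fspan (iot_homog hp) (by rw [aeval_iot, hfp]) i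
  obtain ⟨N, hN⟩ := h1
  rw [mem_colonB] at hN
  have h2 := hL _ hN
  rw [map_mul, theta_C, theta_iot, map_pow, aeval_X] at h2
  by_contra hne
  exact pow_ne_zero N hne ((mul_eq_zero.1 h2).resolve_right hp0)

end HB

end Pool.Agent.LibH27.RT
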