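import Mathlib

/-!
# Dimensions of spaces of forms in three variables, and Euler characteristics
-/

namespace Pool.Agent.LibH27.RT

open MvPolynomial

variable {k : Type*} [Field k]

theorem homog_iff (d : ℕ) (p : MvPolynomial (Fin 3) k) :
    p ∈ homogeneousSubmodule (Fin 3) k d ↔ ∀ m, m ∉ Finset.univ.finsuppAntidiag d → coeff m p = 0 := by
  constructor
  · intro h m hm
    apply IsHomogeneous.coeff_eq_zero h
    intro hd
    apply hm
    rw [Finset.mem_finsuppAntidiag]
    refine ⟨?_, Finset.subset_univ _⟩
    rw [← hd, Finsupp.degree_eq_sum]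
  · intro h m hm
    by_contra hne
    apply hm
    apply h
    rw [Finset.mem_finsuppAntidiag]
    rintro ⟨h1, _⟩
    apply hne
    rw [← h1]
    simp [Finsupp.weight_apply, Finsupp.sum_fintype]

noncomputable def homogEquiv (d : ℕ) : homogeneousSubmodule (Fin 3) k d ≃ₗ[k]
    (((Finset.univ : Finset (Fin 3)).finsuppAntidiag d) → k) := by
  refine LinearEquiv.ofBijective
    { toFun := fun p m => coeff m.1 p.1
      map_add' := ?_
      map_smul' := ?_ } ⟨?_, ?_⟩
  · intro p q; funext m; simp
  · intro c p; funext m; simp
  · intro p q h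
    apply Subtype.ext
    ext m
    by_cases hm : m ∈ (Finset.univ : Finset (Fin 3)).finsuppAntidiag d
    · exact congrFun h ⟨m, hm⟩
    · rw [(homog_iff d p.1).1 p.2 m hm, (homog_iff d q.1).1 q.2 m hm]
  · intro c
    classical
    refine ⟨⟨∑ m, monomial m.1 (c m), ?_⟩, ?_⟩
    · rw [homog_iff]
      intro m hm
      rw [coeff_sum]
      apply Finset.sum_eq_zero
      intro i _
      rw [coeff_monomial, if_neg]
      rintro rfl
      exact hm i.2
    · funext m
      change coeff m.1 (∑ m, monomial m.1 (c m)) = c m
      rw [coeff_sum, Finset.sum_eq_single m]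
      · rw [coeff_monomial, if_pos rfl]
      · intro i _ hi
        rw [coeff_monomial, if_neg]
        intro h
        exact hi (Subtype.ext h)
      · intro h; exact absurd (Finset.mem_univ _) h

instance (d : ℕ) : FiniteDimensional k (homogeneousSubmodule (Fin 3) k d) :=
  Module.Finite.equiv (homogEquiv d).symm

theorem finrank_homog (d : ℕ) :
    Module.finrank k (homogeneousSubmodule (Fin 3) k d) = (d + 2).choose 2 := by
  rw [(homogEquiv d).finrank_eq, Module.finrank_fintype_fun_eq_card, Fintype.card_coe,
    Finset.card_finsuppAntidiag_nat_eq_choose, Finset.card_univ, Fintype.card_fin]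
  rw [show 3 + d - 1 = d + 2 by omega, ← Nat.choose_symm_add]

theorem finrank_homog' (d : ℕ) :
    2 * Module.finrank k (homogeneousSubmodule (Fin 3) k d) = (d + 1) * (d + 2) := by
  have := Nat.mul_div_cancel' (Nat.even_mul_pred_self (d + 2)).two_dvd
  rw [finrank_homog, Nat.choose_two_right, this, show d + 2 - 1 = d + 1 by omega, mul_comm]

/-- Euler characteristic of an exact sequence of length four -/
theorem exact4 {A B C E : Type*} [AddCommGroup A] [Module k A] [AddCommGroup B] [Module k B]
    [AddCommGroup C] [Module k C] [AddCommGroup E] [Module k E] [FiniteDimensional k A]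
    [FiniteDimensional k B] [FiniteDimensional k C] [FiniteDimensional k E]
    (f : A →ₗ[k] B) (g : B →ₗ[k] C) (h : C →ₗ[k] E) (hf : Function.Injective f)
    (hfg : LinearMap.range f = LinearMap.ker g) (hgh : LinearMap.range g = LinearMap.ker h)
    (hh : Function.Surjective h) :
    Module.finrank k B + Module.finrank k E = Module.finrank k A + Module.finrank k C := by
  have h1 := LinearMap.finrank_range_add_finrank_ker g
  have h2 := LinearMap.finrank_range_add_finrank_ker h
  have h3 := LinearMap.finrank_range_of_inj hf
  rw [LinearMap.range_eq_top.2 hh, finrank_top] at h2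
  rw [← hfg, h3] at h1
  rw [← hgh] at h2
  omega

end Pool.Agent.LibH27.RT
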