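import Pool.Agent.Lib_helper27.RT.FiveB
import Pool.Agent.Lib_helper27.RT.Alpha3b
import Pool.Agent.Lib_helper27.RT.Alpha4b

/-!
# Numerical classification for eleven points
-/

namespace Pool.Agent.LibH27.RT

open MvPolynomial

variable {k : Type*} [Field k]

namespace HB

variable {Z : Finset (Fin 3 → k)} {m : ℕ} (P : HB Z m)

theorem numerics (hc : Z.card = 11) : ∃ δ ε : Fin m → ℕ, (∀ j, P.b j = P.a 0 + ε j + δ j) ∧
    (∀ j, P.a j.succ = P.a 0 + ε j) ∧ (∀ j, 1 ≤ δ j) ∧ ∑ j, δ j = P.a 0 ∧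
    P.a 0 ^ 2 + 2 * ∑ j, ε j * δ j + ∑ j, δ j ^ 2 = 22 := by
  have h1 : ∀ j, ∃ d, P.b j = P.a j.succ + d ∧ 1 ≤ d := fun j =>
    ⟨P.b j - P.a j.succ, by have := P.diag j; omega, by have := P.diag j; omega⟩
  have h2 : ∀ j : Fin m, ∃ e, P.a j.succ = P.a 0 + e := fun j =>
    ⟨P.a j.succ - P.a 0, by have := P.amin j.succ; omega⟩
  choose δ hδ hδ1 using h1
  choose ε hε using h2
  have hb : ∀ j, P.b j = P.a 0 + ε j + δ j := fun j => by rw [hδ, hε]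
  have s1 : ∑ j, δ j = P.a 0 := by
    have h3 := P.sum1
    rw [Fin.sum_univ_succ] at h3
    simp only [hb, hε] at h3
    rw [Finset.sum_add_distrib (f := fun x => P.a 0 + ε x)] at h3
    omega
  refine ⟨δ, ε, hb, hε, hδ1, s1, ?_⟩
  have h4 := P.sum2
  rw [Fin.sum_univ_succ, hc] at h4
  simp only [hb, hε] at h4
  have h5 : ∑ j, (P.a 0 + ε j + δ j) ^ 2 = ∑ j, (P.a 0 + ε j) ^ 2 +
      (2 * P.a 0 * ∑ j, δ j + 2 * ∑ j, ε j * δ j + ∑ j, δ j ^ 2) := by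
    rw [Finset.mul_sum, Finset.mul_sum, ← Finset.sum_add_distrib, ← Finset.sum_add_distrib,
      ← Finset.sum_add_distrib]
    exact Finset.sum_congr rfl fun j _ => by ring
  rw [h5, s1] at h4
  nlinarith

theorem m_cases (hc : Z.card = 11) : m = 1 ∨ m = 2 ∨ (m = 3 ∧ (P.a 0 = 3 ∨ P.a 0 = 4)) ∨
    (m = 4 ∧ P.a 0 = 4) := by
  obtain ⟨δ, ε, -, -, h1, h2, h3⟩ := P.numerics hc
  have h4 : m ≤ P.a 0 := by
    rw [← h2]
    calc m = ∑ _j : Fin m, 1 := by simp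
      _ ≤ _ := Finset.sum_le_sum fun j _ => h1 j
  have h5 : P.a 0 ≤ 4 := by
    by_contra h
    push Not at h
    have : 5 ^ 2 ≤ P.a 0 ^ 2 := Nat.pow_le_pow_left h 2
    omega
  have h6 : m ≠ 0 := by
    rintro rfl
    rw [Finset.univ_eq_empty, Finset.sum_empty] at h2
    rw [Finset.univ_eq_empty, Finset.sum_empty, Finset.sum_empty, ← h2] at h3
    norm_num at h3
  omega

theorem m_of_four (hc : Z.card = 11) (h : 4 ≤ P.a 0) : P.a 0 = 4 ∧ (m = 3 ∨ m = 4) := by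
  have h0 : P.a 0 ≤ 4 := by
    obtain ⟨δ, ε, -, -, h1, h2, h3⟩ := P.numerics hc
    by_contra h
    push Not at h
    have : 5 ^ 2 ≤ P.a 0 ^ 2 := Nat.pow_le_pow_left h 2
    omega
  have h4 : P.a 0 = 4 := by omega
  refine ⟨h4, ?_⟩
  rcases P.m_cases hc with h | h | h | h
  · subst h
    obtain ⟨δ, ε, -, -, h1, h2, h3⟩ := P.numerics hc
    rw [h4] at h2 h3
    rw [Fin.sum_univ_one] at h2 h3
    rw [Fin.sum_univ_one, h2] at h3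
    omega
  · subst h
    obtain ⟨δ, ε, -, -, h1, h2, h3⟩ := P.numerics hc
    rw [h4] at h2 h3
    rw [Fin.sum_univ_two] at h2 h3
    rw [Fin.sum_univ_two] at h3
    have d0 := h1 0
    have d1 := h1 1
    have h5 : (δ 0 = 1 ∧ δ 1 = 3) ∨ (δ 0 = 2 ∧ δ 1 = 2) ∨ (δ 0 = 3 ∧ δ 1 = 1) := by omega
    rcases h5 with ⟨e0, e1⟩ | ⟨e0, e1⟩ | ⟨e0, e1⟩ <;>
    · rw [e0, e1] at h3
      omega
  · exact Or.inl h.1
  · exact Or.inr h.1

end HB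

namespace HB

variable {Z : Finset (Fin 3 → k)}

theorem eleven_a [Infinite k] (P : HB Z 3) (hZ : Good Z) (hc : Z.card = 11) (h : P.a 0 = 3) :
    GenDeg P.f 3 ∧ ¬ GenDeg P.f 2 := by
  obtain ⟨δ, ε, hb, ha, h1, h2, h3⟩ := P.numerics hc
  rw [h] at h2 h3
  simp only [h] at hb ha
  rw [Fin.sum_univ_three] at h2 h3
  have d0 := h1 0
  have d1 := h1 1
  have d2 := h1 2
  have e0 : δ 0 = 1 := by omega
  have e1 : δ 1 = 1 := by omega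
  have e2 : δ 2 = 1 := by omega
  rw [Fin.sum_univ_three] at h3
  rw [e0, e1, e2] at h3
  have hb' : ∀ j, P.b j = P.a j.succ + 1 := by
    intro j
    rw [hb, ha]
    fin_cases j
    · change _ + δ 0 = _; rw [e0]
    · change _ + δ 1 = _; rw [e1]
    · change _ + δ 2 = _; rw [e2]
  have key : ∀ c : Fin 3, 1 ≤ ε c → ε c ≠ ε (c + 1) → ε c ≠ ε (c + 2) →
      GenDeg P.f 3 ∧ ¬ GenDeg P.f 2 := by
    intro c h1 h2 h3
    apply P.alpha3 hZ h hb' c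
    · rw [ha]; omega
    · rw [ha, ha]; omega
    · rw [ha, ha]; omega
  by_cases c0 : 1 ≤ ε 0 ∧ ε 0 ≠ ε 1 ∧ ε 0 ≠ ε 2
  · exact key 0 c0.1 c0.2.1 c0.2.2
  by_cases c1 : 1 ≤ ε 1 ∧ ε 1 ≠ ε 2 ∧ ε 1 ≠ ε 0
  · exact key 1 c1.1 c1.2.1 c1.2.2
  by_cases c2 : 1 ≤ ε 2 ∧ ε 2 ≠ ε 0 ∧ ε 2 ≠ ε 1
  · exact key 2 c2.1 c2.2.1 c2.2.2
  omega

theorem eleven_b [Infinite k] (P : HB Z 3) (hZ : Good Z) (hc : Z.card = 11) (h : P.a 0 = 4) :
    (GenDeg P.f 5 ∧ ¬ GenDeg P.f 4) ∧ ∀ i, P.a i = 4 := by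
  obtain ⟨δ, ε, hb, ha, h1, h2, h3⟩ := P.numerics hc
  rw [h] at h2 h3
  simp only [h] at hb ha
  rw [Fin.sum_univ_three] at h2 h3
  rw [Fin.sum_univ_three] at h3
  have d0 := h1 0
  have d1 := h1 1
  have d2 := h1 2
  have key : ∀ c : Fin 3, δ c = 2 → δ (c + 1) = 1 → δ (c + 2) = 1 → (∀ j, ε j = 0) →
      (GenDeg P.f 5 ∧ ¬ GenDeg P.f 4) ∧ ∀ i, P.a i = 4 := by
    intro c h1 h2 h3 h4
    have h5 : ∀ i, P.a i = 4 := by
      intro i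
      refine Fin.cases h (fun j => ?_) i
      rw [ha, h4]
    refine ⟨P.alpha4 hZ (d0 := 4) (by norm_num) h5 c ?_ ?_ ?_, h5⟩
    · rw [hb, h4, h1]
    · rw [hb, h4, h2]
    · rw [hb, h4, h3]
  have hcase : (δ 0 = 2 ∧ δ 1 = 1 ∧ δ 2 = 1) ∨ (δ 1 = 2 ∧ δ 2 = 1 ∧ δ 0 = 1) ∨
      (δ 2 = 2 ∧ δ 0 = 1 ∧ δ 1 = 1) := by omega
  have hε : ∀ i, ε i = 0 := by
    have h4 : ε 0 = 0 ∧ ε 1 = 0 ∧ ε 2 = 0 := by
      rcases hcase with ⟨e0, e1, e2⟩ | ⟨e1, e2, e0⟩ | ⟨e2, e0, e1⟩ <;>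
      · rw [e0, e1, e2] at h3
        omega
    intro i
    fin_cases i
    · exact h4.1
    · exact h4.2.1
    · exact h4.2.2
  rcases hcase with ⟨e0, e1, e2⟩ | ⟨e1, e2, e0⟩ | ⟨e2, e0, e1⟩
  · exact key 0 e0 e1 e2 hε
  · exact key 1 e1 e2 e0 hε
  · exact key 2 e2 e0 e1 hε

theorem eleven_c [Infinite k] (P : HB Z 4) (hZ : Good Z) (hc : Z.card = 11) (h : P.a 0 = 4) :
    (GenDeg P.f 3 ∧ ¬ GenDeg P.f 2) ∧ ∃ i0 : Fin 5, ∃ lam : Fin 3 → k, lam ≠ 0 ∧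
      (∀ i, i ≠ i0 → form lam ∣ P.f i) ∧ P.a i0 = 5 := by
  obtain ⟨δ, ε, hb, ha, h1, h2, h3⟩ := P.numerics hc
  rw [h] at h2 h3
  simp only [h] at hb ha
  rw [Fin.sum_univ_four] at h2 h3
  rw [Fin.sum_univ_four] at h3
  have d0 := h1 0
  have d1 := h1 1
  have d2 := h1 2
  have d3 := h1 3
  have e0 : δ 0 = 1 := by omega
  have e1 : δ 1 = 1 := by omega
  have e2 : δ 2 = 1 := by omega
  have e3 : δ 3 = 1 := by omega
  rw [e0, e1, e2, e3] at h3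
  have hδ : ∀ j, δ j = 1 := by
    intro j
    fin_cases j
    · exact e0
    · exact e1
    · exact e2
    · exact e3
  have key : ∀ j0 : Fin 4, ε j0 = 1 → (∀ j, j ≠ j0 → ε j = 0) →
      (GenDeg P.f 3 ∧ ¬ GenDeg P.f 2) ∧ ∃ i0 : Fin 5, ∃ lam : Fin 3 → k, lam ≠ 0 ∧
        (∀ i, i ≠ i0 → form lam ∣ P.f i) ∧ P.a i0 = 5 := by
    intro j0 h4 h5
    have hb6 : P.b j0 = 6 := by rw [hb, h4, hδ]
    have hb5 : ∀ j, j ≠ j0 → P.b j = 5 := fun j hj => by rw [hb, h5 j hj, hδ]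
    have ha5 : P.a j0.succ = 5 := by rw [ha, h4]
    have ha4 : ∀ j, j ≠ j0 → P.a j.succ = 4 := fun j hj => by rw [ha, h5 j hj]
    have hdvd := P.five_dvd j0 (fun j hj => by rw [hb5 j hj, ha5])
    have hlam : form (lcv (P.g j0 j0.succ)) = P.g j0 j0.succ := P.form_lcv_eq (by rw [hb6, ha5])
    refine ⟨P.five hZ j0 h ha5 ha4 hb6 hb5, j0.succ, lcv (P.g j0 j0.succ), ?_, ?_, ha5⟩
    · intro h0
      rw [h0, form_zero] at hlam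
      have h1 := hdvd 0 (Fin.succ_ne_zero _).symm
      rw [← hlam, zero_dvd_iff] at h1
      exact P.fne 0 h1
    · rw [hlam]; exact hdvd
  have hcase : (ε 0 = 1 ∧ ε 1 = 0 ∧ ε 2 = 0 ∧ ε 3 = 0) ∨ (ε 1 = 1 ∧ ε 0 = 0 ∧ ε 2 = 0 ∧ ε 3 = 0) ∨
      (ε 2 = 1 ∧ ε 1 = 0 ∧ ε 0 = 0 ∧ ε 3 = 0) ∨ (ε 3 = 1 ∧ ε 1 = 0 ∧ ε 2 = 0 ∧ ε 0 = 0) := by
    omega
  rcases hcase with ⟨f0, f1, f2, f3⟩ | ⟨f1, f0, f2, f3⟩ | ⟨f2, f1, f0, f3⟩ | ⟨f3, f1, f2, f0⟩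
  · apply key 0 f0
    intro j hj; fin_cases j
    · exact absurd rfl hj
    · exact f1
    · exact f2
    · exact f3
  · apply key 1 f1
    intro j hj; fin_cases j
    · exact f0
    · exact absurd rfl hj
    · exact f2
    · exact f3
  · apply key 2 f2
    intro j hj; fin_cases j
    · exact f0
    · exact f1
    · exact absurd rfl hj
    · exact f3
  · apply key 3 f3
    intro j hj; fin_cases j
    · exact f0
    · exact f1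
    · exact f2
    · exact absurd rfl hj

end HB

end Pool.Agent.LibH27.RT
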