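import Pool.Agent.Lib_helper27.RT.Eleven

/-!
# Three sets of eleven points
-/

namespace Pool.Agent.LibH27.RT

open MvPolynomial

variable {k : Type*} [Field k]

/-- forms of degree `d` which vanish in more than `d` points of a line -/
theorem line_dvd {l : Fin 3 → k} (hl : l ≠ 0) (d : ℕ) : ∀ (Z : Finset (Fin 3 → k)), Good Z →
    (∀ v ∈ Z, ∑ i, l i * v i = 0) → d < Z.card → ∀ F : MvPolynomial (Fin 3) k,
    F.IsHomogeneous d → (∀ v ∈ Z, aeval v F = 0) → form l ∣ F := by
  classical
  induction d with
  | zero =>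
    intro Z _ _ hd F hF h0
    obtain ⟨v, hv⟩ := Finset.card_pos.1 hd
    rw [← totalDegree_zero_iff_isHomogeneous, totalDegree_eq_zero_iff_eq_C] at hF
    have h1 := h0 v hv
    rw [hF, aeval_C] at h1
    change coeff 0 F = 0 at h1
    rw [hF, h1, map_zero]
    exact dvd_zero _
  | succ d ih =>
    intro Z hZ hlZ hd F hF h0
    obtain ⟨p, hp⟩ : Z.Nonempty := Finset.card_pos.1 (by omega)
    obtain ⟨b, hb1, hb2⟩ := exists_bas hl (hZ.ne0 p hp) (hlZ p hp)
    have hy1 : b.y 1 = form l := by unfold Bas.y; rw [hb1]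
    obtain ⟨a0, a1, ha0, -, hdec⟩ := b.decomp hF
    rw [hb2, h0 p hp, map_zero, zero_mul, zero_add] at hdec
    have h1 : form l ∣ a0 := by
      apply ih (Z.erase p)
      · exact ⟨fun v hv => hZ.ne0 v (Finset.mem_of_mem_erase hv), fun u hu v hv =>
          hZ.ind u (Finset.mem_of_mem_erase hu) v (Finset.mem_of_mem_erase hv)⟩
      · exact fun v hv => hlZ v (Finset.mem_of_mem_erase hv)
      · rw [Finset.card_erase_of_mem hp]; omega
      · exact ha0
      · intro v hv
        rw [Finset.mem_erase] at hv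
        have h2 := h0 v hv.2
        have hyv : aeval v (b.y 1) = 0 := by
          rw [hy1, aeval_form']; exact hlZ v hv.2
        rw [hdec, map_add, map_mul, map_mul, hyv, zero_mul, add_zero] at h2
        refine (mul_eq_zero.1 h2).resolve_left fun h3 => ?_
        obtain ⟨a, ha, ha'⟩ := hZ.ind p hp v hv.2 (Ne.symm hv.1)
        apply ha'
        rw [← aeval_form'] at ha ⊢
        rw [← hb2, ← mem_reesKer_homog _ (form_homog a), b.ker_two, Ideal.mem_span_pair] at ha
        obtain ⟨u, w, huw⟩ := ha
        rw [← huw, map_add, map_mul, map_mul, h3, hyv, mul_zero, mul_zero, add_zero]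
    rw [hdec, ← hy1] at *
    exact dvd_add (h1.mul_left _) (Dvd.intro _ rfl)

/-- normalized vectors -/
theorem good_of_norm {Z : Finset (Fin 3 → k)} (h : ∀ v ∈ Z, v 2 = 1 ∨ (v 2 = 0 ∧ v 0 = 1)) :
    Good Z := by
  constructor
  · rintro v hv rfl
    rcases h 0 hv with h1 | ⟨-, h1⟩ <;> simp at h1
  · intro u hu v hv huv
    have hne : u 0 ≠ v 0 ∨ u 1 ≠ v 1 ∨ u 2 ≠ v 2 := by
      by_contra hcon
      push Not at hcon
      apply huv
      funext i
      fin_cases i
      · exact hcon.1
      · exact hcon.2.1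
      · exact hcon.2.2
    rcases h u hu with hu2 | ⟨hu2, hu0⟩
    · rcases h v hv with hv2 | ⟨hv2, hv0⟩
      · by_cases h0 : u 0 = v 0
        · refine ⟨![0, 1, -u 1], ?_, ?_⟩
          · simp [Fin.sum_univ_three, hu2]
          · simp only [Fin.sum_univ_three, Matrix.cons_val_zero, Matrix.cons_val_one,
              Matrix.cons_val, hv2]
            intro h1
            rcases hne with h2 | h2 | h2
            · exact h2 h0
            · exact h2 (by linear_combination -h1)
            · exact h2 (by rw [hu2, hv2])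
        · refine ⟨![1, 0, -u 0], ?_, ?_⟩
          · simp [Fin.sum_univ_three, hu2]
          · simp only [Fin.sum_univ_three, Matrix.cons_val_zero, Matrix.cons_val_one,
              Matrix.cons_val, hv2]
            intro h1
            exact h0 (by linear_combination -h1)
      · refine ⟨![1, 0, -u 0], ?_, ?_⟩
        · simp [Fin.sum_univ_three, hu2]
        · simp [Fin.sum_univ_three, hv2, hv0]
    · rcases h v hv with hv2 | ⟨hv2, hv0⟩
      · refine ⟨![0, 0, 1], ?_, ?_⟩
        · simp [Fin.sum_univ_three, hu2]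
        · simp [Fin.sum_univ_three, hv2]
      · refine ⟨![-u 1, 1, 0], ?_, ?_⟩
        · simp [Fin.sum_univ_three, hu0]
        · simp only [Fin.sum_univ_three, Matrix.cons_val_zero, Matrix.cons_val_one,
              Matrix.cons_val, hv2, hv0]
          intro h1
          rcases hne with h2 | h2 | h2
          · exact h2 (by rw [hu0, hv0])
          · exact h2 (by linear_combination -h1)
          · exact h2 (by rw [hu2, hv2])

/-- divide a form by a linear form -/
theorem homog_div {l : Fin 3 → k} {F : MvPolynomial (Fin 3) k} {d : ℕ}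
    (hF : F.IsHomogeneous (d + 1)) (h : form l ∣ F) : ∃ F1 : MvPolynomial (Fin 3) k,
    F1.IsHomogeneous d ∧ F = form l * F1 := by
  obtain ⟨c, hc⟩ := h
  refine ⟨homogeneousComponent d c, homogeneousComponent_isHomogeneous _ _, ?_⟩
  rw [← homogeneousComponent_eq_self hF, hc, mul_comm, mul_comm (form l)]
  exact hc_mul c (form_homog l) d

theorem vec_inj {s : k} {t : ℕ → k} (ht : Function.Injective t) :
    Function.Injective (fun i : ℕ => (![t i, s, 1] : Fin 3 → k)) := by
  intro i j hij
  exact ht (congrFun hij 0)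

/-- no form of degree `d` vanishes on the triangular grid -/
theorem grid {t : ℕ → k} (ht : Function.Injective t) (d : ℕ) : ∀ (s : ℕ → k),
    Function.Injective s → ∀ F : MvPolynomial (Fin 3) k, F.IsHomogeneous d →
    (∀ i j, i + j ≤ d → aeval (![t i, s j, 1] : Fin 3 → k) F = 0) → F = 0 := by
  classical
  induction d with
  | zero =>
    intro s _ F hF h0
    rw [← totalDegree_zero_iff_isHomogeneous, totalDegree_eq_zero_iff_eq_C] at hF
    have h1 := h0 0 0 le_rfl
    rw [hF, aeval_C] at h1
    change coeff 0 F = 0 at h1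
    rw [hF, h1, map_zero]
  | succ d ih =>
    intro s hs F hF h0
    have h1 : form (![0, 1, -s 0] : Fin 3 → k) ∣ F := by
      apply line_dvd (l := ![0, 1, -s 0]) (fun h => by
          have := congrFun h 1; simp at this) (d + 1)
        ((Finset.range (d + 2)).image fun i => (![t i, s 0, 1] : Fin 3 → k))
      · apply good_of_norm
        intro v hv
        rw [Finset.mem_image] at hv
        obtain ⟨i, -, rfl⟩ := hv
        left; rfl
      · intro v hv
        rw [Finset.mem_image] at hv
        obtain ⟨i, -, rfl⟩ := hv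
        simp [Fin.sum_univ_three]
      · rw [Finset.card_image_of_injective _ (vec_inj ht), Finset.card_range]
        omega
      · exact hF
      · intro v hv
        rw [Finset.mem_image] at hv
        obtain ⟨i, hi, rfl⟩ := hv
        rw [Finset.mem_range] at hi
        exact h0 i 0 (by omega)
    obtain ⟨F1, hF1, rfl⟩ := homog_div hF h1
    rw [ih (fun j => s (j + 1)) (fun i j hij => by have := hs hij; omega) F1 hF1, mul_zero]
    intro i j hij
    have h2 := h0 i (j + 1) (by omega)
    rw [map_mul, aeval_form'] at h2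
    refine (mul_eq_zero.1 h2).resolve_left ?_
    simp only [Fin.sum_univ_three, Matrix.cons_val_zero, Matrix.cons_val_one, Matrix.cons_val]
    intro h3
    have h4 : s (j + 1) = s 0 := by linear_combination h3
    exact absurd (hs h4) (by omega)

/-- a criterion for the initial degree -/
theorem HB.four_le {Z : Finset (Fin 3 → k)} {m : ℕ} (P : HB Z m)
    (h : ∀ F : MvPolynomial (Fin 3) k, F.IsHomogeneous 3 → (∀ v ∈ Z, aeval v F = 0) → F = 0) :
    4 ≤ P.a 0 := by
  by_contra hcon
  push Not at hcon
  have h1 : (P.f 0 * X 0 ^ (3 - P.a 0)).IsHomogeneous 3 := by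
    have := (P.hf 0).mul (isHomogeneous_X_pow (R := k) (0 : Fin 3) (3 - P.a 0))
    rwa [show P.a 0 + (3 - P.a 0) = 3 by omega] at this
  have h2 : P.f 0 ∈ ptIdeal Z := by
    rw [← P.fspan]; exact Ideal.subset_span ⟨0, rfl⟩
  rw [mem_ptIdeal_homog (P.hf 0)] at h2
  have h3 := h _ h1 (fun v hv => by rw [map_mul, h2 v hv, zero_mul])
  rcases mul_eq_zero.1 h3 with h4 | h4
  · exact P.fne 0 h4
  · exact pow_ne_zero _ (X_ne_zero 0) h4

section sets

variable (t : ℕ → k)

open Classical in
/-- eleven collinear points -/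
noncomputable def Z1 : Finset (Fin 3 → k) :=
  (Finset.range 11).image fun i => ![1, t i, 0]

/-- indices -/
def S3 : Finset (ℕ × ℕ) := (Finset.range 3 ×ˢ Finset.range 3).filter fun p => p.1 + p.2 ≤ 2

/-- indices -/
def S5 : Finset (ℕ × ℕ) := (Finset.range 4 ×ˢ Finset.range 4).filter fun p =>
  p.1 + p.2 ≤ 3 ∨ (p.1 = 3 ∧ p.2 = 3)

open Classical in
/-- five points on a line and six more -/
noncomputable def Z3 : Finset (Fin 3 → k) :=
  (S3.image fun p => ![t p.1, t p.2, 1]) ∪ (Finset.range 5).image fun i => ![1, t i, 0]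

open Classical in
/-- a triangular grid and one more point -/
noncomputable def Z5 : Finset (Fin 3 → k) := S5.image fun p => ![t p.1, t p.2, 1]

variable {t} (ht : Function.Injective t)

include ht

theorem vec_inj2 : Function.Injective (fun i : ℕ => (![1, t i, 0] : Fin 3 → k)) := by
  intro i j hij
  exact ht (congrFun hij 1)

theorem vec_inj3 : Function.Injective (fun p : ℕ × ℕ => (![t p.1, t p.2, 1] : Fin 3 → k)) := by
  intro i j hij
  exact Prod.ext (ht (congrFun hij 0)) (ht (congrFun hij 1))

theorem card_Z1 : (Z1 t).card = 11 := by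
  classical
  unfold Z1
  rw [Finset.card_image_of_injective _ (vec_inj2 ht), Finset.card_range]

theorem card_Z5 : (Z5 t).card = 11 := by
  classical
  unfold Z5
  rw [Finset.card_image_of_injective _ (vec_inj3 ht)]
  decide

theorem card_Z3 : (Z3 t).card = 11 := by
  classical
  unfold Z3
  rw [Finset.card_union_of_disjoint, Finset.card_image_of_injective _ (vec_inj3 ht),
    Finset.card_image_of_injective _ (vec_inj2 ht)]
  · decide
  · rw [Finset.disjoint_left]
    intro v h1 h2
    rw [Finset.mem_image] at h1 h2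
    obtain ⟨p, -, rfl⟩ := h1
    obtain ⟨i, -, h⟩ := h2
    have := congrFun h 2
    simp at this

omit ht

theorem good_Z1 : Good (Z1 t) := by
  classical
  apply good_of_norm
  intro v hv
  unfold Z1 at hv
  rw [Finset.mem_image] at hv
  obtain ⟨i, -, rfl⟩ := hv
  right; exact ⟨rfl, rfl⟩

theorem good_Z3 : Good (Z3 t) := by
  classical
  apply good_of_norm
  intro v hv
  unfold Z3 at hv
  rw [Finset.mem_union, Finset.mem_image, Finset.mem_image] at hv
  rcases hv with ⟨i, -, rfl⟩ | ⟨i, -, rfl⟩
  · left; rfl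
  · right; exact ⟨rfl, rfl⟩

theorem good_Z5 : Good (Z5 t) := by
  classical
  apply good_of_norm
  intro v hv
  unfold Z5 at hv
  rw [Finset.mem_image] at hv
  obtain ⟨i, -, rfl⟩ := hv
  left; rfl

theorem Z1_case {m : ℕ} (P : HB (Z1 t) m) (hc : (Z1 t).card = 11) : m = 1 ∨ m = 2 := by
  classical
  have h1 : P.a 0 ≤ 1 := by
    by_contra hcon
    push Not at hcon
    have h2 : (X 2 : MvPolynomial (Fin 3) k) ∈ ptIdeal (Z1 t) := by
      rw [mem_ptIdeal_homog (isHomogeneous_X k 2)]
      intro v hv
      unfold Z1 at hv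
      rw [Finset.mem_image] at hv
      obtain ⟨i, -, rfl⟩ := hv
      rw [aeval_X]; rfl
    have h3 := P.low h2 hcon
    rw [homogeneousComponent_eq_self (isHomogeneous_X k 2)] at h3
    exact X_ne_zero _ h3
  rcases P.m_cases hc with h | h | h | h
  · exact Or.inl h
  · exact Or.inr h
  · omega
  · omega

include ht

theorem Z3_line {F : MvPolynomial (Fin 3) k} {d : ℕ} (hd : d ≤ 4) (hF : F.IsHomogeneous d)
    (h0 : ∀ v ∈ Z3 t, aeval v F = 0) : form (![0, 0, 1] : Fin 3 → k) ∣ F := by
  classical
  apply line_dvd (l := ![0, 0, 1]) (fun h => by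
      have := congrFun h 2; simp at this) d
    ((Finset.range 5).image fun i => (![1, t i, 0] : Fin 3 → k))
  · apply good_of_norm
    intro v hv
    rw [Finset.mem_image] at hv
    obtain ⟨i, -, rfl⟩ := hv
    right; exact ⟨rfl, rfl⟩
  · intro v hv
    rw [Finset.mem_image] at hv
    obtain ⟨i, -, rfl⟩ := hv
    simp [Fin.sum_univ_three]
  · rw [Finset.card_image_of_injective _ (vec_inj2 ht), Finset.card_range]
    omega
  · exact hF
  · intro v hv
    apply h0
    unfold Z3
    rw [Finset.mem_image] at hv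
    obtain ⟨i, hi, rfl⟩ := hv
    exact Finset.mem_union_right _ (Finset.mem_image.2 ⟨i, hi, rfl⟩)

theorem Z3_four {m : ℕ} (P : HB (Z3 t) m) : 4 ≤ P.a 0 := by
  classical
  apply P.four_le
  intro F hF h0
  obtain ⟨F1, hF1, rfl⟩ := homog_div (d := 2) hF (Z3_line ht (by norm_num) hF h0)
  rw [grid ht 2 t ht F1 hF1, mul_zero]
  intro i j hij
  have h1 := h0 ![t i, t j, 1] (by
    unfold Z3
    refine Finset.mem_union_left _ (Finset.mem_image.2 ⟨(i, j), ?_, rfl⟩)
    unfold S3
    rw [Finset.mem_filter, Finset.mem_product, Finset.mem_range, Finset.mem_range]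
    exact ⟨⟨by omega, by omega⟩, hij⟩)
  rw [map_mul, aeval_form'] at h1
  refine (mul_eq_zero.1 h1).resolve_left ?_
  simp [Fin.sum_univ_three]

theorem Z5_four {m : ℕ} (P : HB (Z5 t) m) : 4 ≤ P.a 0 := by
  classical
  apply P.four_le
  intro F hF h0
  apply grid ht 3 t ht F hF
  intro i j hij
  apply h0
  unfold Z5
  refine Finset.mem_image.2 ⟨(i, j), ?_, rfl⟩
  unfold S5
  rw [Finset.mem_filter, Finset.mem_product, Finset.mem_range, Finset.mem_range]
  exact ⟨⟨by omega, by omega⟩, Or.inl hij⟩

theorem Z3_case [Infinite k] {m : ℕ} (P : HB (Z3 t) m) : m = 4 := by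
  obtain ⟨h4, h | h⟩ := P.m_of_four (card_Z3 ht) (Z3_four ht P)
  · exfalso
    subst h
    obtain ⟨-, ha⟩ := P.eleven_b good_Z3 (card_Z3 ht) h4
    have hne : (![0, 0, 1] : Fin 3 → k) ≠ 0 := fun h => by
      have := congrFun h 2; simp at this
    obtain ⟨b, hb⟩ := exists_bas_A hne
    have hy : b.y 1 = form (![0, 0, 1] : Fin 3 → k) := by unfold Bas.y; rw [hb]
    obtain ⟨f, hf, hf'⟩ := (good_Z3 (t := t)).exists_not_dvd (b.y_prime 1)
    apply hf'
    rw [← P.fspan, Ideal.mem_span_range_iff_exists_fun] at hf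
    obtain ⟨r, rfl⟩ := hf
    refine Finset.dvd_sum fun i _ => Dvd.dvd.mul_left ?_ _
    rw [hy]
    apply Z3_line ht (by rw [ha]) (P.hf i)
    rw [← mem_ptIdeal_homog (P.hf i), ← P.fspan]
    exact Ideal.subset_span ⟨i, rfl⟩
  · exact h

theorem Z5_case [Infinite k] {m : ℕ} (P : HB (Z5 t) m) : m = 3 := by
  classical
  obtain ⟨h4, h | h⟩ := P.m_of_four (card_Z5 ht) (Z5_four ht P)
  · exact h
  · exfalso
    subst h
    obtain ⟨-, i0, lam, hlam, hdvd, ha⟩ := P.eleven_c good_Z5 (card_Z5 ht) h4
    obtain ⟨b, hb⟩ := exists_bas_A hlam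
    have hy : b.y 1 = form lam := by unfold Bas.y; rw [hb]
    have hp := b.y_prime 1
    rw [hy] at hp
    have hquartic : ∀ F : MvPolynomial (Fin 3) k, F.IsHomogeneous 4 →
        (∀ v ∈ Z5 t, aeval v F = 0) → form lam ∣ F := by
      intro F hF h0
      rw [← mem_ptIdeal_homog hF, ← P.fspan, Ideal.mem_span_range_iff_exists_fun] at h0
      obtain ⟨r, hr⟩ := h0
      have h1 := congrArg (homogeneousComponent 4) hr
      rw [homogeneousComponent_eq_self hF, map_sum] at h1
      rw [← h1]
      refine Finset.dvd_sum fun i _ => ?_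
      by_cases hi : i = i0
      · subst hi
        have h2 := P.hf i
        rw [ha] at h2
        rw [hc_mul_lt (r i) h2 (by norm_num)]
        exact dvd_zero _
      · obtain ⟨c, hc⟩ := hdvd i hi
        rw [hc, mul_left_comm, mul_comm]
        have := hc_mul (r i * c) (form_homog lam) 3
        rw [this]
        exact Dvd.intro_left _ rfl
    have hA : form lam ∣ ∏ i ∈ Finset.range 4, form (![1, 0, -t i] : Fin 3 → k) := by
      apply hquartic
      · have := IsHomogeneous.prod (Finset.range 4) (fun i => form (![1, 0, -t i] : Fin 3 → k))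
          (fun _ => 1) (fun i _ => form_homog _)
        simpa using this
      · intro v hv
        unfold Z5 at hv
        rw [Finset.mem_image] at hv
        obtain ⟨⟨i, j⟩, hij, rfl⟩ := hv
        unfold S5 at hij
        rw [Finset.mem_filter, Finset.mem_product] at hij
        rw [map_prod]
        apply Finset.prod_eq_zero hij.1.1
        rw [aeval_form']
        simp [Fin.sum_univ_three]
    have hB : form lam ∣ ∏ i ∈ Finset.range 4, form (![0, 1, -t i] : Fin 3 → k) := by
      apply hquartic
      · have := IsHomogeneous.prod (Finset.range 4) (fun i => form (![0, 1, -t i] : Fin 3 → k))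
          (fun _ => 1) (fun i _ => form_homog _)
        simpa using this
      · intro v hv
        unfold Z5 at hv
        rw [Finset.mem_image] at hv
        obtain ⟨⟨i, j⟩, hij, rfl⟩ := hv
        unfold S5 at hij
        rw [Finset.mem_filter, Finset.mem_product] at hij
        rw [map_prod]
        apply Finset.prod_eq_zero hij.1.2
        rw [aeval_form']
        simp [Fin.sum_univ_three]
    rw [hp.dvd_finsetProd_iff] at hA hB
    obtain ⟨i, -, hi⟩ := hA
    obtain ⟨j, -, hj⟩ := hB
    obtain ⟨b', hb'⟩ := exists_bas_A (a := (![1, 0, -t i] : Fin 3 → k)) (fun h => by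
      have := congrFun h 0; simp at this)
    have hy' : b'.y 1 = form (![1, 0, -t i] : Fin 3 → k) := by unfold Bas.y; rw [hb']
    have hp' := b'.y_prime 1
    rw [hy'] at hp'
    have h1 := ((hp.dvd_prime_iff_associated hp').1 hi).symm.dvd.trans hj
    obtain ⟨c, hc⟩ := h1
    have h2 := congrArg (aeval (![t i, t j + 1, 1] : Fin 3 → k)) hc
    rw [map_mul, aeval_form', aeval_form'] at h2
    simp [Fin.sum_univ_three] at h2

end sets

end Pool.Agent.LibH27.RT
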