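import Pool.Agent.Lib_helper27.RT.Dep

/-!
# Auxiliary facts on forms: quadratic forms, homogeneous factors
-/

namespace Pool.Agent.LibH27.RT

open MvPolynomial

variable {k : Type*} [Field k]

/-- the standard basis -/
def Bas.std (k : Type*) [Field k] : Bas k := ⟨1, 1, one_mul 1⟩

theorem Bas.std_y (i : Fin 3) : (Bas.std k).y i = X i := by
  unfold Bas.y form Bas.std
  simp [Matrix.one_apply, apply_ite]

/-- quadratic forms -/
theorem exists_quad {g : MvPolynomial (Fin 3) k} (hg : g.IsHomogeneous 2) :
    ∃ H : Fin 3 → Fin 3 → k, g = ∑ r, X r * form (H r) := by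
  obtain ⟨a0, a1, h0, h1, h⟩ := (Bas.std k).decomp (d := 1) hg
  refine ⟨![lcv a0, lcv a1, aeval ((Bas.std k).w 2) g • Pi.single 2 1], ?_⟩
  rw [Fin.sum_univ_three]
  simp only [Matrix.cons_val_zero, Matrix.cons_val_one, Matrix.cons_val]
  rw [form_lcv h0, form_lcv h1, form_smul]
  simp only [Bas.std_y] at h
  have h2 : form (Pi.single 2 1 : Fin 3 → k) = X 2 := by
    rw [← C_mul_X_form, map_one, one_mul]
  rw [h2]
  conv_lhs => rw [h]
  ring

/-- top components of a product -/
theorem hc_top {n : ℕ} {R : Type*} [CommRing R] {f g : MvPolynomial (Fin n) R} {d e : ℕ}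
    (hf : f.totalDegree ≤ d) (hg : g.totalDegree ≤ e) :
    homogeneousComponent (d + e) (f * g) = homogeneousComponent d f * homogeneousComponent e g := by
  classical
  ext m
  rw [coeff_homogeneousComponent]
  by_cases hm : m.degree = d + e
  · rw [if_pos hm, coeff_mul, coeff_mul]
    refine Finset.sum_congr rfl fun x hx => ?_
    rw [Finset.HasAntidiagonal.mem_antidiagonal] at hx
    have h1 : x.1.degree + x.2.degree = d + e := by
      rw [← hm, ← hx, map_add]
    rw [coeff_homogeneousComponent, coeff_homogeneousComponent]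
    by_cases h2 : x.1.degree = d
    · rw [if_pos h2, if_pos (by omega)]
    · rw [if_neg h2, zero_mul]
      by_cases h3 : x.1.degree < d
      · rw [coeff_eq_zero_of_totalDegree_lt (f := g) (d := x.2), mul_zero]
        have : x.2.degree = ∑ i ∈ x.2.support, x.2 i := rfl
        omega
      · rw [coeff_eq_zero_of_totalDegree_lt (f := f) (d := x.1), zero_mul]
        have : x.1.degree = ∑ i ∈ x.1.support, x.1 i := rfl
        omega
  · rw [if_neg hm]
    symm
    exact ((homogeneousComponent_isHomogeneous d f).mul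
      (homogeneousComponent_isHomogeneous e g)).coeff_eq_zero hm

/-- common factors of three quadratic forms -/
theorem quad_factor {n : ℕ} (w : Fin 3 → MvPolynomial (Fin n) k)
    (hw : ∀ i, (w i).IsHomogeneous 2) (hw0 : w ≠ 0) {π : MvPolynomial (Fin n) k} (hπ : Prime π)
    (hd : ∀ i, π ∣ w i) :
    (∃ (p : MvPolynomial (Fin n) k) (z : Fin 3 → k), p ≠ 0 ∧ z ≠ 0 ∧ ∀ i, w i = p * C (z i)) ∨
    (∃ (p : MvPolynomial (Fin n) k) (z : Fin 3 → Fin n → k), p ≠ 0 ∧ z ≠ 0 ∧
      ∀ i, w i = p * form (z i)) := by
  choose v hv using hd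
  have hπ0 := hπ.ne_zero
  obtain ⟨i0, hi0⟩ := Function.ne_iff.1 hw0
  rw [Pi.zero_apply] at hi0
  have hpos : π.totalDegree ≠ 0 := by
    intro h
    rw [totalDegree_eq_zero_iff_eq_C] at h
    apply hπ.not_isUnit
    rw [h]
    apply IsUnit.map
    rw [isUnit_iff_ne_zero]
    intro h2
    rw [h2, map_zero] at h
    exact hπ0 h
  have hdeg : ∀ i, w i ≠ 0 → π.totalDegree + (v i).totalDegree = 2 := by
    intro i hi
    have h1 := (hw i).totalDegree hi
    have h2 : v i ≠ 0 := by
      intro h
      rw [hv i, h, mul_zero] at hi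
      exact hi rfl
    rw [hv i, totalDegree_mul_of_isDomain hπ0 h2] at h1
    exact h1
  have hle : π.totalDegree ≤ 2 := by have := hdeg i0 hi0; omega
  set e := 2 - π.totalDegree with he
  have hv2 : ∀ i, (v i).totalDegree ≤ e := by
    intro i
    by_cases hi : w i = 0
    · rw [hv i] at hi
      rw [(mul_eq_zero.1 hi).resolve_left hπ0, totalDegree_zero]
      exact Nat.zero_le _
    · have := hdeg i hi; omega
  have key : ∀ i, w i = homogeneousComponent π.totalDegree π * homogeneousComponent e (v i) := by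
    intro i
    rw [← hc_top le_rfl (hv2 i), ← hv i, show π.totalDegree + e = 2 by omega,
      homogeneousComponent_eq_self (hw i)]
  have hp0 : homogeneousComponent π.totalDegree π ≠ 0 := by
    intro h
    rw [key i0, h, zero_mul] at hi0
    exact hi0 rfl
  have hcase : e = 0 ∨ e = 1 := by omega
  rcases hcase with h0 | h1
  · left
    refine ⟨_, fun i => coeff 0 (v i), hp0, ?_, fun i => ?_⟩
    · intro h
      have := congrFun h i0
      rw [key i0, h0, homogeneousComponent_zero, show coeff 0 (v i0) = 0 from this, map_zero,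
        mul_zero] at hi0
      exact hi0 rfl
    · rw [key i, h0, homogeneousComponent_zero]
  · right
    have h2 : ∀ i, ∃ z : Fin n → k, homogeneousComponent e (v i) = form z := by
      intro i
      apply exists_form
      rw [← h1]
      exact homogeneousComponent_isHomogeneous _ _
    choose z hz using h2
    refine ⟨_, z, hp0, ?_, fun i => ?_⟩
    · intro h
      rw [key i0, hz i0, congrFun h i0] at hi0
      rw [Pi.zero_apply, form_zero, mul_zero] at hi0
      exact hi0 rfl
    · rw [key i, hz i]

/-- independent linear forms: products -/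
theorem lin_mul_eq {n : ℕ} {a z b y : Fin n → k} (hz : z ≠ 0)
    (hind : ∀ t : k, y ≠ t • z) (h : form a * form z = form b * form y) :
    ∃ κ : k, b = κ • z ∧ a = κ • y := by
  have hz' : form z ≠ 0 := by
    intro h; rw [← form_zero] at h; exact hz (form_inj h)
  have hp : Prime (form z) := by
    apply prime_form hz
    intro c hc
    by_contra h
    apply hz
    funext j
    have h0 : c = 0 := by
      by_contra h0
      exact h (isUnit_iff_ne_zero.2 h0)
    have := hc j
    rw [h0, zero_dvd_iff] at this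
    exact this
  have key : ∀ x : Fin n → k, form z ∣ form x → ∃ t : k, x = t • z := by
    rintro x ⟨u, hu⟩
    by_cases hx : x = 0
    · exact ⟨0, by rw [hx, zero_smul]⟩
    · have hx' : form x ≠ 0 := by
        intro h; rw [← form_zero] at h; exact hx (form_inj h)
      have hu0 : u ≠ 0 := by
        rintro rfl
        rw [mul_zero] at hu
        exact hx' hu
      have h1 := (form_homog x).totalDegree hx'
      rw [hu, totalDegree_mul_of_isDomain hz' hu0, (form_homog z).totalDegree hz'] at h1
      have h2 : u.totalDegree = 0 := by omega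
      rw [totalDegree_eq_zero_iff_eq_C] at h2
      refine ⟨coeff 0 u, form_inj ?_⟩
      rw [form_smul, hu]
      conv_lhs => rw [h2]
      ring
  have h1 : form z ∣ form b * form y := ⟨form a, by rw [← h, mul_comm]⟩
  rcases hp.dvd_or_dvd h1 with h2 | h2
  · obtain ⟨κ, hκ⟩ := key b h2
    refine ⟨κ, hκ, form_inj ?_⟩
    rw [form_smul]
    apply mul_right_cancel₀ hz'
    rw [h, hκ, form_smul]; ring
  · obtain ⟨t, ht⟩ := key y h2
    exact absurd ht (hind t)

/-- left inverses of injective matrices -/
theorem exists_dual {m n : ℕ} (z : Fin m → Fin n → k)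
    (hz : ∀ γ : Fin m → k, ∑ j, γ j • z j = 0 → γ = 0) :
    ∃ t : Fin m → Fin n → k, ∀ i j, ∑ l, t i l * z j l = if i = j then 1 else 0 := by
  classical
  let G : Matrix (Fin n) (Fin m) k := Matrix.of fun i j => z j i
  have hinj : Function.Injective G.mulVecLin := by
    rw [← LinearMap.ker_eq_bot, LinearMap.ker_eq_bot']
    intro γ h
    apply hz
    funext i
    have := congrFun h i
    rw [Matrix.mulVecLin_apply, Matrix.mulVec, dotProduct, Pi.zero_apply] at this
    rw [Finset.sum_apply, Pi.zero_apply, ← this]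
    refine Finset.sum_congr rfl fun j _ => ?_
    rw [Pi.smul_apply, smul_eq_mul, mul_comm]; rfl
  obtain ⟨L, hL⟩ := LinearMap.exists_leftInverse_of_injective _ (LinearMap.ker_eq_bot.2 hinj)
  let Q : Matrix (Fin m) (Fin n) k := LinearMap.toMatrix' L
  have hQG : Q * G = 1 := by
    have h1 := congrArg LinearMap.toMatrix' hL
    rw [LinearMap.toMatrix'_comp, LinearMap.toMatrix'_id] at h1
    have h2 : LinearMap.toMatrix' G.mulVecLin = G := by
      rw [← Matrix.toLin'_apply', LinearMap.toMatrix'_toLin']
    rw [h2] at h1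
    exact h1
  refine ⟨Q, fun i j => ?_⟩
  have := congrFun (congrFun hQG i) j
  rw [Matrix.mul_apply, Matrix.one_apply] at this
  exact this

/-- Koszul relations between independent linear forms -/
theorem lin_koszul {n : ℕ} (z a : Fin 3 → Fin n → k)
    (hz : ∀ γ : Fin 3 → k, ∑ j, γ j • z j = 0 → γ = 0)
    (h : form (a 0) * form (z 0) + form (a 1) * form (z 1) + form (a 2) * form (z 2) = 0) :
    ∃ v : Fin 3 → k, a 0 = v 2 • z 1 - v 1 • z 2 ∧ a 1 = v 0 • z 2 - v 2 • z 0 ∧
      a 2 = v 1 • z 0 - v 0 • z 1 := by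
  obtain ⟨t, ht⟩ := exists_dual z hz
  -- evaluation
  have hev : ∀ x : Fin n → k, (∑ l, a 0 l * x l) * (∑ l, z 0 l * x l) +
      (∑ l, a 1 l * x l) * (∑ l, z 1 l * x l) + (∑ l, a 2 l * x l) * (∑ l, z 2 l * x l) = 0 := by
    intro x
    have := congrArg (aeval x) h
    rw [map_add, map_add, map_mul, map_mul, map_mul, aeval_form_k, aeval_form_k, aeval_form_k,
      aeval_form_k, aeval_form_k, aeval_form_k, map_zero] at this
    exact this
  have hpol : ∀ x y : Fin n → k, (∑ l, a 0 l * x l) * (∑ l, z 0 l * y l) +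
      (∑ l, a 0 l * y l) * (∑ l, z 0 l * x l) + ((∑ l, a 1 l * x l) * (∑ l, z 1 l * y l) +
      (∑ l, a 1 l * y l) * (∑ l, z 1 l * x l)) + ((∑ l, a 2 l * x l) * (∑ l, z 2 l * y l) +
      (∑ l, a 2 l * y l) * (∑ l, z 2 l * x l)) = 0 := by
    intro x y
    have h1 := hev (x + y)
    have h2 := hev x
    have h3 := hev y
    simp only [Pi.add_apply, mul_add, Finset.sum_add_distrib] at h1
    linear_combination h1 - h2 - h3
  have hzt : ∀ i j, ∑ l, z i l * t j l = if j = i then (1 : k) else 0 := by
    intro i j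
    rw [← ht j i]
    exact Finset.sum_congr rfl fun l _ => mul_comm _ _
  -- diagonal terms
  have hd : ∀ j, ∑ l, a j l * t j l = 0 := by
    intro j
    have := hev (t j)
    rw [hzt, hzt, hzt] at this
    fin_cases j <;> simpa using this
  have ho : ∀ i j, i ≠ j → ∑ l, a i l * t j l + ∑ l, a j l * t i l = 0 := by
    intro i j hij
    have := hpol (t j) (t i)
    rw [hzt, hzt, hzt, hzt, hzt, hzt] at this
    have e0 := hd 0
    have e1 := hd 1
    have e2 := hd 2
    fin_cases i <;> fin_cases j <;> simp at this hij ⊢ <;> linear_combination this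
  have hall : ∀ (j : Fin 3) (y : Fin n → k), ∑ l, a j l * y l =
      -((∑ l, a 0 l * t j l) * (∑ l, z 0 l * y l) + (∑ l, a 1 l * t j l) * (∑ l, z 1 l * y l) +
      (∑ l, a 2 l * t j l) * (∑ l, z 2 l * y l)) := by
    intro j y
    have := hpol (t j) y
    rw [hzt, hzt, hzt] at this
    fin_cases j <;> simp at this ⊢ <;> linear_combination this
  have hcoef : ∀ (x : Fin n → k) (l : Fin n), ∑ l', x l' * (Pi.single l 1 : Fin n → k) l' = x l := by
    intro x l
    simp [Pi.single_apply]
  have hall' : ∀ (j : Fin 3) (l : Fin n), a j l =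
      -((∑ l, a 0 l * t j l) * z 0 l + (∑ l, a 1 l * t j l) * z 1 l +
      (∑ l, a 2 l * t j l) * z 2 l) := by
    intro j l
    have := hall j (Pi.single l 1)
    rw [hcoef, hcoef, hcoef, hcoef] at this
    exact this
  have o01 := ho 0 1 (by decide)
  have o02 := ho 0 2 (by decide)
  have o12 := ho 1 2 (by decide)
  have d0 := hd 0
  have d1 := hd 1
  have d2 := hd 2
  refine ⟨![∑ l, a 1 l * t 2 l, -(∑ l, a 0 l * t 2 l), ∑ l, a 0 l * t 1 l], ?_, ?_, ?_⟩
  · funext l
    simp only [Matrix.cons_val_zero, Matrix.cons_val_one, Matrix.cons_val, Pi.sub_apply,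
      Pi.smul_apply, smul_eq_mul]
    rw [hall' 0 l]
    linear_combination -z 0 l * d0 - z 1 l * o01 - z 2 l * o02
  · funext l
    simp only [Matrix.cons_val_zero, Matrix.cons_val_one, Matrix.cons_val, Pi.sub_apply,
      Pi.smul_apply, smul_eq_mul]
    rw [hall' 1 l]
    linear_combination -z 1 l * d1 - z 2 l * o12
  · funext l
    simp only [Matrix.cons_val_zero, Matrix.cons_val_one, Matrix.cons_val, Pi.sub_apply,
      Pi.smul_apply, smul_eq_mul]
    rw [hall' 2 l]
    linear_combination -z 2 l * d2

end Pool.Agent.LibH27.RT
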