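import Pool.Agent.Lib_helper27.RT.ToricB

/-!
# Five generators: normal form of the cubics on the fixed line
-/

namespace Pool.Agent.LibH27.RT

open MvPolynomial

variable {k : Type*} [Field k]

theorem Bas.constantCoeff_y (b : Bas k) (i : Fin 3) : constantCoeff (b.y i) = 0 :=
  (b.y_homog i).coeff_eq_zero (by simp)

/-- the four monomials on the line are independent -/
theorem Bas.indep_mod (b : Bas k) {μ : Fin 4 → k}
    (h : b.y 1 ∣ C (μ 0) * b.y 0 ^ 3 + C (μ 1) * (b.y 0 ^ 2 * b.y 2) +
      C (μ 2) * (b.y 0 * b.y 2 ^ 2) + C (μ 3) * b.y 2 ^ 3) : μ = 0 := by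
  have hC : ∀ (r : k) (u v : MvPolynomial (Fin 3) k), C r = b.y 0 * u + b.y 1 * v → r = 0 := by
    intro r u v h
    have := congrArg constantCoeff h
    rw [constantCoeff_C, map_add, map_mul, map_mul, b.constantCoeff_y, b.constantCoeff_y,
      zero_mul, zero_mul, add_zero] at this
    exact this
  have h3 : μ 3 = 0 := by
    obtain ⟨u, v, huv⟩ := b.key (A := C (μ 0) * b.y 0 ^ 2 + C (μ 1) * (b.y 0 * b.y 2) +
      C (μ 2) * b.y 2 ^ 2) (N := 3) (β := C (μ 3)) (by convert h using 1; ring)
    exact hC _ u v huv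
  rw [h3, map_zero, zero_mul, add_zero] at h
  have h2 : μ 2 = 0 := by
    obtain ⟨u, v, huv⟩ := b.key (A := C (μ 0) * b.y 0 + C (μ 1) * b.y 2) (N := 2)
      (β := C (μ 2)) (by
      apply b.cancel 1
      convert h using 1; ring)
    exact hC _ u v huv
  rw [h2, map_zero, zero_mul, add_zero] at h
  have h1 : μ 1 = 0 := by
    obtain ⟨u, v, huv⟩ := b.key (A := C (μ 0)) (N := 1) (β := C (μ 1)) (by
      apply b.cancel 2
      convert h using 1; ring)
    exact hC _ u v huv
  rw [h1, map_zero, zero_mul, add_zero] at h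
  have h0 : μ 0 = 0 := by
    obtain ⟨u, v, huv⟩ := b.key (A := 0) (N := 0) (β := C (μ 0)) (by
      apply b.cancel 3
      convert h using 1; ring)
    exact hC _ u v huv
  funext i
  fin_cases i
  · exact h0
  · exact h1
  · exact h2
  · exact h3

/-- the monomials on the line -/
noncomputable def Bas.mon (b : Bas k) : Fin 4 → MvPolynomial (Fin 3) k :=
  ![b.y 0 ^ 3, b.y 0 ^ 2 * b.y 2, b.y 0 * b.y 2 ^ 2, b.y 2 ^ 3]

theorem Bas.mon_homog (b : Bas k) (i : Fin 4) : (b.mon i).IsHomogeneous 3 := by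
  have h : ∀ (i : Fin 3) (n : ℕ), (b.y i ^ n).IsHomogeneous n := fun i n => by
    have := (b.y_homog i).pow n
    rwa [one_mul] at this
  fin_cases i
  · exact h 0 3
  · exact (h 0 2).mul (b.y_homog 2)
  · exact (b.y_homog 0).mul (h 2 2)
  · exact h 2 3

theorem Bas.indep_mon (b : Bas k) {μ : Fin 4 → k} (h : b.y 1 ∣ ∑ i, C (μ i) * b.mon i) :
    μ = 0 := by
  apply b.indep_mod
  rw [Fin.sum_univ_four] at h
  exact h

/-- cubics which complement the multiples of the line -/
theorem exists_toric {W : Finset (Fin 3 → k)} (b : Bas k)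
    (hb : ∀ v ∈ W, b.y 1 ∉ reesKer v) (c : Fin 4 → MvPolynomial (Fin 3) k)
    (hc : ∀ i, (c i).IsHomogeneous 3) (hspan : Ideal.span (Set.range c) = ptIdeal W)
    (hind : ∀ γ : Fin 4 → k, ∑ i, C (γ i) * c i = 0 → γ = 0) :
    ∃ c' : Fin 4 → MvPolynomial (Fin 3) k, (∀ i, (c' i).IsHomogeneous 3) ∧ Tor b c' W ∧
      ∀ i, b.y 1 ∣ c' i - b.mon i := by
  classical
  have hs : ∀ γ : Fin 4 → k, (∑ i, C (γ i) * c i).IsHomogeneous 3 := fun γ =>
    IsHomogeneous.sum _ _ _ fun i _ => (hc i).C_mul _
  let Φ : homogeneousSubmodule (Fin 3) k 2 × (Fin 4 → k) →ₗ[k] homogeneousSubmodule (Fin 3) k 3 :=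
    { toFun := fun p => ⟨b.y 1 * p.1.1 + ∑ i, C (p.2 i) * c i,
        ((b.y_homog 1).mul p.1.2).add (hs p.2)⟩
      map_add' := by
        intro p q
        apply Subtype.ext
        simp only [Prod.fst_add, Prod.snd_add, Submodule.coe_add, Pi.add_apply, map_add, add_mul,
          Finset.sum_add_distrib]
        ring
      map_smul' := by
        intro r p
        apply Subtype.ext
        simp only [Prod.smul_fst, Prod.smul_snd, Submodule.coe_smul, Pi.smul_apply, smul_eq_mul,
          map_mul, RingHom.id_apply, smul_eq_C_mul, mul_assoc, ← Finset.mul_sum]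
        ring }
  have hinj : Function.Injective Φ := by
    rw [← LinearMap.ker_eq_bot, LinearMap.ker_eq_bot']
    rintro ⟨⟨q, hq⟩, γ⟩ h
    have h1 : b.y 1 * q + ∑ i, C (γ i) * c i = 0 := congrArg Subtype.val h
    have h2 : q ∈ ptIdeal W := by
      have h3 : b.y 1 * q ∈ ptIdeal W := by
        rw [show b.y 1 * q = -∑ i, C (γ i) * c i by linear_combination h1, neg_mem_iff, ← hspan]
        exact Ideal.sum_mem _ fun i _ => Ideal.mul_mem_left _ _ (Ideal.subset_span ⟨i, rfl⟩)
      rw [mem_ptIdeal] at h3 ⊢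
      intro v hv
      exact ((reesKer_isPrime v).mem_or_mem (h3 v hv)).resolve_left (hb v hv)
    rw [← hspan] at h2
    have h3 := hc_span (by rintro _ ⟨i, rfl⟩; exact hc i) h2 (show 2 < 3 by norm_num)
    rw [homogeneousComponent_eq_self hq] at h3
    subst h3
    rw [mul_zero, zero_add] at h1
    have := hind γ h1
    subst this
    rfl
  have hdim : Module.finrank k (homogeneousSubmodule (Fin 3) k 2 × (Fin 4 → k)) =
      Module.finrank k (homogeneousSubmodule (Fin 3) k 3) := by
    rw [Module.finrank_prod, finrank_homog, finrank_homog, Module.finrank_fintype_fun_eq_card,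
      Fintype.card_fin]
    decide
  have hsurj := (LinearMap.injective_iff_surjective_of_finrank_eq_finrank hdim).1 hinj
  have h1 : ∀ m : Fin 4, ∃ (q : MvPolynomial (Fin 3) k) (γ : Fin 4 → k), q.IsHomogeneous 2 ∧
      b.mon m = b.y 1 * q + ∑ i, C (γ i) * c i := by
    intro m
    obtain ⟨⟨⟨q, hq⟩, γ⟩, h⟩ := hsurj ⟨b.mon m, b.mon_homog m⟩
    exact ⟨q, γ, hq, (congrArg Subtype.val h).symm⟩
  choose q N hq hN using h1
  let c' : Fin 4 → MvPolynomial (Fin 3) k := fun m => ∑ i, C (N m i) * c i
  have hdvd : ∀ m, b.y 1 ∣ c' m - b.mon m := fun m => ⟨-q m, by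
    simp only [c']
    rw [hN m]; ring⟩
  have hNinj : Function.Injective (Matrix.of N).vecMul := by
    intro μ ν hμν
    have h2 : (μ - ν) = 0 := by
      apply b.indep_mon
      have h3 : ∑ m, C ((μ - ν) m) * c' m = 0 := by
        simp only [c', Finset.mul_sum]
        rw [Finset.sum_comm]
        apply Finset.sum_eq_zero
        intro i _
        have h4 := congrFun hμν i
        simp only [Matrix.vecMul, dotProduct, Matrix.of_apply] at h4
        simp only [← mul_assoc, ← map_mul, ← Finset.sum_mul, ← map_sum, Pi.sub_apply, sub_mul,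
          Finset.sum_sub_distrib]
        rw [h4, sub_self, map_zero, zero_mul]
      have h4 : ∑ m, C ((μ - ν) m) * b.mon m =
          ∑ m, C ((μ - ν) m) * c' m - ∑ m, C ((μ - ν) m) * (c' m - b.mon m) := by
        rw [← Finset.sum_sub_distrib]
        exact Finset.sum_congr rfl fun m _ => by ring
      rw [h4, h3, zero_sub, dvd_neg]
      exact Finset.dvd_sum fun m _ => (hdvd m).mul_left _
    exact sub_eq_zero.1 h2
  have hNsurj := Matrix.vecMul_surjective_iff_isUnit.2 (Matrix.vecMul_injective_iff_isUnit.1 hNinj)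
  have hspan' : Ideal.span (Set.range c') = ptIdeal W := by
    rw [← hspan]
    apply le_antisymm
    · rw [Ideal.span_le]
      rintro _ ⟨m, rfl⟩
      exact Ideal.sum_mem _ fun i _ => Ideal.mul_mem_left _ _ (Ideal.subset_span ⟨i, rfl⟩)
    · rw [Ideal.span_le]
      rintro _ ⟨i, rfl⟩
      obtain ⟨μ, hμ⟩ := hNsurj (Pi.single i 1)
      have h2 : c i = ∑ m, C (μ m) * c' m := by
        simp only [c', Finset.mul_sum]
        rw [Finset.sum_comm, Finset.sum_eq_single i]
        · have h4 := congrFun hμ i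
          simp only [Matrix.vecMul, dotProduct, Matrix.of_apply, Pi.single_eq_same] at h4
          simp only [← mul_assoc, ← map_mul, ← Finset.sum_mul, ← map_sum]
          rw [h4, map_one, one_mul]
        · intro l _ hl
          have h4 := congrFun hμ l
          simp only [Matrix.vecMul, dotProduct, Matrix.of_apply, Pi.single_eq_of_ne hl] at h4
          simp only [← mul_assoc, ← map_mul, ← Finset.sum_mul, ← map_sum]
          rw [h4, map_zero, zero_mul]
        · intro h; exact absurd (Finset.mem_univ _) h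
      rw [h2]
      exact Ideal.sum_mem _ fun m _ => Ideal.mul_mem_left _ _ (Ideal.subset_span ⟨m, rfl⟩)
  exact ⟨c', fun m => hs _, ⟨hspan', hb, hdvd 0, hdvd 1, hdvd 2, hdvd 3⟩, hdvd⟩

end Pool.Agent.LibH27.RT
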