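import Pool.Agent.Lib_helper27.RT.FiveA

/-!
# Five generators: eleven points with four quartics and a quintic
-/

namespace Pool.Agent.LibH27.RT

open MvPolynomial

variable {k : Type*} [Field k]

/-- the Rees ideal for the five generators built from cubics -/
theorem five_aux [Infinite k] {W : Finset (Fin 3 → k)} (hW : Good W) (b : Bas k)
    (hb : ∀ v ∈ W, b.y 1 ∉ reesKer v) (c : Fin 4 → MvPolynomial (Fin 3) k)
    (hc : ∀ i, (c i).IsHomogeneous 3) (hspan : Ideal.span (Set.range c) = ptIdeal W)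
    (hind : ∀ γ : Fin 4 → k, ∑ i, C (γ i) * c i = 0 → γ = 0)
    {fs : MvPolynomial (Fin 3) k} (hfs : fs.IsHomogeneous 5) (hfW : fs ∈ ptIdeal W)
    (hnd : ¬ b.y 1 ∣ fs) {m : ℕ} {F : Fin m → MvPolynomial (Fin 3) k}
    (hF : Ideal.span (Set.range F) = Ideal.span ({fs} ∪ Set.range fun i => b.y 1 * c i)) :
    GenDeg F 3 ∧ ¬ GenDeg F 2 := by
  classical
  obtain ⟨c', hc', T, hmod⟩ := exists_toric b hb c hc hspan hind
  -- minimality
  have hmin : ∀ i, c' i ∉ Ideal.span (c' '' {j | j ≠ i}) := by
    intro i hi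
    have hi' : c' i ∈ Ideal.span (Set.range fun j => if j = i then 0 else c' j) := by
      refine Ideal.span_mono ?_ hi
      rintro _ ⟨j, hj, rfl⟩
      exact ⟨j, if_neg hj⟩
    rw [Ideal.mem_span_range_iff_exists_fun] at hi'
    obtain ⟨r, hr⟩ := hi'
    have h1 := congrArg (homogeneousComponent 3) hr
    rw [homogeneousComponent_eq_self (hc' i), map_sum] at h1
    have h2 : ∀ j, homogeneousComponent 3 (r j * if j = i then 0 else c' j) =
        if j = i then 0 else C (constantCoeff (r j)) * c' j := by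
      intro j
      split_ifs with h
      · rw [mul_zero, map_zero]
      · have := hc_mul (r j) (hc' j) 0
        rw [zero_add] at this
        rw [this, homogeneousComponent_zero]
        rfl
    rw [Finset.sum_congr rfl fun j _ => h2 j] at h1
    have h3 : (fun j => if j = i then (-1 : k) else constantCoeff (r j)) = 0 := by
      apply b.indep_mon
      have h4 : ∑ j, C (if j = i then (-1 : k) else constantCoeff (r j)) * c' j = 0 := by
        have h5 : ∀ j, C (if j = i then (-1 : k) else constantCoeff (r j)) * c' j =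
            (if j = i then 0 else C (constantCoeff (r j)) * c' j) - (if j = i then c' j else 0) := by
          intro j
          split_ifs with h
          · rw [map_neg, map_one]; ring
          · rw [sub_zero]
        rw [Finset.sum_congr rfl fun j _ => h5 j, Finset.sum_sub_distrib, h1,
          Finset.sum_ite_eq' Finset.univ i, if_pos (Finset.mem_univ _), sub_self]
      have h5 : ∑ j, C (if j = i then (-1 : k) else constantCoeff (r j)) * b.mon j =
          ∑ j, C (if j = i then (-1 : k) else constantCoeff (r j)) * c' j -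
          ∑ j, C (if j = i then (-1 : k) else constantCoeff (r j)) * (c' j - b.mon j) := by
        rw [← Finset.sum_sub_distrib]
        exact Finset.sum_congr rfl fun m _ => by ring
      rw [h5, h4, zero_sub, dvd_neg]
      exact Finset.dvd_sum fun m _ => (hmod m).mul_left _
    have := congrFun h3 i
    simp at this
  obtain ⟨P, hPa, hPf⟩ := exists_HB_of hW (fun _ : Fin (3 + 1) => 3) c' hc' T.cspan hmin
    (fun _ => le_rfl)
  have ha : ∀ i, P.a i = 3 := fun i => by rw [hPa]
  have hbj : ∀ j, P.b j = 3 + 1 := by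
    have h1 := P.sum1
    have h2 := P.diag
    rw [Fin.sum_univ_four, Fin.sum_univ_three, ha, ha, ha, ha] at h1
    have h3 := h2 0
    have h4 := h2 1
    have h5 := h2 2
    rw [ha] at h3 h4 h5
    intro j
    fin_cases j
    · change P.b 0 = 4; omega
    · change P.b 1 = 4; omega
    · change P.b 2 = 4; omega
  obtain ⟨D, hD0, hD, -, hker⟩ := P.alpha_lin hW (by norm_num) ha hbj
  have hev := fun x (hx : x ∈ synL P.f) => P.ev0_synL hx
  rw [hPf] at hker hev
  -- coefficients of the quintic
  obtain ⟨v, hv, hvs⟩ : ∃ v : Fin 4 → MvPolynomial (Fin 3) k, (∀ i, (v i).IsHomogeneous 2) ∧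
      ∑ i, v i * c' i = fs := by
    rw [← T.cspan, Ideal.mem_span_range_iff_exists_fun] at hfW
    obtain ⟨r, hr⟩ := hfW
    refine ⟨fun i => homogeneousComponent 2 (r i), fun i =>
      homogeneousComponent_isHomogeneous _ _, ?_⟩
    have h1 := congrArg (homogeneousComponent (2 + 3)) hr
    rw [homogeneousComponent_eq_self hfs, map_sum] at h1
    rw [← h1]
    exact Finset.sum_congr rfl fun i _ => (hc_mul (r i) (hc' i) 2).symm
  have h2 : ∀ i, ∃ a0 a1 : MvPolynomial (Fin 3) k, v i = C (aeval (b.w 2) (v i)) * b.y 2 ^ 2 +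
      b.y 0 * a0 + b.y 1 * a1 := by
    intro i
    obtain ⟨a0, a1, -, -, h⟩ := b.decomp (hv i)
    exact ⟨a0, a1, h⟩
  choose V0 V1 hV using h2
  have hv' : v = b.y 0 • V0 + b.y 1 • V1 +
      b.y 2 • (fun i => C (aeval (b.w 2) (v i)) * b.y 2) := by
    funext i
    simp only [Pi.add_apply, Pi.smul_apply, smul_eq_mul]
    conv_lhs => rw [hV i]
    ring
  obtain ⟨h3, h4⟩ := T.rees hD0 hD hker hev hv' (by rw [hvs]; exact hnd)
  have hsp : Ideal.span (Set.range (FF b c' v)) = Ideal.span (Set.range F) := by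
    rw [hF]
    have hmem : ∀ {q : MvPolynomial (Fin 3) k} {e e' : Fin 4 → MvPolynomial (Fin 3) k}
        {K : Ideal (MvPolynomial (Fin 3) k)}, q ∈ Ideal.span (Set.range e) →
        (∀ i, b.y 1 * e i ∈ K) → b.y 1 * q ∈ K := by
      intro q e e' K hq he
      rw [Ideal.mem_span_range_iff_exists_fun] at hq
      obtain ⟨r, rfl⟩ := hq
      rw [Finset.mul_sum]
      refine Ideal.sum_mem _ fun i _ => ?_
      rw [mul_left_comm]
      exact Ideal.mul_mem_left _ _ (he i)
    apply le_antisymm
    · rw [Ideal.span_le]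
      rintro _ ⟨i, rfl⟩
      refine Fin.cases ?_ (fun j => ?_) i
      · change ∑ i, v i * c' i ∈ Ideal.span ({fs} ∪ Set.range fun i => b.y 1 * c i)
        rw [hvs]
        exact Ideal.subset_span (Or.inl rfl)
      · change b.y 1 * c' j ∈ Ideal.span ({fs} ∪ Set.range fun i => b.y 1 * c i)
        refine hmem (q := c' j) (e := c) (e' := c) ?_ fun i => Ideal.subset_span (Or.inr ⟨i, rfl⟩)
        rw [hspan, ← T.cspan]
        exact Ideal.subset_span ⟨j, rfl⟩
    · rw [Ideal.span_le]
      rintro _ (rfl | ⟨i, rfl⟩)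
      · rw [← hvs]
        exact Ideal.subset_span ⟨0, rfl⟩
      · change b.y 1 * c i ∈ Ideal.span (Set.range (FF b c' v))
        refine hmem (q := c i) (e := c') (e' := c) ?_ fun i => Ideal.subset_span ⟨i.succ, rfl⟩
        rw [T.cspan, ← hspan]
        exact Ideal.subset_span ⟨i, rfl⟩
  exact ⟨genDeg_indep hsp (by norm_num) h3,
    fun h => h4 (genDeg_indep hsp.symm (by norm_num) h)⟩

namespace HB

variable {Z : Finset (Fin 3 → k)} (P : HB Z 4)

/-- The quartics have a common linear factor. -/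
theorem five_dvd (j0 : Fin 4) (hb : ∀ j ≠ j0, P.b j ≤ P.a j0.succ) (i : Fin 5)
    (hi : i ≠ j0.succ) : P.g j0 j0.succ ∣ P.f i := by
  classical
  have h1 := P.minors i
  have h2 : P.g j0 j0.succ ∣
      (Matrix.of fun (i' j : Fin 4) => P.g j (i.succAbove i')).det := by
    obtain ⟨l, hl⟩ := Fin.exists_succAbove_eq (Ne.symm hi)
    rw [Matrix.det_apply]
    refine Finset.dvd_sum fun σ _ => ?_
    rw [Units.smul_def, zsmul_eq_mul]
    apply Dvd.dvd.mul_left
    refine dvd_trans ?_ (Finset.dvd_prod_of_mem _ (Finset.mem_univ (σ.symm l)))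
    rw [Equiv.apply_symm_apply, Matrix.of_apply, hl]
    by_cases h : σ.symm l = j0
    · rw [h]
    · by_cases h0 : P.g (σ.symm l) j0.succ = 0
      · rw [h0]; exact dvd_zero _
      · exact absurd (P.lt_of_ne h0) (by have := hb _ h; omega)
  have h3 : P.f i = C P.ρ⁻¹ * ((-1) ^ (i : ℕ) *
      (Matrix.of fun (i' j : Fin 4) => P.g j (i.succAbove i')).det) := by
    rw [h1, ← mul_assoc, ← map_mul, inv_mul_cancel₀ P.hρ, map_one, one_mul]
  rw [h3]
  exact (h2.mul_left _).mul_left _

/-- Four quartics and a quintic: relation type three. -/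
theorem five [Infinite k] (hZ : Good Z) (j0 : Fin 4) (ha0 : P.a 0 = 4) (haj : P.a j0.succ = 5)
    (ha : ∀ j ≠ j0, P.a j.succ = 4) (hbj : P.b j0 = 6) (hb : ∀ j ≠ j0, P.b j = 5) :
    GenDeg P.f 3 ∧ ¬ GenDeg P.f 2 := by
  classical
  have hdvd := P.five_dvd j0 (fun j hj => by rw [hb j hj, haj])
  have hl1 : (P.g j0 j0.succ).IsHomogeneous 1 := by
    have := (P.hg j0).homog j0.succ
    rwa [hbj, haj] at this
  have hlam := form_lcv hl1
  set lam := lcv (P.g j0 j0.succ) with hlamdef
  have hlam0 : lam ≠ 0 := by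
    intro h
    rw [h, form_zero] at hlam
    have h1 := hdvd 0 (Fin.succ_ne_zero _).symm
    rw [← hlam, zero_dvd_iff] at h1
    exact P.fne 0 h1
  obtain ⟨bs, hbs⟩ := exists_bas_A hlam0
  have hy1 : bs.y 1 = P.g j0 j0.succ := by
    unfold Bas.y
    rw [hbs, hlam]
  rw [← hy1] at hdvd
  -- the cubics
  let idx : Fin 4 → Fin 5 := (j0.succ).succAbove
  have hidx : ∀ i, idx i ≠ j0.succ := fun i => Fin.succAbove_ne _ _
  have haidx : ∀ i, P.a (idx i) = 4 := by
    intro i
    have := hidx i
    revert this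
    refine Fin.cases ?_ (fun j => ?_) (idx i)
    · intro _; exact ha0
    · intro h; exact ha j (fun h' => h (by rw [h']))
  have h1 : ∀ i, ∃ c : MvPolynomial (Fin 3) k, c.IsHomogeneous 3 ∧ P.f (idx i) = bs.y 1 * c := by
    intro i
    obtain ⟨c, hc⟩ := hdvd (idx i) (hidx i)
    refine ⟨homogeneousComponent 3 c, homogeneousComponent_isHomogeneous _ _, ?_⟩
    have h2 := P.hf (idx i)
    rw [haidx] at h2
    rw [← homogeneousComponent_eq_self h2, hc, mul_comm, mul_comm (bs.y 1)]
    exact hc_mul c (bs.y_homog 1) 3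
  choose c hc hfc using h1
  have hfs : (P.f j0.succ).IsHomogeneous 5 := by
    have := P.hf j0.succ
    rwa [haj] at this
  have hnd : ¬ bs.y 1 ∣ P.f j0.succ := by
    intro h
    obtain ⟨f, hf, hf'⟩ := hZ.exists_not_dvd (bs.y_prime 1)
    apply hf'
    rw [← P.fspan, Ideal.mem_span_range_iff_exists_fun] at hf
    obtain ⟨r, rfl⟩ := hf
    refine Finset.dvd_sum fun i _ => Dvd.dvd.mul_left ?_ _
    by_cases hi : i = j0.succ
    · rw [hi]; exact h
    · exact hdvd i hi
  have hfexp : P.f j0.succ = -∑ i, P.g j0 (idx i) * c i := by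
    have h2 := P.g_syz j0
    rw [Fin.sum_univ_succAbove _ j0.succ] at h2
    change P.g j0 j0.succ * P.f j0.succ + ∑ i, P.g j0 (idx i) * P.f (idx i) = 0 at h2
    rw [← hy1] at h2
    have h3 : ∑ i, P.g j0 (idx i) * P.f (idx i) = bs.y 1 * ∑ i, P.g j0 (idx i) * c i := by
      rw [Finset.mul_sum]
      refine Finset.sum_congr rfl fun i _ => ?_
      rw [hfc]; ring
    rw [h3, ← mul_add] at h2
    have := (mul_eq_zero.1 h2).resolve_left (bs.y_prime 1).ne_zero
    linear_combination this
  -- the points off the line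
  let W : Finset (Fin 3 → k) := Z.filter fun v => bs.y 1 ∉ reesKer v
  have hWsub : ∀ v ∈ W, v ∈ Z ∧ bs.y 1 ∉ reesKer v := fun v hv => Finset.mem_filter.1 hv
  have hW : Good W := ⟨fun v hv => hZ.ne0 v (hWsub v hv).1, fun u hu v hv =>
    hZ.ind u (hWsub u hu).1 v (hWsub v hv).1⟩
  have hspan : Ideal.span (Set.range c) = ptIdeal W := by
    apply le_antisymm
    · rw [Ideal.span_le]
      rintro _ ⟨i, rfl⟩
      rw [SetLike.mem_coe, mem_ptIdeal]
      intro v hv
      have h2 : P.f (idx i) ∈ ptIdeal Z := by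
        rw [← P.fspan]; exact Ideal.subset_span ⟨_, rfl⟩
      rw [mem_ptIdeal] at h2
      have h3 := h2 v (hWsub v hv).1
      rw [hfc] at h3
      exact ((reesKer_isPrime v).mem_or_mem h3).resolve_left (hWsub v hv).2
    · intro h hh
      have h2 : bs.y 1 * h ∈ ptIdeal Z := by
        rw [mem_ptIdeal] at hh ⊢
        intro v hv
        by_cases hv1 : bs.y 1 ∈ reesKer v
        · exact Ideal.mul_mem_right _ _ hv1
        · exact Ideal.mul_mem_left _ _ (hh v (Finset.mem_filter.2 ⟨hv, hv1⟩))
      rw [← P.fspan, Ideal.mem_span_range_iff_exists_fun] at h2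
      obtain ⟨r, hr⟩ := h2
      rw [Fin.sum_univ_succAbove _ j0.succ] at hr
      change r j0.succ * P.f j0.succ + ∑ i, r (idx i) * P.f (idx i) = _ at hr
      have h3 : ∑ i, r (idx i) * P.f (idx i) = bs.y 1 * ∑ i, r (idx i) * c i := by
        rw [Finset.mul_sum]
        refine Finset.sum_congr rfl fun i _ => ?_
        rw [hfc]; ring
      rw [h3] at hr
      have h4 : bs.y 1 ∣ r j0.succ * P.f j0.succ :=
        ⟨h - ∑ i, r (idx i) * c i, by linear_combination hr⟩
      obtain ⟨s, hs⟩ := ((bs.y_prime 1).dvd_or_dvd h4).resolve_right hnd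
      have h5 : h = s * P.f j0.succ + ∑ i, r (idx i) * c i := by
        apply mul_left_cancel₀ (bs.y_prime 1).ne_zero
        rw [← hr, hs]; ring
      have hcm : ∀ i, c i ∈ Ideal.span (Set.range c) := fun i => Ideal.subset_span ⟨i, rfl⟩
      rw [h5]
      refine Ideal.add_mem _ (Ideal.mul_mem_left _ _ ?_)
        (Ideal.sum_mem _ fun i _ => Ideal.mul_mem_left _ _ (hcm i))
      rw [hfexp, neg_mem_iff]
      exact Ideal.sum_mem _ fun i _ => Ideal.mul_mem_left _ _ (hcm i)
  have hind : ∀ γ : Fin 4 → k, ∑ i, C (γ i) * c i = 0 → γ = 0 := by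
    intro γ hγ
    have h2 : ∑ i, (Fin.insertNth j0.succ 0 (fun i => C (γ i)) : Fin 5 → MvPolynomial (Fin 3) k) i *
        P.f i = 0 := by
      rw [Fin.sum_univ_succAbove _ j0.succ, Fin.insertNth_apply_same, zero_mul, zero_add]
      simp only [Fin.insertNth_apply_succAbove]
      change ∑ i, C (γ i) * P.f (idx i) = 0
      rw [Finset.sum_congr rfl fun i _ => by rw [hfc i, mul_left_comm], ← Finset.mul_sum, hγ,
        mul_zero]
    rw [P.syz] at h2
    obtain ⟨r, hr⟩ := h2
    funext i
    have h3 := congrArg constantCoeff (congrFun hr (idx i))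
    simp only [idx, Fin.insertNth_apply_succAbove, constantCoeff_C, Finset.sum_apply,
      Pi.smul_apply, smul_eq_mul, map_sum, map_mul, P.const, mul_zero,
      Finset.sum_const_zero] at h3
    exact h3
  refine five_aux hW bs (fun v hv => (hWsub v hv).2) c hc hspan hind hfs ?_ hnd ?_
  · rw [hfexp, neg_mem_iff, ← hspan]
    exact Ideal.sum_mem _ fun i _ => Ideal.mul_mem_left _ _ (Ideal.subset_span ⟨i, rfl⟩)
  · apply le_antisymm
    · rw [Ideal.span_le]
      rintro _ ⟨i, rfl⟩
      by_cases hi : i = j0.succ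
      · rw [hi]; exact Ideal.subset_span (Or.inl rfl)
      · obtain ⟨l, rfl⟩ := Fin.exists_succAbove_eq hi
        exact Ideal.subset_span (Or.inr ⟨l, (hfc l).symm⟩)
    · rw [Ideal.span_le]
      rintro _ (rfl | ⟨i, rfl⟩)
      · exact Ideal.subset_span ⟨_, rfl⟩
      · change bs.y 1 * c i ∈ Ideal.span (Set.range P.f)
        rw [← hfc i]
        exact Ideal.subset_span ⟨_, rfl⟩

end HB

end Pool.Agent.LibH27.RT
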