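import Pool.Agent.Lib_helper27.RT.Gens

/-!
# Four generators: the three linear forms are a regular sequence
-/

namespace Pool.Agent.LibH27.RT

open MvPolynomial

variable {k : Type*} [Field k]

namespace HB

variable {Z : Finset (Fin 3 → k)} (P : HB Z 3)

/-- the two by two minors -/
noncomputable def dl (l : Fin 3) (r s : Fin 4) : MvPolynomial (Fin 3) k :=
  P.g (l + 1) r * P.g (l + 2) s - P.g (l + 2) r * P.g (l + 1) s

theorem dl_homog (l : Fin 3) (r s : Fin 4) : ∃ e, (P.dl l r s).IsHomogeneous e := by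
  unfold dl
  by_cases h1 : P.g (l + 1) r = 0 ∨ P.g (l + 2) s = 0
  · rw [mul_eq_zero.2 h1, zero_sub]
    exact ⟨_, (((P.hg (l + 2)).homog r).mul ((P.hg (l + 1)).homog s)).neg⟩
  · by_cases h2 : P.g (l + 2) r = 0 ∨ P.g (l + 1) s = 0
    · rw [mul_eq_zero.2 h2, sub_zero]
      exact ⟨_, (((P.hg (l + 1)).homog r).mul ((P.hg (l + 2)).homog s))⟩
    · push Not at h1 h2
      obtain ⟨a1, b1⟩ := (P.hg (l + 1) r).resolve_right h1.1
      obtain ⟨a2, b2⟩ := (P.hg (l + 2) s).resolve_right h1.2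
      obtain ⟨a3, b3⟩ := (P.hg (l + 2) r).resolve_right h2.1
      obtain ⟨a4, b4⟩ := (P.hg (l + 1) s).resolve_right h2.2
      refine ⟨_, (b1.mul b2).sub ?_⟩
      have := b3.mul b4
      rw [show P.b (l + 2) - P.a r + (P.b (l + 1) - P.a s) =
        P.b (l + 1) - P.a r + (P.b (l + 2) - P.a s) by omega] at this
      exact this

/-- the generators are in the ideal of the minors -/
theorem f_mem_of_dl {J : Ideal (MvPolynomial (Fin 3) k)} (hJ : ∀ r s, P.dl 0 r s ∈ J)
    (i : Fin 4) : P.f i ∈ J := by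
  have h1 := P.minors i
  rw [Matrix.det_fin_three] at h1
  simp only [Matrix.of_apply] at h1
  have h2 : C P.ρ * P.f i ∈ J := by
    rw [← h1]
    apply Ideal.mul_mem_left
    have e1 := J.mul_mem_left (P.g 0 (i.succAbove 0)) (hJ (i.succAbove 1) (i.succAbove 2))
    have e2 := J.mul_mem_left (P.g 0 (i.succAbove 1)) (hJ (i.succAbove 0) (i.succAbove 2))
    have e3 := J.mul_mem_left (P.g 0 (i.succAbove 2)) (hJ (i.succAbove 0) (i.succAbove 1))
    unfold dl at e1 e2 e3
    simp only [zero_add] at e1 e2 e3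
    have := Ideal.add_mem _ (Ideal.sub_mem _ e1 e2) e3
    convert this using 1
    ring
  have h3 := J.mul_mem_left (C P.ρ⁻¹) h2
  rwa [← mul_assoc, ← map_mul, inv_mul_cancel₀ P.hρ, map_one, one_mul] at h3

theorem rank_two_Z (hZ : Good Z) {v : Fin 3 → k} (hv : v ∈ Z) :
    ∃ l r s, aeval v (P.dl l r s) ≠ 0 := by
  by_contra hcon
  push Not at hcon
  obtain ⟨b, hb⟩ := exists_bas_w (hZ.ne0 v hv)
  obtain ⟨c, hc⟩ := Function.ne_iff.1 (b.A_ne_zero 0)
  have hf0 : ∀ i, aeval v (P.f i) = 0 := by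
    intro i
    have : P.f i ∈ ptIdeal Z := by
      rw [← P.fspan]; exact Ideal.subset_span ⟨i, rfl⟩
    exact (mem_ptIdeal_homog (P.hf i)).1 this v hv
  have hdf : ∀ i, aeval v (pderiv c (P.f i)) = 0 := by
    intro i
    have h1 := P.minors i
    rw [Matrix.det_fin_three] at h1
    simp only [Matrix.of_apply] at h1
    have h2 := congrArg (fun q => aeval v (pderiv c q)) h1
    rw [show ((-1 : MvPolynomial (Fin 3) k) ^ (i : ℕ)) = C ((-1) ^ (i : ℕ)) by simp,
      pderiv_C_mul, pderiv_C_mul, map_mul, map_mul, aeval_C] at h2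
    have key : aeval v (pderiv c (P.g 0 (i.succAbove 0) * P.g 1 (i.succAbove 1) * P.g 2 (i.succAbove 2) -
        P.g 0 (i.succAbove 0) * P.g 2 (i.succAbove 1) * P.g 1 (i.succAbove 2) -
        P.g 1 (i.succAbove 0) * P.g 0 (i.succAbove 1) * P.g 2 (i.succAbove 2) +
        P.g 1 (i.succAbove 0) * P.g 2 (i.succAbove 1) * P.g 0 (i.succAbove 2) +
        P.g 2 (i.succAbove 0) * P.g 0 (i.succAbove 1) * P.g 1 (i.succAbove 2) -
        P.g 2 (i.succAbove 0) * P.g 1 (i.succAbove 1) * P.g 0 (i.succAbove 2))) = (0 : k) := by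
      have d01 := hcon 0 (i.succAbove 0) (i.succAbove 1)
      have d02 := hcon 0 (i.succAbove 0) (i.succAbove 2)
      have d03 := hcon 0 (i.succAbove 1) (i.succAbove 2)
      have d11 := hcon 1 (i.succAbove 0) (i.succAbove 1)
      have d12 := hcon 1 (i.succAbove 0) (i.succAbove 2)
      have d13 := hcon 1 (i.succAbove 1) (i.succAbove 2)
      have d21 := hcon 2 (i.succAbove 0) (i.succAbove 1)
      have d22 := hcon 2 (i.succAbove 0) (i.succAbove 2)
      have d23 := hcon 2 (i.succAbove 1) (i.succAbove 2)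
      unfold dl at d01 d02 d03 d11 d12 d13 d21 d22 d23
      simp only [show (0 : Fin 3) + 1 = 1 from rfl, show (0 : Fin 3) + 2 = 2 from rfl,
        show (1 : Fin 3) + 1 = 2 from rfl, show (1 : Fin 3) + 2 = 0 from rfl,
        show (2 : Fin 3) + 1 = 0 from rfl, show (2 : Fin 3) + 2 = 1 from rfl,
        map_sub, map_mul] at d01 d02 d03 d11 d12 d13 d21 d22 d23
      simp only [map_sub, map_add, Derivation.leibniz, smul_eq_mul, map_mul]
      generalize aeval v (P.g 0 (i.succAbove 0)) = a00 at *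
      generalize aeval v (P.g 0 (i.succAbove 1)) = a01 at *
      generalize aeval v (P.g 0 (i.succAbove 2)) = a02 at *
      generalize aeval v (P.g 1 (i.succAbove 0)) = a10 at *
      generalize aeval v (P.g 1 (i.succAbove 1)) = a11 at *
      generalize aeval v (P.g 1 (i.succAbove 2)) = a12 at *
      generalize aeval v (P.g 2 (i.succAbove 0)) = a20 at *
      generalize aeval v (P.g 2 (i.succAbove 1)) = a21 at *
      generalize aeval v (P.g 2 (i.succAbove 2)) = a22 at *
      generalize aeval v (pderiv c (P.g 0 (i.succAbove 0))) = e00 at *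
      generalize aeval v (pderiv c (P.g 0 (i.succAbove 1))) = e01 at *
      generalize aeval v (pderiv c (P.g 0 (i.succAbove 2))) = e02 at *
      generalize aeval v (pderiv c (P.g 1 (i.succAbove 0))) = e10 at *
      generalize aeval v (pderiv c (P.g 1 (i.succAbove 1))) = e11 at *
      generalize aeval v (pderiv c (P.g 1 (i.succAbove 2))) = e12 at *
      generalize aeval v (pderiv c (P.g 2 (i.succAbove 0))) = e20 at *
      generalize aeval v (pderiv c (P.g 2 (i.succAbove 1))) = e21 at *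
      generalize aeval v (pderiv c (P.g 2 (i.succAbove 2))) = e22 at *
      linear_combination e00 * d03 - e01 * d02 + e02 * d01 + e10 * d13 - e11 * d12 + e12 * d11 +
        e20 * d23 - e21 * d22 + e22 * d21
    rw [key, mul_zero, aeval_C] at h2
    exact (mul_eq_zero.1 h2.symm).resolve_left P.hρ
  have hall : ∀ F ∈ ptIdeal Z, aeval v (pderiv c F) = 0 := by
    intro F hF
    rw [← P.fspan, Ideal.mem_span_range_iff_exists_fun] at hF
    obtain ⟨e, rfl⟩ := hF
    rw [map_sum, map_sum]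
    apply Finset.sum_eq_zero
    intro i _
    rw [Derivation.leibniz, map_add, smul_eq_mul, smul_eq_mul, map_mul, map_mul, hf0, hdf]
    ring
  obtain ⟨h, hh, hv0, hu⟩ := hZ.exists_sep hv
  have h1 := hall (h * b.y 0) (by
    rw [mem_ptIdeal_homog (hh.mul (b.y_homog 0))]
    intro u huZ
    rw [map_mul]
    by_cases huv : u = v
    · rw [huv, ← hb, b.eval_y, if_neg (by decide), mul_zero]
    · rw [hu u huZ huv, zero_mul])
  rw [Derivation.leibniz, map_add, smul_eq_mul, smul_eq_mul, map_mul, map_mul] at h1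
  have h2 : aeval v (b.y 0) = (0 : k) := by
    rw [← hb, b.eval_y, if_neg (by decide)]
  rw [h2, zero_mul, add_zero] at h1
  have h3 : aeval v (pderiv c (b.y 0)) = b.A 0 c := by
    unfold Bas.y form
    rw [map_sum]
    rw [Finset.sum_eq_single c]
    · rw [pderiv_C_mul, pderiv_X_self, mul_one, aeval_C]; rfl
    · intro i _ hi
      rw [pderiv_C_mul, pderiv_X_of_ne hi, mul_zero]
    · intro h; exact absurd (Finset.mem_univ _) h
  rw [h3] at h1
  exact (mul_eq_zero.1 h1).elim hv0 hc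

theorem rank_two (hZ : Good Z) {w : Fin 3 → k} (hw : w ≠ 0) :
    ∃ l r s, aeval w (P.dl l r s) ≠ 0 := by
  by_contra hcon
  push Not at hcon
  have h1 : ptIdeal Z ≤ reesKer w := by
    rw [← P.fspan, Ideal.span_le]
    rintro _ ⟨i, rfl⟩
    apply P.f_mem_of_dl
    intro r s
    obtain ⟨e, he⟩ := P.dl_homog 0 r s
    rw [mem_reesKer_homog _ he]
    exact hcon 0 r s
  rw [ptIdeal_eq, Ideal.IsPrime.inf_le' (reesKer_isPrime w)] at h1
  obtain ⟨v, hv, hvw⟩ := h1
  obtain ⟨b, hb⟩ := exists_bas_w (hZ.ne0 v hv)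
  obtain ⟨l, r, s, hlrs⟩ := P.rank_two_Z hZ hv
  obtain ⟨e, he⟩ := P.dl_homog l r s
  have h2 : ∀ c, w c = aeval w (b.y 2) * v c := by
    intro c
    have h3 := congrArg (aeval w) (b.X_eq c)
    rw [aeval_X, map_sum, Fin.sum_univ_three] at h3
    have h4 : aeval w (b.y 0) = (0 : k) := (mem_reesKer_homog _ (b.y_homog 0)).1
      (hvw (by rw [← hb]; exact b.y_mem_ker (by decide)))
    have h5 : aeval w (b.y 1) = (0 : k) := (mem_reesKer_homog _ (b.y_homog 1)).1
      (hvw (by rw [← hb]; exact b.y_mem_ker (by decide)))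
    rw [h3, map_mul, map_mul, map_mul, h4, h5, ← hb]
    simp only [Bas.w, aeval_C, Algebra.algebraMap_self, RingHom.id_apply]
    ring
  have h3 : aeval w (b.y 2) ≠ (0 : k) := by
    intro h
    apply hw
    funext c
    rw [h2 c, h, zero_mul]; rfl
  have h4 := hcon l r s
  rw [show w = fun c => aeval w (b.y 2) * v c from funext h2, aeval_mul_homog he] at h4
  exact (mul_eq_zero.1 h4).elim (pow_ne_zero _ h3) hlrs

end HB

/-- a formal computation with the Koszul complex -/
theorem koszul_step {S : Type*} [CommRing S] [IsDomain S] {Gj Gk Gl hj hk hl δ α β : S}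
    (pair : ∀ u v, u * Gj = v * Gk → ∃ c, u = c * Gk ∧ v = c * Gj)
    (h : Gj * hj + Gk * hk + Gl * hl = 0) (hl' : δ * hl = α * Gj + β * Gk) :
    ∃ vj vk vl, δ * hj = Gk * vl - Gl * vk ∧ δ * hk = Gl * vj - Gj * vl ∧
      δ * hl = Gj * vk - Gk * vj := by
  obtain ⟨c, hc1, hc2⟩ := pair (δ * hj + α * Gl) (-(δ * hk + β * Gl)) (by
    linear_combination δ * h - Gl * hl')
  refine ⟨-β, α, c, ?_, ?_, ?_⟩
  · linear_combination hc1
  · linear_combination -hc2
  · linear_combination hl'

namespace HB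

variable {Z : Finset (Fin 3 → k)} (P : HB Z 3)

theorem subst_step {l : Fin 3} {r s : Fin 4} (hd : P.dl l r s ≠ 0) {d : ℕ}
    {h : Fin 3 → MvPolynomial (Fin 4) (MvPolynomial (Fin 3) k)} (hh : ∀ i, (h i).IsHomogeneous d)
    (h0 : P.G (l + 1) * h (l + 1) + P.G (l + 2) * h (l + 2) + P.G l * h l = 0) :
    ∃ α β, C (P.dl l r s) ^ d * h l = α * P.G (l + 1) + β * P.G (l + 2) := by
  classical
  have hrs : r ≠ s := by
    rintro rfl
    apply hd
    unfold dl; ring
  set δ := P.dl l r s with hδ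
  set Gj := P.G (l + 1) with hGj
  set Gk := P.G (l + 2) with hGk
  -- images of the variables
  let τ : Fin 4 → MvPolynomial (Fin 4) (MvPolynomial (Fin 3) k) := fun i =>
    if i = r then C δ * X r - (C (P.g (l + 2) s) * Gj - C (P.g (l + 1) s) * Gk)
    else if i = s then C δ * X s - (C (P.g (l + 1) r) * Gk - C (P.g (l + 2) r) * Gj)
    else C δ * X i
  have hτr : τ r = C δ * X r - (C (P.g (l + 2) s) * Gj - C (P.g (l + 1) s) * Gk) := if_pos rfl
  have hτs : τ s = C δ * X s - (C (P.g (l + 1) r) * Gk - C (P.g (l + 2) r) * Gj) := by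
    simp only [τ, if_neg (Ne.symm hrs), if_true]
  have hτi : ∀ i, i ≠ r → i ≠ s → τ i = C δ * X i := by
    intro i h1 h2
    simp only [τ]
    rw [if_neg h1, if_neg h2]
  have hmem : ∀ i, C δ * X i - τ i ∈ Ideal.span {Gj, Gk} := by
    intro i
    rw [Ideal.mem_span_pair]
    by_cases h1 : i = r
    · rw [h1, hτr]
      exact ⟨C (P.g (l + 2) s), -C (P.g (l + 1) s), by ring⟩
    · by_cases h2 : i = s
      · rw [h2, hτs]
        exact ⟨-C (P.g (l + 2) r), C (P.g (l + 1) r), by ring⟩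
      · rw [hτi i h1 h2]
        exact ⟨0, 0, by ring⟩
  have hform : ∀ φ : Fin 4 → MvPolynomial (Fin 3) k, aeval τ (form φ) = C δ * form φ -
      C (φ r) * (C (P.g (l + 2) s) * Gj - C (P.g (l + 1) s) * Gk) -
      C (φ s) * (C (P.g (l + 1) r) * Gk - C (P.g (l + 2) r) * Gj) := by
    intro φ
    rw [aeval_form]
    unfold form
    have h1 : ∀ i, algebraMap (MvPolynomial (Fin 3) k) (MvPolynomial (Fin 4) (MvPolynomial (Fin 3) k))
        (φ i) * τ i = C δ * (C (φ i) * X i) + C (φ i) * (τ i - C δ * X i) := by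
      intro i
      rw [algebraMap_eq]; ring
    rw [Finset.sum_congr rfl fun i _ => h1 i, Finset.sum_add_distrib, ← Finset.mul_sum]
    have h2 : ∑ i, C (φ i) * (τ i - C δ * X i) = C (φ r) * (τ r - C δ * X r) +
        C (φ s) * (τ s - C δ * X s) := by
      apply Finset.sum_eq_add r s hrs
      · intro i _ hi
        rw [hτi i hi.1 hi.2, sub_self, mul_zero]
      · intro h; exact absurd (Finset.mem_univ _) h
      · intro h; exact absurd (Finset.mem_univ _) h
    rw [h2, hτr, hτs]
    ring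
  have hj : aeval τ Gj = 0 := by
    rw [hGj]
    unfold G
    rw [hform]
    have : δ = P.g (l + 1) r * P.g (l + 2) s - P.g (l + 2) r * P.g (l + 1) s := hδ
    rw [this]
    simp only [map_sub, map_mul, hGj, hGk, G]
    ring
  have hk : aeval τ Gk = 0 := by
    rw [hGk]
    unfold G
    rw [hform]
    have : δ = P.g (l + 1) r * P.g (l + 2) s - P.g (l + 2) r * P.g (l + 1) s := hδ
    rw [this]
    simp only [map_sub, map_mul, hGj, hGk, G]
    ring
  have hl : aeval τ (P.G l) ≠ 0 := by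
    unfold G
    rw [hform]
    intro h
    set u := P.g l r * P.g (l + 2) s - P.g l s * P.g (l + 2) r with hu
    set v := P.g l r * P.g (l + 1) s - P.g l s * P.g (l + 1) r with hv
    have h1 : form (∑ j, (Pi.single l δ - Pi.single (l + 1) u + Pi.single (l + 2) v :
        Fin 3 → MvPolynomial (Fin 3) k) j • P.g j) = 0 := by
      rw [← h]
      simp only [Pi.sub_apply, Pi.add_apply, sub_smul, add_smul, Finset.sum_add_distrib,
        Finset.sum_sub_distrib, Pi.single_apply, ite_smul, zero_smul,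
        Finset.sum_ite_eq', Finset.mem_univ, if_true]
      rw [sub_eq_add_neg, ← neg_smul, form_add, form_add, form_smul, form_smul, form_smul]
      rw [hu, hv]
      simp only [map_neg, map_sub, map_mul, hGj, hGk, G]
      ring
    have h2 : form (0 : Fin 4 → MvPolynomial (Fin 3) k) = 0 := by simp [form]
    rw [← h2] at h1
    have h3 := congrFun (P.indep _ (form_inj h1)) l
    have hl1 : l ≠ l + 1 := by fin_cases l <;> decide
    have hl2 : l ≠ l + 2 := by fin_cases l <;> decide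
    rw [Pi.add_apply, Pi.sub_apply, Pi.single_eq_same, Pi.single_eq_of_ne hl1,
      Pi.single_eq_of_ne hl2, sub_zero, add_zero] at h3
    exact hd h3
  have hz : aeval τ (h l) = 0 := by
    have := congrArg (aeval τ) h0
    rw [map_add, map_add, map_mul, map_mul, map_mul, hj, hk, map_zero, zero_mul, zero_mul,
      zero_add, zero_add] at this
    exact (mul_eq_zero.1 this).resolve_left hl
  have h1 := aeval_sub_mem (Ideal.span {Gj, Gk}) (fun i => C δ * X i) τ hmem (h l)
  rw [aeval_mul_homog (hh l), aeval_X_left_apply, hz, sub_zero, Ideal.mem_span_pair] at h1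
  obtain ⟨a, b, hab⟩ := h1
  exact ⟨a, b, hab.symm⟩

/-- the Koszul boundaries -/
noncomputable def bd : Submodule (MvPolynomial (Fin 3) k)
    (Fin 3 → MvPolynomial (Fin 4) (MvPolynomial (Fin 3) k)) where
  carrier := {h | ∃ v : Fin 3 → MvPolynomial (Fin 4) (MvPolynomial (Fin 3) k),
    h 0 = P.G 1 * v 2 - P.G 2 * v 1 ∧ h 1 = P.G 2 * v 0 - P.G 0 * v 2 ∧
    h 2 = P.G 0 * v 1 - P.G 1 * v 0}
  zero_mem' := ⟨0, by simp⟩
  add_mem' := by
    rintro x y ⟨v, h0, h1, h2⟩ ⟨w, g0, g1, g2⟩
    refine ⟨v + w, ?_, ?_, ?_⟩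
    · simp only [Pi.add_apply]; rw [h0, g0]; ring
    · simp only [Pi.add_apply]; rw [h1, g1]; ring
    · simp only [Pi.add_apply]; rw [h2, g2]; ring
  smul_mem' := by
    rintro c x ⟨v, h0, h1, h2⟩
    refine ⟨c • v, ?_, ?_, ?_⟩
    · simp only [Pi.smul_apply, smul_eq_C_mul]; rw [h0]; ring
    · simp only [Pi.smul_apply, smul_eq_C_mul]; rw [h1]; ring
    · simp only [Pi.smul_apply, smul_eq_C_mul]; rw [h2]; ring

theorem mem_bd {h : Fin 3 → MvPolynomial (Fin 4) (MvPolynomial (Fin 3) k)} :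
    h ∈ P.bd ↔ ∃ v : Fin 3 → MvPolynomial (Fin 4) (MvPolynomial (Fin 3) k),
    h 0 = P.G 1 * v 2 - P.G 2 * v 1 ∧ h 1 = P.G 2 * v 0 - P.G 0 * v 2 ∧
    h 2 = P.G 0 * v 1 - P.G 1 * v 0 := Iff.rfl

theorem dl_pow_smul {l : Fin 3} {r s : Fin 4} (hd : P.dl l r s ≠ 0) {d : ℕ}
    {h : Fin 3 → MvPolynomial (Fin 4) (MvPolynomial (Fin 3) k)} (hh : ∀ i, (h i).IsHomogeneous d)
    (h0 : P.G 0 * h 0 + P.G 1 * h 1 + P.G 2 * h 2 = 0) : P.dl l r s ^ d • h ∈ P.bd := by
  have h1 : P.G (l + 1) * h (l + 1) + P.G (l + 2) * h (l + 2) + P.G l * h l = 0 := by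
    fin_cases l
    · simp only [Fin.zero_eta, zero_add]
      linear_combination h0
    · simp only [Fin.mk_one, show (1 : Fin 3) + 1 = 2 from rfl, show (1 : Fin 3) + 2 = 0 from rfl]
      linear_combination h0
    · simp only [Fin.reduceFinMk, show (2 : Fin 3) + 1 = 0 from rfl,
        show (2 : Fin 3) + 2 = 1 from rfl]
      linear_combination h0
  obtain ⟨α, β, hαβ⟩ := P.subst_step hd hh h1
  have hne : l + 1 ≠ l + 2 := by fin_cases l <;> decide
  obtain ⟨vj, vk, vl, e1, e2, e3⟩ := koszul_step (P.pair hne) h1 hαβ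
  rw [mem_bd]
  simp only [Pi.smul_apply, smul_eq_C_mul, map_pow]
  fin_cases l
  · refine ⟨![vl, vj, vk], ?_, ?_, ?_⟩
    · simpa using e3
    · simpa using e1
    · simpa using e2
  · refine ⟨![vk, vl, vj], ?_, ?_, ?_⟩
    · simpa using e2
    · simpa using e3
    · simpa using e1
  · refine ⟨![vj, vk, vl], ?_, ?_, ?_⟩
    · simpa using e1
    · simpa using e2
    · simpa using e3

theorem G_e1 (v : Fin 3 → MvPolynomial (Fin 4) (MvPolynomial (Fin 3) k))
    (hv : ∀ i j, P.G i * v j = P.G j * v i) : ∃ c, ∀ i, v i = c * P.G i := by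
  have h1 : P.G 0 ∣ P.G 1 * v 0 := ⟨v 1, (hv 0 1).symm⟩
  obtain ⟨c, hc⟩ := ((P.G_prime 0).dvd_or_dvd h1).resolve_left (P.G_not_dvd (by decide))
  refine ⟨c, fun i => ?_⟩
  apply mul_left_cancel₀ (P.G_ne_zero 0)
  rw [hv 0 i, hc]; ring

/-- The three linear forms are a regular sequence. -/
theorem kreg (hZ : Good Z) : KReg P.G := by
  refine ⟨P.G_e1, ?_, P.G_ne_zero⟩
  obtain ⟨bs, -⟩ := exists_bas_w (k := k) (v := Pi.single 0 1) (by
    intro h; have := congrFun h 0; simp at this)
  -- homogeneous case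
  have hom : ∀ (d : ℕ) (h : Fin 3 → MvPolynomial (Fin 4) (MvPolynomial (Fin 3) k)),
      (∀ i, (h i).IsHomogeneous d) → P.G 0 * h 0 + P.G 1 * h 1 + P.G 2 * h 2 = 0 →
      h ∈ P.bd := by
    intro d h hh h0
    let c : Ideal (MvPolynomial (Fin 3) k) :=
      (P.bd).comap (LinearMap.toSpanSingleton (MvPolynomial (Fin 3) k) _ h)
    have memc : ∀ r, r ∈ c ↔ r • h ∈ P.bd := fun r => by
      rw [Submodule.mem_comap, LinearMap.toSpanSingleton_apply]
    have hdl : ∀ l r s, P.dl l r s ∈ c.radical := by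
      intro l r s
      by_cases hz : P.dl l r s = 0
      · rw [hz]; exact Ideal.zero_mem _
      · exact ⟨d, (memc _).2 (P.dl_pow_smul hz hh h0)⟩
    have hX : ∀ i : Fin 3, (X i : MvPolynomial (Fin 3) k) ∈ c.radical := by
      apply hZ.X_mem_radical
      · rw [← P.fspan, Ideal.span_le]
        rintro _ ⟨i, rfl⟩
        exact P.f_mem_of_dl (hdl 0) i
      · intro v hv
        obtain ⟨l, r, s, hlrs⟩ := P.rank_two_Z hZ hv
        obtain ⟨e, he⟩ := P.dl_homog l r s
        exact ⟨_, e, he, hlrs, hdl l r s⟩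
    apply absorb bs.y P.bd
    · intro w hw
      have hw' : ∀ i : Fin 3, ∃ v : Fin 3 → MvPolynomial (Fin 4) (MvPolynomial (Fin 3) k),
          ((![C (bs.y 0), C (bs.y 1), C (bs.y 2) ^ 1] :
          Fin 3 → MvPolynomial (Fin 4) (MvPolynomial (Fin 3) k)) i) * w 0 =
            P.G 1 * v 2 - P.G 2 * v 1 ∧
          ((![C (bs.y 0), C (bs.y 1), C (bs.y 2) ^ 1] :
          Fin 3 → MvPolynomial (Fin 4) (MvPolynomial (Fin 3) k)) i) * w 1 =
            P.G 2 * v 0 - P.G 0 * v 2 ∧
          ((![C (bs.y 0), C (bs.y 1), C (bs.y 2) ^ 1] :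
          Fin 3 → MvPolynomial (Fin 4) (MvPolynomial (Fin 3) k)) i) * w 2 =
            P.G 0 * v 1 - P.G 1 * v 0 := by
        intro i
        have := hw i
        rw [mem_bd] at this
        simp only [Pi.smul_apply, smul_eq_C_mul] at this
        fin_cases i
        · simpa using this
        · simpa using this
        · simpa using this
      exact (P.mem_bd).2 (chase3 (bs.kreg 4 1) (P.G_ne_zero 0) P.G_e1 w hw')
    · intro i
      have h1 : bs.y i ∈ c.radical := by
        unfold Bas.y form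
        exact Ideal.sum_mem _ fun j _ => Ideal.mul_mem_left _ _ (hX j)
      obtain ⟨N, hN⟩ := h1
      exact ⟨N, (memc _).1 hN⟩
  -- general case
  intro h h0
  obtain ⟨N, hN⟩ : ∃ N, ∀ i, (h i).totalDegree < N := by
    refine ⟨(h 0).totalDegree + (h 1).totalDegree + (h 2).totalDegree + 1, fun i => ?_⟩
    fin_cases i <;> simp <;> omega
  have hsum : ∀ i, h i = ∑ d ∈ Finset.range N, homogeneousComponent d (h i) := by
    intro i
    conv_lhs => rw [← sum_homogeneousComponent (h i)]
    apply Finset.sum_subset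
    · intro x hx
      rw [Finset.mem_range] at hx ⊢
      have := hN i
      omega
    · intro x _ hx
      rw [Finset.mem_range, not_lt] at hx
      apply homogeneousComponent_eq_zero
      omega
  have hcomp : h = ∑ d ∈ Finset.range N, fun i => homogeneousComponent d (h i) := by
    funext i
    rw [Finset.sum_apply]
    exact hsum i
  rw [← mem_bd, hcomp]
  refine Submodule.sum_mem _ fun d _ => ?_
  apply hom d
  · intro i
    exact homogeneousComponent_isHomogeneous _ _
  · have h1 := congrArg (homogeneousComponent (d + 1)) h0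
    simp only [map_add, map_zero, mul_comm (P.G _) _] at h1
    rw [hc_mul _ (P.G_homog 0), hc_mul _ (P.G_homog 1), hc_mul _ (P.G_homog 2)] at h1
    rw [← h1]
    ring

end HB

end Pool.Agent.LibH27.RT
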