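import Pool.Agent.Lib_helper27.RT.Points

/-!
# The kernel is torsion modulo its linear part
-/

namespace Pool.Agent.LibH27.RT

open MvPolynomial

section general

variable {R : Type*} [CommRing R] {n : ℕ}

theorem aeval_sub_mem {A : Type*} [CommRing A] [Algebra R A] {σ : Type*} (I : Ideal A)
    (g g' : σ → A) (h : ∀ i, g i - g' i ∈ I) (q : MvPolynomial σ R) :
    aeval g q - aeval g' q ∈ I := by
  have h1 : (Ideal.Quotient.mkₐ R I).comp (aeval g) = (Ideal.Quotient.mkₐ R I).comp (aeval g') := by
    ext j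
    simp only [AlgHom.comp_apply, Ideal.Quotient.mkₐ_eq_mk, aeval_X]
    rw [Ideal.Quotient.mk_eq_mk_iff_sub_mem]
    exact h j
  have h2 := congrArg (fun g => g q) h1
  simp only [AlgHom.comp_apply, Ideal.Quotient.mkₐ_eq_mk] at h2
  rw [Ideal.Quotient.mk_eq_mk_iff_sub_mem] at h2
  exact h2

theorem aeval_C_eq (f : Fin n → R) (q : MvPolynomial (Fin n) R) :
    aeval (fun i => (C (f i) : MvPolynomial (Fin n) R)) q = C (aeval f q) :=
  aeval_algebraMap_apply (MvPolynomial (Fin n) R) f q

theorem C_mul_X_form (c : R) (i : Fin n) : (C c * X i : MvPolynomial (Fin n) R) =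
    form (Pi.single i c) := by
  simp [form, Pi.single_apply, apply_ite]

theorem pow_mul_mem_synL (f : Fin n → R) {q : MvPolynomial (Fin n) R} {d : ℕ}
    (hq : q.IsHomogeneous d) (hq0 : aeval f q = 0) (j : Fin n) : C (f j) ^ d * q ∈ synL f := by
  have h1 := aeval_sub_mem (synL f) (fun i => C (f j) * X i)
    (fun i => (X j * C (f i) : MvPolynomial (Fin n) R)) (fun i => by
      have : (C (f j) * X i - X j * C (f i) : MvPolynomial (Fin n) R) =
          form ((Pi.single i (f j) : Fin n → R) + (-1 : R) • (Pi.single j (f i) : Fin n → R)) := by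
        rw [form_add, form_smul, ← C_mul_X_form, ← C_mul_X_form]
        simp only [map_neg, map_one]; ring
      rw [this]
      apply form_mem_synL
      simp only [Pi.add_apply, Pi.smul_apply, smul_eq_mul, add_mul, Finset.sum_add_distrib,
        Pi.single_apply, mul_ite, mul_zero, ite_mul, zero_mul,
        Finset.sum_ite_eq', Finset.mem_univ, if_true]
      ring) q
  rw [aeval_mul_homog hq, aeval_mul_homog hq, aeval_C_eq, hq0, map_zero, mul_zero, sub_zero,
    aeval_X_left_apply] at h1
  exact h1

theorem reesKer_two [IsDomain R] [UniqueFactorizationMonoid R] {y0 y1 : R} (h0 : Prime y0)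
    (h1 : ¬ y0 ∣ y1) {q : MvPolynomial (Fin 2) R} {d : ℕ} (hq : q.IsHomogeneous d)
    (hq0 : aeval ![y0, y1] q = 0) : form ![y1, -y0] ∣ q := by
  have hy1 : y1 ≠ 0 := fun h => h1 (by rw [h]; exact dvd_zero _)
  have hg : Prime (form ![y1, -y0]) := by
    apply prime_form
    · intro h
      have := congrFun h 0
      simp at this
      exact hy1 this
    · intro c hc
      have h2 := hc 0
      have h3 := hc 1
      simp only [Matrix.cons_val_zero, Matrix.cons_val_one] at h2 h3
      rw [dvd_neg] at h3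
      obtain ⟨u, hu⟩ := h3
      rcases h0.irreducible.isUnit_or_isUnit hu with h | h
      · exact h
      · exfalso
        apply h1
        rw [hu]
        exact (h.mul_right_dvd.2 h2)
  have h2 := pow_mul_mem_synL ![y0, y1] hq hq0 0
  have h3 : synL ![y0, y1] ≤ Ideal.span {form ![y1, -y0]} := by
    unfold synL
    rw [Ideal.span_le]
    rintro _ ⟨φ, hφ, rfl⟩
    rw [SetLike.mem_coe, Ideal.mem_span_singleton]
    rw [Fin.sum_univ_two] at hφ
    simp only [Matrix.cons_val_zero, Matrix.cons_val_one] at hφ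
    have h4 : y0 ∣ φ 1 * y1 := ⟨-φ 0, by linear_combination hφ⟩
    obtain ⟨c, hc⟩ := (h0.dvd_or_dvd h4).resolve_right h1
    refine ⟨C (-c), ?_⟩
    rw [mul_comm, ← form_smul]
    congr 1
    funext i
    fin_cases i
    · simp only [Fin.zero_eta, Pi.smul_apply, Matrix.cons_val_zero, smul_eq_mul]
      apply mul_left_cancel₀ h0.ne_zero
      rw [hc] at hφ
      linear_combination hφ
    · simp only [Fin.mk_one, Pi.smul_apply, Matrix.cons_val_one, Matrix.cons_val_zero,
        smul_eq_mul]
      rw [hc]; ring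
  have h4 := h3 h2
  rw [Ideal.mem_span_singleton] at h4
  refine (hg.dvd_or_dvd h4).resolve_left fun h5 => ?_
  have h6 := hg.dvd_of_dvd_pow h5
  obtain ⟨u, hu⟩ := h6
  have h7 := congrArg (aeval ![y0, y1]) hu
  rw [map_mul, aeval_form, Fin.sum_univ_two] at h7
  simp only [Matrix.cons_val_zero, Matrix.cons_val_one, aeval_C, Algebra.algebraMap_self,
    RingHom.id_apply] at h7
  apply h0.ne_zero
  rw [h7]; ring

/-- the elements of the base ring which multiply `q` into the linear part -/
noncomputable def colonB (f : Fin n → R) (q : MvPolynomial (Fin n) R) : Ideal R :=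
  ((synL f).restrictScalars R).comap (LinearMap.toSpanSingleton R (MvPolynomial (Fin n) R) q)

theorem mem_colonB {f : Fin n → R} {q : MvPolynomial (Fin n) R} {r : R} :
    r ∈ colonB f q ↔ C r * q ∈ synL f := by
  unfold colonB
  rw [Submodule.mem_comap, LinearMap.toSpanSingleton_apply, smul_eq_C_mul,
    Submodule.restrictScalars_mem]

end general

variable {k : Type*} [Field k] {n : ℕ}

theorem Good.pow_sep_mem {Z : Finset (Fin 3 → k)} (hX : Good Z) {f : Fin n → MvPolynomial (Fin 3) k}
    (hf : Ideal.span (Set.range f) = ptIdeal Z)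
    {q : MvPolynomial (Fin n) (MvPolynomial (Fin 3) k)} {d : ℕ}
    (hq : q.IsHomogeneous d) (hq0 : aeval f q = 0) {v : Fin 3 → k} (hv : v ∈ Z)
    {h : MvPolynomial (Fin 3) k} (hv0 : aeval v h ≠ 0) {e : ℕ} (hh : h.IsHomogeneous e)
    (hvu : ∀ u ∈ Z, u ≠ v → aeval u h = 0) : C h ^ d * q ∈ synL f := by
  obtain ⟨b, hb⟩ := exists_bas_w (hX.ne0 v hv)
  have hy : ∀ i : Fin 3, i ≠ 2 → ∃ α : Fin n → MvPolynomial (Fin 3) k,
      ∑ j, α j * f j = b.y i * h := by
    intro i hi
    rw [← Ideal.mem_span_range_iff_exists_fun, hf, mem_ptIdeal_homog ((b.y_homog i).mul hh)]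
    intro u hu
    rw [map_mul]
    by_cases huv : u = v
    · rw [huv, ← hb, b.eval_y, if_neg hi, zero_mul]
    · rw [hvu u hu huv, mul_zero]
  obtain ⟨α, hα⟩ := hy 0 (by decide)
  obtain ⟨β, hβ⟩ := hy 1 (by decide)
  have hf2 : ∀ j, ∃ s t, s * b.y 0 + t * b.y 1 = f j := by
    intro j
    have h1 : f j ∈ ptIdeal Z := by
      rw [← hf]; exact Ideal.subset_span ⟨j, rfl⟩
    rw [mem_ptIdeal] at h1
    have h2 := h1 v hv
    rw [← hb, b.ker_two, Ideal.mem_span_pair] at h2
    exact h2
  choose s t hst using hf2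
  have hne : h ≠ 0 := by
    rintro rfl
    exact hv0 (map_zero _)
  -- congruence
  have h1 := aeval_sub_mem (synL f) (fun j => C h * X j)
    (fun j => (C (s j) * form α + C (t j) * form β :
      MvPolynomial (Fin n) (MvPolynomial (Fin 3) k))) (fun j => by
      have : (C h * X j - (C (s j) * form α + C (t j) * form β) :
          MvPolynomial (Fin n) (MvPolynomial (Fin 3) k)) =
          form (Pi.single j h + ((-s j) • α + (-t j) • β)) := by
        rw [form_add, form_add, form_smul, form_smul, C_mul_X_form]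
        simp only [map_neg]; ring
      rw [this]
      apply form_mem_synL
      simp only [Pi.add_apply, add_mul, Finset.sum_add_distrib, Pi.single_apply, ite_mul, zero_mul,
        Finset.sum_ite_eq', Finset.mem_univ, if_true, Pi.smul_apply, smul_eq_mul]
      simp only [mul_assoc, ← Finset.mul_sum]
      rw [hα, hβ, ← hst j]
      ring) q
  rw [aeval_mul_homog hq, aeval_X_left_apply] at h1
  -- the polynomial in two variables
  set q' : MvPolynomial (Fin 2) (MvPolynomial (Fin 3) k) :=
    aeval (fun j => C (s j) * X 0 + C (t j) * X 1) q with hq'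
  have h2 : aeval ![form α, form β] q' = aeval (fun j => C (s j) * form α + C (t j) * form β) q := by
    have : (aeval ![form α, form β]).comp (aeval (fun j => C (s j) * X 0 + C (t j) * X 1)) =
        (aeval (fun j => C (s j) * form α + C (t j) * form β) :
        MvPolynomial (Fin n) (MvPolynomial (Fin 3) k) →ₐ[MvPolynomial (Fin 3) k]
        MvPolynomial (Fin n) (MvPolynomial (Fin 3) k)) := by
      ext j
      simp only [AlgHom.comp_apply, aeval_X, map_add, map_mul, Matrix.cons_val_zero,
        Matrix.cons_val_one, aeval_C, algebraMap_eq]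
    rw [hq']
    exact congrArg (fun g => g q) this
  have h3 : q'.IsHomogeneous d := by
    have := hq.aeval (n := 1) (fun j => (C (s j) * X 0 + C (t j) * X 1 :
      MvPolynomial (Fin 2) (MvPolynomial (Fin 3) k)))
      (fun j => (isHomogeneous_C_mul_X _ _).add (isHomogeneous_C_mul_X _ _))
    rwa [one_mul] at this
  have h4 : aeval ![b.y 0, b.y 1] q' = 0 := by
    have h5 : aeval (fun j => h * f j) q = 0 := by
      rw [aeval_mul_homog hq, hq0, mul_zero]
    have h6 : (fun j => h * f j) = fun j => h * (s j * b.y 0 + t j * b.y 1) := by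
      funext j; rw [hst j]
    rw [h6, aeval_mul_homog hq] at h5
    have h7 := (mul_eq_zero.1 h5).resolve_left (pow_ne_zero d hne)
    have : (aeval ![b.y 0, b.y 1]).comp (aeval (fun j => C (s j) * X 0 + C (t j) * X 1)) =
        (aeval (fun j => s j * b.y 0 + t j * b.y 1) :
        MvPolynomial (Fin n) (MvPolynomial (Fin 3) k) →ₐ[MvPolynomial (Fin 3) k]
        MvPolynomial (Fin 3) k) := by
      apply MvPolynomial.algHom_ext
      intro j
      simp only [AlgHom.comp_apply, aeval_X, map_add, map_mul, Matrix.cons_val_zero,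
        Matrix.cons_val_one, aeval_C, Algebra.algebraMap_self, RingHom.id_apply]
    rw [hq']
    rw [← h7]
    exact congrArg (fun g => g q) this
  obtain ⟨u, hu⟩ := reesKer_two (b.y_prime 0) (b.y_not_dvd (by decide)) h3 h4
  have h5 : aeval ![form α, form β] q' ∈ synL f := by
    rw [hu, map_mul, aeval_form, Fin.sum_univ_two]
    apply Ideal.mul_mem_right
    simp only [Matrix.cons_val_zero, Matrix.cons_val_one, algebraMap_eq]
    rw [← form_smul, ← form_smul, ← form_add]
    apply form_mem_synL
    simp only [Pi.add_apply, add_mul, Finset.sum_add_distrib, Pi.smul_apply, smul_eq_mul,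
      mul_assoc, ← Finset.mul_sum]
    rw [hα, hβ]
    ring
  rw [h2] at h5
  have := Ideal.add_mem _ h1 h5
  rwa [sub_add_cancel] at this

/-- **Linear type off the irrelevant ideal.** -/
theorem Good.torsion {X : Finset (Fin 3 → k)} (hX : Good X) {f : Fin n → MvPolynomial (Fin 3) k}
    (hf : Ideal.span (Set.range f) = ptIdeal X)
    {q : MvPolynomial (Fin n) (MvPolynomial (Fin 3) k)} {d : ℕ}
    (hq : q.IsHomogeneous d) (hq0 : aeval f q = 0) (i : Fin 3) :
    (MvPolynomial.X i) ∈ (colonB f q).radical := by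
  apply hX.X_mem_radical
  · rw [← hf, Ideal.span_le]
    rintro _ ⟨j, rfl⟩
    refine ⟨d, ?_⟩
    rw [mem_colonB, map_pow]
    exact pow_mul_mem_synL f hq hq0 j
  · intro v hv
    obtain ⟨h, hh, hv0, hvu⟩ := hX.exists_sep hv
    refine ⟨h, _, hh, hv0, d, ?_⟩
    rw [mem_colonB, map_pow]
    exact hX.pow_sep_mem hf hq hq0 hv hv0 hh hvu

theorem Good.torsion_y {X : Finset (Fin 3 → k)} (hX : Good X) {f : Fin n → MvPolynomial (Fin 3) k}
    (hf : Ideal.span (Set.range f) = ptIdeal X)
    {q : MvPolynomial (Fin n) (MvPolynomial (Fin 3) k)} {d : ℕ}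
    (hq : q.IsHomogeneous d) (hq0 : aeval f q = 0) (a : Fin 3 → k) :
    ∃ N : ℕ, C (form a) ^ N * q ∈ synL f := by
  have h1 : form a ∈ (colonB f q).radical := by
    unfold form
    exact Ideal.sum_mem _ fun i _ => Ideal.mul_mem_left _ _ (hX.torsion hf hq hq0 i)
  obtain ⟨N, hN⟩ := h1
  refine ⟨N, ?_⟩
  rw [mem_colonB, map_pow] at hN
  exact hN

end Pool.Agent.LibH27.RT
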