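import Pool.Agent.Lib_helper27.RT.HBc
import Pool.Agent.Lib_helper27.RT.Torsion

/-!
# The linear forms given by the Hilbert–Burch matrix; the cases of at most three generators
-/

namespace Pool.Agent.LibH27.RT

open MvPolynomial

variable {k : Type*} [Field k] {m : ℕ}

namespace HB

variable {Z : Finset (Fin 3 → k)} (P : HB Z m)

/-- the `j`-th syzygy as a linear form in `T` -/
noncomputable def G (j : Fin m) : MvPolynomial (Fin (m + 1)) (MvPolynomial (Fin 3) k) :=
  form (P.g j)

theorem G_homog (j : Fin m) : (P.G j).IsHomogeneous 1 := form_homog _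

theorem g_syz (j : Fin m) : ∑ i, P.g j i * P.f i = 0 :=
  (P.syz (P.g j)).2 ⟨Pi.single j 1, by simp [Pi.single_apply]⟩

theorem synL_eq : synL P.f = Ideal.span (Set.range P.G) := by
  apply le_antisymm
  · unfold synL
    rw [Ideal.span_le]
    rintro _ ⟨φ, hφ, rfl⟩
    obtain ⟨c, rfl⟩ := (P.syz φ).1 hφ
    rw [form_sum]
    refine Ideal.sum_mem _ fun j _ => ?_
    rw [form_smul]
    exact Ideal.mul_mem_left _ _ (Ideal.subset_span ⟨j, rfl⟩)
  · rw [Ideal.span_le]
    rintro _ ⟨j, rfl⟩
    exact form_mem_synL (P.g_syz j)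

theorem G_mem (j : Fin m) : P.G j ∈ synL P.f := form_mem_synL (P.g_syz j)

/-- the generating syzygies are primitive, even up to constant combinations -/
theorem primitive (γ : Fin m → k) (hγ : γ ≠ 0) (c : MvPolynomial (Fin 3) k)
    (hc : ∀ i, c ∣ (∑ j, (C (γ j) : MvPolynomial (Fin 3) k) • P.g j) i) : IsUnit c := by
  choose h hh using hc
  have h1 : (∑ j, (C (γ j) : MvPolynomial (Fin 3) k) • P.g j) = c • h := by
    funext i
    exact hh i
  have hc0 : c ≠ 0 := by
    rintro rfl
    rw [zero_smul] at h1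
    have := P.indep _ h1
    apply hγ
    funext j
    have h2 := congrFun this j
    rw [Pi.zero_apply, ← map_zero C] at h2
    exact C_injective _ _ h2
  have h2 : ∑ i, h i * P.f i = 0 := by
    have h3 := (P.syz _).2 ⟨fun j => C (γ j), rfl⟩
    rw [h1] at h3
    simp only [Pi.smul_apply, smul_eq_mul, mul_assoc, ← Finset.mul_sum] at h3
    exact (mul_eq_zero.1 h3).resolve_left hc0
  obtain ⟨d, rfl⟩ := (P.syz h).1 h2
  have h3 : (fun j => C (γ j) - c * d j) = (0 : Fin m → MvPolynomial (Fin 3) k) := by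
    apply P.indep
    simp only [sub_smul, Finset.sum_sub_distrib]
    rw [h1, Finset.smul_sum]
    simp only [smul_smul]
    exact sub_self _
  obtain ⟨j, hj⟩ := Function.ne_iff.1 hγ
  have h4 : c * d j = C (γ j) := by
    have := congrFun h3 j
    simp only [Pi.zero_apply] at this
    linear_combination -this
  refine IsUnit.of_mul_eq_one (d j * C (γ j)⁻¹) ?_
  rw [← mul_assoc, h4, ← map_mul, mul_inv_cancel₀ hj, map_one]

theorem g_ne_zero (j : Fin m) : P.g j ≠ 0 := by
  intro h
  have h1 := P.indep (Pi.single j 1) (by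
    rw [Finset.sum_eq_single j]
    · rw [h, smul_zero]
    · intro i _ hi
      rw [Pi.single_eq_of_ne hi, zero_smul]
    · intro h; exact absurd (Finset.mem_univ _) h)
  have := congrFun h1 j
  rw [Pi.single_eq_same, Pi.zero_apply] at this
  exact one_ne_zero this

theorem G_prime (j : Fin m) : Prime (P.G j) := by
  classical
  apply prime_form (P.g_ne_zero j)
  intro c hc
  apply P.primitive (Pi.single j 1) (fun h => by
    have := congrFun h j
    rw [Pi.single_eq_same] at this
    exact one_ne_zero this) c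
  intro i
  have : (∑ j', (C ((Pi.single j 1 : Fin m → k) j') : MvPolynomial (Fin 3) k) • P.g j') = P.g j := by
    rw [Finset.sum_eq_single j]
    · rw [Pi.single_eq_same, map_one, one_smul]
    · intro i _ hi
      rw [Pi.single_eq_of_ne hi, map_zero, zero_smul]
    · intro h; exact absurd (Finset.mem_univ _) h
  rw [this]
  exact hc i

theorem G_ne_zero (j : Fin m) : P.G j ≠ 0 := (P.G_prime j).ne_zero

theorem G_not_dvd {i j : Fin m} (hij : i ≠ j) : ¬ P.G i ∣ P.G j := by
  rintro ⟨u, hu⟩
  have hu0 : u ≠ 0 := by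
    rintro rfl
    rw [mul_zero] at hu
    exact P.G_ne_zero j hu
  have h1 : u.totalDegree = 0 := by
    have h2 := (form_homog (P.g j)).totalDegree (P.G_ne_zero j)
    have h3 := (form_homog (P.g i)).totalDegree (P.G_ne_zero i)
    change (P.G j).totalDegree = 1 at h2
    change (P.G i).totalDegree = 1 at h3
    rw [hu, totalDegree_mul_of_isDomain (P.G_ne_zero i) hu0] at h2
    omega
  rw [totalDegree_eq_zero_iff_eq_C] at h1
  rw [h1, mul_comm] at hu
  unfold G at hu
  rw [← form_smul] at hu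
  have h2 := form_inj hu
  have h3 := P.indep (Pi.single j 1 - Pi.single i (coeff 0 u)) (by
    simp only [Pi.sub_apply, sub_smul, Finset.sum_sub_distrib, Pi.single_apply, ite_smul, zero_smul,
      Finset.sum_ite_eq', Finset.mem_univ, if_true, one_smul]
    rw [h2, sub_self])
  have h4 := congrFun h3 j
  rw [Pi.sub_apply, Pi.single_eq_same, Pi.single_eq_of_ne (Ne.symm hij), sub_zero,
    Pi.zero_apply] at h4
  exact one_ne_zero h4

theorem pair {i j : Fin m} (hij : i ≠ j) (u v : MvPolynomial (Fin (m + 1)) (MvPolynomial (Fin 3) k))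
    (h : u * P.G i = v * P.G j) : ∃ c, u = c * P.G j ∧ v = c * P.G i := by
  have h1 : P.G i ∣ v * P.G j := ⟨u, by rw [← h, mul_comm]⟩
  obtain ⟨c, hc⟩ := ((P.G_prime i).dvd_or_dvd h1).resolve_right (P.G_not_dvd hij)
  refine ⟨c, ?_, by rw [hc, mul_comm]⟩
  apply mul_right_cancel₀ (P.G_ne_zero i)
  rw [h, hc]; ring

/-- The kernel is contained in every ideal which contains the linear part and absorbs. -/
theorem absorb_le (hZ : Good Z) (bs : Bas k)
    (J : Ideal (MvPolynomial (Fin (m + 1)) (MvPolynomial (Fin 3) k))) (hJ : synL P.f ≤ J)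
    (hB : ∀ w, (∀ i, C (bs.y i) * w ∈ J) → w ∈ J) (d : ℕ)
    (q : MvPolynomial (Fin (m + 1)) (MvPolynomial (Fin 3) k))
    (hq : q.IsHomogeneous d) (hq0 : aeval P.f q = 0) : q ∈ J := by
  apply absorb bs.y (J.restrictScalars (MvPolynomial (Fin 3) k))
  · intro w hw
    apply hB
    intro i
    have := hw i
    rw [smul_eq_C_mul] at this
    exact this
  · intro i
    obtain ⟨N, hN⟩ := hZ.torsion_y P.fspan hq hq0 (bs.A i)
    refine ⟨N, ?_⟩
    rw [smul_eq_C_mul, map_pow]
    exact hJ hN

theorem not_genDeg_zero (hm : m ≠ 0) : ¬ GenDeg P.f 0 := by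
  intro h
  have j : Fin m := ⟨0, Nat.pos_of_ne_zero hm⟩
  have h1 := h (synL_le_reesKer _ (P.G_mem j))
  have h2 : Ideal.span {q | q ∈ reesKer P.f ∧ ∃ d ≤ 0, q.IsHomogeneous d} ≤ ⊥ := by
    rw [Ideal.span_le]
    rintro q ⟨hq, d, hd, hqd⟩
    obtain rfl : d = 0 := by omega
    rw [mem_reesKer_homog _ hqd] at hq
    rw [← homogeneousComponent_eq_self hqd, homogeneousComponent_zero] at hq ⊢
    rw [aeval_C] at hq
    rw [show coeff 0 q = 0 from hq, map_zero]
    exact Ideal.zero_mem _
  exact P.G_ne_zero j ((Ideal.mem_bot).1 (h2 h1))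

end HB

/-- at most two generators -/
theorem HB.genDeg_one_two {Z : Finset (Fin 3 → k)} (P : HB Z 1) (hZ : Good Z) : GenDeg P.f 1 := by
  apply genDeg_one
  obtain ⟨bs, -⟩ := exists_bas_w (k := k) (v := Pi.single 0 1) (by
    intro h; have := congrFun h 0; simp at this)
  intro q hq
  rw [← sum_homogeneousComponent q]
  refine Ideal.sum_mem _ fun d _ => ?_
  have h1 := homogeneousComponent_isHomogeneous d q
  refine P.absorb_le hZ bs _ le_rfl ?_ d _ h1 ((mem_reesKer_homog _ h1).1 (comp_mem_reesKer _ hq d))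
  intro w hw
  have key := chase1 (bs.kreg 2 1) (P.G_ne_zero 0) (q := w) (by
    intro i
    have h2 := hw i
    rw [P.synL_eq, Ideal.mem_span_range_iff_exists_fun] at h2
    obtain ⟨c, hc⟩ := h2
    refine ⟨c 0, ?_⟩
    rw [Fin.sum_univ_one] at hc
    rw [hc]
    fin_cases i <;> simp)
  obtain ⟨a, rfl⟩ := key
  exact Ideal.mul_mem_left _ _ (P.G_mem 0)

/-- three generators -/
theorem HB.genDeg_one_three {Z : Finset (Fin 3 → k)} (P : HB Z 2) (hZ : Good Z) :
    GenDeg P.f 1 := by
  apply genDeg_one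
  obtain ⟨bs, -⟩ := exists_bas_w (k := k) (v := Pi.single 0 1) (by
    intro h; have := congrFun h 0; simp at this)
  intro q hq
  rw [← sum_homogeneousComponent q]
  refine Ideal.sum_mem _ fun d _ => ?_
  have h1 := homogeneousComponent_isHomogeneous d q
  refine P.absorb_le hZ bs _ le_rfl ?_ d _ h1 ((mem_reesKer_homog _ h1).1 (comp_mem_reesKer _ hq d))
  intro w hw
  have key := chase2 (bs.kreg 3 1) (P.G_ne_zero 1) (fun u v h => P.pair (i := 0) (j := 1) (by decide) u v h)
    (q := w) (by
    intro i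
    have h2 := hw i
    rw [P.synL_eq, Ideal.mem_span_range_iff_exists_fun] at h2
    obtain ⟨c, hc⟩ := h2
    refine ⟨c 0, c 1, ?_⟩
    rw [Fin.sum_univ_two] at hc
    rw [hc]
    fin_cases i <;> simp)
  obtain ⟨a, b, rfl⟩ := key
  exact Ideal.add_mem _ (Ideal.mul_mem_left _ _ (P.G_mem 0)) (Ideal.mul_mem_left _ _ (P.G_mem 1))

end Pool.Agent.LibH27.RT
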