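import Pool.Agent.Lib_helper27.RT.Points
import Pool.Agent.Lib_helper27.RT.Dim

/-!
# Graded vectors of polynomials
-/

namespace Pool.Agent.LibH27.RT

open MvPolynomial

/-- minimal systems of generators inside a prescribed generating set -/
theorem exists_min_gens {R W : Type*} [CommRing R] [AddCommGroup W] [Module R W]
    [IsNoetherian R W] (H : Set W) (N : Submodule R W) (hN : N ≤ Submodule.span R (H ∩ N)) :
    ∃ (p : ℕ) (g : Fin p → W), (∀ j, g j ∈ H) ∧ Submodule.span R (Set.range g) = N ∧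
      ∀ j, g j ∉ Submodule.span R (g '' {i | i ≠ j}) := by
  classical
  have hN' : Submodule.span R (H ∩ N) = N :=
    le_antisymm (Submodule.span_le.2 fun x hx => hx.2) hN
  have h1 : (Submodule.span R (H ∩ (N : Set W))).FG := IsNoetherian.noetherian _
  rw [Submodule.fg_span_iff_fg_span_finset_subset] at h1
  obtain ⟨s0, hs0, hs1⟩ := h1
  have hex : ∃ n : ℕ, ∃ s : Finset W, s.card = n ∧ (s : Set W) ⊆ H ∧
      Submodule.span R (s : Set W) = N :=
    ⟨s0.card, s0, rfl, fun x hx => (hs0 hx).1, by rw [← hs1, hN']⟩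
  obtain ⟨s, hs, hsH, hsN⟩ := Nat.find_spec hex
  refine ⟨s.card, fun j => (s.equivFin.symm j).1, fun j => hsH (s.equivFin.symm j).2, ?_, ?_⟩
  · rw [← hsN]
    congr 1
    ext x
    constructor
    · rintro ⟨j, rfl⟩
      exact (s.equivFin.symm j).2
    · intro hx
      exact ⟨s.equivFin ⟨x, hx⟩, by simp⟩
  · intro j hj
    have hmin := Nat.find_min hex (m := s.card - 1) (by
      rw [← hs]
      have : 0 < s.card := Finset.card_pos.2 ⟨_, (s.equivFin.symm j).2⟩
      omega)
    apply hmin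
    have h2 : (fun j => (s.equivFin.symm j).1) '' {i | i ≠ j} ⊆
        ((s.erase (s.equivFin.symm j).1 : Finset W) : Set W) := by
      rintro _ ⟨i, hi, rfl⟩
      rw [Finset.mem_coe, Finset.mem_erase]
      refine ⟨fun h => hi ?_, (s.equivFin.symm i).2⟩
      exact s.equivFin.symm.injective (Subtype.ext h)
    refine ⟨s.erase (s.equivFin.symm j).1, Finset.card_erase_of_mem (s.equivFin.symm j).2,
      fun x hx => hsH (Finset.mem_of_mem_erase hx), ?_⟩
    apply le_antisymm
    · rw [← hsN]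
      exact Submodule.span_mono fun x hx => Finset.mem_of_mem_erase hx
    · rw [← hsN, Submodule.span_le]
      intro x hx
      by_cases hxj : x = (s.equivFin.symm j).1
      · rw [hxj]
        exact Submodule.span_mono h2 hj
      · exact Submodule.subset_span (Finset.mem_erase.2 ⟨hxj, hx⟩)

variable {R : Type*} [CommRing R] {σ : Type*} {n : ℕ}

/-- `φ` is homogeneous of degree `D`, if the `i`-th basis vector has degree `a i` -/
def HV (a : Fin n → ℕ) (D : ℕ) (φ : Fin n → MvPolynomial σ R) : Prop :=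
  ∀ i, (a i ≤ D ∧ (φ i).IsHomogeneous (D - a i)) ∨ φ i = 0

/-- the component of degree `D` -/
noncomputable def cV (a : Fin n → ℕ) (D : ℕ) (φ : Fin n → MvPolynomial σ R) :
    Fin n → MvPolynomial σ R :=
  fun i => if a i ≤ D then homogeneousComponent (D - a i) (φ i) else 0

theorem HV_cV (a : Fin n → ℕ) (D : ℕ) (φ : Fin n → MvPolynomial σ R) : HV a D (cV a D φ) := by
  intro i
  unfold cV
  by_cases h : a i ≤ D
  · left
    rw [if_pos h]
    exact ⟨h, homogeneousComponent_isHomogeneous _ _⟩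
  · right
    rw [if_neg h]

theorem cV_of_HV {a : Fin n → ℕ} {D : ℕ} {φ : Fin n → MvPolynomial σ R} (h : HV a D φ) :
    cV a D φ = φ := by
  funext i
  unfold cV
  rcases h i with ⟨h1, h2⟩ | h1
  · rw [if_pos h1, homogeneousComponent_eq_self h2]
  · rw [h1]; simp

theorem cV_add (a : Fin n → ℕ) (D : ℕ) (φ ψ : Fin n → MvPolynomial σ R) :
    cV a D (φ + ψ) = cV a D φ + cV a D ψ := by
  funext i
  unfold cV
  by_cases h : a i ≤ D <;> simp [h]

theorem cV_sum {ι : Type*} (s : Finset ι) (a : Fin n → ℕ) (D : ℕ)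
    (φ : ι → Fin n → MvPolynomial σ R) :
    cV a D (∑ j ∈ s, φ j) = ∑ j ∈ s, cV a D (φ j) := by
  classical
  induction s using Finset.induction_on with
  | empty => funext i; simp [cV]
  | insert j s hj ih => rw [Finset.sum_insert hj, Finset.sum_insert hj, cV_add, ih]

theorem HV.zero (a : Fin n → ℕ) (D : ℕ) : HV a D (0 : Fin n → MvPolynomial σ R) :=
  fun _ => Or.inr rfl

theorem HV.add {a : Fin n → ℕ} {D : ℕ} {φ ψ : Fin n → MvPolynomial σ R} (h1 : HV a D φ)
    (h2 : HV a D ψ) : HV a D (φ + ψ) := by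
  intro i
  rcases h1 i with ⟨h3, h4⟩ | h3
  · rcases h2 i with ⟨_, h6⟩ | h5
    · left; exact ⟨h3, h4.add h6⟩
    · left
      rw [Pi.add_apply, h5, add_zero]
      exact ⟨h3, h4⟩
  · rcases h2 i with ⟨h5, h6⟩ | h5
    · left
      rw [Pi.add_apply, h3, zero_add]
      exact ⟨h5, h6⟩
    · right
      rw [Pi.add_apply, h3, h5, zero_add]

theorem HV.sum {ι : Type*} (s : Finset ι) {a : Fin n → ℕ} {D : ℕ}
    {φ : ι → Fin n → MvPolynomial σ R} (h : ∀ j ∈ s, HV a D (φ j)) : HV a D (∑ j ∈ s, φ j) := by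
  classical
  induction s using Finset.induction_on with
  | empty => exact HV.zero _ _
  | insert j s hj ih =>
    rw [Finset.sum_insert hj]
    exact (h j (Finset.mem_insert_self _ _)).add
      (ih fun i hi => h i (Finset.mem_insert_of_mem hi))

theorem HV.smul {a : Fin n → ℕ} {b e : ℕ} {g : Fin n → MvPolynomial σ R} (hg : HV a b g)
    {c : MvPolynomial σ R} (hc : c.IsHomogeneous e) : HV a (b + e) (c • g) := by
  intro i
  rcases hg i with ⟨h1, h2⟩ | h1
  · left
    refine ⟨by omega, ?_⟩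
    have := hc.mul h2
    rw [show b + e - a i = e + (b - a i) by omega]
    exact this
  · right
    rw [Pi.smul_apply, h1, smul_zero]

/-- multiplying a homogeneous vector by a polynomial -/
theorem cV_smul {a : Fin n → ℕ} {b : ℕ} {g : Fin n → MvPolynomial σ R} (hg : HV a b g) (D : ℕ)
    (c : MvPolynomial σ R) :
    cV a D (c • g) = (if b ≤ D then homogeneousComponent (D - b) c else 0) • g := by
  funext i
  unfold cV
  rw [Pi.smul_apply, Pi.smul_apply, smul_eq_mul, smul_eq_mul]
  rcases hg i with ⟨h1, h2⟩ | h1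
  · by_cases hb : b ≤ D
    · rw [if_pos (by omega), if_pos hb, show D - a i = (D - b) + (b - a i) by omega, hc_mul _ h2]
    · rw [if_neg hb, zero_mul]
      by_cases ha : a i ≤ D
      · rw [if_pos ha, hc_mul_lt _ h2 (by omega)]
      · rw [if_neg ha]
  · rw [h1, mul_zero, mul_zero]
    simp

/-- multiplying a vector by a form of degree one -/
theorem cV_smul_lin (a : Fin n → ℕ) (D : ℕ) {y : MvPolynomial σ R} (hy : y.IsHomogeneous 1)
    (α : Fin n → MvPolynomial σ R) : cV a (D + 1) (y • α) = y • cV a D α := by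
  funext i
  unfold cV
  rw [Pi.smul_apply, Pi.smul_apply, smul_eq_mul, smul_eq_mul, mul_comm y (α i)]
  by_cases ha : a i ≤ D
  · rw [if_pos (by omega), if_pos ha, show D + 1 - a i = (D - a i) + 1 by omega, hc_mul _ hy,
      mul_comm]
  · rw [if_neg ha, mul_zero]
    by_cases ha' : a i ≤ D + 1
    · rw [if_pos ha', hc_mul_lt _ hy (by omega)]
    · rw [if_neg ha']

/-- linear combinations -/
theorem cV_comb {p : ℕ} {a : Fin n → ℕ} {b : Fin p → ℕ} {g : Fin p → Fin n → MvPolynomial σ R}
    (hg : ∀ j, HV a (b j) (g j)) (D : ℕ) (c : Fin p → MvPolynomial σ R) :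
    cV a D (∑ j, c j • g j) = ∑ j, cV b D c j • g j := by
  rw [cV_sum]
  refine Finset.sum_congr rfl fun j _ => ?_
  rw [cV_smul (hg j)]
  rfl

theorem dot_cV {a : Fin n → ℕ} {f : Fin n → MvPolynomial σ R} (hf : ∀ i, (f i).IsHomogeneous (a i))
    (D : ℕ) (φ : Fin n → MvPolynomial σ R) :
    ∑ i, cV a D φ i * f i = homogeneousComponent D (∑ i, φ i * f i) := by
  rw [map_sum]
  refine Finset.sum_congr rfl fun i _ => ?_
  unfold cV
  by_cases h : a i ≤ D
  · rw [if_pos h]
    conv_rhs => rw [show D = (D - a i) + a i by omega]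
    rw [hc_mul _ (hf i)]
  · rw [if_neg h, zero_mul, hc_mul_lt _ (hf i) (by omega)]

theorem sum_cV (a : Fin n → ℕ) (φ : Fin n → MvPolynomial σ R) :
    ∃ N : ℕ, ∑ D ∈ Finset.range N, cV a D φ = φ := by
  refine ⟨∑ i, (a i + (φ i).totalDegree + 1), ?_⟩
  funext i
  have h0 : a i + (φ i).totalDegree + 1 ≤ ∑ i, (a i + (φ i).totalDegree + 1) :=
    Finset.single_le_sum (f := fun i => a i + (φ i).totalDegree + 1)
      (fun j _ => Nat.zero_le _) (Finset.mem_univ i)
  generalize ∑ i, (a i + (φ i).totalDegree + 1) = N at h0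
  rw [Finset.sum_apply]
  unfold cV
  obtain ⟨M, rfl⟩ : ∃ M, N = a i + ((φ i).totalDegree + 1) + M := ⟨_, (Nat.add_sub_of_le (by omega)).symm⟩
  rw [add_assoc, Finset.sum_range_add]
  rw [Finset.sum_eq_zero, zero_add]
  · rw [Finset.sum_range_add]
    conv_rhs => rw [← sum_homogeneousComponent (φ i)]
    rw [Finset.sum_eq_zero (s := Finset.range M), add_zero]
    · refine Finset.sum_congr rfl fun x _ => ?_
      rw [if_pos (by omega), Nat.add_sub_cancel_left]
    · intro x _
      rw [if_pos (by omega)]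
      apply homogeneousComponent_eq_zero
      omega
  · intro x hx
    rw [Finset.mem_range] at hx
    rw [if_neg (by omega)]

end Pool.Agent.LibH27.RT
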