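import Pool.Agent.Lib_helper27.RT.Graded

/-!
# Hilbert–Burch for ideals of points: freeness of the module of syzygies
-/

namespace Pool.Agent.LibH27.RT

open MvPolynomial

variable {k : Type*} [Field k] {n p : ℕ}

/-- homogeneous generators of the ideal and homogeneous minimal generators of the syzygies -/
structure PreHB (Z : Finset (Fin 3 → k)) (n p : ℕ) where
  a : Fin n → ℕ
  f : Fin n → MvPolynomial (Fin 3) k
  hf : ∀ i, (f i).IsHomogeneous (a i)
  fspan : Ideal.span (Set.range f) = ptIdeal Z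
  b : Fin p → ℕ
  g : Fin p → Fin n → MvPolynomial (Fin 3) k
  hg : ∀ j, HV a (b j) (g j)
  syz : ∀ φ : Fin n → MvPolynomial (Fin 3) k, ∑ i, φ i * f i = 0 ↔
    ∃ c : Fin p → MvPolynomial (Fin 3) k, φ = ∑ j, c j • g j
  gmin : ∀ j, g j ∉ Submodule.span (MvPolynomial (Fin 3) k) (g '' {i | i ≠ j})

/-- the syzygy module -/
noncomputable def syzMod (f : Fin n → MvPolynomial (Fin 3) k) :
    Submodule (MvPolynomial (Fin 3) k) (Fin n → MvPolynomial (Fin 3) k) where
  carrier := {φ | ∑ i, φ i * f i = 0}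
  zero_mem' := by simp
  add_mem' := by
    intro φ ψ h1 h2
    simp only [Set.mem_ofPred_eq, Pi.add_apply, add_mul, Finset.sum_add_distrib] at *
    rw [h1, h2, add_zero]
  smul_mem' := by
    intro c φ h
    simp only [Set.mem_ofPred_eq, Pi.smul_apply, smul_eq_mul, mul_assoc, ← Finset.mul_sum] at *
    rw [h, mul_zero]

theorem mem_syzMod {f φ : Fin n → MvPolynomial (Fin 3) k} :
    φ ∈ syzMod f ↔ ∑ i, φ i * f i = 0 := Iff.rfl

theorem exists_preHB_of (Z : Finset (Fin 3 → k)) (a : Fin n → ℕ)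
    (f : Fin n → MvPolynomial (Fin 3) k) (hf : ∀ i, (f i).IsHomogeneous (a i))
    (hspan : Ideal.span (Set.range f) = ptIdeal Z) :
    ∃ (p : ℕ) (P : PreHB Z n p), P.a = a ∧ P.f = f := by
  obtain ⟨p, g, h1, h2, h3⟩ := exists_min_gens {φ : Fin n → MvPolynomial (Fin 3) k |
    ∃ D, HV a D φ} (syzMod f) (by
      intro φ hφ
      obtain ⟨N, hN⟩ := sum_cV a φ
      rw [← hN]
      refine Submodule.sum_mem _ fun D _ => Submodule.subset_span ⟨⟨D, HV_cV _ _ _⟩, ?_⟩
      rw [SetLike.mem_coe, mem_syzMod, dot_cV hf, mem_syzMod.1 hφ, map_zero])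
  choose b hb using h1
  refine ⟨p, ⟨a, f, hf, hspan, b, g, hb, ?_, h3⟩, rfl, rfl⟩
  intro φ
  rw [← mem_syzMod, ← h2, Submodule.mem_span_range_iff_exists_fun]
  constructor
  · rintro ⟨c, hc⟩; exact ⟨c, hc.symm⟩
  · rintro ⟨c, hc⟩; exact ⟨c, hc.symm⟩

/-- minimal homogeneous generators of the ideal of a set of points -/
theorem exists_ideal_gens (Z : Finset (Fin 3 → k)) : ∃ (n : ℕ) (a : Fin n → ℕ)
    (f : Fin n → MvPolynomial (Fin 3) k), (∀ i, (f i).IsHomogeneous (a i)) ∧
    Ideal.span (Set.range f) = ptIdeal Z ∧ ∀ i, f i ∉ Ideal.span (f '' {j | j ≠ i}) := by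
  obtain ⟨n, f, h1, h2, h3⟩ := exists_min_gens {f : MvPolynomial (Fin 3) k |
    ∃ D, f.IsHomogeneous D} (ptIdeal Z) (by
      intro f hf
      rw [← sum_homogeneousComponent f]
      exact Submodule.sum_mem _ fun D _ => Submodule.subset_span
        ⟨⟨D, homogeneousComponent_isHomogeneous _ _⟩, comp_mem_ptIdeal hf D⟩)
  choose a ha using h1
  exact ⟨n, a, f, ha, h2, h3⟩

namespace PreHB

variable {Z : Finset (Fin 3 → k)} (P : PreHB Z n p)

/-- homogeneous syzygies are homogeneous combinations of the generators -/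
theorem expand {D : ℕ} {φ : Fin n → MvPolynomial (Fin 3) k} (h : HV P.a D φ)
    (h0 : ∑ i, φ i * P.f i = 0) : ∃ c : Fin p → MvPolynomial (Fin 3) k, HV P.b D c ∧ φ = ∑ j, c j • P.g j := by
  obtain ⟨c, hc⟩ := (P.syz φ).1 h0
  refine ⟨cV P.b D c, HV_cV _ _ _, ?_⟩
  rw [← cV_comb P.hg, ← hc, cV_of_HV h]

/-- the key step of freeness -/
theorem key (bs : Bas k) (hz : ∀ v ∈ Z, bs.y 1 ∉ reesKer v) {D : ℕ}
    {φ : Fin n → MvPolynomial (Fin 3) k} (h : HV P.a D φ)
    (h0 : ∑ i, φ i * P.f i = 0) (hw : ∀ i, aeval (bs.w 0) (φ i) = 0) :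
    ∃ c : Fin p → MvPolynomial (Fin 3) k, φ = ∑ j, c j • P.g j ∧ ∀ j, D ≤ P.b j → c j = 0 := by
  rcases D with _ | D
  · -- degree zero
    have h1 : φ = 0 := by
      funext i
      rcases h i with ⟨_, h1⟩ | h1
      · rw [Nat.zero_sub] at h1
        rw [← homogeneousComponent_eq_self h1, homogeneousComponent_zero]
        have h2 := hw i
        rw [← homogeneousComponent_eq_self h1, homogeneousComponent_zero, aeval_C] at h2
        change coeff 0 (φ i) = 0 at h2
        rw [h2, map_zero, Pi.zero_apply]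
      · exact h1
    exact ⟨0, by rw [h1]; simp, fun _ _ => rfl⟩
  · have h1 : ∀ i, ∃ u v, u * bs.y 1 + v * bs.y 2 = φ i := by
      intro i
      rw [← Ideal.mem_span_pair, ← bs.ker_zero]
      rcases h i with ⟨_, h1⟩ | h1
      · rw [mem_reesKer_homog _ h1]; exact hw i
      · rw [h1]; exact Ideal.zero_mem _
    choose u v huv using h1
    have h2 : bs.y 1 * (∑ i, u i * P.f i) + bs.y 2 * (∑ i, v i * P.f i) = 0 := by
      rw [Finset.mul_sum, Finset.mul_sum, ← Finset.sum_add_distrib, ← h0]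
      refine Finset.sum_congr rfl fun i _ => ?_
      rw [← huv i]; ring
    have h3 : bs.y 2 ∣ bs.y 1 * (∑ i, u i * P.f i) :=
      ⟨-(∑ i, v i * P.f i), by linear_combination h2⟩
    obtain ⟨c, hc⟩ := ((bs.y_prime 2).dvd_or_dvd h3).resolve_left (bs.y_not_dvd (by decide))
    have h4 : ∑ i, v i * P.f i = -(bs.y 1 * c) := by
      apply mul_left_cancel₀ (bs.y_prime 2).ne_zero
      rw [hc] at h2
      linear_combination h2
    have h5 : c ∈ ptIdeal Z := by
      have h6 : bs.y 1 * c ∈ ptIdeal Z := by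
        have : -(bs.y 1 * c) ∈ ptIdeal Z := by
          rw [← h4, ← P.fspan]
          exact Ideal.sum_mem _ fun i _ => Ideal.mul_mem_left _ _ (Ideal.subset_span ⟨i, rfl⟩)
        rwa [neg_mem_iff] at this
      rw [mem_ptIdeal] at h6 ⊢
      intro x hx
      exact ((reesKer_isPrime x).mem_or_mem (h6 x hx)).resolve_left (hz x hx)
    rw [← P.fspan, Ideal.mem_span_range_iff_exists_fun] at h5
    obtain ⟨e, he⟩ := h5
    -- the two syzygies
    have h6 : ∑ i, (u - bs.y 2 • e) i * P.f i = 0 := by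
      simp only [Pi.sub_apply, Pi.smul_apply, smul_eq_mul, sub_mul, Finset.sum_sub_distrib,
        mul_assoc, ← Finset.mul_sum]
      rw [he, hc]; ring
    have h7 : ∑ i, (v + bs.y 1 • e) i * P.f i = 0 := by
      simp only [Pi.add_apply, Pi.smul_apply, smul_eq_mul, add_mul, Finset.sum_add_distrib,
        mul_assoc, ← Finset.mul_sum]
      rw [he, h4]; ring
    have h8 : φ = bs.y 1 • (u - bs.y 2 • e) + bs.y 2 • (v + bs.y 1 • e) := by
      funext i
      simp only [Pi.add_apply, Pi.sub_apply, Pi.smul_apply, smul_eq_mul]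
      rw [← huv i]; ring
    have h9 : φ = bs.y 1 • cV P.a D (u - bs.y 2 • e) + bs.y 2 • cV P.a D (v + bs.y 1 • e) := by
      rw [← cV_smul_lin _ _ (bs.y_homog 1), ← cV_smul_lin _ _ (bs.y_homog 2), ← cV_add, ← h8,
        cV_of_HV h]
    obtain ⟨c1, hc1, hc1'⟩ := P.expand (HV_cV P.a D (u - bs.y 2 • e)) (by
      rw [dot_cV P.hf, h6, map_zero])
    obtain ⟨c2, hc2, hc2'⟩ := P.expand (HV_cV P.a D (v + bs.y 1 • e)) (by
      rw [dot_cV P.hf, h7, map_zero])
    refine ⟨bs.y 1 • c1 + bs.y 2 • c2, ?_, ?_⟩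
    · rw [h9, hc1', hc2', Finset.smul_sum, Finset.smul_sum, ← Finset.sum_add_distrib]
      refine Finset.sum_congr rfl fun j _ => ?_
      rw [Pi.add_apply, Pi.smul_apply, Pi.smul_apply, add_smul, smul_assoc, smul_assoc]
    · intro j hj
      have z1 : c1 j = 0 := (hc1 j).resolve_left (fun h => by omega)
      have z2 : c2 j = 0 := (hc2 j).resolve_left (fun h => by omega)
      rw [Pi.add_apply, Pi.smul_apply, Pi.smul_apply, z1, z2, smul_zero, smul_zero, add_zero]

/-- The values of the generating syzygies at a point are linearly independent. -/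
theorem indep_w (bs : Bas k) (hz : ∀ v ∈ Z, bs.y 1 ∉ reesKer v) (γ : Fin p → k)
    (hγ : ∀ i, ∑ j, γ j * aeval (bs.w 0) (P.g j i) = 0) : γ = 0 := by
  classical
  by_contra hne
  obtain ⟨j1, hj1⟩ := Function.ne_iff.1 hne
  obtain ⟨j0, hj0, hmax⟩ := Finset.exists_max_image
    (Finset.univ.filter fun j => γ j ≠ 0) P.b ⟨j1, by simpa using hj1⟩
  rw [Finset.mem_filter] at hj0
  have hmax' : ∀ j, γ j ≠ 0 → P.b j ≤ P.b j0 := fun j hj => hmax j (by simpa using hj)
  set c0 : Fin p → MvPolynomial (Fin 3) k := fun j => C (γ j) * bs.y 0 ^ (P.b j0 - P.b j) with hc0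
  have h1 : HV P.a (P.b j0) (∑ j, c0 j • P.g j) := by
    apply HV.sum
    intro j _
    by_cases hj : γ j = 0
    · have : c0 j = 0 := by rw [hc0]; simp [hj]
      rw [this, zero_smul]
      exact HV.zero _ _
    · have h2 : (c0 j).IsHomogeneous (P.b j0 - P.b j) := by
        have := (bs.y_homog 0).pow (P.b j0 - P.b j)
        rw [one_mul] at this
        exact this.C_mul _
      have h3 := (P.hg j).smul h2
      rwa [Nat.add_sub_cancel' (hmax' j hj)] at h3
  obtain ⟨c, hc, hc0'⟩ := P.key bs hz h1 ((P.syz _).2 ⟨c0, rfl⟩) (by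
    intro i
    rw [Finset.sum_apply, map_sum, ← hγ i]
    refine Finset.sum_congr rfl fun j _ => ?_
    rw [Pi.smul_apply, smul_eq_mul, map_mul, hc0]
    simp only
    rw [map_mul, map_pow, bs.eval_y, if_pos rfl, one_pow, mul_one, aeval_C]
    rfl)
  apply P.gmin j0
  have h4 : c j0 = 0 := hc0' j0 le_rfl
  have h5 : c0 j0 • P.g j0 = ∑ j ∈ Finset.univ.erase j0, (c j - c0 j) • P.g j := by
    have h6 := hc
    rw [← Finset.add_sum_erase _ _ (Finset.mem_univ j0), ← Finset.add_sum_erase _ (fun j => c j • P.g j)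
      (Finset.mem_univ j0), h4, zero_smul, zero_add] at h6
    simp only [sub_smul, Finset.sum_sub_distrib]
    rw [← h6]; simp
  have h7 : c0 j0 = C (γ j0) := by
    rw [hc0]; simp
  rw [h7] at h5
  have h8 : P.g j0 = (C (γ j0)⁻¹ : MvPolynomial (Fin 3) k) • ∑ j ∈ Finset.univ.erase j0, (c j - c0 j) • P.g j := by
    rw [← h5, smul_smul, ← map_mul, inv_mul_cancel₀ hj0.2, map_one, one_smul]
  rw [h8]
  apply Submodule.smul_mem
  refine Submodule.sum_mem _ fun j hj => Submodule.smul_mem _ _ (Submodule.subset_span ?_)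
  exact ⟨j, (Finset.mem_erase.1 hj).1, rfl⟩

/-- freeness -/
theorem indep (bs : Bas k) (hz : ∀ v ∈ Z, bs.y 1 ∉ reesKer v)
    (c : Fin p → MvPolynomial (Fin 3) k) (hc : ∑ j, c j • P.g j = 0) : c = 0 := by
  classical
  let G : Matrix (Fin n) (Fin p) k := Matrix.of fun i j => aeval (bs.w 0) (P.g j i)
  have hinj : Function.Injective G.mulVecLin := by
    rw [← LinearMap.ker_eq_bot, LinearMap.ker_eq_bot']
    intro γ h
    apply P.indep_w bs hz γ
    intro i
    have := congrFun h i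
    rw [Matrix.mulVecLin_apply, Matrix.mulVec, dotProduct, Pi.zero_apply] at this
    rw [← this]
    refine Finset.sum_congr rfl fun j _ => ?_
    rw [mul_comm]; rfl
  obtain ⟨L, hL⟩ := LinearMap.exists_leftInverse_of_injective _ (LinearMap.ker_eq_bot.2 hinj)
  let Q : Matrix (Fin p) (Fin n) k := LinearMap.toMatrix' L
  have hQG : Q * G = 1 := by
    have h1 := congrArg LinearMap.toMatrix' hL
    rw [LinearMap.toMatrix'_comp, LinearMap.toMatrix'_id] at h1
    have h2 : LinearMap.toMatrix' G.mulVecLin = G := by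
      rw [← Matrix.toLin'_apply', LinearMap.toMatrix'_toLin']
    rw [h2] at h1
    exact h1
  let GR : Matrix (Fin n) (Fin p) (MvPolynomial (Fin 3) k) := Matrix.of fun i j => P.g j i
  let QR : Matrix (Fin p) (Fin n) (MvPolynomial (Fin 3) k) := Q.map C
  have hdet : (QR * GR).det ≠ 0 := by
    intro h
    have h1 := congrArg (aeval (bs.w 0)) h
    rw [map_zero, AlgHom.map_det] at h1
    have h2 : (aeval (bs.w 0)).mapMatrix (QR * GR) = Q * G := by
      rw [AlgHom.mapMatrix_apply, Matrix.map_mul]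
      congr 1
      ext i j
      simp [QR]
    rw [h2, hQG, Matrix.det_one] at h1
    exact one_ne_zero h1
  apply Matrix.eq_zero_of_mulVec_eq_zero hdet
  rw [← Matrix.mulVec_mulVec]
  have h3 : GR.mulVec c = 0 := by
    funext i
    have := congrFun hc i
    rw [Finset.sum_apply] at this
    rw [Matrix.mulVec, dotProduct, Pi.zero_apply]
    rw [Pi.zero_apply] at this
    rw [← this]
    refine Finset.sum_congr rfl fun j _ => ?_
    rw [Pi.smul_apply, smul_eq_mul, mul_comm]; rfl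
  rw [h3, Matrix.mulVec_zero]

end PreHB

end Pool.Agent.LibH27.RT
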