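import Pool.Agent.Lib_helper27.RT.HBa

/-!
# Hilbert–Burch for ideals of points: the numerical relations
-/

namespace Pool.Agent.LibH27.RT

open MvPolynomial

variable {k : Type*} [Field k] {n p : ℕ}

theorem HV.comb {a : Fin n → ℕ} {b : Fin p → ℕ} {g : Fin p → Fin n → MvPolynomial (Fin 3) k}
    (hg : ∀ j, HV a (b j) (g j)) {D : ℕ} {c : Fin p → MvPolynomial (Fin 3) k} (hc : HV b D c) :
    HV a D (∑ j, c j • g j) := by
  apply HV.sum
  intro j _
  rcases hc j with ⟨h1, h2⟩ | h1
  · have := (hg j).smul h2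
    rwa [Nat.add_sub_cancel' h1] at this
  · rw [h1, zero_smul]
    exact HV.zero _ _

theorem HV.homog {a : Fin n → ℕ} {D : ℕ} {φ : Fin n → MvPolynomial (Fin 3) k} (h : HV a D φ)
    (i : Fin n) : (φ i).IsHomogeneous (D - a i) := by
  rcases h i with ⟨_, h⟩ | h
  · exact h
  · rw [h]; exact isHomogeneous_zero _ _ _

namespace PreHB

variable {Z : Finset (Fin 3 → k)} (P : PreHB Z n p)

theorem euler (hZ : Good Z) (bs : Bas k) (hz : ∀ v ∈ Z, bs.y 1 ∉ reesKer v) {D : ℕ}
    (hD1 : ∀ i, P.a i ≤ D) (hD2 : ∀ j, P.b j ≤ D) (hD3 : Z.card - 1 ≤ D) :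
    ∑ i, (D - P.a i + 2).choose 2 + Z.card = ∑ j, (D - P.b j + 2).choose 2 + (D + 2).choose 2 := by
  classical
  let V : ℕ → Submodule k (MvPolynomial (Fin 3) k) := fun d => homogeneousSubmodule (Fin 3) k d
  let F : (∀ j, V (D - P.b j)) →ₗ[k] (∀ i, V (D - P.a i)) :=
    { toFun := fun c i => ⟨(∑ j, (c j).1 • P.g j) i, by
        have h1 : HV P.b D (fun j => (c j).1) := fun j => Or.inl ⟨hD2 j, (c j).2⟩
        exact (HV.comb P.hg h1).homog i⟩
      map_add' := by
        intro c d
        funext i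
        apply Subtype.ext
        simp [add_mul, Finset.sum_add_distrib]
      map_smul' := by
        intro r c
        funext i
        apply Subtype.ext
        simp [Finset.smul_sum] }
  let G : (∀ i, V (D - P.a i)) →ₗ[k] V D :=
    { toFun := fun φ => ⟨∑ i, (φ i).1 * P.f i, by
        apply IsHomogeneous.sum
        intro i _
        have := IsHomogeneous.mul (φ i).2 (P.hf i)
        rwa [Nat.sub_add_cancel (hD1 i)] at this⟩
      map_add' := by
        intro c d
        apply Subtype.ext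
        simp [add_mul, Finset.sum_add_distrib]
      map_smul' := by
        intro r c
        apply Subtype.ext
        simp [Finset.smul_sum] }
  let E : V D →ₗ[k] (Z → k) :=
    { toFun := fun q v => aeval v.1 q.1
      map_add' := by
        intro c d
        funext v
        simp
      map_smul' := by
        intro r c
        funext v
        simp }
  have h1 := exact4 F G E ?_ ?_ ?_ ?_
  · rw [Module.finrank_fintype_fun_eq_card, Fintype.card_coe, Module.finrank_pi_fintype,
      Module.finrank_pi_fintype] at h1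
    simp only [V, finrank_homog] at h1
    exact h1
  · -- injectivity
    rw [← LinearMap.ker_eq_bot, LinearMap.ker_eq_bot']
    intro c hc
    have h2 : ∑ j, (c j).1 • P.g j = 0 := by
      funext i
      have := congrArg Subtype.val (congrFun hc i)
      exact this
    have h3 := P.indep bs hz _ h2
    funext j
    exact Subtype.ext (congrFun h3 j)
  · -- exactness in the middle
    ext φ
    constructor
    · rintro ⟨c, rfl⟩
      rw [LinearMap.mem_ker]
      apply Subtype.ext
      exact (P.syz (∑ j, (c j).1 • P.g j)).2 ⟨_, rfl⟩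
    · intro h
      rw [LinearMap.mem_ker] at h
      have h2 : ∑ i, (φ i).1 * P.f i = 0 := congrArg Subtype.val h
      have h3 : HV P.a D (fun i => (φ i).1) := fun i => Or.inl ⟨hD1 i, (φ i).2⟩
      obtain ⟨c, hc, hc'⟩ := P.expand h3 h2
      refine ⟨fun j => ⟨c j, hc.homog j⟩, ?_⟩
      funext i
      apply Subtype.ext
      exact (congrFun hc' i).symm
  · -- exactness at the forms of degree D
    ext q
    constructor
    · rintro ⟨φ, rfl⟩
      rw [LinearMap.mem_ker]
      funext v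
      have h2 : ∑ i, (φ i).1 * P.f i ∈ ptIdeal Z := by
        rw [← P.fspan]
        exact Ideal.sum_mem _ fun i _ => Ideal.mul_mem_left _ _ (Ideal.subset_span ⟨i, rfl⟩)
      have h3 : (∑ i, (φ i).1 * P.f i).IsHomogeneous D := (G φ).2
      exact (mem_ptIdeal_homog h3).1 h2 v.1 v.2
    · intro h
      rw [LinearMap.mem_ker] at h
      have h2 : q.1 ∈ ptIdeal Z := by
        rw [mem_ptIdeal_homog q.2]
        intro v hv
        exact congrFun h ⟨v, hv⟩
      rw [← P.fspan, Ideal.mem_span_range_iff_exists_fun] at h2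
      obtain ⟨φ, hφ⟩ := h2
      refine ⟨fun i => ⟨cV P.a D φ i, (HV_cV P.a D φ).homog i⟩, ?_⟩
      apply Subtype.ext
      change ∑ i, cV P.a D φ i * P.f i = q.1
      rw [dot_cV P.hf, hφ, homogeneousComponent_eq_self q.2]
  · -- surjectivity
    intro t
    have h2 : ∀ v : Z, ∃ h : MvPolynomial (Fin 3) k, h.IsHomogeneous D ∧ aeval v.1 h = (1 : k) ∧
        ∀ u : Z, u ≠ v → aeval u.1 h = (0 : k) := by
      intro v
      obtain ⟨h, hh, hv, hu⟩ := hZ.exists_sep v.2
      have h3 : aeval v.1 (bs.y 1) ≠ 0 := by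
        rw [Ne, ← mem_reesKer_homog _ (bs.y_homog 1)]
        exact hz v.1 v.2
      have h4 : aeval v.1 (h * bs.y 1 ^ (D - (Z.card - 1))) ≠ 0 := by
        rw [map_mul, map_pow]
        exact mul_ne_zero hv (pow_ne_zero _ h3)
      refine ⟨C (aeval v.1 (h * bs.y 1 ^ (D - (Z.card - 1))))⁻¹ *
        (h * bs.y 1 ^ (D - (Z.card - 1))), ?_, ?_, ?_⟩
      · have h5 := (bs.y_homog 1).pow (D - (Z.card - 1))
        rw [one_mul] at h5
        have h6 := (hh.mul h5).C_mul (aeval v.1 (h * bs.y 1 ^ (D - (Z.card - 1))))⁻¹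
        rwa [Nat.add_sub_cancel' hD3] at h6
      · rw [map_mul, aeval_C]
        exact inv_mul_cancel₀ h4
      · intro u huv
        have h5 := hu u.1 u.2 (fun h => huv (Subtype.ext h))
        generalize (aeval v.1 (h * bs.y 1 ^ (D - (Z.card - 1))))⁻¹ = r
        rw [map_mul, map_mul, h5, zero_mul, mul_zero]
    choose h hh h3 h4 using h2
    refine ⟨⟨∑ v, C (t v) * h v, IsHomogeneous.sum _ _ _ fun v _ => (hh v).C_mul _⟩, ?_⟩
    funext u
    change aeval u.1 (∑ v, C (t v) * h v) = t u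
    rw [map_sum, Finset.sum_eq_single u]
    · rw [map_mul, h3, mul_one, aeval_C]; rfl
    · intro v _ hv
      rw [map_mul, h4 v u (Ne.symm hv), mul_zero]
    · intro h; exact absurd (Finset.mem_univ _) h

theorem numeric (hZ : Good Z) (bs : Bas k) (hz : ∀ v ∈ Z, bs.y 1 ∉ reesKer v) :
    n = p + 1 ∧ ∑ i, P.a i = ∑ j, P.b j ∧
      ∑ j, P.b j ^ 2 = ∑ i, P.a i ^ 2 + 2 * Z.card := by
  obtain ⟨D, hD1, hD2, hD3⟩ : ∃ D, (∀ i, P.a i ≤ D) ∧ (∀ j, P.b j ≤ D) ∧ Z.card - 1 ≤ D := by
    refine ⟨∑ i, P.a i + ∑ j, P.b j + Z.card, ?_, ?_, by omega⟩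
    · intro i
      have := Finset.single_le_sum (f := P.a) (fun j _ => Nat.zero_le _) (Finset.mem_univ i)
      omega
    · intro i
      have := Finset.single_le_sum (f := P.b) (fun j _ => Nat.zero_le _) (Finset.mem_univ i)
      omega
  have key : ∀ m : ℤ, 0 ≤ m → ∑ i, ((D : ℤ) + m - P.a i + 1) * (D + m - P.a i + 2) + 2 * Z.card =
      ∑ j, ((D : ℤ) + m - P.b j + 1) * (D + m - P.b j + 2) + (D + m + 1) * (D + m + 2) := by
    intro m hm
    obtain ⟨m, rfl⟩ := Int.eq_ofNat_of_zero_le hm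
    have h1 := P.euler hZ bs hz (D := D + m) (fun i => (hD1 i).trans (Nat.le_add_right _ _))
      (fun i => (hD2 i).trans (Nat.le_add_right _ _)) (hD3.trans (Nat.le_add_right _ _))
    have h2 : ∀ d : ℕ, (2 * ((d + 2).choose 2 : ℕ) : ℤ) = (d + 1) * (d + 2) := by
      intro d
      have := finrank_homog' (k := k) d
      rw [finrank_homog] at this
      exact_mod_cast this
    have h3 : (2 * (∑ i, (D + m - P.a i + 2).choose 2 + Z.card : ℕ) : ℤ) =
        2 * (∑ j, (D + m - P.b j + 2).choose 2 + (D + m + 2).choose 2 : ℕ) := by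
      rw [h1]
    push_cast at h3
    rw [mul_add, mul_add, Finset.mul_sum, Finset.mul_sum, h2] at h3
    push_cast at h3
    have h4 : ∀ i, (2 * ((D + m - P.a i + 2).choose 2 : ℕ) : ℤ) =
        ((D : ℤ) + m - P.a i + 1) * (D + m - P.a i + 2) := by
      intro i
      rw [h2, Nat.cast_sub ((hD1 i).trans (Nat.le_add_right _ _))]
      push_cast; ring
    have h5 : ∀ i, (2 * ((D + m - P.b i + 2).choose 2 : ℕ) : ℤ) =
        ((D : ℤ) + m - P.b i + 1) * (D + m - P.b i + 2) := by
      intro i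
      rw [h2, Nat.cast_sub ((hD2 i).trans (Nat.le_add_right _ _))]
      push_cast; ring
    simp only [h4, h5] at h3
    exact h3
  have exp : ∀ (q : ℕ) (c : Fin q → ℕ) (t : ℤ), ∑ i, (t - c i + 1) * (t - c i + 2) =
      (q : ℤ) * (t ^ 2 + 3 * t + 2) - (2 * t + 3) * ∑ i, (c i : ℤ) + ∑ i, (c i : ℤ) ^ 2 := by
    intro q c t
    rw [Finset.mul_sum]
    have : (q : ℤ) * (t ^ 2 + 3 * t + 2) = ∑ _i : Fin q, (t ^ 2 + 3 * t + 2) := by
      rw [Finset.sum_const, Finset.card_univ, Fintype.card_fin, nsmul_eq_mul]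
    rw [this, ← Finset.sum_sub_distrib, ← Finset.sum_add_distrib]
    refine Finset.sum_congr rfl fun i _ => ?_
    ring
  have e0 := key 0 le_rfl
  have e1 := key 1 (by norm_num)
  have e2 := key 2 (by norm_num)
  rw [exp, exp] at e0 e1 e2
  have hn : (n : ℤ) = p + 1 := by linarith
  have hs : ∑ i, (P.a i : ℤ) = ∑ j, (P.b j : ℤ) := by
    rw [hn] at e0 e1
    linarith
  refine ⟨by exact_mod_cast hn, by exact_mod_cast hs, ?_⟩
  have : ∑ j, (P.b j : ℤ) ^ 2 = ∑ i, (P.a i : ℤ) ^ 2 + 2 * Z.card := by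
    rw [hn, hs] at e0
    linarith
  exact_mod_cast this

end PreHB

end Pool.Agent.LibH27.RT
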