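import Pool.Agent.Lib_helper27.RT.HBb

/-!
# Hilbert–Burch for ideals of points: minors
-/

namespace Pool.Agent.LibH27.RT

open MvPolynomial

variable {k : Type*} [Field k] {m : ℕ}

theorem dvd_of_dvd_all {R : Type*} [CommRing R] [IsDomain R] [UniqueFactorizationMonoid R]
    {ι : Type*} (f : ι → R) (hf : ∀ c, Prime c → ∃ i, ¬ c ∣ f i) (d : R) :
    ∀ x : R, (∀ i, d ∣ f i * x) → d ≠ 0 → d ∣ x := by
  induction d using UniqueFactorizationMonoid.induction_on_prime with
  | h₁ => intro x _ h; exact absurd rfl h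
  | h₂ u hu => intro x _ _; exact hu.dvd
  | h₃ d q hd hq ih =>
    intro x hx _
    obtain ⟨i, hi⟩ := hf q hq
    have h1 : q ∣ x := (hq.dvd_or_dvd ((dvd_mul_right q d).trans (hx i))).resolve_left hi
    obtain ⟨y, rfl⟩ := h1
    apply mul_dvd_mul_left
    apply ih y _ hd
    intro i
    have := hx i
    rw [mul_left_comm] at this
    exact (mul_dvd_mul_iff_left hq.ne_zero).1 this

theorem homog_const {f : MvPolynomial (Fin 3) k} {d : ℕ} (hf : f.IsHomogeneous d)
    (h : constantCoeff f ≠ 0) : d = 0 ∧ f = C (constantCoeff f) := by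
  have h1 : d = 0 := by
    by_contra hd
    apply h
    apply hf.coeff_eq_zero
    intro h2
    apply hd
    rw [← h2]; simp
  refine ⟨h1, ?_⟩
  subst h1
  conv_lhs => rw [← homogeneousComponent_eq_self hf, homogeneousComponent_zero]
  rfl

namespace PreHB

variable {Z : Finset (Fin 3 → k)}

/-- the matrix with first column `w` -/
noncomputable def matW (P : PreHB Z (m + 1) m) (w : Fin (m + 1) → MvPolynomial (Fin 3) k) :
    Matrix (Fin (m + 1)) (Fin (m + 1)) (MvPolynomial (Fin 3) k) :=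
  Matrix.of fun i j => (Fin.cons (w i) (fun j' => P.g j' i) : Fin (m + 1) → _) j

/-- the signed maximal minors -/
noncomputable def minor (P : PreHB Z (m + 1) m) (i : Fin (m + 1)) : MvPolynomial (Fin 3) k :=
  (-1) ^ (i : ℕ) * (Matrix.of fun (i' j : Fin m) => P.g j (i.succAbove i')).det

variable (P : PreHB Z (m + 1) m)

theorem det_matW (w : Fin (m + 1) → MvPolynomial (Fin 3) k) :
    (P.matW w).det = ∑ i, w i * P.minor i := by
  rw [Matrix.det_succ_column_zero]
  refine Finset.sum_congr rfl fun i _ => ?_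
  unfold minor
  have h1 : P.matW w i 0 = w i := rfl
  have h2 : (P.matW w).submatrix i.succAbove Fin.succ =
      Matrix.of fun (i' j : Fin m) => P.g j (i.succAbove i') := by
    ext i' j
    simp [matW]
  rw [h1, h2]; ring

theorem f_ne_zero (hZ : Good Z) : ∃ i, P.f i ≠ 0 := by
  by_contra hcon
  push Not at hcon
  obtain ⟨b, -⟩ := exists_bas_w (k := k) (v := Pi.single 0 1) (by
    intro h; have := congrFun h 0; simp at this)
  obtain ⟨f, hf, hf'⟩ := hZ.exists_not_dvd (b.y_prime 0)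
  apply hf'
  have : Ideal.span (Set.range P.f) = ⊥ := by
    rw [Ideal.span_eq_bot]
    rintro _ ⟨i, rfl⟩
    exact hcon i
  rw [← P.fspan, this, Ideal.mem_bot] at hf
  rw [hf]
  exact dvd_zero _

theorem minor_eq (hZ : Good Z) {w : Fin (m + 1) → MvPolynomial (Fin 3) k}
    (hw : ∑ i, w i * P.f i = 0) : ∑ i, w i * P.minor i = 0 := by
  rw [← det_matW, ← Matrix.exists_vecMul_eq_zero_iff]
  obtain ⟨i0, hi0⟩ := P.f_ne_zero hZ
  refine ⟨P.f, fun h => hi0 (congrFun h i0), ?_⟩
  funext j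
  rw [Matrix.vecMul, dotProduct, Pi.zero_apply]
  refine Fin.cases ?_ (fun j => ?_) j
  · rw [← hw]
    refine Finset.sum_congr rfl fun i _ => ?_
    rw [mul_comm]; rfl
  · have h1 := (P.syz (P.g j)).2 ⟨Pi.single j 1, by simp [Pi.single_apply]⟩
    rw [← h1]
    refine Finset.sum_congr rfl fun i _ => ?_
    rw [mul_comm]; rfl

theorem exists_minor_ne (hZ : Good Z) (hind : ∀ c : Fin m → MvPolynomial (Fin 3) k,
    ∑ j, c j • P.g j = 0 → c = 0) : ∃ i, P.minor i ≠ 0 := by
  by_contra hcon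
  push Not at hcon
  obtain ⟨i0, hi0⟩ := P.f_ne_zero hZ
  have h1 : (P.matW (Pi.single i0 1)).det = 0 := by
    rw [det_matW]
    exact Finset.sum_eq_zero fun i _ => by rw [hcon i, mul_zero]
  rw [← Matrix.exists_mulVec_eq_zero_iff] at h1
  obtain ⟨c, hc, hc0⟩ := h1
  have h2 : ∀ i, (Pi.single i0 1 : Fin (m + 1) → MvPolynomial (Fin 3) k) i * c 0 +
      ∑ j : Fin m, P.g j i * c j.succ = 0 := by
    intro i
    have := congrFun hc0 i
    rw [Matrix.mulVec, dotProduct, Fin.sum_univ_succ] at this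
    exact this
  have h3 : c 0 = 0 := by
    have h4 : ∑ i, ((Pi.single i0 1 : Fin (m + 1) → MvPolynomial (Fin 3) k) i * c 0 +
      ∑ j : Fin m, P.g j i * c j.succ) * P.f i = 0 :=
        Finset.sum_eq_zero fun i _ => by rw [h2 i, zero_mul]
    have h5 := (P.syz (∑ j : Fin m, c j.succ • P.g j)).2 ⟨_, rfl⟩
    simp only [add_mul, Finset.sum_add_distrib] at h4
    have h6 : ∑ i, (∑ j : Fin m, P.g j i * c j.succ) * P.f i = 0 := by
      rw [← h5]
      refine Finset.sum_congr rfl fun i _ => ?_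
      rw [Finset.sum_apply]
      congr 1
      refine Finset.sum_congr rfl fun j _ => ?_
      rw [Pi.smul_apply, smul_eq_mul, mul_comm]
    rw [h6, add_zero, Finset.sum_eq_single i0] at h4
    · rw [Pi.single_eq_same, one_mul] at h4
      exact (mul_eq_zero.1 h4).resolve_right hi0
    · intro i _ hi
      rw [Pi.single_eq_of_ne hi, zero_mul, zero_mul]
    · intro h; exact absurd (Finset.mem_univ _) h
  have h4 : (fun j : Fin m => c j.succ) = 0 := by
    apply hind
    funext i
    have h5 := h2 i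
    rw [h3, mul_zero, zero_add] at h5
    rw [Finset.sum_apply, Pi.zero_apply, ← h5]
    refine Finset.sum_congr rfl fun j _ => ?_
    rw [Pi.smul_apply, smul_eq_mul, mul_comm]
  apply hc
  funext j
  refine Fin.cases ?_ (fun j => ?_) j
  · exact h3
  · exact congrFun h4 j

theorem minor_homog (hs : ∑ i, P.a i = ∑ j, P.b j) (i : Fin (m + 1)) :
    (P.minor i).IsHomogeneous (P.a i) := by
  have h0 : P.minor i = C ((-1) ^ (i : ℕ)) *
      (Matrix.of fun (i' j : Fin m) => P.g j (i.succAbove i')).det := by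
    unfold minor
    simp
  rw [h0]
  apply IsHomogeneous.C_mul
  rw [Matrix.det_apply]
  apply IsHomogeneous.sum
  intro σ _
  have h1 : (∏ j, (Matrix.of fun (i' j : Fin m) => P.g j (i.succAbove i')) (σ j) j).IsHomogeneous
      (P.a i) := by
    by_cases hz : ∃ j, P.g j (i.succAbove (σ j)) = 0
    · obtain ⟨j, hj⟩ := hz
      rw [Finset.prod_eq_zero (Finset.mem_univ j)]
      · exact isHomogeneous_zero _ _ _
      · exact hj
    · push Not at hz
      have h2 : ∀ j, P.a (i.succAbove (σ j)) ≤ P.b j ∧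
          (P.g j (i.succAbove (σ j))).IsHomogeneous (P.b j - P.a (i.succAbove (σ j))) :=
        fun j => (P.hg j (i.succAbove (σ j))).resolve_right (hz j)
      have h3 := IsHomogeneous.prod Finset.univ
        (fun j => (Matrix.of fun (i' j : Fin m) => P.g j (i.succAbove i')) (σ j) j)
        (fun j => P.b j - P.a (i.succAbove (σ j))) (fun j _ => (h2 j).2)
      have h4 : ∑ j, (P.b j - P.a (i.succAbove (σ j))) = P.a i := by
        have h5 : ∑ j, (P.b j - P.a (i.succAbove (σ j))) + ∑ j, P.a (i.succAbove (σ j)) =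
            ∑ j, P.b j := by
          rw [← Finset.sum_add_distrib]
          exact Finset.sum_congr rfl fun j _ => Nat.sub_add_cancel (h2 j).1
        have h6 : ∑ j, P.a (i.succAbove (σ j)) = ∑ j, P.a (i.succAbove j) :=
          Equiv.sum_comp σ (fun j => P.a (i.succAbove j))
        rw [Fin.sum_univ_succAbove _ i] at hs
        omega
      rwa [h4] at h3
  rcases Int.units_eq_one_or (Equiv.Perm.sign σ) with h | h
  · rw [h, one_smul]; exact h1
  · rw [h]
    have : (-1 : ℤˣ) • (∏ j, (Matrix.of fun (i' j : Fin m) => P.g j (i.succAbove i')) (σ j) j) =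
        -(∏ j, (Matrix.of fun (i' j : Fin m) => P.g j (i.succAbove i')) (σ j) j) := by
      rw [Units.smul_def]; simp
    rw [this]
    exact h1.neg

/-- **Hilbert–Burch**: the maximal minors are the generators, up to a constant. -/
theorem exists_rho (hZ : Good Z) (hind : ∀ c : Fin m → MvPolynomial (Fin 3) k,
    ∑ j, c j • P.g j = 0 → c = 0) (hs : ∑ i, P.a i = ∑ j, P.b j) :
    ∃ ρ : k, ρ ≠ 0 ∧ ∀ i, P.minor i = C ρ * P.f i := by
  classical
  have h1 : ∀ i l, P.f l * P.minor i = P.f i * P.minor l := by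
    intro i l
    have := P.minor_eq hZ (w := Pi.single i (P.f l) - Pi.single l (P.f i)) (by
      simp only [Pi.sub_apply, sub_mul, Finset.sum_sub_distrib, Pi.single_apply, ite_mul, zero_mul,
        Finset.sum_ite_eq', Finset.mem_univ, if_true]
      ring)
    simp only [Pi.sub_apply, sub_mul, Finset.sum_sub_distrib, Pi.single_apply, ite_mul, zero_mul,
        Finset.sum_ite_eq', Finset.mem_univ, if_true] at this
    linear_combination this
  obtain ⟨i0, hi0⟩ := P.exists_minor_ne hZ hind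
  have hf0 : P.f i0 ≠ 0 := by
    intro h
    obtain ⟨l, hl⟩ := P.f_ne_zero hZ
    have := h1 i0 l
    rw [h, zero_mul] at this
    exact (mul_eq_zero.1 this).elim hl hi0
  have hnd : ∀ c : MvPolynomial (Fin 3) k, Prime c → ∃ i, ¬ c ∣ P.f i := by
    intro c hc
    obtain ⟨f, hf, hf'⟩ := hZ.exists_not_dvd hc
    by_contra hcon
    push Not at hcon
    apply hf'
    rw [← P.fspan, Ideal.mem_span_range_iff_exists_fun] at hf
    obtain ⟨e, rfl⟩ := hf
    exact Finset.dvd_sum fun i _ => (hcon i).mul_left _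
  obtain ⟨ρ, hρ⟩ := dvd_of_dvd_all P.f hnd (P.f i0) (P.minor i0) (fun i => by
    rw [← h1]; exact dvd_mul_right _ _) hf0
  have hρ0 : ρ ≠ 0 := by
    rintro rfl
    rw [mul_zero] at hρ
    exact hi0 hρ
  have hdeg : ρ.totalDegree = 0 := by
    have h2 := (P.minor_homog hs i0).totalDegree hi0
    rw [hρ, totalDegree_mul_of_isDomain hf0 hρ0, (P.hf i0).totalDegree hf0] at h2
    omega
  rw [totalDegree_eq_zero_iff_eq_C] at hdeg
  refine ⟨coeff 0 ρ, ?_, ?_⟩
  · intro h
    rw [h, map_zero] at hdeg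
    exact hρ0 hdeg
  · intro i
    rw [← hdeg]
    apply mul_left_cancel₀ hf0
    rw [h1, hρ]; ring

/-- permute the generating syzygies -/
noncomputable def permute (σ : Equiv.Perm (Fin m)) : PreHB Z (m + 1) m where
  a := P.a
  f := P.f
  hf := P.hf
  fspan := P.fspan
  b := P.b ∘ σ
  g := P.g ∘ σ
  hg := fun j => P.hg (σ j)
  syz := by
    intro φ
    rw [P.syz]
    constructor
    · rintro ⟨c, hc⟩
      refine ⟨c ∘ σ, ?_⟩
      rw [hc]
      exact (Equiv.sum_comp σ (fun j => c j • P.g j)).symm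
    · rintro ⟨c, hc⟩
      refine ⟨c ∘ σ.symm, ?_⟩
      rw [hc]
      rw [← Equiv.sum_comp σ (fun j => (c ∘ σ.symm) j • P.g j)]
      simp
  gmin := by
    intro j h
    apply P.gmin (σ j)
    refine Submodule.span_mono ?_ h
    rintro _ ⟨i, hi, rfl⟩
    exact ⟨σ i, fun h => hi (σ.injective h), rfl⟩

end PreHB

/-- The Hilbert–Burch data of the ideal of a finite set of points. -/
structure HB (Z : Finset (Fin 3 → k)) (m : ℕ) extends PreHB Z (m + 1) m where
  indep : ∀ c : Fin m → MvPolynomial (Fin 3) k, ∑ j, c j • g j = 0 → c = 0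
  const : ∀ j i, constantCoeff (g j i) = 0
  ρ : k
  hρ : ρ ≠ 0
  minors : ∀ i : Fin (m + 1),
    (-1) ^ (i : ℕ) * (Matrix.of fun (i' j : Fin m) => g j (i.succAbove i')).det = C ρ * f i
  amin : ∀ i, a 0 ≤ a i
  diag : ∀ j, a j.succ < b j
  fne : ∀ i, f i ≠ 0
  sum1 : ∑ i, a i = ∑ j, b j
  sum2 : ∑ j, b j ^ 2 = ∑ i, a i ^ 2 + 2 * Z.card

theorem Good.exists_bas [Infinite k] {Z : Finset (Fin 3 → k)} (hZ : Good Z) :
    ∃ bs : Bas k, ∀ v ∈ Z, bs.y 1 ∉ reesKer v := by
  obtain ⟨α, hα⟩ := hZ.exists_nonvanishing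
  by_cases h : Z.Nonempty
  · have hα0 : α ≠ 0 := by
      rintro rfl
      obtain ⟨v, hv⟩ := h
      apply hα v hv
      simp
    obtain ⟨bs, hbs⟩ := exists_bas_A hα0
    refine ⟨bs, fun v hv => ?_⟩
    rw [mem_reesKer_homog _ (bs.y_homog 1)]
    unfold Bas.y
    rw [hbs, aeval_form']
    exact hα v hv
  · obtain ⟨bs, -⟩ := exists_bas_w (k := k) (v := Pi.single 0 1) (by
      intro h; have := congrFun h 0; simp at this)
    exact ⟨bs, fun v hv => absurd ⟨v, hv⟩ h⟩

theorem exists_HB_of [Infinite k] {Z : Finset (Fin 3 → k)} (hZ : Good Z) (a : Fin (m + 1) → ℕ)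
    (f : Fin (m + 1) → MvPolynomial (Fin 3) k) (hf : ∀ i, (f i).IsHomogeneous (a i))
    (hspan : Ideal.span (Set.range f) = ptIdeal Z)
    (hmin : ∀ i, f i ∉ Ideal.span (f '' {j | j ≠ i})) (ha : ∀ i, a 0 ≤ a i) :
    ∃ P : HB Z m, P.a = a ∧ P.f = f := by
  classical
  obtain ⟨bs, hz⟩ := hZ.exists_bas
  obtain ⟨q, P1, hP1a, hP1f⟩ := exists_preHB_of Z a f hf hspan
  obtain ⟨hq, hs, -⟩ := P1.numeric hZ bs hz
  have hqp : q = m := by omega
  subst hqp
  have hind1 := P1.indep bs hz
  obtain ⟨ρ1, hρ1, hminor1⟩ := P1.exists_rho hZ hind1 hs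
  have hmin1 : ∀ i, P1.f i ∉ Ideal.span (P1.f '' {j | j ≠ i}) := by
    rw [hP1f]; exact hmin
  have hfne1 : ∀ i, P1.f i ≠ 0 := by
    intro i h
    apply hmin1 i
    rw [h]; exact Ideal.zero_mem _
  have hconst1 : ∀ j i, constantCoeff (P1.g j i) = 0 := by
    intro j i
    by_contra hne
    have h1 := (P1.syz (P1.g j)).2 ⟨Pi.single j 1, by simp [Pi.single_apply]⟩
    have h2 : P1.g j i = C (constantCoeff (P1.g j i)) := by
      rcases P1.hg j i with ⟨_, h2⟩ | h2
      · exact (homog_const h2 hne).2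
      · rw [h2] at hne; exact absurd (map_zero _) hne
    apply hmin1 i
    rw [← Finset.add_sum_erase _ _ (Finset.mem_univ i), h2] at h1
    have h3 : P1.f i = C (constantCoeff (P1.g j i))⁻¹ *
        -(∑ i' ∈ Finset.univ.erase i, P1.g j i' * P1.f i') := by
      rw [show -(∑ i' ∈ Finset.univ.erase i, P1.g j i' * P1.f i') =
        C (constantCoeff (P1.g j i)) * P1.f i by linear_combination -h1]
      rw [← mul_assoc, ← map_mul, inv_mul_cancel₀ hne, map_one, one_mul]
    rw [h3]
    apply Ideal.mul_mem_left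
    rw [neg_mem_iff]
    refine Ideal.sum_mem _ fun i' hi' => Ideal.mul_mem_left _ _ (Ideal.subset_span ?_)
    exact ⟨i', (Finset.mem_erase.1 hi').1, rfl⟩
  -- a permutation
  have hdet : (Matrix.of fun (i' j : Fin q) => P1.g j (Fin.succAbove 0 i')).det ≠ 0 := by
    intro h
    have h1 := hminor1 0
    unfold PreHB.minor at h1
    rw [h, mul_zero] at h1
    rcases mul_eq_zero.1 h1.symm with h2 | h2
    · rw [← map_zero C] at h2
      exact hρ1 (C_injective _ _ h2)
    · exact hfne1 0 h2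
  obtain ⟨σ, hσ⟩ : ∃ σ : Equiv.Perm (Fin q), ∀ j, P1.g j (σ j).succ ≠ 0 := by
    by_contra hcon
    push Not at hcon
    apply hdet
    rw [Matrix.det_apply]
    apply Finset.sum_eq_zero
    intro σ _
    obtain ⟨j, hj⟩ := hcon σ
    rw [Finset.prod_eq_zero (Finset.mem_univ j), smul_zero]
    rw [Matrix.of_apply, Fin.succAbove_zero]
    exact hj
  let P := P1.permute σ.symm
  have hPs : ∑ i, P.a i = ∑ j, P.b j := (P.numeric hZ bs hz).2.1
  have hind := P.indep bs hz
  obtain ⟨ρ, hρ, hminor⟩ := P.exists_rho hZ hind hPs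
  refine ⟨{ P with
    indep := hind
    const := fun j i => hconst1 _ _
    ρ := ρ
    hρ := hρ
    minors := hminor
    amin := ?_
    diag := ?_
    fne := hfne1
    sum1 := hPs
    sum2 := (P.numeric hZ bs hz).2.2 }, hP1a, hP1f⟩
  · intro i
    change P1.a 0 ≤ P1.a i
    rw [hP1a]
    exact ha i
  · intro j
    change P1.a j.succ < P1.b (σ.symm j)
    have h1 := hσ (σ.symm j)
    rw [Equiv.apply_symm_apply] at h1
    obtain ⟨h2, h3⟩ := (P1.hg (σ.symm j) j.succ).resolve_right h1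
    refine lt_of_le_of_ne h2 fun h4 => h1 ?_
    rw [h4, Nat.sub_self] at h3
    rw [← homogeneousComponent_eq_self h3, homogeneousComponent_zero]
    have := hconst1 (σ.symm j) j.succ
    rw [show coeff 0 (P1.g (σ.symm j) j.succ) = 0 from this, map_zero]

/-- every minimal homogeneous system of generators can be sorted and completed -/
theorem exists_HB_of' [Infinite k] {Z : Finset (Fin 3 → k)} (hZ : Good Z) {n : ℕ}
    (a : Fin n → ℕ)
    (f : Fin n → MvPolynomial (Fin 3) k) (hf : ∀ i, (f i).IsHomogeneous (a i))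
    (hspan : Ideal.span (Set.range f) = ptIdeal Z)
    (hmin : ∀ i, f i ∉ Ideal.span (f '' {j | j ≠ i})) :
    ∃ m, m + 1 = n ∧ Nonempty (HB Z m) := by
  classical
  obtain ⟨bs, hz⟩ := hZ.exists_bas
  obtain ⟨p, P0, hP0a, hP0f⟩ := exists_preHB_of Z a f hf hspan
  obtain ⟨hn, -, -⟩ := P0.numeric hZ bs hz
  subst hn
  obtain ⟨i0, -, hi0⟩ := Finset.exists_min_image Finset.univ a ⟨0, Finset.mem_univ _⟩
  -- sort
  let τ : Equiv.Perm (Fin (p + 1)) := Equiv.swap 0 i0
  obtain ⟨P, -, -⟩ := exists_HB_of hZ (a ∘ τ) (f ∘ τ) (fun i => hf (τ i)) (by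
    rw [← hspan, Set.range_comp f τ, τ.surjective.range_eq, Set.image_univ]) (by
    intro i h
    apply hmin (τ i)
    refine Ideal.span_mono ?_ h
    rintro _ ⟨j, hj, rfl⟩
    exact ⟨τ j, fun h => hj (τ.injective h), rfl⟩) (by
    intro i
    simp only [Function.comp_apply, τ, Equiv.swap_apply_left]
    exact hi0 _ (Finset.mem_univ _))
  exact ⟨p, rfl, ⟨P⟩⟩

theorem exists_HB [Infinite k] {Z : Finset (Fin 3 → k)} (hZ : Good Z) :
    ∃ m, Nonempty (HB Z m) := by
  obtain ⟨n, a, f, hf, hspan, hmin⟩ := exists_ideal_gens Z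
  obtain ⟨m, -, h⟩ := exists_HB_of' hZ a f hf hspan hmin
  exact ⟨m, h⟩

end Pool.Agent.LibH27.RT
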