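import Mathlib

/-!
# Koszul-type algebra with three elements
-/

namespace Pool.Agent.LibH27.RT

/-- The part of Koszul exactness of three elements that is needed. -/
structure KReg {S : Type*} [CommRing S] (y : Fin 3 → S) : Prop where
  e1 : ∀ v : Fin 3 → S, (∀ i j, y i * v j = y j * v i) → ∃ c, ∀ i, v i = c * y i
  e2 : ∀ h : Fin 3 → S, y 0 * h 0 + y 1 * h 1 + y 2 * h 2 = 0 → ∃ v : Fin 3 → S,
    h 0 = y 1 * v 2 - y 2 * v 1 ∧ h 1 = y 2 * v 0 - y 0 * v 2 ∧ h 2 = y 0 * v 1 - y 1 * v 0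
  ne0 : ∀ i, y i ≠ 0

section

variable {S : Type*} [CommRing S] [IsDomain S]

theorem KReg.of_prime {y0 y1 y2 : S} (e : ℕ) (h0 : Prime y0) (h01 : ¬ y0 ∣ y1)
    (hp : (Ideal.span {y0, y1}).IsPrime) (h2 : y2 ∉ Ideal.span {y0, y1}) :
    KReg (![y0, y1, y2 ^ e] : Fin 3 → S) := by
  have hy1 : y1 ≠ 0 := fun h => h01 (by rw [h]; exact dvd_zero _)
  have hy2 : y2 ≠ 0 := fun h => h2 (by rw [h]; exact Ideal.zero_mem _)
  have h2e : y2 ^ e ∉ Ideal.span {y0, y1} := fun h => h2 (hp.mem_of_pow_mem _ h)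
  refine ⟨?_, ?_, ?_⟩
  · intro v hv
    have h1 := hv 0 1
    have h3 := hv 0 2
    simp only [Matrix.cons_val_zero, Matrix.cons_val_one, Matrix.cons_val] at h1 h3
    have hd : y0 ∣ v 0 := by
      have : y0 ∣ y1 * v 0 := ⟨v 1, by rw [← h1]⟩
      exact (h0.dvd_or_dvd this).resolve_left h01
    obtain ⟨c, hc⟩ := hd
    refine ⟨c, ?_⟩
    have hv1 : v 1 = c * y1 := by
      apply mul_left_cancel₀ h0.ne_zero
      rw [h1, hc]; ring
    have hv2 : v 2 = c * y2 ^ e := by
      apply mul_left_cancel₀ h0.ne_zero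
      rw [h3, hc]; ring
    intro i
    fin_cases i
    · simpa [mul_comm] using hc
    · simpa using hv1
    · simpa using hv2
  · intro h hh
    simp only [Matrix.cons_val_zero, Matrix.cons_val_one, Matrix.cons_val] at hh ⊢
    have hd : h 2 ∈ Ideal.span {y0, y1} := by
      have h3 : y2 ^ e * h 2 ∈ Ideal.span {y0, y1} := by
        rw [Ideal.mem_span_pair]
        exact ⟨-h 0, -h 1, by linear_combination -hh⟩
      exact (hp.mem_or_mem h3).resolve_left h2e
    rw [Ideal.mem_span_pair] at hd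
    obtain ⟨a, b, hab⟩ := hd
    -- h 2 = y0 * a - y1 * (-b)
    have h4 : y0 ∣ h 1 + y2 ^ e * b := by
      have h5 : y0 ∣ y1 * (h 1 + y2 ^ e * b) :=
        ⟨-(h 0 + y2 ^ e * a), by linear_combination hh + y2 ^ e * hab⟩
      exact (h0.dvd_or_dvd h5).resolve_left h01
    obtain ⟨c, hc⟩ := h4
    refine ⟨![-b, a, -c], ?_, ?_, ?_⟩
    · simp only [Matrix.cons_val_one, Matrix.cons_val]
      apply mul_left_cancel₀ h0.ne_zero
      linear_combination hh - y1 * hc + y2 ^ e * hab
    · simp only [Matrix.cons_val_zero, Matrix.cons_val]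
      linear_combination hc
    · simp only [Matrix.cons_val_zero, Matrix.cons_val_one]
      linear_combination -hab
  · intro i
    fin_cases i
    · simpa using h0.ne_zero
    · simpa using hy1
    · simpa using pow_ne_zero e hy2

/-- **Northcott's theorem** for three elements: if `g = Σ y_i G_i` with both sequences regular,
and `y_i q ∈ (g)` for all `i`, then `q ∈ (g, det G)`. -/
theorem northcott {y g : Fin 3 → S} (hy : KReg y) (hg : KReg g) (G : Fin 3 → Fin 3 → S)
    (hG : ∀ j, g j = y 0 * G 0 j + y 1 * G 1 j + y 2 * G 2 j) (q : S)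
    (hq : ∀ i, ∃ c : Fin 3 → S, y i * q = c 0 * g 0 + c 1 * g 1 + c 2 * g 2) :
    ∃ (c : Fin 3 → S) (h : S), q = c 0 * g 0 + c 1 * g 1 + c 2 * g 2 +
      h * (G 0 0 * (G 1 1 * G 2 2 - G 1 2 * G 2 1) - G 0 1 * (G 1 0 * G 2 2 - G 1 2 * G 2 0) +
        G 0 2 * (G 1 0 * G 2 1 - G 1 1 * G 2 0)) := by
  choose c hc using hq
  -- `y_i c_k - y_k c_i = g × v_l`
  have key : ∀ i k : Fin 3, ∃ v : Fin 3 → S,
      y i * c k 0 - y k * c i 0 = g 1 * v 2 - g 2 * v 1 ∧
      y i * c k 1 - y k * c i 1 = g 2 * v 0 - g 0 * v 2 ∧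
      y i * c k 2 - y k * c i 2 = g 0 * v 1 - g 1 * v 0 := by
    intro i k
    exact hg.e2 (fun j => y i * c k j - y k * c i j) (by
      linear_combination y k * hc i - y i * hc k)
  obtain ⟨v0, a00, a01, a02⟩ := key 1 2
  obtain ⟨v1, a10, a11, a12⟩ := key 2 0
  obtain ⟨v2, a20, a21, a22⟩ := key 0 1
  -- Σ y_l v_l = h g
  obtain ⟨h, hh⟩ := hg.e1 (fun j => y 0 * v0 j + y 1 * v1 j + y 2 * v2 j) (by
    have b0 : g 1 * (y 0 * v0 2 + y 1 * v1 2 + y 2 * v2 2) =
        g 2 * (y 0 * v0 1 + y 1 * v1 1 + y 2 * v2 1) := by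
      linear_combination -(y 0 * a00 + y 1 * a10 + y 2 * a20)
    have b1 : g 2 * (y 0 * v0 0 + y 1 * v1 0 + y 2 * v2 0) =
        g 0 * (y 0 * v0 2 + y 1 * v1 2 + y 2 * v2 2) := by
      linear_combination -(y 0 * a01 + y 1 * a11 + y 2 * a21)
    have b2 : g 0 * (y 0 * v0 1 + y 1 * v1 1 + y 2 * v2 1) =
        g 1 * (y 0 * v0 0 + y 1 * v1 0 + y 2 * v2 0) := by
      linear_combination -(y 0 * a02 + y 1 * a12 + y 2 * a22)
    intro i j
    fin_cases i <;> fin_cases j <;> simp only [Fin.zero_eta, Fin.mk_one, Fin.reduceFinMk] <;>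
      first
        | rfl
        | exact b0
        | exact b1
        | exact b2
        | exact b0.symm
        | exact b1.symm
        | exact b2.symm)
  -- V
  have hV : ∀ m : Fin 3, ∃ V : Fin 3 → S,
      v0 m - h * G 0 m = y 1 * V 2 - y 2 * V 1 ∧
      v1 m - h * G 1 m = y 2 * V 0 - y 0 * V 2 ∧
      v2 m - h * G 2 m = y 0 * V 1 - y 1 * V 0 := by
    intro m
    have := hy.e2 ![v0 m - h * G 0 m, v1 m - h * G 1 m, v2 m - h * G 2 m] (by
      simp only [Matrix.cons_val_zero, Matrix.cons_val_one, Matrix.cons_val]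
      have h1 := hh m
      rw [hG m] at h1
      linear_combination h1)
    simpa using this
  choose V hV0 hV1 hV2 using hV
  -- `V m i`: the `m`-th component of the vector `V_i`
  -- c'_i - E_i = y_i C
  set E : Fin 3 → Fin 3 → S := ![
    ![-h * (G 1 1 * G 2 2 - G 1 2 * G 2 1), -h * (G 1 2 * G 2 0 - G 1 0 * G 2 2),
      -h * (G 1 0 * G 2 1 - G 1 1 * G 2 0)],
    ![-h * (G 2 1 * G 0 2 - G 2 2 * G 0 1), -h * (G 2 2 * G 0 0 - G 2 0 * G 0 2),
      -h * (G 2 0 * G 0 1 - G 2 1 * G 0 0)],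
    ![-h * (G 0 1 * G 1 2 - G 0 2 * G 1 1), -h * (G 0 2 * G 1 0 - G 0 0 * G 1 2),
      -h * (G 0 0 * G 1 1 - G 0 1 * G 1 0)]] with hE
  set W : Fin 3 → Fin 3 → S := fun i => ![
    c i 0 - (g 1 * V 2 i - g 2 * V 1 i), c i 1 - (g 2 * V 0 i - g 0 * V 2 i),
    c i 2 - (g 0 * V 1 i - g 1 * V 0 i)] with hW
  have hC : ∀ m : Fin 3, ∃ C : S, ∀ i, W i m - E i m = C * y i := by
    intro m
    apply hy.e1 (fun i => W i m - E i m)
    have q01 : ∀ m, y 0 * (W 1 m - E 1 m) = y 1 * (W 0 m - E 0 m) := by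
      intro m
      fin_cases m <;> simp only [hE, hW, Fin.zero_eta, Fin.mk_one, Fin.reduceFinMk,
        Matrix.cons_val_zero, Matrix.cons_val_one, Matrix.cons_val]
      · linear_combination a20 + g 1 * hV2 2 - g 2 * hV2 1 + h * G 2 2 * hG 1 - h * G 2 1 * hG 2
      · linear_combination a21 + g 2 * hV2 0 - g 0 * hV2 2 + h * G 2 0 * hG 2 - h * G 2 2 * hG 0
      · linear_combination a22 + g 0 * hV2 1 - g 1 * hV2 0 + h * G 2 1 * hG 0 - h * G 2 0 * hG 1
    have q12 : ∀ m, y 1 * (W 2 m - E 2 m) = y 2 * (W 1 m - E 1 m) := by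
      intro m
      fin_cases m <;> simp only [hE, hW, Fin.zero_eta, Fin.mk_one, Fin.reduceFinMk,
        Matrix.cons_val_zero, Matrix.cons_val_one, Matrix.cons_val]
      · linear_combination a00 + g 1 * hV0 2 - g 2 * hV0 1 + h * G 0 2 * hG 1 - h * G 0 1 * hG 2
      · linear_combination a01 + g 2 * hV0 0 - g 0 * hV0 2 + h * G 0 0 * hG 2 - h * G 0 2 * hG 0
      · linear_combination a02 + g 0 * hV0 1 - g 1 * hV0 0 + h * G 0 1 * hG 0 - h * G 0 0 * hG 1
    have q20 : ∀ m, y 2 * (W 0 m - E 0 m) = y 0 * (W 2 m - E 2 m) := by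
      intro m
      fin_cases m <;> simp only [hE, hW, Fin.zero_eta, Fin.mk_one, Fin.reduceFinMk,
        Matrix.cons_val_zero, Matrix.cons_val_one, Matrix.cons_val]
      · linear_combination a10 + g 1 * hV1 2 - g 2 * hV1 1 + h * G 1 2 * hG 1 - h * G 1 1 * hG 2
      · linear_combination a11 + g 2 * hV1 0 - g 0 * hV1 2 + h * G 1 0 * hG 2 - h * G 1 2 * hG 0
      · linear_combination a12 + g 0 * hV1 1 - g 1 * hV1 0 + h * G 1 1 * hG 0 - h * G 1 0 * hG 1
    intro i j
    fin_cases i <;> fin_cases j <;> simp only [Fin.zero_eta, Fin.mk_one, Fin.reduceFinMk] <;>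
      first
        | rfl
        | exact q01 m
        | exact q12 m
        | exact q20 m
        | exact (q01 m).symm
        | exact (q12 m).symm
        | exact (q20 m).symm
  choose C hC using hC
  refine ⟨C, -h, ?_⟩
  apply mul_left_cancel₀ (hy.ne0 0)
  have e0 := hC 0 0
  have e1 := hC 1 0
  have e2 := hC 2 0
  simp only [hE, hW, Matrix.cons_val_zero, Matrix.cons_val_one, Matrix.cons_val] at e0 e1 e2
  have h0 := hc 0
  have g0 := hG 0
  have g1 := hG 1
  have g2 := hG 2
  linear_combination h0 + g 0 * e0 + g 1 * e1 + g 2 * e2 - h * (G 1 1 * G 2 2 - G 1 2 * G 2 1) * g0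
    - h * (G 1 2 * G 2 0 - G 1 0 * G 2 2) * g1 - h * (G 1 0 * G 2 1 - G 1 1 * G 2 0) * g2

/-- one-element version -/
theorem chase1 {y : Fin 3 → S} (hy : KReg y) {g : S} (hg : g ≠ 0) {q : S}
    (hq : ∀ i, ∃ a, y i * q = a * g) : ∃ a, q = a * g := by
  choose a ha using hq
  obtain ⟨c, hc⟩ := hy.e1 a (fun i j => by
    apply mul_right_cancel₀ hg
    linear_combination y j * ha i - y i * ha j)
  refine ⟨c, ?_⟩
  apply mul_left_cancel₀ (hy.ne0 0)
  rw [ha 0, hc 0]
  ring

/-- two-element version -/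
theorem chase2 {y : Fin 3 → S} (hy : KReg y) {g0 g1 : S} (hg1 : g1 ≠ 0)
    (hg : ∀ u v, u * g0 = v * g1 → ∃ c, u = c * g1 ∧ v = c * g0) {q : S}
    (hq : ∀ i, ∃ a b, y i * q = a * g0 + b * g1) : ∃ a b, q = a * g0 + b * g1 := by
  choose a b hab using hq
  have key : ∀ i k, ∃ h, y i * a k - y k * a i = h * g1 ∧ y k * b i - y i * b k = h * g0 := by
    intro i k
    obtain ⟨c, h1, h2⟩ := hg (y i * a k - y k * a i) (y k * b i - y i * b k) (by
      linear_combination y k * hab i - y i * hab k)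
    exact ⟨c, h1, h2⟩
  obtain ⟨h0, a0, b0⟩ := key 1 2
  obtain ⟨h1, a1, b1⟩ := key 2 0
  obtain ⟨h2, a2, b2⟩ := key 0 1
  obtain ⟨v, hv0, hv1, hv2⟩ := hy.e2 ![h0, h1, h2] (by
    simp only [Matrix.cons_val_zero, Matrix.cons_val_one, Matrix.cons_val]
    apply mul_right_cancel₀ hg1
    linear_combination -(y 0 * a0 + y 1 * a1 + y 2 * a2))
  simp only [Matrix.cons_val_zero, Matrix.cons_val_one, Matrix.cons_val] at hv0 hv1 hv2
  obtain ⟨α, hα⟩ := hy.e1 (fun i => a i - v i * g1) (by
    have q01 : y 0 * (a 1 - v 1 * g1) = y 1 * (a 0 - v 0 * g1) := by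
      linear_combination a2 + g1 * hv2
    have q12 : y 1 * (a 2 - v 2 * g1) = y 2 * (a 1 - v 1 * g1) := by
      linear_combination a0 + g1 * hv0
    have q20 : y 2 * (a 0 - v 0 * g1) = y 0 * (a 2 - v 2 * g1) := by
      linear_combination a1 + g1 * hv1
    intro i j
    fin_cases i <;> fin_cases j <;> simp only [Fin.zero_eta, Fin.mk_one, Fin.reduceFinMk] <;>
      first
        | rfl
        | exact q01
        | exact q12
        | exact q20
        | exact q01.symm
        | exact q12.symm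
        | exact q20.symm)
  obtain ⟨β, hβ⟩ := hy.e1 (fun i => b i + v i * g0) (by
    have q01 : y 0 * (b 1 + v 1 * g0) = y 1 * (b 0 + v 0 * g0) := by
      linear_combination -b2 - g0 * hv2
    have q12 : y 1 * (b 2 + v 2 * g0) = y 2 * (b 1 + v 1 * g0) := by
      linear_combination -b0 - g0 * hv0
    have q20 : y 2 * (b 0 + v 0 * g0) = y 0 * (b 2 + v 2 * g0) := by
      linear_combination -b1 - g0 * hv1
    intro i j
    fin_cases i <;> fin_cases j <;> simp only [Fin.zero_eta, Fin.mk_one, Fin.reduceFinMk] <;>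
      first
        | rfl
        | exact q01
        | exact q12
        | exact q20
        | exact q01.symm
        | exact q12.symm
        | exact q20.symm)
  refine ⟨α, β, ?_⟩
  apply mul_left_cancel₀ (hy.ne0 0)
  linear_combination hab 0 + g0 * hα 0 + g1 * hβ 0

/-- the step used to prove exactness in the middle -/
theorem chase3 {y g : Fin 3 → S} (hy : KReg y) (hg0 : g 0 ≠ 0)
    (hg : ∀ v : Fin 3 → S, (∀ i j, g i * v j = g j * v i) → ∃ c, ∀ i, v i = c * g i)
    (a : Fin 3 → S)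
    (ha : ∀ i, ∃ v : Fin 3 → S, y i * a 0 = g 1 * v 2 - g 2 * v 1 ∧
      y i * a 1 = g 2 * v 0 - g 0 * v 2 ∧ y i * a 2 = g 0 * v 1 - g 1 * v 0) :
    ∃ v : Fin 3 → S, a 0 = g 1 * v 2 - g 2 * v 1 ∧
      a 1 = g 2 * v 0 - g 0 * v 2 ∧ a 2 = g 0 * v 1 - g 1 * v 0 := by
  choose K k0 k1 k2 using ha
  have key : ∀ i k, ∃ h, ∀ m, y i * K k m - y k * K i m = h * g m := by
    intro i k
    apply hg (fun m => y i * K k m - y k * K i m)
    have b0 : g 1 * (y i * K k 2 - y k * K i 2) = g 2 * (y i * K k 1 - y k * K i 1) := by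
      linear_combination y k * k0 i - y i * k0 k
    have b1 : g 2 * (y i * K k 0 - y k * K i 0) = g 0 * (y i * K k 2 - y k * K i 2) := by
      linear_combination y k * k1 i - y i * k1 k
    have b2 : g 0 * (y i * K k 1 - y k * K i 1) = g 1 * (y i * K k 0 - y k * K i 0) := by
      linear_combination y k * k2 i - y i * k2 k
    intro i' j'
    fin_cases i' <;> fin_cases j' <;> simp only [Fin.zero_eta, Fin.mk_one, Fin.reduceFinMk] <;>
      first
        | rfl
        | exact b0
        | exact b1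
        | exact b2
        | exact b0.symm
        | exact b1.symm
        | exact b2.symm
  obtain ⟨h0, a0⟩ := key 1 2
  obtain ⟨h1, a1⟩ := key 2 0
  obtain ⟨h2, a2⟩ := key 0 1
  obtain ⟨v, hv0, hv1, hv2⟩ := hy.e2 ![h0, h1, h2] (by
    simp only [Matrix.cons_val_zero, Matrix.cons_val_one, Matrix.cons_val]
    apply mul_right_cancel₀ hg0
    linear_combination -(y 0 * a0 0 + y 1 * a1 0 + y 2 * a2 0))
  simp only [Matrix.cons_val_zero, Matrix.cons_val_one, Matrix.cons_val] at hv0 hv1 hv2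
  have hC : ∀ m, ∃ C, ∀ i, K i m - v i * g m = C * y i := by
    intro m
    apply hy.e1 (fun i => K i m - v i * g m)
    have q01 : y 0 * (K 1 m - v 1 * g m) = y 1 * (K 0 m - v 0 * g m) := by
      linear_combination a2 m + g m * hv2
    have q12 : y 1 * (K 2 m - v 2 * g m) = y 2 * (K 1 m - v 1 * g m) := by
      linear_combination a0 m + g m * hv0
    have q20 : y 2 * (K 0 m - v 0 * g m) = y 0 * (K 2 m - v 2 * g m) := by
      linear_combination a1 m + g m * hv1
    intro i j
    fin_cases i <;> fin_cases j <;> simp only [Fin.zero_eta, Fin.mk_one, Fin.reduceFinMk] <;>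
      first
        | rfl
        | exact q01
        | exact q12
        | exact q20
        | exact q01.symm
        | exact q12.symm
        | exact q20.symm
  choose C hC using hC
  refine ⟨C, ?_, ?_, ?_⟩
  · apply mul_left_cancel₀ (hy.ne0 0)
    linear_combination k0 0 + g 1 * hC 2 0 - g 2 * hC 1 0
  · apply mul_left_cancel₀ (hy.ne0 0)
    linear_combination k1 0 + g 2 * hC 0 0 - g 0 * hC 2 0
  · apply mul_left_cancel₀ (hy.ne0 0)
    linear_combination k2 0 + g 0 * hC 1 0 - g 1 * hC 0 0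

end

/-- a submodule that absorbs one step of division by `x_0, x_1, x_2` absorbs all -/
theorem absorb {R W : Type*} [CommRing R] [AddCommGroup W] [Module R W] (x : Fin 3 → R)
    (B : Submodule R W) (hB : ∀ w, (∀ i, x i • w ∈ B) → w ∈ B) (w : W)
    (hw : ∀ i, ∃ N : ℕ, x i ^ N • w ∈ B) : w ∈ B := by
  have main : ∀ n : ℕ, ∀ N : Fin 3 → ℕ, N 0 + N 1 + N 2 = n → ∀ w : W,
      (∀ i, x i ^ N i • w ∈ B) → w ∈ B := by
    intro n
    induction n with
    | zero =>
      intro N hN w hw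
      have := hw 0
      rw [show N 0 = 0 by omega, pow_zero, one_smul] at this
      exact this
    | succ n ih =>
      intro N hN w hw
      by_cases h0 : ∃ i, N i = 0
      · obtain ⟨i, hi⟩ := h0
        have := hw i
        rw [hi, pow_zero, one_smul] at this
        exact this
      · push Not at h0
        apply hB
        intro j
        refine ih (Function.update N j (N j - 1)) ?_ _ ?_
        · have h1 := h0 0
          have h2 := h0 1
          have h3 := h0 2
          fin_cases j <;> simp [Function.update] <;> omega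
        · intro i
          by_cases hij : i = j
          · subst hij
            rw [Function.update_self, smul_smul, ← pow_succ]
            rw [Nat.sub_add_cancel (Nat.one_le_iff_ne_zero.2 (h0 i))]
            exact hw i
          · rw [Function.update_of_ne hij, smul_comm]
            exact B.smul_mem _ (hw i)
  choose N hN using hw
  exact main _ N rfl w hN

end Pool.Agent.LibH27.RT
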