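import Pool.Agent.Lib_helper27.RT.Basic
import Pool.Agent.Lib_helper27.RT.Koszul

/-!
# Linear forms, points and evaluation
-/

namespace Pool.Agent.LibH27.RT

open MvPolynomial

section general

variable {R : Type*} [CommRing R] [IsDomain R] {n : ℕ}

instance reesKer_isPrime (f : Fin n → R) : (reesKer f).IsPrime := by
  unfold reesKer
  exact RingHom.ker_isPrime _

theorem prime_form [UniqueFactorizationMonoid R] {φ : Fin n → R} (h0 : φ ≠ 0)
    (hp : ∀ c : R, (∀ i, c ∣ φ i) → IsUnit c) : Prime (form φ) := by
  classical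
  have h1 : form φ ≠ 0 := by
    intro h
    apply h0
    apply form_inj
    rw [h]
    simp [form]
  have h2 : (form φ).totalDegree = 1 := (form_homog φ).totalDegree h1
  refine (irreducible_of_totalDegree_eq_one h2 fun x hx => hp x fun i => ?_).prime
  have := hx (Finsupp.single i 1)
  simpa [form, coeff_sum, coeff_C_mul, coeff_X, Finsupp.single_left_inj] using this

omit [IsDomain R] in
theorem isPrime_map_C {P : Ideal R} (hP : P.IsPrime) :
    (P.map (C : R →+* MvPolynomial (Fin n) R)).IsPrime := by
  have h1 : P.map (C : R →+* MvPolynomial (Fin n) R) =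
      RingHom.ker (MvPolynomial.map (σ := Fin n) (Ideal.Quotient.mk P)) := by
    rw [MvPolynomial.ker_map, Ideal.mk_ker]
  rw [h1]
  exact RingHom.ker_isPrime _

end general

variable {k : Type*} [Field k]

/-- a basis of the space of linear forms in three variables with its dual basis -/
structure Bas (k : Type*) [Field k] where
  A : Matrix (Fin 3) (Fin 3) k
  W : Matrix (Fin 3) (Fin 3) k
  AW : A * W = 1

namespace Bas

variable (b : Bas k)

/-- the `i`-th linear form -/
noncomputable def y (i : Fin 3) : MvPolynomial (Fin 3) k := form (b.A i)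

/-- the `j`-th dual vector -/
def w (j : Fin 3) : Fin 3 → k := fun c => b.W c j

theorem WA : b.W * b.A = 1 := by
  exact mul_eq_one_comm.1 b.AW

theorem y_homog (i : Fin 3) : (b.y i).IsHomogeneous 1 := form_homog _

theorem eval_y (i j : Fin 3) : aeval (b.w j) (b.y i) = if i = j then (1 : k) else 0 := by
  unfold y
  rw [aeval_form]
  have := congrFun (congrFun b.AW i) j
  rw [Matrix.mul_apply, Matrix.one_apply] at this
  exact this

theorem X_eq (c : Fin 3) : (X c : MvPolynomial (Fin 3) k) = ∑ j, C (b.W c j) * b.y j := by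
  have h1 : ∀ j, C (b.W c j) * b.y j = form (b.W c j • b.A j) := by
    intro j
    rw [form_smul]; rfl
  simp only [h1]
  rw [← form_sum]
  have h2 : ∑ j, b.W c j • b.A j = Pi.single c 1 := by
    funext i
    have := congrFun (congrFun b.WA c) i
    rw [Matrix.mul_apply, Matrix.one_apply] at this
    rw [Finset.sum_apply, Pi.single_apply]
    simp only [Pi.smul_apply, smul_eq_mul]
    rw [this]
    by_cases h : c = i
    · subst h; simp
    · rw [if_neg h, if_neg (Ne.symm h)]
  rw [h2]
  simp [form, Pi.single_apply, apply_ite]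

/-- the kernel at the point `w j` is generated by the other two linear forms -/
theorem ker_le (j : Fin 3) (J : Ideal (MvPolynomial (Fin 3) k)) (hJ : ∀ i, i ≠ j → b.y i ∈ J) :
    reesKer (b.w j) ≤ J := by
  intro f hf
  have h1 : (Polynomial.aeval (Ideal.Quotient.mk J (b.y j))).comp (reesMap (b.w j)) =
      Ideal.Quotient.mkₐ k J := by
    ext c
    simp only [AlgHom.comp_apply, reesMap, aeval_X, map_mul, Polynomial.aeval_C,
      Polynomial.aeval_X, Ideal.Quotient.mkₐ_eq_mk]
    rw [b.X_eq c, map_sum, Finset.sum_eq_single j]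
    · rw [map_mul]; rfl
    · intro i _ hi
      rw [map_mul, Ideal.Quotient.eq_zero_iff_mem.2 (hJ i hi), mul_zero]
    · intro h; exact absurd (Finset.mem_univ _) h
  have h2 := congrArg (fun g => g f) h1
  simp only [AlgHom.comp_apply, Ideal.Quotient.mkₐ_eq_mk] at h2
  unfold reesKer at hf
  rw [RingHom.mem_ker] at hf
  change reesMap (b.w j) f = 0 at hf
  rw [hf, map_zero] at h2
  exact Ideal.Quotient.eq_zero_iff_mem.1 h2.symm

theorem y_mem_ker {i j : Fin 3} (h : i ≠ j) : b.y i ∈ reesKer (b.w j) := by
  rw [mem_reesKer_homog _ (b.y_homog i), eval_y, if_neg h]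

theorem y_not_mem_ker (j : Fin 3) : b.y j ∉ reesKer (b.w j) := by
  rw [mem_reesKer_homog _ (b.y_homog j), eval_y, if_pos rfl]
  exact one_ne_zero

theorem ker_two : reesKer (b.w 2) = Ideal.span {b.y 0, b.y 1} := by
  apply le_antisymm
  · apply b.ker_le
    intro i hi
    fin_cases i
    · exact Ideal.subset_span (by simp)
    · exact Ideal.subset_span (by simp)
    · exact absurd rfl hi
  · rw [Ideal.span_le]
    intro x hx
    simp only [Set.mem_insert_iff, Set.mem_singleton_iff] at hx
    rcases hx with rfl | rfl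
    · exact b.y_mem_ker (by decide)
    · exact b.y_mem_ker (by decide)

theorem ker_zero : reesKer (b.w 0) = Ideal.span {b.y 1, b.y 2} := by
  apply le_antisymm
  · apply b.ker_le
    intro i hi
    fin_cases i
    · exact absurd rfl hi
    · exact Ideal.subset_span (by simp)
    · exact Ideal.subset_span (by simp)
  · rw [Ideal.span_le]
    intro x hx
    simp only [Set.mem_insert_iff, Set.mem_singleton_iff] at hx
    rcases hx with rfl | rfl
    · exact b.y_mem_ker (by decide)
    · exact b.y_mem_ker (by decide)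

theorem A_ne_zero (i : Fin 3) : b.A i ≠ 0 := by
  intro h
  have := b.eval_y i i
  unfold y at this
  rw [h, aeval_form] at this
  simp at this

theorem y_prime (i : Fin 3) : Prime (b.y i) := by
  apply prime_form (b.A_ne_zero i)
  intro c hc
  by_contra h
  apply b.A_ne_zero i
  funext j
  have h0 : c = 0 := by
    by_contra h0
    exact h (isUnit_iff_ne_zero.2 h0)
  have := hc j
  rw [h0, zero_dvd_iff] at this
  exact this

theorem y_not_dvd {i j : Fin 3} (h : i ≠ j) : ¬ b.y i ∣ b.y j := by
  rintro ⟨c, hc⟩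
  have := congrArg (aeval (b.w j)) hc
  rw [map_mul, eval_y, eval_y, if_pos rfl, if_neg h, zero_mul] at this
  exact one_ne_zero this

/-- the three elements `y₀, y₁, y₂ ^ e` in a polynomial ring over `R` -/
theorem kreg (n : ℕ) (e : ℕ) : KReg (![C (b.y 0), C (b.y 1), C (b.y 2) ^ e] :
    Fin 3 → MvPolynomial (Fin n) (MvPolynomial (Fin 3) k)) := by
  have h1 : (Ideal.span {C (b.y 0), C (b.y 1)} :
      Ideal (MvPolynomial (Fin n) (MvPolynomial (Fin 3) k))) =
      (reesKer (b.w 2)).map C := by
    rw [b.ker_two, Ideal.map_span, Set.image_pair]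
  apply KReg.of_prime
  · rw [prime_C_iff]; exact b.y_prime 0
  · intro h
    rw [C_dvd_iff_dvd_coeff] at h
    have := h 0
    simp only [coeff_zero_C] at this
    exact b.y_not_dvd (by decide) this
  · rw [h1]
    exact isPrime_map_C (reesKer_isPrime _)
  · rw [h1, mem_map_C_iff]
    intro h
    have := h 0
    rw [coeff_zero_C] at this
    exact b.y_not_mem_ker 2 this

theorem X_mem {J : Ideal (MvPolynomial (Fin 3) k)} (hJ : ∀ i, b.y i ∈ J) (c : Fin 3) :
    (X c : MvPolynomial (Fin 3) k) ∈ J := by
  rw [b.X_eq c]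
  exact Ideal.sum_mem _ fun j _ => Ideal.mul_mem_left _ _ (hJ j)

end Bas

/-- everything without constant term is in the ideal of the variables -/
theorem mem_of_constantCoeff {σ : Type*} {R : Type*} [CommRing R] {J : Ideal (MvPolynomial σ R)}
    (hJ : ∀ i, X i ∈ J) {f : MvPolynomial σ R} (hf : constantCoeff f = 0) : f ∈ J := by
  have := sub_mem_of (aeval fun _ => 0) J (fun j => by simpa using hJ j) f
  have h2 : (aeval (fun _ : σ => (0 : MvPolynomial σ R))) f = C (constantCoeff f) := by
    rw [aeval_zero']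
    rfl
  rw [h2, hf, map_zero, sub_zero] at this
  exact this

/-- reduction of the coefficients modulo the maximal ideal -/
noncomputable def ev0 (n : ℕ) : MvPolynomial (Fin n) (MvPolynomial (Fin 3) k) →+*
    MvPolynomial (Fin n) k := MvPolynomial.map constantCoeff

theorem Bas.exists_of_ev0 (b : Bas k) {n : ℕ}
    {s : MvPolynomial (Fin n) (MvPolynomial (Fin 3) k)} (h : ev0 n s = 0) :
    ∃ a : Fin 3 → MvPolynomial (Fin n) (MvPolynomial (Fin 3) k), s = C (b.y 0) * a 0 +
      C (b.y 1) * a 1 + C (b.y 2) * a 2 := by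
  have h1 : s ∈ (Ideal.span (Set.range b.y)).map (C : _ →+* MvPolynomial (Fin n) _) := by
    rw [mem_map_C_iff]
    intro m
    apply mem_of_constantCoeff
    · intro i
      refine b.X_mem (J := Ideal.span (Set.range b.y)) (fun j => ?_) i
      exact Ideal.subset_span ⟨j, rfl⟩
    · have := congrArg (coeff m) h
      unfold ev0 at this
      rw [coeff_map, coeff_zero] at this
      exact this
  rw [Ideal.map_span, ← Set.range_comp, Ideal.mem_span_range_iff_exists_fun] at h1
  obtain ⟨a, ha⟩ := h1
  refine ⟨a, ?_⟩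
  rw [← ha, Fin.sum_univ_three]
  simp only [Function.comp_apply]
  ring

/-- lower bound for the degrees of generators -/
theorem not_genDeg {n : ℕ} {f : Fin n → MvPolynomial (Fin 3) k} {N : ℕ}
    (h : ∀ d ≤ N, ∀ q : MvPolynomial (Fin n) (MvPolynomial (Fin 3) k), q.IsHomogeneous d →
      aeval f q = 0 → ev0 n q = 0) (q : MvPolynomial (Fin n) (MvPolynomial (Fin 3) k))
    (hq : q ∈ reesKer f) (hq0 : ev0 n q ≠ 0) : ¬ GenDeg f N := by
  intro hG
  apply hq0
  have h1 := hG hq
  have h2 : Ideal.span {q | q ∈ reesKer f ∧ ∃ d ≤ N, q.IsHomogeneous d} ≤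
      RingHom.ker (ev0 (k := k) n) := by
    rw [Ideal.span_le]
    rintro g ⟨hg, d, hd, hgd⟩
    exact h d hd g hgd ((mem_reesKer_homog f hgd).1 hg)
  exact h2 h1

end Pool.Agent.LibH27.RT
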