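import Pool.Agent.Lib_helper27.RT.Bihom
import Pool.Agent.Lib_helper27.RT.Examples

/-!
# Relation types of eleven points
-/

namespace Pool.Agent.LibH27.RT

open MvPolynomial

variable {k : Type*} [Field k]

theorem aeval_eq (v : Fin 3 → k) (f : MvPolynomial (Fin 3) k) : aeval v f = eval v f := by
  rw [← coe_aeval_eq_eval]; rfl

/-- two generators give a relation -/
theorem not_genDeg_zero' {n : ℕ} {f : Fin n → MvPolynomial (Fin 3) k} {i j : Fin n} (hij : i ≠ j)
    (hj : f j ≠ 0) : ¬ GenDeg f 0 := by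
  classical
  intro h
  let φ : Fin n → MvPolynomial (Fin 3) k := fun l => if l = i then f j else if l = j then -f i else 0
  have h1 : form φ ∈ reesKer f := by
    rw [form_mem_reesKer]
    have h2 : ∀ l, φ l * f l = (if l = i then f j * f i else 0) + if l = j then -(f i * f j) else 0 := by
      intro l
      simp only [φ]
      by_cases hi : l = i
      · subst hi
        rw [if_pos rfl, if_pos rfl, if_neg hij, add_zero]
      · rw [if_neg hi, if_neg hi, zero_add]
        by_cases hj : l = j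
        · subst hj
          rw [if_pos rfl, if_pos rfl]; ring
        · rw [if_neg hj, if_neg hj, zero_mul]
    rw [Finset.sum_congr rfl fun l _ => h2 l, Finset.sum_add_distrib, Finset.sum_ite_eq',
      Finset.sum_ite_eq', if_pos (Finset.mem_univ _), if_pos (Finset.mem_univ _)]
    ring
  have h2 : Ideal.span {q | q ∈ reesKer f ∧ ∃ d ≤ 0, q.IsHomogeneous d} = ⊥ := by
    rw [Ideal.span_eq_bot]
    rintro q ⟨hq, d, hd, hqd⟩
    obtain rfl : d = 0 := by omega
    rw [mem_reesKer_homog f hqd] at hq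
    rw [← totalDegree_zero_iff_isHomogeneous, totalDegree_eq_zero_iff_eq_C] at hqd
    rw [hqd, aeval_C] at hq
    change coeff 0 q = 0 at hq
    rw [hqd, hq, map_zero]
  have h3 := h h1
  rw [h2, Ideal.mem_bot, ← form_zero] at h3
  have h4 := congrFun (form_inj h3) i
  simp only [φ, if_true, Pi.zero_apply] at h4
  exact hj h4

/-- the relation type from the Hilbert–Burch data -/
theorem isRelType_of [Infinite k] {X : Finset (Projectivization k (Fin 3 → k))}
    {Z : Finset (Fin 3 → k)} (hZ : Good Z) (hI : vanIdeal X = ptIdeal Z) (hc : Z.card = 11)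
    {m : ℕ} (P : HB Z m) {r : ℕ} (hr : 1 ≤ r) (h1 : GenDeg P.f r)
    (h2 : 2 ≤ r → ¬ GenDeg P.f (r - 1)) : IsRelType X r := by
  constructor
  · obtain ⟨n, a, f, hf, hspan, hmin⟩ := exists_ideal_gens Z
    obtain ⟨G, hG1, hG2⟩ := exists_min_bihom hf
    exact ⟨n, a, f, G, hf, ⟨hspan.trans hI.symm, hmin⟩, hG1, hG2⟩
  · intro n d f G D
    have hspan : Ideal.span (Set.range P.f) = Ideal.span (Set.range f) := by
      rw [P.fspan, ← hI, D.gens.1]
    refine isGreatest_of D.rels (fun g hg => ?_) hr (genDeg_indep hspan hr h1) ?_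
    · obtain ⟨e, t, h⟩ := D.bihom g hg
      exact ⟨t, h.1⟩
    · by_cases hr2 : 2 ≤ r
      · intro h
        exact h2 hr2 (genDeg_indep hspan.symm (by omega) h)
      · obtain rfl : r = 1 := by omega
        obtain ⟨m', hm', ⟨P'⟩⟩ := exists_HB_of' hZ d f D.homog (D.gens.1.trans hI) D.gens.2
        have h3 : 1 ≤ m' := by
          rcases P'.m_cases hc with h | h | h | h <;> omega
        subst hm'
        refine not_genDeg_zero' (i := ⟨0, by omega⟩) (j := ⟨1, by omega⟩) (by simp) ?_
        intro h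
        apply D.gens.2 ⟨1, by omega⟩
        rw [h]
        exact Ideal.zero_mem _

/-- every set of eleven points has relation type 1, 3 or 5 -/
theorem relType_cases [Infinite k] {X : Finset (Projectivization k (Fin 3 → k))}
    {Z : Finset (Fin 3 → k)} (hZ : Good Z) (hI : vanIdeal X = ptIdeal Z) (hc : Z.card = 11) :
    ∃ r, (r = 1 ∨ r = 3 ∨ r = 5) ∧ IsRelType X r := by
  obtain ⟨m, ⟨P⟩⟩ := exists_HB hZ
  rcases P.m_cases hc with h | h | ⟨h, h3 | h4⟩ | ⟨h, h4⟩
  · subst h
    exact ⟨1, Or.inl rfl, isRelType_of hZ hI hc P le_rfl (P.genDeg_one_two hZ)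
      (fun h => absurd h (by norm_num))⟩
  · subst h
    exact ⟨1, Or.inl rfl, isRelType_of hZ hI hc P le_rfl (P.genDeg_one_three hZ)
      (fun h => absurd h (by norm_num))⟩
  · subst h
    obtain ⟨h5, h6⟩ := P.eleven_a hZ hc h3
    exact ⟨3, Or.inr (Or.inl rfl), isRelType_of hZ hI hc P (by norm_num) h5 (fun _ => h6)⟩
  · subst h
    obtain ⟨⟨h5, h6⟩, -⟩ := P.eleven_b hZ hc h4
    exact ⟨5, Or.inr (Or.inr rfl), isRelType_of hZ hI hc P (by norm_num) h5 (fun _ => h6)⟩
  · subst h
    obtain ⟨⟨h5, h6⟩, -⟩ := P.eleven_c hZ hc h4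
    exact ⟨3, Or.inr (Or.inl rfl), isRelType_of hZ hI hc P (by norm_num) h5 (fun _ => h6)⟩

/-- vectors which are not separated by linear forms are proportional -/
theorem exists_smul {u v : Fin 3 → k} (hu : u ≠ 0)
    (h : ∀ a : Fin 3 → k, ∑ i, a i * u i = 0 → ∑ i, a i * v i = 0) : ∃ c : k, v = c • u := by
  obtain ⟨b, hb⟩ := exists_bas_w hu
  have h1 : ∀ i, i ≠ 2 → ∑ c, b.A i c * v c = 0 := by
    intro i hi
    apply h
    have := b.eval_y i 2
    unfold Bas.y at this
    rw [aeval_form', hb, if_neg hi] at this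
    exact this
  refine ⟨∑ c, b.A 2 c * v c, ?_⟩
  funext i
  have h2 : v i = ∑ j, b.W i j * ∑ c, b.A j c * v c := by
    have h3 : ∀ c, ∑ j, b.W i j * b.A j c = if i = c then 1 else 0 := by
      intro c
      have := congrFun (congrFun b.WA i) c
      rw [Matrix.mul_apply, Matrix.one_apply] at this
      exact this
    simp only [Finset.mul_sum, ← mul_assoc]
    rw [Finset.sum_comm]
    simp only [← Finset.sum_mul, h3, ite_mul, one_mul, zero_mul, Finset.sum_ite_eq,
      Finset.mem_univ, if_true]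
  rw [h2, Fin.sum_univ_three, h1 0 (by decide), h1 1 (by decide), mul_zero, mul_zero, zero_add,
    zero_add, Pi.smul_apply, smul_eq_mul, mul_comm]
  congr 1
  rw [← hb]; rfl

/-- representatives of a set of points -/
theorem exists_Z (X : Finset (Projectivization k (Fin 3 → k))) :
    ∃ Z : Finset (Fin 3 → k), Good Z ∧ Z.card = X.card ∧ vanIdeal X = ptIdeal Z := by
  classical
  have hinj : Function.Injective (fun p : Projectivization k (Fin 3 → k) => p.rep) := by
    intro p q hpq
    change p.rep = q.rep at hpq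
    rw [← p.mk_rep, ← q.mk_rep, Projectivization.mk_eq_mk_iff']
    exact ⟨1, by rw [one_smul, hpq]⟩
  refine ⟨X.image fun p => p.rep, ⟨?_, ?_⟩, Finset.card_image_of_injective _ hinj, ?_⟩
  · intro v hv
    rw [Finset.mem_image] at hv
    obtain ⟨p, -, rfl⟩ := hv
    exact p.rep_nonzero
  · intro u hu v hv huv
    rw [Finset.mem_image] at hu hv
    obtain ⟨p, -, rfl⟩ := hu
    obtain ⟨q, -, rfl⟩ := hv
    by_contra hcon
    push Not at hcon
    obtain ⟨c, hc⟩ := exists_smul p.rep_nonzero hcon
    apply huv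
    congr 1
    rw [← p.mk_rep, ← q.mk_rep, Eq.comm, Projectivization.mk_eq_mk_iff']
    exact ⟨c, hc.symm⟩
  · unfold vanIdeal ptIdeal
    congr 1
    ext f
    constructor
    · rintro ⟨d, hd, h⟩
      refine ⟨d, hd, fun v hv => ?_⟩
      rw [Finset.mem_image] at hv
      obtain ⟨p, hp, rfl⟩ := hv
      rw [aeval_eq]
      exact h p hp
    · rintro ⟨d, hd, h⟩
      refine ⟨d, hd, fun p hp => ?_⟩
      have := h p.rep (Finset.mem_image_of_mem _ hp)
      rwa [aeval_eq] at this

/-- the set of points with given representatives -/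
theorem exists_X {Z : Finset (Fin 3 → k)} (hZ : Good Z) :
    ∃ X : Finset (Projectivization k (Fin 3 → k)), X.card = Z.card ∧ vanIdeal X = ptIdeal Z := by
  classical
  let F : {v // v ∈ Z} → Projectivization k (Fin 3 → k) := fun v =>
    Projectivization.mk k v.1 (hZ.ne0 v.1 v.2)
  have hinj : Function.Injective F := by
    intro u v huv
    by_contra hne
    obtain ⟨a, ha, ha'⟩ := hZ.ind u.1 u.2 v.1 v.2 (fun h => hne (Subtype.ext h))
    obtain ⟨c, hc⟩ := (Projectivization.mk_eq_mk_iff' k _ _ _ _).1 huv.symm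
    apply ha'
    rw [← hc]
    simp only [Pi.smul_apply, smul_eq_mul, mul_left_comm _ c]
    rw [← Finset.mul_sum, ha, mul_zero]
  refine ⟨Z.attach.image F, ?_, ?_⟩
  · rw [Finset.card_image_of_injective _ hinj, Finset.card_attach]
  · unfold vanIdeal ptIdeal
    congr 1
    ext f
    have key : ∀ (d : ℕ), f.IsHomogeneous d → ∀ v (hv : v ∈ Z),
        (eval (Projectivization.mk k v (hZ.ne0 v hv)).rep f = 0 ↔ aeval v f = 0) := by
      intro d hd v hv
      obtain ⟨c, hc⟩ := Projectivization.exists_smul_eq_mk_rep k v (hZ.ne0 v hv)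
      have h1 := aeval_mul_homog hd (c : k) v
      have h2 : (fun i => (c : k) * v i) = (Projectivization.mk k v (hZ.ne0 v hv)).rep := by
        rw [← hc]; rfl
      rw [h2] at h1
      rw [← aeval_eq, h1]
      constructor
      · intro h
        exact (mul_eq_zero.1 h).resolve_left (pow_ne_zero _ c.ne_zero)
      · intro h
        rw [h, mul_zero]
    constructor
    · rintro ⟨d, hd, h⟩
      refine ⟨d, hd, fun v hv => ?_⟩
      rw [← key d hd v hv]
      exact h _ (Finset.mem_image.2 ⟨⟨v, hv⟩, Finset.mem_attach _ _, rfl⟩)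
    · rintro ⟨d, hd, h⟩
      refine ⟨d, hd, fun p hp => ?_⟩
      rw [Finset.mem_image] at hp
      obtain ⟨⟨v, hv⟩, -, rfl⟩ := hp
      exact (key d hd v hv).2 (h v hv)

/-- relation types of eleven points -/
theorem main [Infinite k] :
    (∀ X : Finset (Projectivization k (Fin 3 → k)), X.card = 11 → ∃ r, IsRelType X r) ∧
    {r | ∃ X : Finset (Projectivization k (Fin 3 → k)), X.card = 11 ∧ IsRelType X r} =
      {1, 3, 5} := by
  have hall : ∀ X : Finset (Projectivization k (Fin 3 → k)), X.card = 11 →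
      ∃ r, (r = 1 ∨ r = 3 ∨ r = 5) ∧ IsRelType X r := by
    intro X hX
    obtain ⟨Z, hZ, hc, hI⟩ := exists_Z X
    exact relType_cases hZ hI (hc.trans hX)
  refine ⟨fun X hX => ?_, ?_⟩
  · obtain ⟨r, -, hr⟩ := hall X hX
    exact ⟨r, hr⟩
  · ext r
    simp only [Set.mem_ofPred_eq, Set.mem_insert_iff, Set.mem_singleton_iff]
    constructor
    · rintro ⟨X, hX, hr⟩
      obtain ⟨r', hr', h⟩ := hall X hX
      obtain ⟨n, d, f, G, D⟩ := hr.1
      have h1 := hr.2 n d f G D
      have h2 := h.2 n d f G D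
      rw [h1.unique h2]
      exact hr'
    · obtain ⟨t, ht⟩ : ∃ t : ℕ → k, Function.Injective t :=
        ⟨Infinite.natEmbedding k, (Infinite.natEmbedding k).injective⟩
      rintro (rfl | rfl | rfl)
      · obtain ⟨X, hX, hI⟩ := exists_X (good_Z1 (t := t))
        refine ⟨X, hX.trans (card_Z1 ht), ?_⟩
        obtain ⟨m, ⟨P⟩⟩ := exists_HB (good_Z1 (t := t))
        rcases Z1_case P (card_Z1 ht) with h | h
        · subst h
          exact isRelType_of good_Z1 hI (card_Z1 ht) P le_rfl (P.genDeg_one_two good_Z1)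
            (fun h => absurd h (by norm_num))
        · subst h
          exact isRelType_of good_Z1 hI (card_Z1 ht) P le_rfl (P.genDeg_one_three good_Z1)
            (fun h => absurd h (by norm_num))
      · obtain ⟨X, hX, hI⟩ := exists_X (good_Z3 (t := t))
        refine ⟨X, hX.trans (card_Z3 ht), ?_⟩
        obtain ⟨m, ⟨P⟩⟩ := exists_HB (good_Z3 (t := t))
        obtain rfl := Z3_case ht P
        obtain ⟨⟨h5, h6⟩, -⟩ := P.eleven_c good_Z3 (card_Z3 ht)
          (P.m_of_four (card_Z3 ht) (Z3_four ht P)).1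
        exact isRelType_of good_Z3 hI (card_Z3 ht) P (by norm_num) h5 (fun _ => h6)
      · obtain ⟨X, hX, hI⟩ := exists_X (good_Z5 (t := t))
        refine ⟨X, hX.trans (card_Z5 ht), ?_⟩
        obtain ⟨m, ⟨P⟩⟩ := exists_HB (good_Z5 (t := t))
        obtain rfl := Z5_case ht P
        obtain ⟨⟨h5, h6⟩, -⟩ := P.eleven_b good_Z5 (card_Z5 ht)
          (P.m_of_four (card_Z5 ht) (Z5_four ht P)).1
        exact isRelType_of good_Z5 hI (card_Z5 ht) P (by norm_num) h5 (fun _ => h6)

end Pool.Agent.LibH27.RT
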