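import Pool.Agent.Lib_helper27.RT.Lin

/-!
# Ideals of finite sets of points
-/

namespace Pool.Agent.LibH27.RT

open MvPolynomial

variable {k : Type*} [Field k]

theorem aeval_form' {a v : Fin 3 → k} : aeval v (form a) = ∑ i, a i * v i := by
  rw [aeval_form]; rfl

/-- components of a product with a homogeneous element -/
theorem hc_mul {σ R : Type*} [CommRing R] (g : MvPolynomial σ R) {y : MvPolynomial σ R} {e : ℕ}
    (hy : y.IsHomogeneous e) (d : ℕ) :
    homogeneousComponent (d + e) (g * y) = homogeneousComponent d g * y := by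
  conv_lhs => rw [← sum_homogeneousComponent g]
  rw [Finset.sum_mul, map_sum]
  by_cases hd : d ∈ Finset.range (g.totalDegree + 1)
  · rw [Finset.sum_eq_single d]
    · rw [homogeneousComponent_of_mem ((homogeneousComponent_isHomogeneous d g).mul hy),
        if_pos rfl]
    · intro i _ hi
      rw [homogeneousComponent_of_mem ((homogeneousComponent_isHomogeneous i g).mul hy),
        if_neg (by omega)]
    · intro h; exact absurd hd h
  · rw [Finset.sum_eq_zero]
    · rw [Finset.mem_range, not_lt] at hd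
      rw [homogeneousComponent_eq_zero _ _ (by omega), zero_mul]
    · intro i hi
      rw [homogeneousComponent_of_mem ((homogeneousComponent_isHomogeneous i g).mul hy),
        if_neg]
      intro h
      exact hd (by rw [show d = i by omega]; exact hi)

theorem hc_mul_lt {σ R : Type*} [CommRing R] (g : MvPolynomial σ R) {y : MvPolynomial σ R} {e : ℕ}
    (hy : y.IsHomogeneous e) {d : ℕ} (hd : d < e) :
    homogeneousComponent d (g * y) = 0 := by
  conv_lhs => rw [← sum_homogeneousComponent g]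
  rw [Finset.sum_mul, map_sum]
  apply Finset.sum_eq_zero
  intro i _
  rw [homogeneousComponent_of_mem ((homogeneousComponent_isHomogeneous i g).mul hy),
    if_neg (by omega)]

/-- a basis with prescribed data -/
theorem exists_bas {l w : Fin 3 → k} (hl : l ≠ 0) (hw : w ≠ 0) (h : ∑ i, l i * w i = 0) :
    ∃ b : Bas k, b.A 1 = l ∧ b.w 2 = w := by
  obtain ⟨q, hq⟩ : ∃ q : Fin 3 → k, ∑ i, l i * q i = 1 := by
    obtain ⟨i, hi⟩ := Function.ne_iff.1 hl
    refine ⟨Pi.single i (l i)⁻¹, ?_⟩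
    rw [Finset.sum_eq_single i]
    · rw [Pi.single_eq_same, mul_inv_cancel₀ hi]
    · intro j _ hj
      rw [Pi.single_eq_of_ne hj, mul_zero]
    · intro h; exact absurd (Finset.mem_univ _) h
  obtain ⟨r, hr⟩ : ∃ r : Fin 3 → k, ∑ i, r i * w i = 1 := by
    obtain ⟨i, hi⟩ := Function.ne_iff.1 hw
    refine ⟨Pi.single i (w i)⁻¹, ?_⟩
    rw [Finset.sum_eq_single i]
    · rw [Pi.single_eq_same, inv_mul_cancel₀ hi]
    · intro j _ hj
      rw [Pi.single_eq_of_ne hj, zero_mul]
    · intro h; exact absurd (Finset.mem_univ _) h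
  rw [Fin.sum_univ_three] at h hq hr
  set t := r 0 * q 0 + r 1 * q 1 + r 2 * q 2 with ht
  let p0 := q 0 - t * w 0
  let p1 := q 1 - t * w 1
  let p2 := q 2 - t * w 2
  have h1 : l 0 * p0 + l 1 * p1 + l 2 * p2 = 1 := by
    simp only [p0, p1, p2]; linear_combination hq - t * h
  have h2 : r 0 * p0 + r 1 * p1 + r 2 * p2 = 0 := by
    simp only [p0, p1, p2]; linear_combination -t * hr + ht.symm
  clear_value p0 p1 p2
  refine ⟨⟨!![p1 * w 2 - p2 * w 1, p2 * w 0 - p0 * w 2, p0 * w 1 - p1 * w 0;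
    l 0, l 1, l 2; r 0, r 1, r 2],
    !![l 1 * r 2 - l 2 * r 1, p0, w 0; l 2 * r 0 - l 0 * r 2, p1, w 1;
      l 0 * r 1 - l 1 * r 0, p2, w 2], ?_⟩, ?_, ?_⟩
  · ext i j
    fin_cases i <;> fin_cases j <;> simp [Matrix.mul_apply, Fin.sum_univ_three]
    · linear_combination (r 0 * w 0 + r 1 * w 1 + r 2 * w 2) * h1 -
        (r 0 * p0 + r 1 * p1 + r 2 * p2) * h + hr
    · ring
    · ring
    · ring
    · linear_combination h1
    · linear_combination h
    · ring
    · linear_combination h2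
    · linear_combination hr
  · funext i; fin_cases i <;> rfl
  · funext i; fin_cases i <;> rfl

theorem exists_orth {a : Fin 3 → k} : ∃ w : Fin 3 → k, w ≠ 0 ∧ ∑ i, a i * w i = 0 := by
  by_cases h : a 0 = 0
  · refine ⟨Pi.single 0 1, ?_, ?_⟩
    · intro h1; have := congrFun h1 0; simp at this
    · simp [Fin.sum_univ_three, h]
  · refine ⟨![a 1, -a 0, 0], ?_, ?_⟩
    · intro h1
      have := congrFun h1 1
      simp at this
      exact h this
    · simp [Fin.sum_univ_three]; ring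

theorem exists_bas_A {a : Fin 3 → k} (ha : a ≠ 0) : ∃ b : Bas k, b.A 1 = a := by
  obtain ⟨w, hw, h⟩ := exists_orth (a := a)
  obtain ⟨b, hb, _⟩ := exists_bas ha hw h
  exact ⟨b, hb⟩

theorem exists_bas_w {v : Fin 3 → k} (hv : v ≠ 0) : ∃ b : Bas k, b.w 2 = v := by
  obtain ⟨w, hw, h⟩ := exists_orth (a := v)
  obtain ⟨b, _, hb⟩ := exists_bas hw hv (by
    rw [← h]; exact Finset.sum_congr rfl fun i _ => mul_comm _ _)
  exact ⟨b, hb⟩

/-- every homogeneous polynomial is a power of `y₂` modulo `(y₀, y₁)` -/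
theorem Bas.sub_mem_ker (b : Bas k) {f : MvPolynomial (Fin 3) k} {d : ℕ} (hf : f.IsHomogeneous d) :
    f - C (aeval (b.w 2) f) * b.y 2 ^ d ∈ reesKer (b.w 2) := by
  have h1 : (b.y 2 ^ d).IsHomogeneous d := by
    have := (b.y_homog 2).pow d
    rwa [one_mul] at this
  have h2 : (f - C (aeval (b.w 2) f) * b.y 2 ^ d).IsHomogeneous d := hf.sub (h1.C_mul _)
  rw [mem_reesKer_homog _ h2, map_sub, map_mul, map_pow, b.eval_y, if_pos rfl, one_pow, mul_one,
    aeval_C]
  exact sub_self _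

theorem Bas.decomp (b : Bas k) {f : MvPolynomial (Fin 3) k} {d : ℕ} (hf : f.IsHomogeneous (d + 1)) :
    ∃ a0 a1 : MvPolynomial (Fin 3) k, a0.IsHomogeneous d ∧ a1.IsHomogeneous d ∧
      f = C (aeval (b.w 2) f) * b.y 2 ^ (d + 1) + b.y 0 * a0 + b.y 1 * a1 := by
  have h1 := b.sub_mem_ker hf
  rw [b.ker_two, Ideal.mem_span_pair] at h1
  obtain ⟨u, v, huv⟩ := h1
  have h3 : (b.y 2 ^ (d + 1)).IsHomogeneous (d + 1) := by
    have := (b.y_homog 2).pow (d + 1)
    rwa [one_mul] at this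
  have h2 : (f - C (aeval (b.w 2) f) * b.y 2 ^ (d + 1)).IsHomogeneous (d + 1) :=
    hf.sub (h3.C_mul _)
  refine ⟨homogeneousComponent d u, homogeneousComponent d v,
    homogeneousComponent_isHomogeneous _ _, homogeneousComponent_isHomogeneous _ _, ?_⟩
  have h4 := congrArg (homogeneousComponent (d + 1)) huv
  rw [map_add, hc_mul _ (b.y_homog 0), hc_mul _ (b.y_homog 1),
    homogeneousComponent_of_mem h2, if_pos rfl] at h4
  linear_combination -h4

/-- a finite set of vectors which represent pairwise different points of the plane -/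
structure Good (X : Finset (Fin 3 → k)) : Prop where
  ne0 : ∀ v ∈ X, v ≠ 0
  ind : ∀ u ∈ X, ∀ v ∈ X, u ≠ v → ∃ a : Fin 3 → k, ∑ i, a i * u i = 0 ∧ ∑ i, a i * v i ≠ 0

/-- the homogeneous ideal of a set of points -/
noncomputable def ptIdeal (X : Finset (Fin 3 → k)) : Ideal (MvPolynomial (Fin 3) k) :=
  Ideal.span {f | ∃ d, f.IsHomogeneous d ∧ ∀ v ∈ X, aeval v f = 0}

theorem mem_ptIdeal_homog {X : Finset (Fin 3 → k)} {f : MvPolynomial (Fin 3) k} {d : ℕ}
    (hf : f.IsHomogeneous d) : f ∈ ptIdeal X ↔ ∀ v ∈ X, aeval v f = 0 := by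
  constructor
  · intro h v hv
    rw [← mem_reesKer_homog v hf]
    revert f
    suffices h : ptIdeal X ≤ reesKer v by
      intro f _ hf; exact h hf
    unfold ptIdeal
    rw [Ideal.span_le]
    rintro f ⟨d, hf, h⟩
    exact (mem_reesKer_homog v hf).2 (h v hv)
  · intro h
    exact Ideal.subset_span ⟨d, hf, h⟩

theorem mem_ptIdeal {X : Finset (Fin 3 → k)} {f : MvPolynomial (Fin 3) k} :
    f ∈ ptIdeal X ↔ ∀ v ∈ X, f ∈ reesKer v := by
  constructor
  · intro h v hv
    suffices h' : ptIdeal X ≤ reesKer v from h' h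
    unfold ptIdeal
    rw [Ideal.span_le]
    rintro f ⟨d, hf, h⟩
    exact (mem_reesKer_homog v hf).2 (h v hv)
  · intro h
    rw [← sum_homogeneousComponent f]
    refine Ideal.sum_mem _ fun d _ => ?_
    rw [mem_ptIdeal_homog (homogeneousComponent_isHomogeneous d f)]
    intro v hv
    exact (mem_reesKer_homog v (homogeneousComponent_isHomogeneous d f)).1
      (comp_mem_reesKer v (h v hv) d)

theorem ptIdeal_eq (X : Finset (Fin 3 → k)) : ptIdeal X = X.inf (fun v => reesKer v) := by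
  ext f
  rw [mem_ptIdeal, Submodule.mem_finsetInf]

theorem comp_mem_ptIdeal {X : Finset (Fin 3 → k)} {f : MvPolynomial (Fin 3) k}
    (hf : f ∈ ptIdeal X) (d : ℕ) : homogeneousComponent d f ∈ ptIdeal X := by
  rw [mem_ptIdeal] at hf ⊢
  intro v hv
  exact comp_mem_reesKer v (hf v hv) d

/-- separating forms -/
theorem Good.exists_sep {X : Finset (Fin 3 → k)} (hX : Good X) {v : Fin 3 → k} (hv : v ∈ X) :
    ∃ h : MvPolynomial (Fin 3) k, h.IsHomogeneous (X.card - 1) ∧ aeval v h ≠ 0 ∧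
      ∀ u ∈ X, u ≠ v → aeval u h = 0 := by
  classical
  have h1 : ∀ u : Fin 3 → k, ∃ a : Fin 3 → k, u ∈ X → u ≠ v →
      ∑ i, a i * u i = 0 ∧ ∑ i, a i * v i ≠ 0 := by
    intro u
    by_cases h : u ∈ X ∧ u ≠ v
    · obtain ⟨a, ha⟩ := hX.ind u h.1 v hv h.2
      exact ⟨a, fun _ _ => ha⟩
    · exact ⟨0, fun h1 h2 => absurd ⟨h1, h2⟩ h⟩
  choose a ha using h1
  refine ⟨∏ u ∈ X.erase v, form (a u), ?_, ?_, ?_⟩
  · have := IsHomogeneous.prod (X.erase v) (fun u => form (a u)) (fun _ => 1)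
      (fun u _ => form_homog _)
    rwa [Finset.sum_const, Finset.card_erase_of_mem hv, smul_eq_mul, mul_one] at this
  · rw [map_prod, Finset.prod_ne_zero_iff]
    intro u hu
    rw [Finset.mem_erase] at hu
    rw [aeval_form']
    exact (ha u hu.2 hu.1).2
  · intro u hu huv
    rw [map_prod]
    apply Finset.prod_eq_zero (Finset.mem_erase.2 ⟨huv, hu⟩)
    rw [aeval_form']
    exact (ha u hu huv).1

theorem Bas.mem_of_sep (b : Bas k) {P : Ideal (MvPolynomial (Fin 3) k)} (hP : P.IsPrime)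
    (h : reesKer (b.w 2) ≤ P) {f : MvPolynomial (Fin 3) k} {d : ℕ} (hf : f.IsHomogeneous d)
    (hf0 : aeval (b.w 2) f ≠ 0) (hfP : f ∈ P) (c : Fin 3) : X c ∈ P := by
  apply b.X_mem
  have h1 := Ideal.sub_mem _ hfP (h (b.sub_mem_ker hf))
  rw [sub_sub_cancel] at h1
  have h2 : b.y 2 ^ d ∈ P := by
    have h3 := P.mul_mem_left (C (aeval (b.w 2) f)⁻¹) h1
    rwa [← mul_assoc, ← map_mul, inv_mul_cancel₀ hf0, map_one, one_mul] at h3
  intro i
  fin_cases i
  · exact h (b.y_mem_ker (by decide))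
  · exact h (b.y_mem_ker (by decide))
  · exact hP.mem_of_pow_mem _ h2

/-- Ideals whose zeros are among `X`, but which do not vanish on `X`. -/
theorem Good.X_mem_radical {X : Finset (Fin 3 → k)} (hX : Good X)
    {c : Ideal (MvPolynomial (Fin 3) k)} (h1 : ptIdeal X ≤ c.radical)
    (h2 : ∀ v ∈ X, ∃ (h : MvPolynomial (Fin 3) k) (d : ℕ), h.IsHomogeneous d ∧ aeval v h ≠ 0 ∧
      h ∈ c.radical) (i : Fin 3) : (MvPolynomial.X i) ∈ c.radical := by
  rw [Ideal.radical_eq_sInf, Submodule.mem_sInf]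
  rintro P ⟨hP1, hP2⟩
  have h3 : c.radical ≤ P := by
    rw [hP2.radical_le_iff]; exact hP1
  have h4 := h1.trans h3
  rw [ptIdeal_eq, Ideal.IsPrime.inf_le' hP2] at h4
  obtain ⟨v, hv, hvP⟩ := h4
  obtain ⟨b, hb⟩ := exists_bas_w (hX.ne0 v hv)
  obtain ⟨h, d, hh, hh0, hhc⟩ := h2 v hv
  rw [← hb] at hvP hh0
  exact b.mem_of_sep hP2 hvP hh hh0 (h3 hhc) i

/-- No prime divides all elements of the ideal. -/
theorem Good.exists_not_dvd {X : Finset (Fin 3 → k)} (hX : Good X) {c : MvPolynomial (Fin 3) k}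
    (hc : Prime c) : ∃ f ∈ ptIdeal X, ¬ c ∣ f := by
  classical
  have h1 : ∀ v : Fin 3 → k, ∃ a : Fin 3 → k, v ∈ X → ∑ i, a i * v i = 0 ∧ ¬ c ∣ form a := by
    intro v
    by_cases hv : v ∈ X
    · obtain ⟨b, hb⟩ := exists_bas_w (hX.ne0 v hv)
      by_cases h0 : c ∣ b.y 0
      · refine ⟨b.A 1, fun _ => ⟨?_, ?_⟩⟩
        · have := b.eval_y 1 2
          rw [hb] at this
          unfold Bas.y at this
          rw [aeval_form'] at this
          rw [this]; simp
        · intro h1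
          have h2 := (hc.dvd_prime_iff_associated (b.y_prime 0)).1 h0
          have h3 : b.y 0 ∣ b.y 1 := h2.symm.dvd.trans h1
          exact b.y_not_dvd (by decide) h3
      · refine ⟨b.A 0, fun _ => ⟨?_, h0⟩⟩
        have := b.eval_y 0 2
        rw [hb] at this
        unfold Bas.y at this
        rw [aeval_form'] at this
        rw [this]; simp
    · exact ⟨0, fun h => absurd h hv⟩
  choose a ha using h1
  refine ⟨∏ v ∈ X, form (a v), ?_, ?_⟩
  · have hh := IsHomogeneous.prod X (fun u => form (a u)) (fun _ => 1) (fun u _ => form_homog _)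
    rw [mem_ptIdeal_homog hh]
    intro v hv
    rw [map_prod]
    apply Finset.prod_eq_zero hv
    rw [aeval_form']
    exact (ha v hv).1
  · intro h
    rw [hc.dvd_finsetProd_iff] at h
    obtain ⟨v, hv, h⟩ := h
    exact (ha v hv).2 h

/-- a linear form which does not vanish on `X` -/
theorem Good.exists_nonvanishing [Infinite k] {X : Finset (Fin 3 → k)} (hX : Good X) :
    ∃ a : Fin 3 → k, ∀ v ∈ X, ∑ i, a i * v i ≠ 0 := by
  classical
  have h1 : ∏ v ∈ X, form v ≠ 0 := by
    rw [Finset.prod_ne_zero_iff]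
    intro v hv h
    apply hX.ne0 v hv
    apply form_inj
    rw [h]; simp [form]
  by_contra hcon
  push Not at hcon
  apply h1
  apply MvPolynomial.funext
  intro a
  obtain ⟨v, hv, h⟩ := hcon a
  rw [map_zero, map_prod]
  apply Finset.prod_eq_zero hv
  rw [← coe_aeval_eq_eval]
  change aeval a (form v) = 0
  rw [aeval_form', ← h]
  exact Finset.sum_congr rfl fun i _ => mul_comm _ _

end Pool.Agent.LibH27.RT
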