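import Pool.Agent.Lib_helper27.RT.Torsion

/-!
# Five generators: reduction modulo the fixed line
-/

namespace Pool.Agent.LibH27.RT

open MvPolynomial

variable {k : Type*} [Field k]

section

variable (b : Bas k) (c : Fin 4 → MvPolynomial (Fin 3) k)

/-- the binomials of the twisted cubic -/
noncomputable def tu (k : Type*) [Field k] : Fin 3 → MvPolynomial (Fin 4) (MvPolynomial (Fin 3) k) :=
  ![X 0 * X 2 - X 1 ^ 2, X 1 * X 3 - X 2 ^ 2, X 0 * X 3 - X 1 * X 2]

/-- the ideal -/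
noncomputable def tK : Ideal (MvPolynomial (Fin 4) (MvPolynomial (Fin 3) k)) :=
  synL c ⊔ Ideal.span {C (b.y 1)} ⊔ Ideal.span (Set.range (tu k))

/-- the data -/
structure Tor (W : Finset (Fin 3 → k)) : Prop where
  cspan : Ideal.span (Set.range c) = ptIdeal W
  hW : ∀ v ∈ W, b.y 1 ∉ reesKer v
  c0 : b.y 1 ∣ c 0 - b.y 0 ^ 3
  c1 : b.y 1 ∣ c 1 - b.y 0 ^ 2 * b.y 2
  c2 : b.y 1 ∣ c 2 - b.y 0 * b.y 2 ^ 2
  c3 : b.y 1 ∣ c 3 - b.y 2 ^ 3

variable {b c} {W : Finset (Fin 3 → k)} (T : Tor b c W)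

include T

/-- linear relations modulo the line -/
theorem Tor.form_mem {φ : Fin 4 → MvPolynomial (Fin 3) k} (h : b.y 1 ∣ ∑ i, φ i * c i) :
    ∃ e : Fin 4 → MvPolynomial (Fin 3) k, form φ - C (b.y 1) * form e ∈ synL c := by
  obtain ⟨r, hr⟩ := h
  have h1 : r ∈ ptIdeal W := by
    have h2 : b.y 1 * r ∈ ptIdeal W := by
      rw [← hr, ← T.cspan]
      exact Ideal.sum_mem _ fun i _ => Ideal.mul_mem_left _ _ (Ideal.subset_span ⟨i, rfl⟩)
    rw [mem_ptIdeal] at h2 ⊢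
    intro v hv
    exact ((reesKer_isPrime v).mem_or_mem (h2 v hv)).resolve_left (T.hW v hv)
  rw [← T.cspan, Ideal.mem_span_range_iff_exists_fun] at h1
  obtain ⟨e, he⟩ := h1
  refine ⟨e, ?_⟩
  have : form φ - C (b.y 1) * form e = form (φ + (-b.y 1) • e) := by
    rw [form_add, form_smul, map_neg]; ring
  rw [this]
  apply form_mem_synL
  simp only [Pi.add_apply, Pi.smul_apply, smul_eq_mul, add_mul, Finset.sum_add_distrib, mul_assoc,
    ← Finset.mul_sum]
  rw [hr, he]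
  ring

theorem Tor.e_mem (i : Fin 3) : ∃ e : Fin 4 → MvPolynomial (Fin 3) k,
    (C (b.y 0) * X i.succ - C (b.y 2) * X i.castSucc) - C (b.y 1) * form e ∈ synL c := by
  have h1 : b.y 1 ∣ b.y 0 * c i.succ - b.y 2 * c i.castSucc := by
    obtain ⟨a0, h0⟩ := T.c0
    obtain ⟨a1, h1⟩ := T.c1
    obtain ⟨a2, h2⟩ := T.c2
    obtain ⟨a3, h3⟩ := T.c3
    fin_cases i
    · exact ⟨b.y 0 * a1 - b.y 2 * a0, by
        change b.y 0 * c 1 - b.y 2 * c 0 = _
        linear_combination b.y 0 * h1 - b.y 2 * h0⟩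
    · exact ⟨b.y 0 * a2 - b.y 2 * a1, by
        change b.y 0 * c 2 - b.y 2 * c 1 = _
        linear_combination b.y 0 * h2 - b.y 2 * h1⟩
    · exact ⟨b.y 0 * a3 - b.y 2 * a2, by
        change b.y 0 * c 3 - b.y 2 * c 2 = _
        linear_combination b.y 0 * h3 - b.y 2 * h2⟩
  have h2 : (C (b.y 0) * X i.succ - C (b.y 2) * X i.castSucc :
      MvPolynomial (Fin 4) (MvPolynomial (Fin 3) k)) =
      form ((Pi.single i.succ (b.y 0) : Fin 4 → MvPolynomial (Fin 3) k) +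
        (-1 : MvPolynomial (Fin 3) k) • (Pi.single i.castSucc (b.y 2) :
          Fin 4 → MvPolynomial (Fin 3) k)) := by
    rw [form_add, form_smul, ← C_mul_X_form, ← C_mul_X_form]
    simp only [map_neg, map_one]; ring
  rw [h2]
  apply T.form_mem
  have h3 : ∑ l, ((Pi.single i.succ (b.y 0) : Fin 4 → MvPolynomial (Fin 3) k) +
        (-1 : MvPolynomial (Fin 3) k) • (Pi.single i.castSucc (b.y 2) :
          Fin 4 → MvPolynomial (Fin 3) k)) l * c l =
        b.y 0 * c i.succ - b.y 2 * c i.castSucc := by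
    simp only [Pi.add_apply, Pi.smul_apply, smul_eq_mul, add_mul, Finset.sum_add_distrib,
        Pi.single_apply, mul_ite, mul_zero, ite_mul, zero_mul,
        Finset.sum_ite_eq', Finset.mem_univ, if_true]
    ring
  rw [h3]
  exact h1

theorem Tor.e_mem_K (i : Fin 3) :
    (C (b.y 0) * X i.succ - C (b.y 2) * X i.castSucc :
      MvPolynomial (Fin 4) (MvPolynomial (Fin 3) k)) ∈ tK b c := by
  obtain ⟨e, he⟩ := T.e_mem i
  have h1 : C (b.y 1) * form e ∈ tK b c := by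
    apply Ideal.mem_sup_left
    apply Ideal.mem_sup_right
    exact Ideal.mul_mem_right _ _ (Ideal.subset_span rfl)
  have h2 := Ideal.add_mem _ (show _ ∈ tK b c from Ideal.mem_sup_left (Ideal.mem_sup_left he)) h1
  rwa [sub_add_cancel] at h2

theorem Tor.eval_K {q : MvPolynomial (Fin 4) (MvPolynomial (Fin 3) k)} (hq : q ∈ tK b c) :
    b.y 1 ∣ aeval c q := by
  have h1 : tK b c ≤ (Ideal.span {b.y 1}).comap (aeval c).toRingHom := by
    unfold tK
    rw [sup_le_iff, sup_le_iff]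
    refine ⟨⟨?_, ?_⟩, ?_⟩
    · unfold synL
      rw [Ideal.span_le]
      rintro _ ⟨φ, hφ, rfl⟩
      change aeval c (form φ) ∈ Ideal.span {b.y 1}
      rw [aeval_form]
      have : ∑ i, algebraMap (MvPolynomial (Fin 3) k) (MvPolynomial (Fin 3) k) (φ i) * c i = 0 := hφ
      rw [this]
      exact Ideal.zero_mem _
    · rw [Ideal.span_singleton_le_iff_mem]
      change aeval c (C (b.y 1)) ∈ Ideal.span {b.y 1}
      rw [aeval_C]
      exact Ideal.subset_span rfl
    · rw [Ideal.span_le]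
      rintro _ ⟨j, rfl⟩
      change aeval c (tu k j) ∈ Ideal.span {b.y 1}
      rw [Ideal.mem_span_singleton]
      obtain ⟨a0, h0⟩ := T.c0
      obtain ⟨a1, h1⟩ := T.c1
      obtain ⟨a2, h2⟩ := T.c2
      obtain ⟨a3, h3⟩ := T.c3
      fin_cases j
      · refine ⟨a0 * c 2 + b.y 0 ^ 3 * a2 - a1 * (c 1 + b.y 0 ^ 2 * b.y 2), ?_⟩
        simp only [tu, Fin.zero_eta, Matrix.cons_val_zero, map_sub, map_mul, map_pow, aeval_X]
        linear_combination c 2 * h0 + b.y 0 ^ 3 * h2 - (c 1 + b.y 0 ^ 2 * b.y 2) * h1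
      · refine ⟨a1 * c 3 + b.y 0 ^ 2 * b.y 2 * a3 - a2 * (c 2 + b.y 0 * b.y 2 ^ 2), ?_⟩
        simp only [tu, Fin.mk_one, Matrix.cons_val_one, Matrix.cons_val_zero, map_sub, map_mul,
          map_pow, aeval_X]
        linear_combination c 3 * h1 + b.y 0 ^ 2 * b.y 2 * h3 - (c 2 + b.y 0 * b.y 2 ^ 2) * h2
      · refine ⟨a0 * c 3 + b.y 0 ^ 3 * a3 - a1 * c 2 - b.y 0 ^ 2 * b.y 2 * a2, ?_⟩
        simp only [tu, Fin.reduceFinMk, Matrix.cons_val, map_sub, map_mul, aeval_X]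
        linear_combination c 3 * h0 + b.y 0 ^ 3 * h3 - c 2 * h1 - b.y 0 ^ 2 * b.y 2 * h2
  exact Ideal.mem_span_singleton.1 (h1 hq)

omit T in
theorem tu_mem_K (j : Fin 3) : tu k j ∈ tK b c :=
  Ideal.mem_sup_right (Ideal.subset_span ⟨j, rfl⟩)

omit T in
/-- decomposition of forms of degree `n + 1` -/
theorem exists_normal (n : ℕ) : ∀ q : MvPolynomial (Fin 4) (MvPolynomial (Fin 3) k),
    q.IsHomogeneous (n + 1) → ∃ (q' : MvPolynomial (Fin 4) (MvPolynomial (Fin 3) k))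
    (β1 β2 β3 : MvPolynomial (Fin 3) k), q'.IsHomogeneous n ∧
      q - (X 0 * q' + X 3 ^ n * (C β1 * X 1 + C β2 * X 2 + C β3 * X 3)) ∈ tK b c := by
  induction n with
  | zero =>
    intro q hq
    obtain ⟨φ, rfl⟩ := exists_form hq
    refine ⟨C (φ 0), φ 1, φ 2, φ 3, isHomogeneous_C _ _, ?_⟩
    have : form φ - (X 0 * C (φ 0) + X 3 ^ 0 * (C (φ 1) * X 1 + C (φ 2) * X 2 + C (φ 3) * X 3)) =
        0 := by
      unfold form
      rw [Fin.sum_univ_four]; ring
    rw [this]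
    exact Ideal.zero_mem _
  | succ n ih =>
    intro q hq
    -- split off a variable
    obtain ⟨Q, hQ, hQh⟩ : ∃ Q : Fin 4 → MvPolynomial (Fin 4) (MvPolynomial (Fin 3) k),
        q = X 0 * Q 0 + X 1 * Q 1 + X 2 * Q 2 + X 3 * Q 3 ∧ ∀ i, (Q i).IsHomogeneous (n + 1) := by
      have h1 : q ∈ Ideal.span (Set.range (X : Fin 4 → MvPolynomial (Fin 4) (MvPolynomial (Fin 3) k))) := by
        apply mem_of_constantCoeff
        · intro i; exact Ideal.subset_span ⟨i, rfl⟩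
        · apply hq.coeff_eq_zero
          simp
      rw [Ideal.mem_span_range_iff_exists_fun] at h1
      obtain ⟨Q, hQ⟩ := h1
      refine ⟨fun i => homogeneousComponent (n + 1) (Q i), ?_, fun i =>
        homogeneousComponent_isHomogeneous _ _⟩
      rw [← homogeneousComponent_eq_self hq, ← hQ, map_sum, Fin.sum_univ_four,
        hc_mul _ (isHomogeneous_X _ _), hc_mul _ (isHomogeneous_X _ _),
        hc_mul _ (isHomogeneous_X _ _), hc_mul _ (isHomogeneous_X _ _)]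
      ring
    obtain ⟨A1, x1, x2, x3, hA1, m1⟩ := ih (Q 1) (hQh 1)
    obtain ⟨A2, z1, z2, z3, hA2, m2⟩ := ih (Q 2) (hQh 2)
    obtain ⟨A3, t1, t2, t3, hA3, m3⟩ := ih (Q 3) (hQh 3)
    have u0 := tu_mem_K (b := b) (c := c) 0
    have u1 := tu_mem_K (b := b) (c := c) 1
    have u2 := tu_mem_K (b := b) (c := c) 2
    simp only [tu, Matrix.cons_val_zero, Matrix.cons_val_one, Matrix.cons_val] at u0 u1 u2
    have hX : ∀ (i : Fin 4) (m : ℕ), (X i ^ m :
        MvPolynomial (Fin 4) (MvPolynomial (Fin 3) k)).IsHomogeneous m := fun i m =>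
      isHomogeneous_X_pow i m
    refine ⟨Q 0 + X 1 * A1 + X 2 * A2 + X 3 * A3 + X 3 ^ n * (C x1 * X 2 + C x2 * X 3) +
      X 3 ^ n * (C z1 * X 3), x3 + z2 + t1, z3 + t2, t3, ?_, ?_⟩
    · have e1 : ∀ {A : MvPolynomial (Fin 4) (MvPolynomial (Fin 3) k)} (i : Fin 4),
          A.IsHomogeneous n → (X i * A).IsHomogeneous (n + 1) := by
        intro A i hA
        have := (isHomogeneous_X (MvPolynomial (Fin 3) k) i).mul hA
        rwa [add_comm] at this
      have e2 : ∀ (r : MvPolynomial (Fin 3) k) (i : Fin 4), (C r * X i :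
          MvPolynomial (Fin 4) (MvPolynomial (Fin 3) k)).IsHomogeneous 1 :=
        fun r i => isHomogeneous_C_mul_X _ _
      exact (((((hQh 0).add (e1 1 hA1)).add (e1 2 hA2)).add (e1 3 hA3)).add
        ((hX 3 n).mul ((e2 _ _).add (e2 _ _)))).add ((hX 3 n).mul (e2 _ _))
    · have h1 := Ideal.add_mem _ (Ideal.add_mem _ (Ideal.mul_mem_left _ (X 1) m1)
        (Ideal.mul_mem_left _ (X 2) m2)) (Ideal.mul_mem_left _ (X 3) m3)
      have h2 := Ideal.add_mem _ (Ideal.add_mem _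
        (Ideal.mul_mem_left _ (X 3 ^ n * C x1) u0)
        (Ideal.mul_mem_left _ (X 3 ^ n * (C x2 + C z1)) u2))
        (Ideal.mul_mem_left _ (X 3 ^ n * C z2) u1)
      have h3 := Ideal.sub_mem _ h1 h2
      convert h3 using 1
      rw [hQ]
      simp only [map_add]
      ring

omit T in
theorem Bas.key (b : Bas k) {A β : MvPolynomial (Fin 3) k} {N : ℕ}
    (h : b.y 1 ∣ b.y 0 * A + b.y 2 ^ N * β) :
    ∃ u v, β = b.y 0 * u + b.y 1 * v := by
  obtain ⟨t, ht⟩ := h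
  have h1 : b.y 2 ^ N * β ∈ reesKer (b.w 2) := by
    have : b.y 2 ^ N * β = b.y 1 * t - b.y 0 * A := by rw [← ht]; ring
    rw [this]
    exact Ideal.sub_mem _ (Ideal.mul_mem_right _ _ (b.y_mem_ker (by decide)))
      (Ideal.mul_mem_right _ _ (b.y_mem_ker (by decide)))
  have h2 : β ∈ reesKer (b.w 2) :=
    ((reesKer_isPrime (b.w 2)).mem_or_mem h1).resolve_left fun h3 =>
      b.y_not_mem_ker 2 ((reesKer_isPrime (b.w 2)).mem_of_pow_mem _ h3)
  rw [b.ker_two, Ideal.mem_span_pair] at h2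
  obtain ⟨u, v, huv⟩ := h2
  exact ⟨u, v, by rw [← huv]; ring⟩

omit T in
theorem Bas.cancel (b : Bas k) {A : MvPolynomial (Fin 3) k} (N : ℕ)
    (h : b.y 1 ∣ b.y 0 ^ N * A) : b.y 1 ∣ A :=
  ((b.y_prime 1).dvd_or_dvd h).resolve_left fun h3 =>
    b.y_not_dvd (by decide) ((b.y_prime 1).dvd_of_dvd_pow h3)

theorem Tor.mem_K (n : ℕ) : ∀ q : MvPolynomial (Fin 4) (MvPolynomial (Fin 3) k),
    q.IsHomogeneous n → b.y 1 ∣ aeval c q → q ∈ tK b c := by
  have hy1 : (C (b.y 1) : MvPolynomial (Fin 4) (MvPolynomial (Fin 3) k)) ∈ tK b c :=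
    Ideal.mem_sup_left (Ideal.mem_sup_right (Ideal.subset_span rfl))
  have hev : ∀ {q q1 : MvPolynomial (Fin 4) (MvPolynomial (Fin 3) k)}, q - q1 ∈ tK b c →
      b.y 1 ∣ aeval c q → b.y 1 ∣ aeval c q1 := by
    intro q q1 h1 h2
    have h3 := T.eval_K h1
    rw [map_sub] at h3
    have := dvd_sub h2 h3
    rwa [sub_sub_cancel] at this
  have e0 := T.e_mem_K 0
  have e1 := T.e_mem_K 1
  have e2 := T.e_mem_K 2
  simp only [Fin.succ_zero_eq_one, Fin.castSucc_zero, Fin.succ_one_eq_two, Fin.castSucc_one] at e0 e1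
  have e2' : (C (b.y 0) * X 3 - C (b.y 2) * X 2 :
      MvPolynomial (Fin 4) (MvPolynomial (Fin 3) k)) ∈ tK b c := e2
  obtain ⟨a0, h0⟩ := T.c0
  obtain ⟨a1, h1⟩ := T.c1
  obtain ⟨a2, h2⟩ := T.c2
  obtain ⟨a3, h3⟩ := T.c3
  have hc3 : ∀ n : ℕ, ∃ A3, c 3 ^ n = b.y 2 ^ (3 * n) + b.y 1 * A3 := by
    intro n
    have h4 : b.y 1 ∣ c 3 ^ n - (b.y 2 ^ 3) ^ n :=
      (Dvd.intro _ h3.symm).trans (sub_dvd_pow_sub_pow _ _ _)
    obtain ⟨A3, hA⟩ := h4
    exact ⟨A3, by rw [pow_mul, ← hA]; ring⟩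
  induction n with
  | zero =>
    intro q hq h
    rw [← totalDegree_zero_iff_isHomogeneous, totalDegree_eq_zero_iff_eq_C] at hq
    rw [hq] at h ⊢
    rw [aeval_C] at h
    obtain ⟨r, hr⟩ := h
    change coeff 0 q = _ at hr
    rw [hr, map_mul]
    exact Ideal.mul_mem_right _ _ hy1
  | succ n ih =>
    intro q hq h
    obtain ⟨q', β1, β2, β3, hq', hm⟩ := exists_normal (b := b) (c := c) n q hq
    obtain ⟨A3, hA3⟩ := hc3 n
    -- first step
    have s1 := hev hm h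
    obtain ⟨u, v, huv⟩ : ∃ u v, β3 = b.y 0 * u + b.y 1 * v := by
      apply b.key (A := b.y 0 ^ 2 * aeval c q' + b.y 2 ^ (3 * n) *
        (β1 * b.y 0 * b.y 2 + β2 * b.y 2 ^ 2)) (N := 3 * n + 3)
      obtain ⟨t, ht⟩ := s1
      simp only [map_add, map_mul, map_pow, aeval_X, aeval_C] at ht
      change c 0 * aeval c q' + c 3 ^ n * (β1 * c 1 + β2 * c 2 + β3 * c 3) = _ at ht
      refine ⟨t - a0 * aeval c q' - A3 * (β1 * c 1 + β2 * c 2 + β3 * c 3) -
        b.y 2 ^ (3 * n) * (β1 * a1 + β2 * a2 + β3 * a3), ?_⟩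
      rw [hA3] at ht
      linear_combination ht - aeval c q' * h0 - b.y 2 ^ (3 * n) * (β1 * h1 + β2 * h2 + β3 * h3)
    have m1 : q - (X 0 * q' + X 3 ^ n * (C β1 * X 1 + C (β2 + u * b.y 2) * X 2)) ∈ tK b c := by
      have := Ideal.add_mem _ (Ideal.add_mem _ hm (Ideal.mul_mem_left _ (X 3 ^ n * C u) e2'))
        (Ideal.mul_mem_left _ (X 3 ^ n * C v * X 3) hy1)
      convert this using 1
      rw [huv]
      simp only [map_add, map_mul]
      ring
    generalize β2 + u * b.y 2 = β2 at m1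
    -- second step
    have s2 := hev m1 h
    obtain ⟨u, v, huv⟩ : ∃ u v, β2 = b.y 0 * u + b.y 1 * v := by
      apply b.key (A := b.y 0 * aeval c q' + b.y 2 ^ (3 * n) *
        (β1 * b.y 2)) (N := 3 * n + 2)
      apply b.cancel 1
      obtain ⟨t, ht⟩ := s2
      simp only [map_add, map_mul, map_pow, aeval_X, aeval_C] at ht
      change c 0 * aeval c q' + c 3 ^ n * (β1 * c 1 + β2 * c 2) = _ at ht
      refine ⟨t - a0 * aeval c q' - A3 * (β1 * c 1 + β2 * c 2) -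
        b.y 2 ^ (3 * n) * (β1 * a1 + β2 * a2), ?_⟩
      rw [hA3] at ht
      linear_combination ht - aeval c q' * h0 - b.y 2 ^ (3 * n) * (β1 * h1 + β2 * h2)
    have m2 : q - (X 0 * q' + X 3 ^ n * (C (β1 + u * b.y 2) * X 1)) ∈ tK b c := by
      have := Ideal.add_mem _ (Ideal.add_mem _ m1 (Ideal.mul_mem_left _ (X 3 ^ n * C u) e1))
        (Ideal.mul_mem_left _ (X 3 ^ n * C v * X 2) hy1)
      convert this using 1
      rw [huv]
      simp only [map_add, map_mul]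
      ring
    generalize β1 + u * b.y 2 = β1 at m2
    -- third step
    have s3 := hev m2 h
    obtain ⟨u, v, huv⟩ : ∃ u v, β1 = b.y 0 * u + b.y 1 * v := by
      apply b.key (A := aeval c q') (N := 3 * n + 1)
      apply b.cancel 2
      obtain ⟨t, ht⟩ := s3
      simp only [map_add, map_mul, map_pow, aeval_X, aeval_C] at ht
      change c 0 * aeval c q' + c 3 ^ n * (β1 * c 1) = _ at ht
      refine ⟨t - a0 * aeval c q' - A3 * (β1 * c 1) -
        b.y 2 ^ (3 * n) * (β1 * a1), ?_⟩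
      rw [hA3] at ht
      linear_combination ht - aeval c q' * h0 - b.y 2 ^ (3 * n) * (β1 * h1)
    have m3 : q - (X 0 * (q' + X 3 ^ n * C (u * b.y 2))) ∈ tK b c := by
      have := Ideal.add_mem _ (Ideal.add_mem _ m2 (Ideal.mul_mem_left _ (X 3 ^ n * C u) e0))
        (Ideal.mul_mem_left _ (X 3 ^ n * C v * X 1) hy1)
      convert this using 1
      rw [huv]
      simp only [map_add, map_mul]
      ring
    have s4 := hev m3 h
    rw [map_mul, aeval_X] at s4
    have s5 : q' + X 3 ^ n * C (u * b.y 2) ∈ tK b c := by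
      apply ih
      · have := (isHomogeneous_X_pow (R := MvPolynomial (Fin 3) k) (3 : Fin 4) n).mul
          (isHomogeneous_C (Fin 4) (u * b.y 2))
        exact hq'.add this
      · apply b.cancel 3
        have h5 := dvd_sub s4 (Dvd.intro (a0 * aeval c (q' + X 3 ^ n * C (u * b.y 2))) rfl)
        rw [show c 0 * aeval c (q' + X 3 ^ n * C (u * b.y 2)) -
          b.y 1 * (a0 * aeval c (q' + X 3 ^ n * C (u * b.y 2))) =
          b.y 0 ^ 3 * aeval c (q' + X 3 ^ n * C (u * b.y 2)) by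
            linear_combination aeval c (q' + X 3 ^ n * C (u * b.y 2)) * h0] at h5
        exact h5
    have := Ideal.add_mem _ m3 (Ideal.mul_mem_left _ (X 0) s5)
    rwa [sub_add_cancel] at this

end

end Pool.Agent.LibH27.RT
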