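import Pool.Agent.Lib_helper27.RT.Toric
import Pool.Agent.Lib_helper27.RT.Alpha4b

/-!
# Five generators: the Rees ideal
-/

namespace Pool.Agent.LibH27.RT

open MvPolynomial

section gen

variable {R : Type*} [CommRing R] {m : ℕ}

/-- expansion in the first variable -/
theorem exists_rep (q : MvPolynomial (Fin (m + 1)) R) : ∃ (n : ℕ) (g : ℕ → MvPolynomial (Fin m) R),
    q = ∑ i ∈ Finset.range (n + 1), X 0 ^ i * rename Fin.succ (g i) := by
  have hρ : ∀ a : MvPolynomial (Fin m) R, finSuccEquiv R m (rename Fin.succ a) = Polynomial.C a := by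
    intro a
    induction a using MvPolynomial.induction_on with
    | C r =>
      rw [rename_C]
      simp [finSuccEquiv_apply]
    | add p q hp hq => rw [map_add, map_add, hp, hq, map_add]
    | mul_X p i hp => rw [map_mul, map_mul, hp, rename_X, finSuccEquiv_X_succ, map_mul]
  refine ⟨(finSuccEquiv R m q).natDegree, (finSuccEquiv R m q).coeff, ?_⟩
  apply (finSuccEquiv R m).injective
  rw [map_sum]
  conv_lhs => rw [(finSuccEquiv R m q).as_sum_range_C_mul_X_pow]
  refine Finset.sum_congr rfl fun i _ => ?_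
  rw [map_mul, map_pow, finSuccEquiv_X_zero, hρ]
  ring

theorem hc_rename {σ τ : Type*} (e : σ → τ) (d : ℕ) (a : MvPolynomial σ R) :
    homogeneousComponent d (rename e a) = rename e (homogeneousComponent d a) := by
  conv_lhs => rw [← sum_homogeneousComponent a]
  rw [map_sum, map_sum]
  by_cases hd : d ∈ Finset.range (a.totalDegree + 1)
  · rw [Finset.sum_eq_single d]
    · rw [homogeneousComponent_eq_self (homogeneousComponent_isHomogeneous d a).rename_isHomogeneous]
    · intro i _ hi
      rw [homogeneousComponent_of_mem (homogeneousComponent_isHomogeneous i a).rename_isHomogeneous,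
        if_neg (by omega)]
    · intro h; exact absurd hd h
  · rw [Finset.sum_eq_zero]
    · rw [Finset.mem_range, not_lt] at hd
      rw [homogeneousComponent_eq_zero _ _ (by omega), map_zero]
    · intro i hi
      rw [homogeneousComponent_of_mem (homogeneousComponent_isHomogeneous i a).rename_isHomogeneous,
        if_neg]
      intro h
      subst h
      exact hd hi

theorem hc_Xpow {σ : Type*} (v : σ) (i d : ℕ) (b : MvPolynomial σ R) :
    homogeneousComponent d (X v ^ i * b) =
      if i ≤ d then X v ^ i * homogeneousComponent (d - i) b else 0 := by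
  rw [mul_comm]
  split_ifs with h
  · conv_lhs => rw [show d = (d - i) + i by omega]
    rw [hc_mul b (isHomogeneous_X_pow v i), mul_comm]
  · exact hc_mul_lt b (isHomogeneous_X_pow v i) (by omega)

/-- homogeneous elements of low degree in an ideal generated in high degree -/
theorem hc_span {σ : Type*} {S : Set (MvPolynomial σ R)} {e : ℕ} (hS : ∀ y ∈ S, y.IsHomogeneous e)
    {s : MvPolynomial σ R} (hs : s ∈ Ideal.span S) {d : ℕ} (hd : d < e) :
    homogeneousComponent d s = 0 := by
  have h1 : ∀ r : MvPolynomial σ R, homogeneousComponent d (r * s) = 0 := by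
    refine Submodule.span_induction (p := fun s _ => ∀ r : MvPolynomial σ R,
      homogeneousComponent d (r * s) = 0) ?_ ?_ ?_ ?_ hs
    · intro y hy r
      exact hc_mul_lt r (hS y hy) hd
    · intro r; rw [mul_zero, map_zero]
    · intro x y _ _ hx hy r
      rw [mul_add, map_add, hx, hy, add_zero]
    · intro a x _ hx r
      rw [smul_eq_mul, ← mul_assoc]
      exact hx _
  have := h1 1
  rwa [one_mul] at this

end gen

variable {k : Type*} [Field k]

variable {b : Bas k} {c : Fin 4 → MvPolynomial (Fin 3) k} {W : Finset (Fin 3 → k)}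

/-- lifts of the quadrics -/
theorem Tor.quad (T : Tor b c W) (j : Fin 3) : ∃ r0 r2 : MvPolynomial (Fin 4) (MvPolynomial (Fin 3) k),
    r0.IsHomogeneous 2 ∧ r2.IsHomogeneous 2 ∧
    C (b.y 0) * tu k j - C (b.y 1) * r0 ∈ synL c ∧
    C (b.y 2) * tu k j - C (b.y 1) * r2 ∈ synL c := by
  obtain ⟨e0, h0⟩ := T.e_mem 0
  obtain ⟨e1, h1⟩ := T.e_mem 1
  obtain ⟨e2, h2⟩ := T.e_mem 2
  change C (b.y 0) * X 1 - C (b.y 2) * X 0 - C (b.y 1) * form e0 ∈ synL c at h0
  change C (b.y 0) * X 2 - C (b.y 2) * X 1 - C (b.y 1) * form e1 ∈ synL c at h1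
  change C (b.y 0) * X 3 - C (b.y 2) * X 2 - C (b.y 1) * form e2 ∈ synL c at h2
  have hh : ∀ (i j : Fin 4) (e e' : Fin 4 → MvPolynomial (Fin 3) k),
      (X i * form e - X j * form e').IsHomogeneous 2 := fun i j e e' =>
    ((isHomogeneous_X _ i).mul (form_homog e)).sub ((isHomogeneous_X _ j).mul (form_homog e'))
  fin_cases j
  · refine ⟨X 0 * form e1 - X 1 * form e0, X 1 * form e1 - X 2 * form e0, hh _ _ _ _, hh _ _ _ _,
      ?_, ?_⟩
    · have := Ideal.sub_mem _ (Ideal.mul_mem_left _ (X 0) h1) (Ideal.mul_mem_left _ (X 1) h0)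
      convert this using 1
      simp only [tu, Fin.zero_eta, Matrix.cons_val_zero]
      ring
    · have := Ideal.sub_mem _ (Ideal.mul_mem_left _ (X 1) h1) (Ideal.mul_mem_left _ (X 2) h0)
      convert this using 1
      simp only [tu, Fin.zero_eta, Matrix.cons_val_zero]
      ring
  · refine ⟨X 1 * form e2 - X 2 * form e1, X 2 * form e2 - X 3 * form e1, hh _ _ _ _, hh _ _ _ _,
      ?_, ?_⟩
    · have := Ideal.sub_mem _ (Ideal.mul_mem_left _ (X 1) h2) (Ideal.mul_mem_left _ (X 2) h1)
      convert this using 1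
      simp only [tu, Fin.mk_one, Matrix.cons_val_one, Matrix.cons_val_zero]
      ring
    · have := Ideal.sub_mem _ (Ideal.mul_mem_left _ (X 2) h2) (Ideal.mul_mem_left _ (X 3) h1)
      convert this using 1
      simp only [tu, Fin.mk_one, Matrix.cons_val_one, Matrix.cons_val_zero]
      ring
  · refine ⟨X 0 * form e2 - X 2 * form e0, X 1 * form e2 - X 3 * form e0, hh _ _ _ _, hh _ _ _ _,
      ?_, ?_⟩
    · have := Ideal.sub_mem _ (Ideal.mul_mem_left _ (X 0) h2) (Ideal.mul_mem_left _ (X 2) h0)
      convert this using 1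
      simp only [tu, Fin.reduceFinMk, Matrix.cons_val]
      ring
    · have := Ideal.sub_mem _ (Ideal.mul_mem_left _ (X 1) h2) (Ideal.mul_mem_left _ (X 3) h0)
      convert this using 1
      simp only [tu, Fin.reduceFinMk, Matrix.cons_val]
      ring

theorem tu_homog (j : Fin 3) : (tu k j).IsHomogeneous 2 := by
  have hX : ∀ i j : Fin 4, (X i * X j :
      MvPolynomial (Fin 4) (MvPolynomial (Fin 3) k)).IsHomogeneous 2 := fun i j =>
    (isHomogeneous_X _ i).mul (isHomogeneous_X _ j)
  fin_cases j
  · exact (hX 0 2).sub (isHomogeneous_X_pow 1 2)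
  · exact (hX 1 3).sub (isHomogeneous_X_pow 2 2)
  · exact (hX 0 3).sub (hX 1 2)


section main

variable (T : Tor b c W) {D : MvPolynomial (Fin 4) k} (hD0 : D ≠ 0) (hD : D.IsHomogeneous 3)
  (hker : reesKer c = synL c ⊔ Ideal.span {iot 4 D})
  (hev : ∀ x ∈ synL c, ev0 4 x = 0)
  {v : Fin 4 → MvPolynomial (Fin 3) k} {V0 V1 V2 : Fin 4 → MvPolynomial (Fin 3) k}
  (hv : v = b.y 0 • V0 + b.y 1 • V1 + b.y 2 • V2)
  (hnd : ¬ b.y 1 ∣ ∑ m, v m * c m)

variable (b c v) in
/-- the five generators -/
noncomputable def FF : Fin 5 → MvPolynomial (Fin 3) k :=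
  Fin.cons (∑ m, v m * c m) (fun m => b.y 1 * c m)

/-- the shift of the variables -/
noncomputable def sh (k : Type*) [Field k] : MvPolynomial (Fin 4) (MvPolynomial (Fin 3) k)
    →ₐ[MvPolynomial (Fin 3) k] MvPolynomial (Fin 5) (MvPolynomial (Fin 3) k) := rename Fin.succ

theorem sh_homog {q : MvPolynomial (Fin 4) (MvPolynomial (Fin 3) k)} {d : ℕ}
    (hq : q.IsHomogeneous d) : (sh k q).IsHomogeneous d := hq.rename_isHomogeneous

theorem sh_C (r : MvPolynomial (Fin 3) k) : sh k (C r) = C r := rename_C _ _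

theorem aeval_sh {q : MvPolynomial (Fin 4) (MvPolynomial (Fin 3) k)} {d : ℕ}
    (hq : q.IsHomogeneous d) : aeval (FF b c v) (sh k q) = b.y 1 ^ d * aeval c q := by
  unfold sh
  rw [aeval_rename, ← aeval_mul_homog hq]
  congr 1

theorem aeval_FF_zero : aeval (FF b c v) (X 0 : MvPolynomial (Fin 5) (MvPolynomial (Fin 3) k)) =
    ∑ m, v m * c m := by
  rw [aeval_X]; rfl

theorem ev0_sh (q : MvPolynomial (Fin 4) (MvPolynomial (Fin 3) k)) :
    ev0 5 (sh k q) = rename Fin.succ (ev0 4 q) := by
  unfold ev0 sh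
  rw [map_rename]

include T hD0 hD hker hev hv hnd in
theorem Tor.rees : GenDeg (FF b c v) 3 ∧ ¬ GenDeg (FF b c v) 2 := by
  classical
  choose r0 r2 hr0 hr2 hm0 hm2 using T.quad
  have hVc : ∑ m, v m * c m = b.y 0 * ∑ m, V0 m * c m + b.y 1 * ∑ m, V1 m * c m +
      b.y 2 * ∑ m, V2 m * c m := by
    rw [Finset.mul_sum, Finset.mul_sum, Finset.mul_sum, ← Finset.sum_add_distrib,
      ← Finset.sum_add_distrib]
    refine Finset.sum_congr rfl fun m _ => ?_
    rw [hv]
    simp only [Pi.add_apply, Pi.smul_apply, smul_eq_mul]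
    ring
  have hvf : form v = C (b.y 0) * form V0 + C (b.y 1) * form V1 + C (b.y 2) * form V2 := by
    rw [hv, form_add, form_add, form_smul, form_smul, form_smul]
  let B : Fin 3 → MvPolynomial (Fin 4) (MvPolynomial (Fin 3) k) := fun j =>
    r0 j * form V0 + tu k j * form V1 + r2 j * form V2
  have hB : ∀ j, (B j).IsHomogeneous 3 := fun j =>
    (((hr0 j).mul (form_homog V0)).add ((tu_homog j).mul (form_homog V1))).add
      ((hr2 j).mul (form_homog V2))
  let e : MvPolynomial (Fin 5) (MvPolynomial (Fin 3) k) := C (b.y 1) * X 0 - sh k (form v)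
  let E : Fin 3 → MvPolynomial (Fin 5) (MvPolynomial (Fin 3) k) := fun j =>
    sh k (tu k j) * X 0 - sh k (B j)
  have heh : e.IsHomogeneous 1 :=
    (isHomogeneous_C_mul_X _ _).sub (sh_homog (form_homog v))
  have hEh : ∀ j, (E j).IsHomogeneous 3 := fun j =>
    ((sh_homog (tu_homog j)).mul (isHomogeneous_X _ _)).sub (sh_homog (hB j))
  have hshD : (sh k (iot 4 D)).IsHomogeneous 3 := sh_homog (iot_homog hD)
  have hDc : aeval c (iot 4 D) = 0 := by
    rw [← mem_reesKer_homog c (iot_homog hD), hker]
    exact Ideal.mem_sup_right (Ideal.subset_span rfl)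
  -- evaluations
  have heK : e ∈ reesKer (FF b c v) := by
    rw [mem_reesKer_homog _ heh]
    simp only [e]
    rw [map_sub, map_mul, aeval_FF_zero, aeval_sh (form_homog v), aeval_form, aeval_C]
    change b.y 1 * _ - b.y 1 ^ 1 * ∑ m, v m * c m = 0
    ring
  have hEK : ∀ j, E j ∈ reesKer (FF b c v) := by
    intro j
    rw [mem_reesKer_homog _ (hEh j)]
    have h0 := (mem_reesKer_homog c (((isHomogeneous_C _ (b.y 0)).mul (tu_homog j)).sub
      (by simpa using (isHomogeneous_C _ (b.y 1)).mul (hr0 j)))).1 (synL_le_reesKer c (hm0 j))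
    have h2 := (mem_reesKer_homog c (((isHomogeneous_C _ (b.y 2)).mul (tu_homog j)).sub
      (by simpa using (isHomogeneous_C _ (b.y 1)).mul (hr2 j)))).1 (synL_le_reesKer c (hm2 j))
    rw [map_sub, map_mul, map_mul, aeval_C, aeval_C] at h0 h2
    change b.y 0 * _ - b.y 1 * _ = 0 at h0
    change b.y 2 * _ - b.y 1 * _ = 0 at h2
    simp only [E]
    rw [map_sub, map_mul, aeval_FF_zero, aeval_sh (tu_homog j), aeval_sh (hB j), hVc]
    simp only [B, map_add, map_mul, aeval_form]
    change b.y 1 ^ 2 * _ * _ - b.y 1 ^ 3 * (_ * ∑ m, V0 m * c m + _ * ∑ m, V1 m * c m +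
      _ * ∑ m, V2 m * c m) = 0
    linear_combination b.y 1 ^ 2 * (∑ m, V0 m * c m) * h0 + b.y 1 ^ 2 * (∑ m, V2 m * c m) * h2
  have hDK : sh k (iot 4 D) ∈ reesKer (FF b c v) := by
    rw [mem_reesKer_homog _ hshD, aeval_sh (iot_homog hD), hDc, mul_zero]
  have hLK : ∀ φ : Fin 4 → MvPolynomial (Fin 3) k, ∑ i, φ i * c i = 0 →
      sh k (form φ) ∈ reesKer (FF b c v) := by
    intro φ hφ
    rw [mem_reesKer_homog _ (sh_homog (form_homog φ)), aeval_sh (form_homog φ), aeval_form]
    change b.y 1 ^ 1 * ∑ i, φ i * c i = 0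
    rw [hφ, mul_zero]
  let J : Ideal (MvPolynomial (Fin 5) (MvPolynomial (Fin 3) k)) :=
    (synL c).map (sh k) ⊔ Ideal.span {sh k (iot 4 D)} ⊔ Ideal.span {e} ⊔ Ideal.span (Set.range E)
  have hJ : ∀ K : Ideal (MvPolynomial (Fin 5) (MvPolynomial (Fin 3) k)),
      (∀ φ : Fin 4 → MvPolynomial (Fin 3) k, ∑ i, φ i * c i = 0 → sh k (form φ) ∈ K) →
      sh k (iot 4 D) ∈ K → e ∈ K → (∀ j, E j ∈ K) → J ≤ K := by
    intro K h1 h2 h3 h4
    refine sup_le (sup_le (sup_le ?_ ?_) ?_) ?_
    · rw [Ideal.map_le_iff_le_comap]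
      unfold synL
      rw [Ideal.span_le]
      rintro _ ⟨φ, hφ, rfl⟩
      exact h1 φ hφ
    · rwa [Ideal.span_singleton_le_iff_mem]
    · rwa [Ideal.span_singleton_le_iff_mem]
    · rw [Ideal.span_le]
      rintro _ ⟨j, rfl⟩
      exact h4 j
  have hJK : J ≤ reesKer (FF b c v) := hJ _ hLK hDK heK hEK
  have hJ1 : ∀ x ∈ synL c, sh k x ∈ J := fun x hx =>
    Ideal.mem_sup_left (Ideal.mem_sup_left (Ideal.mem_sup_left (Ideal.mem_map_of_mem _ hx)))
  have hJ2 : sh k (iot 4 D) ∈ J :=
    Ideal.mem_sup_left (Ideal.mem_sup_left (Ideal.mem_sup_right (Ideal.subset_span rfl)))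
  have hJ3 : e ∈ J := Ideal.mem_sup_left (Ideal.mem_sup_right (Ideal.subset_span rfl))
  have hJ4 : ∀ j, E j ∈ J := fun j => Ideal.mem_sup_right (Ideal.subset_span ⟨j, rfl⟩)
  -- main step
  have hmain : ∀ (n : ℕ) (g : ℕ → MvPolynomial (Fin 4) (MvPolynomial (Fin 3) k)),
      ∑ i ∈ Finset.range (n + 1), X 0 ^ i * sh k (g i) ∈ reesKer (FF b c v) →
      ∑ i ∈ Finset.range (n + 1), X 0 ^ i * sh k (g i) ∈ J := by
    intro n
    induction n with
    | zero =>
      intro g hg
      rw [zero_add, Finset.sum_range_one, pow_zero, one_mul] at hg ⊢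
      have h1 : ∀ d, sh k (homogeneousComponent d (g 0)) ∈ J := by
        intro d
        have h2 := comp_mem_reesKer _ hg d
        unfold sh at h2
        rw [hc_rename] at h2
        change sh k _ ∈ _ at h2
        have h3 := homogeneousComponent_isHomogeneous d (g 0)
        rw [mem_reesKer_homog _ (sh_homog h3), aeval_sh h3] at h2
        have h4 := (mul_eq_zero.1 h2).resolve_left (pow_ne_zero _ (b.y_prime 1).ne_zero)
        rw [← mem_reesKer_homog c h3, hker, Submodule.mem_sup] at h4
        obtain ⟨x, hx, z, hz, hxz⟩ := h4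
        rw [Ideal.mem_span_singleton'] at hz
        obtain ⟨z, rfl⟩ := hz
        rw [← hxz, map_add, map_mul]
        exact Ideal.add_mem _ (hJ1 x hx) (Ideal.mul_mem_left _ _ hJ2)
      rw [← sum_homogeneousComponent (g 0), map_sum]
      exact Ideal.sum_mem _ fun d _ => h1 d
    | succ n ih =>
      intro g hg
      rw [← sum_homogeneousComponent (∑ i ∈ Finset.range (n + 1 + 1), X 0 ^ i * sh k (g i))]
      refine Ideal.sum_mem _ fun d _ => ?_
      have h1 := comp_mem_reesKer _ hg d
      have h2 : homogeneousComponent d (∑ i ∈ Finset.range (n + 1 + 1), X 0 ^ i * sh k (g i)) =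
          ∑ i ∈ Finset.range (n + 1 + 1), X 0 ^ i * sh k
            (if i ≤ d then homogeneousComponent (d - i) (g i) else 0) := by
        rw [map_sum]
        refine Finset.sum_congr rfl fun i _ => ?_
        rw [hc_Xpow]
        split_ifs with h
        · unfold sh
          rw [hc_rename]
        · rw [map_zero, mul_zero]
      have h3 := (mem_reesKer_homog _ (homogeneousComponent_isHomogeneous d _)).1 h1
      rw [h2] at h1 h3 ⊢
      clear hg h2
      generalize hgh : (fun i => if i ≤ d then homogeneousComponent (d - i) (g i) else 0) = h at *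
      have hgh' : ∀ i, (if i ≤ d then homogeneousComponent (d - i) (g i) else 0) = h i :=
        fun i => congrFun hgh i
      simp only [hgh'] at h1 h3 ⊢
      have hh1 : ∀ i ≤ d, (h i).IsHomogeneous (d - i) := by
        intro i hi
        rw [← hgh' i, if_pos hi]
        exact homogeneousComponent_isHomogeneous _ _
      have hh2 : ∀ i, ¬ i ≤ d → h i = 0 := by
        intro i hi
        rw [← hgh' i, if_neg hi]
      clear hgh hgh'
      -- the top coefficient
      have htop : h (n + 1) ∈ tK b c := by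
        by_cases hn : n + 1 ≤ d
        · apply T.mem_K (d - (n + 1)) _ (hh1 _ hn)
          rw [map_sum] at h3
          have h4 : ∀ i ∈ Finset.range (n + 1 + 1), aeval (FF b c v) (X 0 ^ i * sh k (h i)) =
              b.y 1 ^ (d - (n + 1)) * (b.y 1 ^ (n + 1 - i) * ((∑ m, v m * c m) ^ i *
                aeval c (h i))) := by
            intro i hi
            rw [Finset.mem_range] at hi
            rw [map_mul, map_pow, aeval_FF_zero, aeval_sh (hh1 i (by omega)), ← mul_assoc (b.y 1 ^ _),
              ← pow_add, show d - (n + 1) + (n + 1 - i) = d - i by omega]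
            ring
          rw [Finset.sum_congr rfl h4, ← Finset.mul_sum] at h3
          have h5 := (mul_eq_zero.1 h3).resolve_left (pow_ne_zero _ (b.y_prime 1).ne_zero)
          rw [Finset.sum_range_succ, Nat.sub_self, pow_zero, one_mul] at h5
          have h6 : b.y 1 ∣ (∑ m, v m * c m) ^ (n + 1) * aeval c (h (n + 1)) := by
            have h7 : b.y 1 ∣ ∑ i ∈ Finset.range (n + 1), b.y 1 ^ (n + 1 - i) *
                ((∑ m, v m * c m) ^ i * aeval c (h i)) := by
              apply Finset.dvd_sum
              intro i hi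
              rw [Finset.mem_range] at hi
              exact (dvd_pow_self _ (by omega)).mul_right _
            rw [← dvd_add_right h7, h5]
            exact dvd_zero _
          rcases (b.y_prime 1).dvd_or_dvd h6 with h8 | h8
          · exact absurd ((b.y_prime 1).dvd_of_dvd_pow h8) hnd
          · exact h8
        · rw [hh2 _ hn]; exact Ideal.zero_mem _
      unfold tK at htop
      rw [Submodule.mem_sup] at htop
      obtain ⟨x, hx, z, hz, hxz⟩ := htop
      rw [Submodule.mem_sup] at hx
      obtain ⟨s, hs, A, hA, hsA⟩ := hx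
      rw [Ideal.mem_span_singleton'] at hA
      obtain ⟨A, rfl⟩ := hA
      rw [Ideal.mem_span_range_iff_exists_fun] at hz
      obtain ⟨β, hβ⟩ := hz
      rw [← hβ, ← hsA] at hxz
      let N : MvPolynomial (Fin 4) (MvPolynomial (Fin 3) k) := A * form v + ∑ j, β j * B j
      have h5 : ∑ i ∈ Finset.range (n + 1 + 1), X 0 ^ i * sh k (h i) -
          ∑ i ∈ Finset.range (n + 1), X 0 ^ i * sh k (h i + if i = n then N else 0) ∈ J := by
        have h6 : ∑ i ∈ Finset.range (n + 1), X 0 ^ i * sh k (h i + if i = n then N else 0) =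
            ∑ i ∈ Finset.range (n + 1), X 0 ^ i * sh k (h i) + X 0 ^ n * sh k N := by
          simp only [map_add, mul_add, Finset.sum_add_distrib]
          congr 1
          rw [Finset.sum_eq_single n]
          · rw [if_pos rfl]
          · intro i _ hi
            rw [if_neg hi, map_zero, mul_zero]
          · intro h; exact absurd (Finset.mem_range.2 (Nat.lt_succ_self n)) h
        rw [h6, Finset.sum_range_succ, ← hxz]
        have h7 : X 0 ^ (n + 1) * sh k s + (X 0 ^ n * sh k A) * e +
            ∑ j, (X 0 ^ n * sh k (β j)) * E j ∈ J := by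
          refine Ideal.add_mem _ (Ideal.add_mem _ (Ideal.mul_mem_left _ _ (hJ1 s hs))
            (Ideal.mul_mem_left _ _ hJ3)) (Ideal.sum_mem _ fun j _ =>
            Ideal.mul_mem_left _ _ (hJ4 j))
        convert h7 using 1
        simp only [N, e, E, map_add, map_mul, sh_C, Fin.sum_univ_three]
        ring
      have h6 := ih (fun i => h i + if i = n then N else 0) (by
        have := Ideal.sub_mem _ h1 (hJK h5)
        rwa [sub_sub_cancel] at this)
      have := Ideal.add_mem _ h5 h6
      rwa [sub_add_cancel] at this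
  have hall : reesKer (FF b c v) ≤ J := by
    intro q hq
    obtain ⟨n, g, hng⟩ := exists_rep q
    have := hmain n g (by unfold sh; rw [← hng]; exact hq)
    unfold sh at this
    rwa [← hng] at this
  constructor
  · refine hall.trans (hJ _ ?_ ?_ ?_ ?_)
    · intro φ hφ
      exact Ideal.subset_span ⟨hLK φ hφ, 1, by norm_num, sh_homog (form_homog φ)⟩
    · exact Ideal.subset_span ⟨hDK, 3, le_rfl, hshD⟩
    · exact Ideal.subset_span ⟨heK, 1, by norm_num, heh⟩
    · intro j
      exact Ideal.subset_span ⟨hEK j, 3, le_rfl, hEh j⟩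
  · refine not_genDeg (q := sh k (iot 4 D)) ?_ hDK ?_
    · intro d hd q hq hq0
      have h1 : J ≤ (Ideal.span {s : MvPolynomial (Fin 5) k | s.IsHomogeneous 3}).comap (ev0 5) := by
        refine hJ _ ?_ ?_ ?_ ?_
        · intro φ hφ
          rw [Ideal.mem_comap, ev0_sh, hev _ (form_mem_synL hφ), map_zero]
          exact Ideal.zero_mem _
        · exact Ideal.subset_span (hshD.map _)
        · rw [Ideal.mem_comap]
          simp only [e]
          rw [map_sub, map_mul, HB.ev0_C_y, zero_mul, zero_sub, ev0_sh, hvf]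
          simp only [map_add, map_mul, HB.ev0_C_y, zero_mul, add_zero, map_zero, neg_zero]
          exact Ideal.zero_mem _
        · intro j
          exact Ideal.subset_span ((hEh j).map _)
      have h2 := h1 (hall ((mem_reesKer_homog _ hq).2 hq0))
      rw [Ideal.mem_comap] at h2
      have h3 := hc_span (fun y hy => hy) h2 (show d < 3 by omega)
      have h4 : (ev0 5 q).IsHomogeneous d := hq.map _
      rwa [homogeneousComponent_eq_self h4] at h3
    · rw [ev0_sh, ev0_iot]
      intro h
      apply hD0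
      apply rename_injective _ (Fin.succ_injective 4)
      rw [h, map_zero]

end main

end Pool.Agent.LibH27.RT
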